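import Pool.Agent.Helper92.Weak.Torus7

set_option autoImplicit false

/-! Convex combinations of exponents. -/

namespace Pool.Agent.Helper92.Weak

variable {r : ℕ}

/-- Making a vector primitive. -/
lemma exists_primitive (e : ℤ) (w : Fin r → ℤ) (h : e ≠ 0 ∨ w ≠ 0) :
    ∃ (g e' : ℤ) (w' : Fin r → ℤ) (a : ℤ) (u : Fin r → ℤ), 0 < g ∧ e = g * e' ∧
      (∀ l, w l = g * w' l) ∧ a * e' + ipair w' u = 1 := by
  classical
  let G : AddSubgroup ℤ :=
    { carrier := {n | ∃ (a : ℤ) (u : Fin r → ℤ), a * e + ipair w u = n}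
      zero_mem' := ⟨0, 0, by simp [ipair]⟩
      add_mem' := by
        rintro _ _ ⟨a, u, rfl⟩ ⟨b, u', rfl⟩
        exact ⟨a + b, u + u', by rw [ipair_add]; ring⟩
      neg_mem' := by
        rintro _ ⟨a, u, rfl⟩
        refine ⟨-a, -u, ?_⟩
        have : ipair w (-u) = -ipair w u := by
          unfold ipair
          rw [← Finset.sum_neg_distrib]
          exact Finset.sum_congr rfl fun l _ => by rw [Pi.neg_apply, neg_mul]
        rw [this]; ring }
  obtain ⟨g, hg⟩ := Int.subgroup_cyclic G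
  have hG : ∀ n, n ∈ G ↔ ∃ m : ℤ, n = m * g := by
    intro n
    rw [hg, ← AddSubgroup.zmultiples_eq_closure, AddSubgroup.mem_zmultiples_iff]
    constructor
    · rintro ⟨m, hm⟩
      exact ⟨m, by rw [← hm, smul_eq_mul]⟩
    · rintro ⟨m, hm⟩
      exact ⟨m, by rw [hm, smul_eq_mul]⟩
  have heG : e ∈ G := ⟨1, 0, by simp [ipair]⟩
  have hwG : ∀ l, w l ∈ G := fun l => ⟨0, Pi.single l 1, by
    unfold ipair
    rw [Finset.sum_eq_single l]
    · simp
    · intro j _ hj
      rw [Pi.single_eq_of_ne hj]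
      simp
    · simp⟩
  have hg0 : g ≠ 0 := by
    rintro rfl
    rw [hG] at heG
    obtain ⟨m, hm⟩ := heG
    have hw : w = 0 := by
      funext l
      obtain ⟨m', hm'⟩ := (hG _).1 (hwG l)
      rw [hm', mul_zero]
      rfl
    rw [mul_zero] at hm
    rcases h with h | h
    · exact h hm
    · exact h hw
  have habs : |g| ∈ G := by
    rw [hG]
    rcases abs_choice g with h | h
    · exact ⟨1, by rw [h, one_mul]⟩
    · exact ⟨-1, by rw [h, neg_one_mul]⟩
  have hdiv : ∀ n, n ∈ G → ∃ m, n = |g| * m := by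
    intro n hn
    obtain ⟨m, hm⟩ := (hG n).1 hn
    rcases abs_choice g with h | h
    · exact ⟨m, by rw [h, hm, mul_comm]⟩
    · exact ⟨-m, by rw [h, hm]; ring⟩
  obtain ⟨e', he'⟩ := hdiv e heG
  choose w' hw' using fun l => hdiv (w l) (hwG l)
  obtain ⟨a, u, hau⟩ := habs
  refine ⟨|g|, e', w', a, u, abs_pos.2 hg0, he', hw', ?_⟩
  have hgp : (0 : ℤ) < |g| := abs_pos.2 hg0
  have h1 : |g| * (a * e' + ipair w' u) = |g| * 1 := by
    have h2 : ipair w u = |g| * ipair w' u := by
      unfold ipair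
      rw [Finset.mul_sum]
      exact Finset.sum_congr rfl fun l _ => by rw [hw' l]; ring
    rw [mul_one]
    conv_rhs => rw [← hau]
    rw [h2, he']
    ring
  exact mul_left_cancel₀ hgp.ne' h1

/-- A linear functional is given by a rational vector. -/
lemma exists_pairL (y : (Fin r → ℚ) →ₗ[ℚ] ℚ) : ∃ (n : ℕ) (z : Fin r → ℤ), 0 < n ∧
    ∀ u, (n : ℚ) * y u = pairL z u := by
  classical
  obtain ⟨n, hn, z, hz⟩ := exists_int_multiple (fun l => y (Pi.single l 1))
  refine ⟨n, z, hn, fun u => ?_⟩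
  have h1 : y u = ∑ l, u l * y (Pi.single l 1) := by
    conv_lhs => rw [pi_eq_sum_univ' u]
    rw [map_sum]
    exact Finset.sum_congr rfl fun l _ => by rw [map_smul, smul_eq_mul]
  rw [h1, Finset.mul_sum, pairL_apply]
  refine Finset.sum_congr rfl fun l _ => ?_
  have h2 : (n : ℚ) * y (Pi.single l 1) = z l := congrFun hz l
  rw [← h2]
  ring

/-- The rational vector of an integral one. -/
def toQ (b : Fin r → ℤ) : Fin r → ℚ := fun l => (b l : ℚ)

/-- The vertices of the polytope of convex combinations. -/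
def verts (S : Finset (Fin r → ℤ)) (u : Fin r → ℚ) : Set ((Fin r → ℤ) → ℚ) :=
  {t | (∀ i, 0 ≤ t i) ∧ (∀ i ∉ S, t i = 0) ∧ ∑ i ∈ S, t i = 1 ∧
      ∑ i ∈ S, t i • toQ i = u ∧
      ∀ μ : (Fin r → ℤ) → ℚ, (∀ i, t i = 0 → μ i = 0) → ∑ i ∈ S, μ i = 0 →
        ∑ i ∈ S, μ i • toQ i = 0 → μ = 0}

lemma verts_finite (S : Finset (Fin r → ℤ)) (u : Fin r → ℚ) : (verts S u).Finite :=
  finite_vertices S toQ u

/-- The exponents span the point. -/
lemma exists_conv (S : Finset (Fin r → ℤ)) (hS : S.Nonempty) (u : Fin r → ℚ)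
    (h : ∀ w : Fin r → ℤ, (∃ a, ipair w a = 1) → ∃ b ∈ S, pairL w (toQ b) ≤ pairL w u) :
    ∃ τ, τ ∈ verts S u := by
  rcases lp_dual S toQ (fun _ => 0) u 0 with ⟨τ, h1, h2, h3, h4⟩ | ⟨y, l, hl, hy⟩
  · obtain ⟨τ, g1, g2, g3, g4, g5, g6⟩ :=
      exists_indep_support S toQ (fun _ => 0) u 0 ⟨τ, h1, h2, h3, h4⟩
    exact ⟨τ, g1, g2, g3, g4, g6⟩
  · exfalso
    obtain ⟨n, z, hn, hz⟩ := exists_pairL y
    have hn' : (0 : ℚ) < n := by exact_mod_cast hn
    have hlt : ∀ b ∈ S, pairL z u < pairL z (toQ b) := by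
      intro b hb
      have h1 := hy b hb
      rw [← hz, ← hz]
      apply mul_lt_mul_of_pos_left _ hn'
      linarith
    have hz0 : z ≠ 0 := by
      rintro rfl
      obtain ⟨b, hb⟩ := hS
      have := hlt b hb
      simp at this
    obtain ⟨g, e', w', a, u', hg, he', hw', h1⟩ := exists_primitive 0 z (Or.inr hz0)
    have he'0 : e' = 0 := by
      rcases mul_eq_zero.1 he'.symm with h | h
      · exact absurd h hg.ne'
      · exact h
    rw [he'0, mul_zero, zero_add] at h1
    obtain ⟨b, hb, h2⟩ := h w' ⟨u', h1⟩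
    have h3 : ∀ x, pairL z x = g * pairL w' x := by
      intro x
      rw [pairL_apply, pairL_apply, Finset.mul_sum]
      refine Finset.sum_congr rfl fun l _ => ?_
      rw [hw' l]
      push_cast
      ring
    have h4 := hlt b hb
    rw [h3, h3] at h4
    have hg' : (0 : ℚ) < g := by exact_mod_cast hg
    have := lt_of_mul_lt_mul_left h4 hg'.le
    linarith

/-- A convex combination of bounded cost. -/
lemma exists_vert_cost (S : Finset (Fin r → ℤ)) (hS : S.Nonempty) (u : Fin r → ℚ)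
    (c : (Fin r → ℤ) → ℚ) (C : ℚ)
    (h : ∀ w : Fin r → ℤ, (∃ a, ipair w a = 1) → ∃ b ∈ S, pairL w (toQ b) ≤ pairL w u)
    (h' : ∀ (e : ℕ) (w : Fin r → ℤ), 0 < e → (∃ (n : ℤ) (a : Fin r → ℤ), n * e + ipair w a = 1) →
      ∃ b ∈ S, (e : ℚ) * c b + pairL w (toQ b) ≤ e * C + pairL w u) :
    ∃ τ ∈ verts S u, ∑ b ∈ S, τ b * c b ≤ C := by
  rcases lp_dual S toQ c u C with ⟨τ, h1, h2, h3, h4⟩ | ⟨y, l, hl, hy⟩
  · obtain ⟨τ, g1, g2, g3, g4, g5, g6⟩ := exists_indep_support S toQ c u C ⟨τ, h1, h2, h3, h4⟩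
    exact ⟨τ, ⟨g1, g2, g3, g4, g6⟩, g5⟩
  · exfalso
    obtain ⟨n, z, hn, hz⟩ := exists_pairL y
    have hn' : (0 : ℚ) < n := by exact_mod_cast hn
    -- clear the denominator of `l`
    set e : ℕ := (n * l.num.toNat) with he
    have hnum : ((l.num.toNat : ℕ) : ℚ) = l.den * l := by
      have h1 : ((l.num.toNat : ℕ) : ℤ) = l.num := Int.toNat_of_nonneg (Rat.num_nonneg.2 hl)
      have h2 : ((l.num.toNat : ℕ) : ℚ) = (((l.num.toNat : ℕ) : ℤ) : ℚ) :=
        (Int.cast_natCast _).symm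
      rw [h2, h1, mul_comm]
      exact (Rat.mul_den_eq_num l).symm
    have hden : (0 : ℚ) < l.den := by exact_mod_cast l.den_pos
    set w : Fin r → ℤ := fun j => l.den * z j with hw
    have hwx : ∀ x, pairL w x = l.den * pairL z x := by
      intro x
      rw [pairL_apply, pairL_apply, Finset.mul_sum]
      refine Finset.sum_congr rfl fun j _ => ?_
      rw [hw]
      push_cast
      ring
    have hlt : ∀ b ∈ S, (e : ℚ) * C + pairL w u < e * c b + pairL w (toQ b) := by
      intro b hb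
      have h1 := hy b hb
      have h2 : (e : ℚ) = n * (l.den * l) := by
        rw [he]; push_cast; rw [hnum]
      rw [hwx, hwx, ← hz, ← hz, h2]
      have h3 : (0 : ℚ) < n * l.den := by positivity
      have h4 := mul_lt_mul_of_pos_left h1 h3
      nlinarith
    have hew : (e : ℤ) ≠ 0 ∨ w ≠ 0 := by
      by_contra hcon
      push Not at hcon
      obtain ⟨h1, h2⟩ := hcon
      obtain ⟨b, hb⟩ := hS
      have h3 := hlt b hb
      have h4 : (e : ℚ) = 0 := by exact_mod_cast h1
      rw [h4, h2] at h3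
      simp at h3
    obtain ⟨g, e', w', a, u', hg, he', hw', h1⟩ := exists_primitive (e : ℤ) w hew
    have hg' : (0 : ℚ) < g := by exact_mod_cast hg
    have h3 : ∀ x, pairL w x = g * pairL w' x := by
      intro x
      rw [pairL_apply, pairL_apply, Finset.mul_sum]
      refine Finset.sum_congr rfl fun l _ => ?_
      rw [hw' l]
      push_cast
      ring
    have he'' : (e : ℚ) = g * e' := by exact_mod_cast he'
    have he'nn : 0 ≤ e' := by
      by_contra hneg
      push Not at hneg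
      have h5 : (e : ℤ) < 0 := by
        rw [he']
        exact mul_neg_of_pos_of_neg hg hneg
      omega
    have hlt' : ∀ b ∈ S, (e' : ℚ) * C + pairL w' u < e' * c b + pairL w' (toQ b) := by
      intro b hb
      have h4 := hlt b hb
      rw [h3, h3, he''] at h4
      have h5 : (g : ℚ) * ((e' : ℚ) * C + pairL w' u) < g * (e' * c b + pairL w' (toQ b)) := by
        linarith
      exact lt_of_mul_lt_mul_left h5 hg'.le
    rcases he'nn.eq_or_lt with h0 | h0
    · rw [← h0, mul_zero, zero_add] at h1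
      obtain ⟨b, hb, h2⟩ := h w' ⟨u', h1⟩
      have h4 := hlt' b hb
      rw [← h0] at h4
      simp only [Int.cast_zero, zero_mul, zero_add] at h4
      linarith
    · obtain ⟨m, hm⟩ := Int.eq_ofNat_of_zero_le he'nn
      rw [hm] at h1 h0 hlt'
      obtain ⟨b, hb, h2⟩ := h' m w' (by exact_mod_cast h0) ⟨a, u', h1⟩
      have h4 := hlt' b hb
      push_cast at h4
      linarith

end Pool.Agent.Helper92.Weak
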