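import Pool.Agent.Helper92.Weak.Compare
import Pool.Agent.Helper92.Weak.LP

set_option autoImplicit false

/-! Values of `ℚ`-Cartier divisors along valuations; principal divisors. -/

namespace Pool.Agent.Helper92.Weak

namespace ProjVar

variable {k L : Type*} [Field k] [Field L] [Algebra k L] (X : ProjVar k L)

lemma finite_prin (f : L) : {P : X.primeDivisors | (P.1 f : ℚ) ≠ 0}.Finite := by
  by_cases hf : f = 0
  · rw [hf]
    have : {P : X.primeDivisors | ((P.1 0 : ℤ) : ℚ) ≠ 0} = ∅ := by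
      ext P
      simp
    rw [this]
    exact Set.finite_empty
  · apply Set.Finite.of_finite_image (f := fun P : X.primeDivisors => P.1) _
      (Subtype.val_injective.injOn)
    apply (X.finite_support hf).subset
    rintro _ ⟨P, hP, rfl⟩
    refine ⟨P.2, ?_⟩
    intro h
    apply hP
    change ((P.1 f : ℤ) : ℚ) = 0
    change P.1 f = 0 at h
    rw [h, Int.cast_zero]

/-- The divisor of a rational function. -/
noncomputable def prin (f : L) : X.Div :=
  Finsupp.onFinset (X.finite_prin f).toFinset (fun P => (P.1 f : ℚ)) (by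
    intro P hP
    rw [Set.Finite.mem_toFinset]
    exact hP)

@[simp] lemma prin_apply (f : L) (P : X.primeDivisors) : X.prin f P = (P.1 f : ℚ) := rfl

lemma prin_mul {f g : L} (hf : f ≠ 0) (hg : g ≠ 0) : X.prin (f * g) = X.prin f + X.prin g := by
  ext P
  rw [Finsupp.add_apply, prin_apply, prin_apply, prin_apply, DVal.map_mul _ hf hg]
  push_cast
  rfl

lemma prin_pow (f : L) (n : ℕ) : X.prin (f ^ n) = (n : ℚ) • X.prin f := by
  ext P
  rw [Finsupp.smul_apply, prin_apply, prin_apply, DVal.map_pow, smul_eq_mul]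
  push_cast
  rfl

lemma prin_inv (f : L) : X.prin f⁻¹ = -X.prin f := by
  ext P
  rw [Finsupp.neg_apply, prin_apply, prin_apply, DVal.map_inv]
  push_cast
  rfl

variable {X} {v : DVal k L}

/-- A function with no zeros or poles through the centre has value zero. -/
lemma val_eq_zero {R : Subalgebra k L} (hR : R ∈ X.localRings) (hRv : Dominates R v.ring) {x : L}
    (h : ∀ P ∈ X.primeDivisors, R ≤ P.ring → P x = 0) : v x = 0 := by
  have h1 : x ∈ R := X.hartogs hR fun P hP hRP => by rw [DVal.mem_ring, h P hP hRP]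
  have h2 : x⁻¹ ∈ R := X.hartogs hR fun P hP hRP => by
    rw [DVal.mem_ring, DVal.map_inv, h P hP hRP, neg_zero]
  have h3 := hRv.1 h1
  have h4 := hRv.1 h2
  rw [DVal.mem_ring] at h3 h4
  rw [DVal.map_inv] at h4
  omega

/-- A function with no poles through the centre has nonnegative value. -/
lemma val_nonneg {R : Subalgebra k L} (hR : R ∈ X.localRings) (hRv : Dominates R v.ring) {x : L}
    (h : ∀ P ∈ X.primeDivisors, R ≤ P.ring → 0 ≤ P x) : 0 ≤ v x := by
  have h1 : x ∈ R := X.hartogs hR fun P hP hRP => by rw [DVal.mem_ring]; exact h P hP hRP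
  exact hRv.1 h1

lemma IsValue.unique {D : X.Div} {c c' : ℚ} (h : X.IsValue v D c) (h' : X.IsValue v D c') :
    c = c' := by
  obtain ⟨R, hR, hRv, m, f, hm, ⟨hf0, hf⟩, rfl⟩ := h
  obtain ⟨R', hR', hRv', m', f', hm', ⟨hf0', hf'⟩, rfl⟩ := h'
  have hRR : R = R' := X.separated hR hR' hRv hRv'
  subst hRR
  have h1 : v (f ^ m' * (f' ^ m)⁻¹) = 0 := by
    apply val_eq_zero hR hRv
    intro P hP hRP
    have h2 := hf ⟨P, hP⟩ hRP
    have h3 := hf' ⟨P, hP⟩ hRP
    rw [DVal.map_mul _ (pow_ne_zero _ hf0) (inv_ne_zero (pow_ne_zero _ hf0')), DVal.map_inv,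
      DVal.map_pow, DVal.map_pow]
    rw [Finsupp.smul_apply, smul_eq_mul] at h2 h3
    have h4 : ((m' * P f + -(m * P f') : ℤ) : ℚ) = 0 := by
      push_cast
      change (P f : ℚ) = _ at h2
      change (P f' : ℚ) = _ at h3
      rw [h2, h3]
      ring
    exact_mod_cast h4
  rw [DVal.map_mul _ (pow_ne_zero _ hf0) (inv_ne_zero (pow_ne_zero _ hf0')), DVal.map_inv,
    DVal.map_pow, DVal.map_pow] at h1
  have hm0 : (m : ℚ) ≠ 0 := by exact_mod_cast hm.ne'
  have hm0' : (m' : ℚ) ≠ 0 := by exact_mod_cast hm'.ne'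
  rw [div_eq_div_iff hm0 hm0']
  have h2 : ((m' * v f + -(m * v f') : ℤ) : ℚ) = 0 := by exact_mod_cast h1
  push_cast at h2
  linarith

lemma IsValue.add {D D' : X.Div} {c c' : ℚ} (h : X.IsValue v D c) (h' : X.IsValue v D' c') :
    X.IsValue v (D + D') (c + c') := by
  obtain ⟨R, hR, hRv, m, f, hm, ⟨hf0, hf⟩, rfl⟩ := h
  obtain ⟨R', hR', hRv', m', f', hm', ⟨hf0', hf'⟩, rfl⟩ := h'
  have hRR : R = R' := X.separated hR hR' hRv hRv'
  subst hRR
  have hm0 : (m : ℚ) ≠ 0 := by exact_mod_cast hm.ne'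
  have hm0' : (m' : ℚ) ≠ 0 := by exact_mod_cast hm'.ne'
  refine ⟨R, hR, hRv, m * m', f ^ m' * f' ^ m, Nat.mul_pos hm hm',
    ⟨mul_ne_zero (pow_ne_zero _ hf0) (pow_ne_zero _ hf0'), fun P hRP => ?_⟩, ?_⟩
  · have h2 := hf P hRP
    have h3 := hf' P hRP
    rw [Finsupp.smul_apply, smul_eq_mul] at h2 h3 ⊢
    rw [DVal.map_mul _ (pow_ne_zero _ hf0) (pow_ne_zero _ hf0'), DVal.map_pow, DVal.map_pow,
      Finsupp.add_apply]
    push_cast
    rw [h2, h3]
    ring
  · rw [DVal.map_mul _ (pow_ne_zero _ hf0) (pow_ne_zero _ hf0'), DVal.map_pow, DVal.map_pow]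
    push_cast
    field_simp

lemma IsValue.smul {D : X.Div} {c : ℚ} (h : X.IsValue v D c) (q : ℚ) :
    X.IsValue v (q • D) (q * c) := by
  obtain ⟨R, hR, hRv, m, f, hm, ⟨hf0, hf⟩, rfl⟩ := h
  have hm0 : (m : ℚ) ≠ 0 := by exact_mod_cast hm.ne'
  have hd0 : (q.den : ℚ) ≠ 0 := by exact_mod_cast q.den_ne_zero
  have hq : (q.num : ℚ) = q * q.den := (Rat.mul_den_eq_num q).symm
  refine ⟨R, hR, hRv, m * q.den, f ^ q.num, Nat.mul_pos hm q.den_pos,
    ⟨zpow_ne_zero _ hf0, fun P hRP => ?_⟩, ?_⟩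
  · have h2 := hf P hRP
    rw [Finsupp.smul_apply, smul_eq_mul] at h2
    rw [DVal.map_zpow, Finsupp.smul_apply, Finsupp.smul_apply, smul_eq_mul, smul_eq_mul]
    push_cast
    rw [h2, hq]
    ring
  · rw [DVal.map_zpow]
    push_cast
    rw [hq]
    field_simp

lemma IsValue.prin {f : L} (hf : f ≠ 0) : X.IsValue v (X.prin f) (v f) := by
  obtain ⟨R, hR, hRv⟩ := X.exists_center v
  refine ⟨R, hR, hRv, 1, f, one_pos, ⟨hf, fun P _ => ?_⟩, by simp⟩
  rw [Finsupp.smul_apply, prin_apply]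
  simp

lemma IsValue.zero : X.IsValue v 0 0 := by
  have h := IsValue.prin (X := X) (v := v) (one_ne_zero : (1 : L) ≠ 0)
  have h1 : X.prin (1 : L) = 0 := by
    ext P
    simp
  rw [h1, v.map_one] at h
  exact_mod_cast h

lemma IsValue.sum {ι : Type*} {s : Finset ι} {D : ι → X.Div} {c : ι → ℚ}
    (h : ∀ i ∈ s, X.IsValue v (D i) (c i)) : X.IsValue v (∑ i ∈ s, D i) (∑ i ∈ s, c i) := by
  classical
  induction s using Finset.induction_on with
  | empty => simpa using IsValue.zero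
  | insert a s ha ih =>
    rw [Finset.sum_insert ha, Finset.sum_insert ha]
    exact (h a (Finset.mem_insert_self a s)).add
      (ih fun i hi => h i (Finset.mem_insert_of_mem hi))

lemma IsQCartier.exists_value {D : X.Div} (hD : X.IsQCartier D) (v : DVal k L) :
    ∃ c, X.IsValue v D c := by
  obtain ⟨R, hR, hRv⟩ := X.exists_center v
  obtain ⟨m, hm, f, hf⟩ := hD R hR
  exact ⟨_, R, hR, hRv, m, f, hm, hf, rfl⟩

variable (X)

lemma isInt_prin (f : L) : X.IsInt (X.prin f) := fun P => ⟨P.1 f, rfl⟩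

variable {X}

/-- Linear equivalence. -/
lemma h0_add_prin (D : X.Div) {ψ : L} (hψ : ψ ≠ 0) : X.h0 (D + X.prin ψ) = X.h0 D := by
  by_cases hD : X.IsInt D
  · rw [X.h0_of_int hD, X.h0_of_int (hD.add (X.isInt_prin ψ))]
    apply le_antisymm
    · apply sdim_sec_le ψ hψ
      intro P
      rw [Finsupp.add_apply, prin_apply]
    · apply sdim_sec_le ψ⁻¹ (inv_ne_zero hψ)
      intro P
      rw [Finsupp.add_apply, prin_apply, DVal.map_inv]
      push_cast
      linarith
  · have hD' : ¬ X.IsInt (D + X.prin ψ) := by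
      intro h
      apply hD
      have := h.sub (X.isInt_prin ψ)
      rwa [add_sub_cancel_right] at this
    unfold h0
    rw [if_neg hD, if_neg hD']

lemma kod_add_prin (D : X.Div) {ψ : L} (hψ : ψ ≠ 0) : X.kod (D + X.prin ψ) = X.kod D := by
  unfold kod
  congr 1
  funext m
  rw [smul_add, ← prin_pow, h0_add_prin _ (pow_ne_zero _ hψ)]

lemma nu_add_prin (D : X.Div) {ψ : L} (hψ : ψ ≠ 0) : X.nu (D + X.prin ψ) = X.nu D := by
  unfold nu
  congr 1
  funext A
  congr 1
  funext m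
  have h : (m : ℚ) • (D + X.prin ψ) + A = ((m : ℚ) • D + A) + X.prin (ψ ^ m) := by
    rw [prin_pow, smul_add]
    abel
  rw [h, h0_add_prin _ (pow_ne_zero _ hψ)]

end ProjVar

end Pool.Agent.Helper92.Weak
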