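import Pool.Agent.Helper92.Weak.OfPrime

set_option autoImplicit false

/-! Localisations of subrings of a field; algebraic Hartogs lemma. -/

namespace Pool.Agent.Helper92.Weak

variable {k L : Type*} [Field k] [Field L] [Algebra k L]

/-- The localisation of a subring of a field at a prime ideal, inside the field. -/
def locAt (A : Subalgebra k L) (p : Ideal A) [hp : p.IsPrime] : Subalgebra k L where
  carrier := {z | ∃ a b : A, b ∉ p ∧ z * b = a}
  mul_mem' := by
    rintro z₁ z₂ ⟨a₁, b₁, hb₁, h₁⟩ ⟨a₂, b₂, hb₂, h₂⟩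
    refine ⟨a₁ * a₂, b₁ * b₂, fun h => (hp.mem_or_mem h).elim hb₁ hb₂, ?_⟩
    push_cast
    rw [← h₁, ← h₂]
    ring
  add_mem' := by
    rintro z₁ z₂ ⟨a₁, b₁, hb₁, h₁⟩ ⟨a₂, b₂, hb₂, h₂⟩
    refine ⟨a₁ * b₂ + a₂ * b₁, b₁ * b₂, fun h => (hp.mem_or_mem h).elim hb₁ hb₂, ?_⟩
    push_cast
    rw [← h₁, ← h₂]
    ring
  algebraMap_mem' c := ⟨algebraMap k A c, 1, fun h => hp.ne_top ((Ideal.eq_top_iff_one _).2 h), by
    simp⟩

variable {A : Subalgebra k L}

lemma mem_locAt {p : Ideal A} [p.IsPrime] {z : L} :
    z ∈ locAt A p ↔ ∃ a b : A, b ∉ p ∧ z * b = a := Iff.rfl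

lemma le_locAt (p : Ideal A) [hp : p.IsPrime] : A ≤ locAt A p := by
  intro z hz
  exact ⟨⟨z, hz⟩, 1, fun h => hp.ne_top ((Ideal.eq_top_iff_one _).2 h), by simp⟩

lemma coe_ne_zero_of_notMem {p : Ideal A} {b : A} (hb : b ∉ p) : (b : L) ≠ 0 := by
  intro h
  apply hb
  have : b = 0 := Subtype.ext h
  rw [this]
  exact p.zero_mem

lemma inv_mem_locAt {p : Ideal A} [p.IsPrime] {b : A} (hb : b ∉ p) : (b : L)⁻¹ ∈ locAt A p :=
  ⟨1, b, hb, by rw [inv_mul_cancel₀ (coe_ne_zero_of_notMem hb)]; simp⟩

lemma locAt_mono {p q : Ideal A} [p.IsPrime] [q.IsPrime] (h : q ≤ p) : locAt A p ≤ locAt A q := by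
  rintro z ⟨a, b, hb, hz⟩
  exact ⟨a, b, fun h' => hb (h h'), hz⟩

/-- A prime ideal is recovered from the localisation. -/
lemma mem_iff_inv_notMem {p : Ideal A} [p.IsPrime] {a : A} (ha : a ≠ 0) :
    a ∈ p ↔ (a : L)⁻¹ ∉ locAt A p := by
  have ha' : (a : L) ≠ 0 := fun h => ha (Subtype.ext h)
  constructor
  · rintro h ⟨c, b, hb, h2⟩
    apply hb
    have : b = a * c := by
      apply Subtype.ext
      push_cast
      rw [← h2, ← mul_assoc, mul_inv_cancel₀ ha', one_mul]
    rw [this]
    exact p.mul_mem_right _ h
  · intro h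
    by_contra hne
    exact h (inv_mem_locAt hne)

lemma eq_of_locAt_eq {p q : Ideal A} [p.IsPrime] [q.IsPrime] (h : locAt A p = locAt A q) :
    p = q := by
  ext a
  by_cases ha : a = 0
  · rw [ha]; simp
  · rw [mem_iff_inv_notMem ha, mem_iff_inv_notMem ha, h]

/-- The inclusion of a subring in its localisation. -/
@[reducible] def locAlg (A : Subalgebra k L) (p : Ideal A) [p.IsPrime] : Algebra A (locAt A p) :=
  (Subalgebra.inclusion (le_locAt p)).toRingHom.toAlgebra

lemma isLocalization_locAt (A : Subalgebra k L) (p : Ideal A) [hp : p.IsPrime] :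
    letI := locAlg A p
    IsLocalization.AtPrime (locAt A p) p := by
  let _ := locAlg A p
  refine ⟨?_, ?_, ?_⟩
  · rintro ⟨b, hb⟩
    have hb' : b ∉ p := hb
    refine IsUnit.of_mul_eq_one (⟨(b : L)⁻¹, inv_mem_locAt hb'⟩ : locAt A p) ?_
    apply Subtype.ext
    change (b : L) * (b : L)⁻¹ = 1
    exact mul_inv_cancel₀ (coe_ne_zero_of_notMem hb')
  · rintro ⟨z, a, b, hb, h⟩
    refine ⟨(a, ⟨b, hb⟩), ?_⟩
    apply Subtype.ext
    exact h
  · intro x y hxy
    refine ⟨1, ?_⟩
    have : (x : L) = y := congrArg (fun z : locAt A p => (z : L)) hxy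
    rw [Subtype.ext this]

lemma isNoetherianRing_locAt [IsNoetherianRing A] (p : Ideal A) [p.IsPrime] :
    IsNoetherianRing (locAt A p) := by
  let _ := locAlg A p
  have := isLocalization_locAt A p
  exact IsLocalization.isNoetherianRing p.primeCompl _ inferInstance

lemma isIntegrallyClosed_locAt [IsIntegrallyClosed A] (p : Ideal A) [p.IsPrime] :
    IsIntegrallyClosed (locAt A p) := by
  let _ := locAlg A p
  have := isLocalization_locAt A p
  exact isIntegrallyClosed_of_isLocalization _ p.primeCompl p.primeCompl_le_nonZeroDivisors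

/-- Every element of the field is a fraction. -/
def IsFrac (A : Subalgebra k L) : Prop := ∀ z : L, ∃ a ∈ A, ∃ b ∈ A, b ≠ 0 ∧ z = a / b

lemma IsFrac.isFractionRing (h : IsFrac A) : IsFractionRing A L := by
  apply IsFractionRing.of_field
  intro z
  obtain ⟨a, ha, b, hb, -, hz⟩ := h z
  exact ⟨⟨a, ha⟩, ⟨b, hb⟩, hz⟩

lemma IsFrac.mono {B : Subalgebra k L} (h : IsFrac A) (hAB : A ≤ B) : IsFrac B := by
  intro z
  obtain ⟨a, ha, b, hb, hb0, hz⟩ := h z
  exact ⟨a, hAB ha, b, hAB hb, hb0, hz⟩

lemma IsFrac.mem_of_isIntegral [IsIntegrallyClosed A] (h : IsFrac A) {z : L}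
    (hz : IsIntegral A z) : z ∈ A := by
  have := h.isFractionRing
  obtain ⟨a, ha⟩ := IsIntegrallyClosed.isIntegral_iff.1 hz
  rw [← ha]
  exact a.2

/-- Algebraic Hartogs lemma: an element which is not in the local ring at `p` of a normal
noetherian domain has a pole along a prime divisor through `p`. -/
theorem exists_dval_of_notMem [IsNoetherianRing A] [IsIntegrallyClosed A] (hA : IsFrac A)
    (p : Ideal A) [hp : p.IsPrime] {z : L} (hz : z ∉ locAt A p) :
    ∃ (P : DVal k L) (q : Ideal A) (_ : q.IsPrime), q ≤ p ∧ P.ring = locAt A q ∧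
      z ∉ P.ring := by
  classical
  set R := locAt A p with hR
  -- the ideals of denominators
  let J : A → Ideal A := fun c =>
    { carrier := {a | (a : L) * (c * z) ∈ R}
      zero_mem' := by
        change ((0 : A) : L) * (c * z) ∈ R
        simp
      add_mem' := fun {a b} ha hb => by
        change ((a + b : A) : L) * (c * z) ∈ R
        have : ((a + b : A) : L) * (c * z) = a * (c * z) + b * (c * z) := by push_cast; ring
        rw [this]
        exact R.add_mem ha hb
      smul_mem' := fun a b hb => by
        change ((a • b : A) : L) * (c * z) ∈ R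
        have : ((a • b : A) : L) * (c * z) = a * (b * (c * z)) := by
          rw [smul_eq_mul]; push_cast; ring
        rw [this]
        exact R.mul_mem (le_locAt p a.2) hb }
  have hJ : ∀ c a, a ∈ J c ↔ (a : L) * (c * z) ∈ R := fun c a => Iff.rfl
  let S : Set (Ideal A) := {I | ∃ c : A, (c : L) * z ∉ R ∧ I = J c}
  have hS : S.Nonempty := ⟨J 1, 1, by simpa using hz, rfl⟩
  obtain ⟨q, ⟨c, hc, rfl⟩, hmax⟩ := set_has_maximal_iff_noetherian.2
    (inferInstance : IsNoetherian A A) S hS
  set q := J c with hq
  set y : L := (c : L) * z with hy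
  have hqp : q ≤ p := by
    intro a ha
    by_contra hap
    rw [hJ] at ha
    have h1 := R.mul_mem (inv_mem_locAt hap) ha
    rw [← mul_assoc, inv_mul_cancel₀ (coe_ne_zero_of_notMem hap), one_mul] at h1
    exact hc h1
  have hqprime : q.IsPrime := by
    refine ⟨?_, ?_⟩
    · intro h
      have h1 : (1 : A) ∈ q := by rw [h]; trivial
      exact hp.ne_top ((Ideal.eq_top_iff_one _).2 (hqp h1))
    · intro a b hab
      by_cases ha : a ∈ q
      · exact Or.inl ha
      right
      have h1 : ((a * c : A) : L) * z ∉ R := by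
        rw [hJ] at ha
        push_cast
        rwa [mul_assoc]
      have h2 : q ≤ J (a * c) := by
        intro x hx
        rw [hJ] at hx ⊢
        have : (x : L) * (((a * c : A) : L) * z) = a * (x * (c * z)) := by push_cast; ring
        rw [this]
        exact R.mul_mem (le_locAt p a.2) hx
      have h3 := hmax (J (a * c)) ⟨a * c, h1, rfl⟩
      have h4 : J (a * c) ≤ q := by
        by_contra hne
        exact h3 (lt_of_le_not_ge h2 hne)
      apply h4
      rw [hJ]
      rw [hJ] at hab
      have : (b : L) * (((a * c : A) : L) * z) = ((a * b : A) : L) * (c * z) := by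
        push_cast; ring
      rwa [this]
  have hRq : R ≤ locAt A q := locAt_mono hqp
  set Rq := locAt A q with hRqdef
  have hFrac : IsFrac Rq := hA.mono (le_locAt q)
  have hnoeth : IsNoetherianRing Rq := isNoetherianRing_locAt q
  have hic : IsIntegrallyClosed Rq := isIntegrallyClosed_locAt q
  have hyRq : y ∉ Rq := by
    rintro ⟨a, s, hs, h⟩
    apply hs
    rw [hJ, ← hy, mul_comm, h]
    exact le_locAt p a.2
  have hqy : ∀ a ∈ q, (a : L) * y ∈ Rq := fun a ha => hRq ha
  by_cases hcase : ∃ a ∈ q, ((a : L) * y)⁻¹ ∈ Rq ∧ (a : L) * y ≠ 0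
  · -- the maximal ideal is generated by `a`
    obtain ⟨a, haq, hinv, hne⟩ := hcase
    have ha0 : (a : L) ≠ 0 := left_ne_zero_of_mul hne
    let a' : Rq := ⟨a, le_locAt q a.2⟩
    have ha'0 : a' ≠ 0 := fun h => ha0 (congrArg Subtype.val h)
    -- divisibility by `a`
    have hdvd : ∀ x : Rq, ¬ (x : L)⁻¹ ∈ Rq → a' ∣ x := by
      rintro ⟨x, b, s, hs, hxs⟩ hx
      have hbq : b ∈ q := by
        by_contra hb
        apply hx
        refine ⟨s, b, hb, ?_⟩
        have hb0 := coe_ne_zero_of_notMem hb
        have hs0 := coe_ne_zero_of_notMem hs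
        have hx0 : x ≠ 0 := by
          rintro rfl
          rw [zero_mul] at hxs
          exact hb0 hxs.symm
        change x⁻¹ * (b : L) = s
        rw [← hxs]
        field_simp
      -- `x / a = x y / (a y)`
      have h1 : x * y ∈ Rq := by
        have h2 : x * y = (s : L)⁻¹ * ((b : L) * y) := by
          have hs0 := coe_ne_zero_of_notMem hs
          rw [← hxs]
          field_simp
        rw [h2]
        exact Rq.mul_mem (inv_mem_locAt hs) (hqy b hbq)
      refine ⟨⟨x * y * ((a : L) * y)⁻¹, Rq.mul_mem h1 hinv⟩, ?_⟩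
      apply Subtype.ext
      change x = (a : L) * (x * y * ((a : L) * y)⁻¹)
      have hy0 : y ≠ 0 := right_ne_zero_of_mul hne
      field_simp
    have haprime : Prime a' := by
      refine ⟨ha'0, ?_, ?_⟩
      · intro hu
        obtain ⟨b, hb⟩ := isUnit_iff_exists_inv.1 hu
        have h1 : (a : L) * b = 1 := congrArg Subtype.val hb
        have h2 : (b : L) = (a : L)⁻¹ := eq_inv_of_mul_eq_one_right h1
        have h3 : (a : L)⁻¹ ∈ Rq := h2 ▸ b.2
        have h4 : a ≠ 0 := fun h => ha0 (by rw [h]; rfl)
        exact (mem_iff_inv_notMem h4).1 haq h3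
      · intro x w hxw
        by_contra hcon
        push Not at hcon
        have h1 : (x : L)⁻¹ ∈ Rq := by
          by_contra h
          exact hcon.1 (hdvd x h)
        have h2 : (w : L)⁻¹ ∈ Rq := by
          by_contra h
          exact hcon.2 (hdvd w h)
        obtain ⟨b, hb⟩ := hxw
        have hx0 : (x : L) ≠ 0 := by
          intro h
          apply hcon.1
          have : x = 0 := Subtype.ext h
          rw [this]; exact dvd_zero _
        have hw0 : (w : L) ≠ 0 := by
          intro h
          apply hcon.2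
          have : w = 0 := Subtype.ext h
          rw [this]; exact dvd_zero _
        have hb' : (x : L) * w = a * b := congrArg Subtype.val hb
        have h3 : (a : L)⁻¹ ∈ Rq := by
          have h4 : (a : L)⁻¹ = b * ((x : L)⁻¹ * (w : L)⁻¹) := by
            have hb0 : (b : L) ≠ 0 := by
              intro h
              rw [h, mul_zero] at hb'
              exact mul_ne_zero hx0 hw0 hb'
            rw [← mul_inv, hb', mul_inv, mul_comm (a : L)⁻¹, ← mul_assoc, mul_inv_cancel₀ hb0,
              one_mul]
          rw [h4]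
          exact Rq.mul_mem b.2 (Rq.mul_mem h1 h2)
        have h4 : a ≠ 0 := fun h => ha0 (by rw [h]; rfl)
        exact (mem_iff_inv_notMem h4).1 haq h3
    have hfr : IsFractionRing Rq L := hFrac.isFractionRing
    have hring : (DVal.ofPrime k L a' haprime).ring = Rq := by
      ext x
      rw [DVal.mem_ofPrime_ring]
      constructor
      · rintro ⟨b, s, hs, rfl⟩
        have h1 : (s : L)⁻¹ ∈ Rq := by
          by_contra h
          exact hs (hdvd s h)
        have : algebraMap Rq L b / algebraMap Rq L s = (b : L) * (s : L)⁻¹ := by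
          rw [div_eq_mul_inv]; rfl
        rw [this]
        exact Rq.mul_mem b.2 h1
      · intro hx
        refine ⟨⟨x, hx⟩, 1, haprime.not_dvd_one, ?_⟩
        rw [map_one, div_one]
        rfl
    refine ⟨DVal.ofPrime k L a' haprime, q, hqprime, hqp, hring, ?_⟩
    rw [hring]
    intro hzq
    exact hyRq (Rq.mul_mem (le_locAt q c.2) hzq)
  · -- `y` is integral
    exfalso
    push Not at hcase
    apply hyRq
    -- the maximal ideal as a submodule of the field
    obtain ⟨T, hT⟩ := (IsNoetherian.noetherian q : q.FG)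
    let N : Submodule Rq L := Submodule.span Rq ((fun a : A => (a : L)) '' (T : Set A))
    have hqN : ∀ a ∈ q, (a : L) ∈ N := by
      intro a ha
      rw [← hT] at ha
      induction ha using Submodule.span_induction with
      | mem x hx => exact Submodule.subset_span ⟨x, hx, rfl⟩
      | zero => simp
      | add x w _ _ hx hw =>
        have : ((x + w : A) : L) = x + w := by push_cast; rfl
        rw [this]
        exact N.add_mem hx hw
      | smul b x _ hx =>
        have : ((b • x : A) : L) = (⟨b, le_locAt q b.2⟩ : Rq) • (x : L) := by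
          rw [smul_eq_mul]; push_cast; rfl
        rw [this]
        exact N.smul_mem _ hx
    have hN0 : N ≠ ⊥ := by
      intro h
      -- otherwise `q = 0`
      have h1 : ∀ a ∈ q, (a : L) = 0 := by
        intro a ha
        have := hqN a ha
        rwa [h, Submodule.mem_bot] at this
      -- then everything is in `Rq`
      obtain ⟨b, hb, s, hs, hs0, h2⟩ := hA y
      apply hyRq
      refine ⟨⟨b, hb⟩, ⟨s, hs⟩, fun hmem => hs0 (h1 _ hmem), ?_⟩
      change y * s = b
      rw [h2]
      field_simp
    have hNy : ∀ n ∈ N, y • n ∈ N := by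
      intro n hn
      induction hn using Submodule.span_induction with
      | mem x hx =>
        obtain ⟨a, ha, rfl⟩ := hx
        have haq : a ∈ q := by
          rw [← hT]
          exact Submodule.subset_span ha
        rw [smul_eq_mul, mul_comm]
        -- `a y` is in the maximal ideal
        by_cases h0 : (a : L) * y = 0
        · rw [h0]; exact N.zero_mem
        obtain ⟨b, s, hs, h1⟩ := hqy a haq
        have hbq : b ∈ q := by
          by_contra hb
          apply h0
          apply hcase a haq
          refine ⟨s, b, hb, ?_⟩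
          have hb0 := coe_ne_zero_of_notMem hb
          have hs0 := coe_ne_zero_of_notMem hs
          rw [← h1]
          field_simp
          exact div_self h0
        have h2 : (a : L) * y = (⟨(s : L)⁻¹, inv_mem_locAt hs⟩ : Rq) • (b : L) := by
          have hs0 := coe_ne_zero_of_notMem hs
          change (a : L) * y = (s : L)⁻¹ * b
          rw [← h1]
          field_simp
        rw [h2]
        exact N.smul_mem _ (hqN b hbq)
      | zero => simp
      | add x w _ _ hx hw => rw [smul_add]; exact N.add_mem hx hw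
      | smul b x _ hx =>
        rw [smul_comm]
        exact N.smul_mem _ hx
    have hint : IsIntegral Rq y := isIntegral_of_smul_mem_submodule N hN0
      (Submodule.fg_span (T.finite_toSet.image _)) y hNy
    exact hFrac.mem_of_isIntegral hint

/-- Finiteness of the support of a principal divisor. -/
theorem finite_support [IsNoetherianRing A] (hA : IsFrac A) {f : L} (hf : f ≠ 0) :
    {P : DVal k L | (∃ (q : Ideal A) (_ : q.IsPrime), P.ring = locAt A q) ∧ P f ≠ 0}.Finite := by
  classical
  obtain ⟨a, ha, b, hb, hb0, rfl⟩ := hA f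
  have ha0 : a ≠ 0 := by rintro rfl; simp at hf
  -- for one element
  have key : ∀ c : A, (c : L) ≠ 0 →
      {P : DVal k L | (∃ (q : Ideal A) (_ : q.IsPrime), P.ring = locAt A q) ∧
        P (c : L) ≠ 0}.Finite := by
    intro c hc
    have hfin := Ideal.finite_minimalPrimes_of_isNoetherianRing A (Ideal.span {c})
    -- the prime ideal of `P`
    let φ : DVal k L → Set A := fun P => {x : A | x = 0 ∨ 0 < P (x : L)}
    apply Set.Finite.of_finite_image (f := φ)
    · apply (hfin.image (fun q : Ideal A => (q : Set A))).subset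
      rintro _ ⟨P, ⟨⟨q, hq, hPq⟩, hPc⟩, rfl⟩
      have hAP : ∀ x : A, 0 ≤ P (x : L) := fun x => by
        have : (x : L) ∈ P.ring := by rw [hPq]; exact le_locAt q x.2
        exact this
      have hφ : ∀ x : A, x ∈ q ↔ (x = 0 ∨ 0 < P (x : L)) := by
        intro x
        by_cases hx : x = 0
        · rw [hx]; simp
        have h1 := mem_iff_inv_notMem (p := q) hx
        rw [h1, ← hPq, DVal.mem_ring, DVal.map_inv]
        have h2 := hAP x
        simp only [hx, false_or]
        omega
      refine ⟨q, ?_, ?_⟩
      · -- minimality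
        refine ⟨⟨hq, ?_⟩, ?_⟩
        · rw [Ideal.span_le]
          intro x hx
          rw [Set.mem_singleton_iff] at hx
          rw [hx]
          change c ∈ q
          rw [hφ]
          right
          have := hAP c
          omega
        · rintro q' ⟨hq', hcq'⟩ hle x hx
          have hcq : c ∈ q' := hcq' (Ideal.mem_span_singleton_self c)
          by_cases hx0 : x = 0
          · rw [hx0]; exact q'.zero_mem
          have hPx : 0 < P (x : L) := ((hφ x).1 hx).resolve_left hx0
          have hx0' : (x : L) ≠ 0 := fun h => hx0 (Subtype.ext h)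
          -- `x ^ n / c` is in the ring of `P`
          obtain ⟨n, hn⟩ : ∃ n : ℕ, P (c : L) ≤ n * P (x : L) := by
            refine ⟨(P (c : L)).toNat, ?_⟩
            have h1 : P (c : L) ≤ ((P (c : L)).toNat : ℤ) := Int.self_le_toNat _
            nlinarith [Int.natCast_nonneg (P (c : L)).toNat]
          have h2 : (x : L) ^ n / c ∈ P.ring := by
            rw [DVal.mem_ring, DVal.map_div _ (pow_ne_zero _ hx0') hc, DVal.map_pow]
            linarith
          rw [hPq] at h2
          obtain ⟨u, s, hs, h3⟩ := h2
          have h4 : x ^ n * s = c * u := by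
            apply Subtype.ext
            push_cast
            rw [← h3]
            field_simp
          have h5 : x ^ n * s ∈ q' := by
            rw [h4]
            exact q'.mul_mem_right _ hcq
          rcases hq'.mem_or_mem h5 with h6 | h6
          · exact hq'.mem_of_pow_mem n h6
          · exact absurd (hle h6) hs
      · ext x
        exact hφ x
    · rintro P ⟨⟨q, hq, hPq⟩, -⟩ P' ⟨⟨q', hq', hPq'⟩, -⟩ h
      have hφ : ∀ (P : DVal k L) (q : Ideal A) [q.IsPrime], P.ring = locAt A q →
          ∀ x : A, x ∈ q ↔ x ∈ φ P := by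
        intro P q _ hPq x
        have hAP : 0 ≤ P (x : L) := by
          have : (x : L) ∈ P.ring := by rw [hPq]; exact le_locAt q x.2
          exact this
        by_cases hx : x = 0
        · rw [hx]; simp [φ]
        have h1 := mem_iff_inv_notMem (p := q) hx
        rw [h1, ← hPq, DVal.mem_ring, DVal.map_inv]
        simp only [φ, Set.mem_ofPred_eq, hx, false_or]
        omega
      have hqq : q = q' := by
        ext x
        rw [hφ P q hPq, hφ P' q' hPq']
        have h' : φ P = φ P' := h
        rw [h']
      subst hqq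
      exact DVal.eq_of_ring_eq (hPq.trans hPq'.symm)
  refine ((key ⟨a, ha⟩ ha0).union (key ⟨b, hb⟩ hb0)).subset ?_
  rintro P ⟨hP, hPf⟩
  by_contra hcon
  simp only [Set.mem_union, Set.mem_ofPred_eq, not_or, not_and, not_not] at hcon
  rw [DVal.map_div _ ha0 hb0, hcon.1 hP, hcon.2 hP] at hPf
  exact hPf (sub_self _)

end Pool.Agent.Helper92.Weak
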