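import Pool.Agent.Helper92.Weak.Var
import Pool.Agent.Helper92.Weak.Loc

set_option autoImplicit false

/-! Basic properties of normal projective varieties. -/

namespace Pool.Agent.Helper92.Weak

variable {k L : Type*} [Field k] [Field L] [Algebra k L]

lemma chart_fg {n : ℕ} (x : Fin (n + 1) → L) (i : Fin (n + 1)) : (chart k x i).FG :=
  Subalgebra.fg_def.2 ⟨_, Set.finite_range _, rfl⟩

namespace ProjVar

variable (X : ProjVar k L)

instance (i : Fin (X.n + 1)) : IsNoetherianRing (chart k X.x i) :=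
  isNoetherianRing_of_fg (chart_fg X.x i)

instance (i : Fin (X.n + 1)) : IsIntegrallyClosed (chart k X.x i) := X.normal i

lemma chart_isFrac (i : Fin (X.n + 1)) : IsFrac (chart k X.x i) := by
  intro z
  have hz : z ∈ IntermediateField.adjoin k (Set.range fun j => X.x j / X.x i) := by
    rw [X.gen i]; trivial
  rw [IntermediateField.mem_adjoin_iff_div] at hz
  obtain ⟨a, ha, b, hb, h⟩ := hz
  by_cases hb0 : b = 0
  · refine ⟨0, Subalgebra.zero_mem _, 1, Subalgebra.one_mem _, one_ne_zero, ?_⟩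
    rw [h, hb0]; simp
  · exact ⟨a, ha, b, hb, hb0, h⟩

lemma mem_localRings {R : Subalgebra k L} : R ∈ X.localRings ↔
    ∃ (i : Fin (X.n + 1)) (p : Ideal (chart k X.x i)) (_ : p.IsPrime), R = locAt _ p := by
  constructor
  · rintro ⟨i, p, hp, h⟩
    refine ⟨i, p, hp, ?_⟩
    ext z
    rw [h, mem_locAt]
  · rintro ⟨i, p, hp, rfl⟩
    exact ⟨i, p, hp, fun z => mem_locAt⟩

lemma locAt_mem (i : Fin (X.n + 1)) (p : Ideal (chart k X.x i)) [hp : p.IsPrime] :
    locAt _ p ∈ X.localRings := (X.mem_localRings).2 ⟨i, p, hp, rfl⟩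

/-- Algebraic Hartogs lemma. -/
lemma hartogs {R : Subalgebra k L} (hR : R ∈ X.localRings) {z : L}
    (h : ∀ P ∈ X.primeDivisors, R ≤ P.ring → z ∈ P.ring) : z ∈ R := by
  obtain ⟨i, p, hp, rfl⟩ := X.mem_localRings.1 hR
  by_contra hz
  obtain ⟨P, q, hq, hqp, hPq, hzP⟩ := exists_dval_of_notMem (X.chart_isFrac i) p hz
  apply hzP
  apply h P
  · change P.ring ∈ X.localRings
    rw [hPq]
    exact X.locAt_mem i q
  · rw [hPq]
    exact locAt_mono hqp

/-- Finiteness of the support of a principal divisor. -/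
lemma finite_support {f : L} (hf : f ≠ 0) : {P | P ∈ X.primeDivisors ∧ P f ≠ 0}.Finite := by
  classical
  have h : {P | P ∈ X.primeDivisors ∧ P f ≠ 0} ⊆ ⋃ i : Fin (X.n + 1),
      {P : DVal k L | (∃ (q : Ideal (chart k X.x i)) (_ : q.IsPrime), P.ring = locAt _ q) ∧
        P f ≠ 0} := by
    rintro P ⟨hP, hPf⟩
    obtain ⟨i, p, hp, h⟩ := X.mem_localRings.1 hP
    rw [Set.mem_iUnion]
    exact ⟨i, ⟨p, hp, h⟩, hPf⟩
  exact (Set.finite_iUnion fun i => Weak.finite_support (X.chart_isFrac i) hf).subset h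

lemma chart_le_iff {n : ℕ} {x : Fin (n + 1) → L} {i : Fin (n + 1)} {R : Subalgebra k L} :
    chart k x i ≤ R ↔ ∀ j, x j / x i ∈ R := by
  unfold chart
  rw [Algebra.adjoin_le_iff]
  constructor
  · intro h j
    exact h ⟨j, rfl⟩
  · rintro h _ ⟨j, rfl⟩
    exact h j

/-- Every discrete valuation has a centre. -/
lemma exists_center (v : DVal k L) : ∃ R ∈ X.localRings, Dominates R v.ring := by
  classical
  obtain ⟨i, -, hi⟩ := Finset.exists_min_image (Finset.univ : Finset (Fin (X.n + 1)))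
    (fun i => v (X.x i)) Finset.univ_nonempty
  have hle : chart k X.x i ≤ v.ring := by
    rw [chart_le_iff]
    intro j
    rw [DVal.mem_ring, DVal.map_div _ (X.x_ne j) (X.x_ne i)]
    have := hi j (Finset.mem_univ j)
    linarith
  let p : Ideal (chart k X.x i) :=
    { carrier := {a | v.Ge 1 (a : L)}
      zero_mem' := by
        change v.Ge 1 ((0 : chart k X.x i) : L)
        exact Or.inl rfl
      add_mem' := fun {a b} ha hb => by
        change v.Ge 1 ((a + b : chart k X.x i) : L)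
        push_cast
        exact DVal.Ge.add ha hb
      smul_mem' := fun a b hb => by
        change v.Ge 1 ((a • b : chart k X.x i) : L)
        rw [smul_eq_mul]
        push_cast
        have h1 : v.Ge 0 (a : L) := (v.mem_ring_iff_ge).1 (hle a.2)
        simpa using h1.mul hb }
  have hp : ∀ a : chart k X.x i, a ∈ p ↔ v.Ge 1 (a : L) := fun a => Iff.rfl
  have hp' : ∀ a : chart k X.x i, a ∉ p ↔ ((a : L) ≠ 0 ∧ v (a : L) = 0) := by
    intro a
    rw [hp]
    unfold DVal.Ge
    push Not
    constructor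
    · rintro ⟨h1, h2⟩
      have h3 : 0 ≤ v (a : L) := hle a.2
      refine ⟨h1, ?_⟩
      have h4 : v (a : L) < 1 := by exact_mod_cast h2
      omega
    · rintro ⟨h1, h2⟩
      exact ⟨h1, by rw [h2]; simp⟩
  have hprime : p.IsPrime := by
    refine ⟨?_, ?_⟩
    · intro h
      have h1 : (1 : chart k X.x i) ∈ p := by rw [h]; trivial
      rw [hp] at h1
      rcases h1 with h1 | h1
      · exact one_ne_zero h1
      · have : v ((1 : chart k X.x i) : L) = 0 := v.map_one
        rw [this] at h1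
        norm_num at h1
    · intro a b hab
      by_contra hcon
      push Not at hcon
      rw [hp', hp'] at hcon
      obtain ⟨⟨ha0, ha⟩, hb0, hb⟩ := hcon
      have hab' : a * b ∉ p := by
        rw [hp']
        push_cast
        exact ⟨mul_ne_zero ha0 hb0, by rw [v.map_mul ha0 hb0, ha, hb, add_zero]⟩
      exact hab' hab
  refine ⟨locAt _ p, X.locAt_mem i p, ?_, ?_⟩
  · rintro z ⟨a, b, hb, h⟩
    rw [hp'] at hb
    by_cases hz : z = 0
    · rw [hz]; exact Subalgebra.zero_mem _
    have h1 : 0 ≤ v (a : L) := hle a.2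
    rw [← h, v.map_mul hz hb.1, hb.2, add_zero] at h1
    exact h1
  · rintro z ⟨a, b, hb, h⟩ hz
    by_cases hz0 : z = 0
    · rw [hz0, inv_zero]; exact Subalgebra.zero_mem _
    have hb' := hb
    rw [hp'] at hb
    have h1 : 0 ≤ v z⁻¹ := hz
    rw [v.map_inv] at h1
    have h2 : v (a : L) = v z := by rw [← h, v.map_mul hz0 hb.1, hb.2, add_zero]
    have h3 : 0 ≤ v (a : L) := hle a.2
    have ha : a ∉ p := by
      rw [hp']
      refine ⟨?_, by omega⟩
      rw [← h]
      exact mul_ne_zero hz0 hb.1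
    refine ⟨b, a, ha, ?_⟩
    rw [← h]
    field_simp

/-- Separatedness. -/
lemma separated {R R' V : Subalgebra k L} (hR : R ∈ X.localRings) (hR' : R' ∈ X.localRings)
    (h : Dominates R V) (h' : Dominates R' V) : R = R' := by
  have key : ∀ {R R' : Subalgebra k L}, R ∈ X.localRings → R' ∈ X.localRings → Dominates R V →
      Dominates R' V → R' ≤ R := by
    intro R R' hR hR' h h'
    obtain ⟨i, p, hp, rfl⟩ := X.mem_localRings.1 hR
    obtain ⟨j, q, hq, rfl⟩ := X.mem_localRings.1 hR'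
    -- `x j / x i` is a unit in `R`
    have h1 : X.x j / X.x i ∈ locAt (chart k X.x i) p :=
      le_locAt p (Algebra.subset_adjoin ⟨j, rfl⟩)
    have h2 : (X.x j / X.x i)⁻¹ ∈ V := by
      rw [inv_div]
      exact h'.1 (le_locAt q (Algebra.subset_adjoin ⟨i, rfl⟩))
    have h3 : (X.x j / X.x i)⁻¹ ∈ locAt (chart k X.x i) p := h.2 _ h1 h2
    have h4 : chart k X.x j ≤ locAt (chart k X.x i) p := by
      rw [chart_le_iff]
      intro l
      have h5 : X.x l / X.x j = X.x l / X.x i * (X.x j / X.x i)⁻¹ := by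
        have := X.x_ne i
        have := X.x_ne j
        field_simp
      rw [h5]
      exact Subalgebra.mul_mem _ (le_locAt p (Algebra.subset_adjoin ⟨l, rfl⟩)) h3
    rintro z ⟨a, b, hb, hz⟩
    have hb0 := coe_ne_zero_of_notMem hb
    have h5 : z = a * (b : L)⁻¹ := by rw [← hz]; field_simp
    rw [h5]
    exact Subalgebra.mul_mem _ (h4 a.2) (h.2 _ (h4 b.2) (h'.1 (inv_mem_locAt hb)))
  exact le_antisymm (key hR' hR h' h) (key hR hR' h h')

/-- The local rings are local. -/
lemma isUnit_of_sum {R : Subalgebra k L} (hR : R ∈ X.localRings) {ι : Type*} (s : Finset ι)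
    (f : ι → L) (hf : ∀ i ∈ s, f i ∈ R) (hsum : ∑ i ∈ s, f i = 1) :
    ∃ i ∈ s, (f i)⁻¹ ∈ R ∧ f i ≠ 0 := by
  classical
  obtain ⟨i, p, hp, rfl⟩ := X.mem_localRings.1 hR
  by_contra hcon
  push Not at hcon
  -- all `f i` lie in the maximal ideal
  have hnu : ∀ z ∈ locAt (chart k X.x i) p, (z⁻¹ ∈ locAt (chart k X.x i) p → z = 0) →
      ∃ (a b : chart k X.x i), b ∉ p ∧ a ∈ p ∧ z * b = a := by
    rintro z ⟨a, b, hb, hz⟩ h
    refine ⟨a, b, hb, ?_, hz⟩
    by_contra ha
    have ha0 := coe_ne_zero_of_notMem ha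
    have h1 : z = 0 := by
      apply h
      refine ⟨b, a, ha, ?_⟩
      have hb0 := coe_ne_zero_of_notMem hb
      have hz0 : z ≠ 0 := by
        rintro rfl
        rw [zero_mul] at hz
        exact ha0 hz.symm
      rw [← hz]
      field_simp
    rw [h1, zero_mul] at hz
    exact ha0 hz.symm
  have hs : ∃ (a b : chart k X.x i), b ∉ p ∧ a ∈ p ∧ (∑ i ∈ s, f i) * b = a := by
    clear hsum
    induction s using Finset.induction_on with
    | empty => exact ⟨0, 1, fun h => hp.ne_top ((Ideal.eq_top_iff_one _).2 h), p.zero_mem, by simp⟩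
    | insert j s hj ih =>
      obtain ⟨a, b, hb, ha, h1⟩ := ih (fun i hi => hf i (Finset.mem_insert_of_mem hi))
        (fun i hi => hcon i (Finset.mem_insert_of_mem hi))
      obtain ⟨a', b', hb', ha', h2⟩ := hnu (f j) (hf j (Finset.mem_insert_self j s))
        (hcon j (Finset.mem_insert_self j s))
      refine ⟨a' * b + a * b', b * b', fun h => (hp.mem_or_mem h).elim hb hb',
        p.add_mem (p.mul_mem_right _ ha') (p.mul_mem_right _ ha), ?_⟩
      rw [Finset.sum_insert hj]
      push_cast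
      rw [← h1, ← h2]
      ring
  obtain ⟨a, b, hb, ha, h1⟩ := hs
  rw [hsum, one_mul] at h1
  have : b = a := Subtype.ext h1
  exact hb (this ▸ ha)

end ProjVar

end Pool.Agent.Helper92.Weak
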