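import Pool.Agent.Helper92.Weak.Farkas

set_option autoImplicit false

/-! Geometry of rational polytopes given by inequalities. -/

namespace Pool.Agent.Helper92.Weak

open Finset Module

/-- Clearing denominators of a vector. -/
lemma exists_int_multiple {κ : Type*} [Fintype κ] (x : κ → ℚ) :
    ∃ n : ℕ, 0 < n ∧ ∃ z : κ → ℤ, (n : ℚ) • x = fun l => (z l : ℚ) := by
  classical
  refine ⟨∏ l, (x l).den, Finset.prod_pos fun l _ => (x l).den_pos, ?_⟩
  have h : ∀ l, ∃ z : ℤ, ((∏ l, (x l).den : ℕ) : ℚ) * x l = z := by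
    intro l
    obtain ⟨k, hk⟩ := Finset.dvd_prod_of_mem (fun l => (x l).den) (Finset.mem_univ l)
    refine ⟨k * (x l).num, ?_⟩
    rw [hk]
    push_cast
    have h1 : ((x l).den : ℚ) * x l = (x l).num := by
      rw [mul_comm]; exact Rat.mul_den_eq_num (x l)
    calc ((x l).den : ℚ) * k * x l = k * (((x l).den : ℚ) * x l) := by ring
      _ = k * (x l).num := by rw [h1]
  choose z hz using h
  exact ⟨z, funext fun l => by simp only [Pi.smul_apply, smul_eq_mul]; exact hz l⟩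

/-- A family of vectors has a common denominator. -/
lemma exists_int_multiple_family {κ : Type*} [Fintype κ] {ι : Type*} [Fintype ι]
    (x : ι → κ → ℚ) :
    ∃ n : ℕ, 0 < n ∧ ∀ i, ∃ z : κ → ℤ, (n : ℚ) • x i = fun l => (z l : ℚ) := by
  classical
  choose n hn z hz using fun i => exists_int_multiple (x i)
  refine ⟨∏ i, n i, Finset.prod_pos fun i _ => hn i, fun i => ?_⟩
  obtain ⟨k, hk⟩ := Finset.dvd_prod_of_mem n (Finset.mem_univ i)
  refine ⟨fun l => k * z i l, ?_⟩
  rw [hk]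
  funext l
  have := congrFun (hz i) l
  simp only [Pi.smul_apply, smul_eq_mul] at this ⊢
  push_cast
  rw [← this]
  ring

/-- A basis has integral coordinates up to a common denominator. -/
lemma exists_coord_den {r : ℕ} {κ : Type*} [Fintype κ] (b : Basis κ ℚ (Fin r → ℚ))
    (u₀ : Fin r → ℚ) : ∃ q : ℕ, 0 < q ∧ ∀ (u : Fin r → ℤ) (m : ℤ) (j : κ),
      ∃ z : ℤ, (q : ℚ) * b.repr ((fun l => (u l : ℚ)) - (m : ℚ) • u₀) j = z := by
  classical
  obtain ⟨q, hq, h⟩ := exists_int_multiple_family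
    (fun o : Option (Fin r) => fun j : κ => o.elim (b.repr u₀ j)
      (fun l => b.repr (Pi.single l 1) j))
  choose z hz using h
  refine ⟨q, hq, fun u m j => ⟨∑ l, u l * z (some l) j - m * z none j, ?_⟩⟩
  have h1 : ∀ l, (q : ℚ) * b.repr (Pi.single l 1) j = z (some l) j := fun l => by
    have := congrFun (hz (some l)) j
    simpa using this
  have h2 : (q : ℚ) * b.repr u₀ j = z none j := by
    have := congrFun (hz none) j
    simpa using this
  have h3 : (fun l => (u l : ℚ)) = ∑ l, (u l : ℚ) • (Pi.single l 1 : Fin r → ℚ) := by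
    funext k
    rw [Finset.sum_apply]
    simp [Pi.single_apply]
  rw [map_sub, map_smul, h3, map_sum, Finsupp.sub_apply, Finsupp.smul_apply,
    Finsupp.finsetSum_apply, mul_sub, Finset.mul_sum]
  push_cast
  congr 1
  · refine Finset.sum_congr rfl fun l _ => ?_
    rw [map_smul, Finsupp.smul_apply, smul_eq_mul, ← h1]
    ring
  · rw [smul_eq_mul, ← h2]
    ring

/-- Counting lattice points near a multiple of a polytope of dimension `s`. -/
theorem count_lattice {r s t : ℕ} (b : Basis (Fin s ⊕ Fin t) ℚ (Fin r → ℚ)) (u₀ : Fin r → ℚ)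
    (C : ℚ) : ∃ C' : ℕ, ∀ m : ℕ, 1 ≤ m → ∀ U : Finset (Fin r → ℤ),
      (∀ u ∈ U, (∀ j, |b.repr ((fun l => (u l : ℚ)) - (m : ℚ) • u₀) (Sum.inl j)| ≤ C * m) ∧
        (∀ j, |b.repr ((fun l => (u l : ℚ)) - (m : ℚ) • u₀) (Sum.inr j)| ≤ C)) →
      U.card ≤ C' * m ^ s := by
  classical
  obtain ⟨q, hq, hz⟩ := exists_coord_den b u₀
  set M : ℕ := ⌈(q : ℚ) * C⌉₊ + 1 with hM
  have hMC : (q : ℚ) * C ≤ M := by
    rw [hM]
    push_cast
    have := Nat.le_ceil ((q : ℚ) * C)
    linarith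
  refine ⟨(3 * M) ^ s * (2 * M + 1) ^ t, fun m hm U hU => ?_⟩
  choose z hz using fun u : Fin r → ℤ => hz u (m : ℤ)
  have hq0 : (0 : ℚ) < q := by exact_mod_cast hq
  have hinj : Function.Injective z := by
    intro u u' h
    have h1 : b.repr ((fun l => (u l : ℚ)) - ((m : ℤ) : ℚ) • u₀) =
        b.repr ((fun l => (u' l : ℚ)) - ((m : ℤ) : ℚ) • u₀) := by
      ext j
      have h2 := hz u j
      have h3 := hz u' j
      rw [h] at h2
      exact mul_left_cancel₀ hq0.ne' (h2.trans h3.symm)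
    have h2 := b.repr.injective h1
    funext l
    have h3 := congrFun h2 l
    simp only [Pi.sub_apply, sub_left_inj] at h3
    exact_mod_cast h3
  let B : Fin s ⊕ Fin t → Finset ℤ := fun j =>
    Sum.elim (fun _ => Finset.Icc (-((M * m : ℕ) : ℤ)) (M * m : ℕ)) (fun _ => Finset.Icc (-(M : ℤ)) M) j
  have himg : U.image z ⊆ Fintype.piFinset B := by
    intro y hy
    obtain ⟨u, hu, rfl⟩ := Finset.mem_image.1 hy
    rw [Fintype.mem_piFinset]
    intro j
    have h1 := hz u j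
    have h2 := hU u hu
    cases j with
    | inl j =>
      simp only [B, Sum.elim_inl, Finset.mem_Icc]
      have h3 := h2.1 j
      have h4 : |(z u (Sum.inl j) : ℚ)| ≤ ((M * m : ℕ) : ℚ) := by
        rw [← h1, abs_mul, abs_of_pos hq0]
        push_cast
        calc (q : ℚ) * |b.repr ((fun l => (u l : ℚ)) - (m : ℚ) • u₀) (Sum.inl j)|
            ≤ q * (C * m) := mul_le_mul_of_nonneg_left h3 hq0.le
          _ = (q * C) * m := by ring
          _ ≤ M * m := mul_le_mul_of_nonneg_right hMC (by positivity)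
      rw [abs_le] at h4
      exact ⟨by exact_mod_cast h4.1, by exact_mod_cast h4.2⟩
    | inr j =>
      simp only [B, Sum.elim_inr, Finset.mem_Icc]
      have h3 := h2.2 j
      have h4 : |(z u (Sum.inr j) : ℚ)| ≤ (M : ℚ) := by
        rw [← h1, abs_mul, abs_of_pos hq0]
        push_cast
        calc (q : ℚ) * |b.repr ((fun l => (u l : ℚ)) - (m : ℚ) • u₀) (Sum.inr j)|
            ≤ q * C := mul_le_mul_of_nonneg_left h3 hq0.le
          _ ≤ M := hMC
      rw [abs_le] at h4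
      exact ⟨by exact_mod_cast h4.1, by exact_mod_cast h4.2⟩
  have hcard : (Fintype.piFinset B).card = (2 * (M * m) + 1) ^ s * (2 * M + 1) ^ t := by
    rw [Fintype.card_piFinset, Fintype.prod_sum_type]
    simp only [B, Sum.elim_inl, Sum.elim_inr, Int.card_Icc, Finset.prod_const,
      Finset.card_univ, Fintype.card_fin]
    congr 2
    · omega
    · omega
  calc U.card = (U.image z).card := (Finset.card_image_of_injective _ hinj).symm
    _ ≤ (Fintype.piFinset B).card := Finset.card_le_card himg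
    _ = (2 * (M * m) + 1) ^ s * (2 * M + 1) ^ t := hcard
    _ ≤ (3 * M * m) ^ s * (2 * M + 1) ^ t := by
        apply Nat.mul_le_mul_right
        apply Nat.pow_le_pow_left
        have : 1 ≤ M * m := Nat.one_le_iff_ne_zero.2 (Nat.mul_ne_zero (by omega) (by omega))
        nlinarith
    _ = (3 * M) ^ s * (2 * M + 1) ^ t * m ^ s := by rw [mul_pow]; ring

variable {r : ℕ} {H : Type*} [Fintype H]

/-- Geometry of the polytope `{u | 0 ≤ φ i u + d i}`. -/
theorem poly_geometry (φ : H → (Fin r → ℚ) →ₗ[ℚ] ℚ) (d : H → ℚ)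
    (hneg : ∀ i, ∃ c : H → ℚ, (∀ j, 0 ≤ c j) ∧ -φ i = ∑ j, c j • φ j)
    (hsep : ∀ z, (∀ i, φ i z = 0) → z = 0)
    (hP : ∃ u, ∀ i, 0 ≤ φ i u + d i) :
    ∃ (u₀ : Fin r → ℚ) (s t : ℕ) (b : Basis (Fin s ⊕ Fin t) ℚ (Fin r → ℚ)),
      (∀ i, 0 ≤ φ i u₀ + d i) ∧
      (∀ j, ∃ z : Fin r → ℤ, b j = fun l => (z l : ℚ)) ∧
      (∀ u, (∀ i, 0 ≤ φ i u + d i) → ∀ j, b.repr (u - u₀) (Sum.inr j) = 0) ∧
      (∃ ε : ℚ, 0 < ε ∧ ∀ j, (∀ i, 0 ≤ φ i (u₀ + ε • b (Sum.inl j)) + d i) ∧
        (∀ i, 0 ≤ φ i (u₀ - ε • b (Sum.inl j)) + d i)) ∧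
      (∀ α : H → ℚ, ∃ C : ℚ, 0 ≤ C ∧ ∀ m : ℕ, 1 ≤ m → ∀ u,
        (∀ i, 0 ≤ φ i u + m * d i + α i) →
        (∀ j, |b.repr (u - (m : ℚ) • u₀) (Sum.inl j)| ≤ C * m) ∧
        (∀ j, |b.repr (u - (m : ℚ) • u₀) (Sum.inr j)| ≤ C)) := by
  classical
  -- relative interior point
  have hrel : ∃ u₀, (∀ i, 0 ≤ φ i u₀ + d i) ∧
      ∀ i, (∃ u, (∀ j, 0 ≤ φ j u + d j) ∧ 0 < φ i u + d i) → 0 < φ i u₀ + d i := by
    obtain ⟨u₁, hu₁⟩ := hP
    have h1 : ∀ i, ∃ u, (∀ j, 0 ≤ φ j u + d j) ∧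
        ((∃ u, (∀ j, 0 ≤ φ j u + d j) ∧ 0 < φ i u + d i) → 0 < φ i u + d i) := by
      intro i
      by_cases h : ∃ u, (∀ j, 0 ≤ φ j u + d j) ∧ 0 < φ i u + d i
      · obtain ⟨u, hu, hu'⟩ := h
        exact ⟨u, hu, fun _ => hu'⟩
      · exact ⟨u₁, hu₁, fun h' => absurd h' h⟩
    choose w hw hw' using h1
    -- average of the w i and u₁
    set n : ℚ := (Fintype.card H : ℚ) + 1 with hn
    have hn0 : 0 < n := by positivity
    refine ⟨n⁻¹ • (u₁ + ∑ i, w i), ?_, ?_⟩
    · intro j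
      have e : φ j (n⁻¹ • (u₁ + ∑ i, w i)) + d j =
          n⁻¹ * ((φ j u₁ + d j) + ∑ i, (φ j (w i) + d j)) := by
        rw [map_smul, map_add, map_sum, Finset.sum_add_distrib, Finset.sum_const,
          Finset.card_univ, nsmul_eq_mul, smul_eq_mul]
        have : n⁻¹ * n = 1 := inv_mul_cancel₀ hn0.ne'
        calc n⁻¹ * (φ j u₁ + ∑ i, φ j (w i)) + d j
            = n⁻¹ * (φ j u₁ + ∑ i, φ j (w i)) + (n⁻¹ * n) * d j := by rw [this, one_mul]
          _ = _ := by rw [hn]; ring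
      rw [e]
      apply mul_nonneg (by positivity)
      exact add_nonneg (hu₁ j) (Finset.sum_nonneg fun i _ => hw i j)
    · intro j hj
      have e : φ j (n⁻¹ • (u₁ + ∑ i, w i)) + d j =
          n⁻¹ * ((φ j u₁ + d j) + ∑ i, (φ j (w i) + d j)) := by
        rw [map_smul, map_add, map_sum, Finset.sum_add_distrib, Finset.sum_const,
          Finset.card_univ, nsmul_eq_mul, smul_eq_mul]
        have : n⁻¹ * n = 1 := inv_mul_cancel₀ hn0.ne'
        calc n⁻¹ * (φ j u₁ + ∑ i, φ j (w i)) + d j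
            = n⁻¹ * (φ j u₁ + ∑ i, φ j (w i)) + (n⁻¹ * n) * d j := by rw [this, one_mul]
          _ = _ := by rw [hn]; ring
      rw [e]
      apply mul_pos (by positivity)
      have h2 : 0 < ∑ i, (φ j (w i) + d j) :=
        Finset.sum_pos' (fun i _ => hw i j) ⟨j, Finset.mem_univ j, hw' j hj⟩
      have h3 := hu₁ j
      linarith
  obtain ⟨u₀, hu₀, hu₀'⟩ := hrel
  -- the set `I₀` of tight inequalities
  set I₀ : Finset H := Finset.univ.filter (fun i => φ i u₀ + d i = 0) with hI₀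
  have hI₀mem : ∀ i, i ∈ I₀ ↔ φ i u₀ + d i = 0 := by simp [hI₀]
  have htight : ∀ i ∈ I₀, ∀ u, (∀ j, 0 ≤ φ j u + d j) → φ i u + d i = 0 := by
    intro i hi u hu
    by_contra hne
    have h1 : 0 < φ i u + d i := lt_of_le_of_ne (hu i) (Ne.symm hne)
    have h2 := hu₀' i ⟨u, hu, h1⟩
    rw [(hI₀mem i).1 hi] at h2
    exact lt_irrefl _ h2
  set W : Submodule ℚ (Fin r → ℚ) := ⨅ i : I₀, LinearMap.ker (φ i) with hW
  have hWmem : ∀ z, z ∈ W ↔ ∀ i ∈ I₀, φ i z = 0 := by
    intro z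
    simp [hW, Submodule.mem_iInf]
  -- small steps in the direction of a vector satisfying the tight inequalities
  have hstep : ∀ z, (∀ i ∈ I₀, 0 ≤ φ i z) → ∃ ε : ℚ, 0 < ε ∧ ∀ ε' : ℚ, 0 < ε' → ε' ≤ ε →
      ∀ i, 0 ≤ φ i (u₀ + ε' • z) + d i := by
    intro z hz
    -- choose ε less than all (φ i u₀ + d i)/(1+|φ i z|)
    have h1 : ∀ i, ∃ ε : ℚ, 0 < ε ∧ ∀ ε' : ℚ, 0 < ε' → ε' ≤ ε →
        0 ≤ φ i (u₀ + ε' • z) + d i := by
      intro i
      by_cases hi : i ∈ I₀
      · refine ⟨1, one_pos, fun ε' h0 _ => ?_⟩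
        rw [map_add, map_smul, smul_eq_mul]
        have h2 := (hI₀mem i).1 hi
        have h3 := mul_nonneg h0.le (hz i hi)
        linarith
      · have h2 : 0 < φ i u₀ + d i :=
          lt_of_le_of_ne (hu₀ i) (fun h => hi ((hI₀mem i).2 h.symm))
        refine ⟨(φ i u₀ + d i) / (1 + |φ i z|), by positivity, fun ε' h0 hle => ?_⟩
        rw [map_add, map_smul, smul_eq_mul]
        have h3 : 0 < 1 + |φ i z| := by positivity
        rw [le_div_iff₀ h3] at hle
        have h4 : -(|φ i z|) ≤ φ i z := neg_abs_le _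
        nlinarith [abs_nonneg (φ i z)]
    choose e he he' using h1
    by_cases hH : Nonempty H
    · obtain ⟨i₁, -, hmin⟩ := Finset.exists_min_image Finset.univ e
        ⟨hH.some, Finset.mem_univ _⟩
      exact ⟨e i₁, he i₁, fun ε' h0 hle i =>
        he' i ε' h0 (hle.trans (hmin i (Finset.mem_univ i)))⟩
    · exact ⟨1, one_pos, fun _ _ _ i => absurd ⟨i⟩ hH⟩
  -- Farkas
  have hfark : ∀ i ∈ I₀, ∃ c : H → ℚ, (∀ j ∈ I₀, 0 ≤ c j) ∧ -φ i = ∑ j ∈ I₀, c j • φ j := by
    intro i hi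
    rcases farkas (E := Dual ℚ (Fin r → ℚ)) I₀ φ (-φ i) with h | ⟨y, hy, hyb⟩
    · exact h
    · exfalso
      set z := (evalEquiv ℚ (Fin r → ℚ)).symm y with hz
      have hyz : ∀ f : Dual ℚ (Fin r → ℚ), y f = f z := fun f => by
        rw [hz, apply_evalEquiv_symm_apply]
      obtain ⟨ε, hε, hε'⟩ := hstep z (fun j hj => by rw [← hyz]; exact hy j hj)
      have h1 := htight i hi _ (hε' ε hε le_rfl)
      rw [hyz] at hyb
      simp only [LinearMap.neg_apply] at hyb
      rw [map_add, map_smul, smul_eq_mul] at h1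
      have h2 := (hI₀mem i).1 hi
      nlinarith
  -- bases
  obtain ⟨W', hWW'⟩ := Submodule.exists_isCompl W
  set s := finrank ℚ W with hs
  set t := finrank ℚ W' with ht
  let bW : Basis (Fin s) ℚ W := finBasis ℚ W
  let bW' : Basis (Fin t) ℚ W' := finBasis ℚ W'
  let b₀ : Basis (Fin s ⊕ Fin t) ℚ (Fin r → ℚ) :=
    (bW.prod bW').map (Submodule.prodEquivOfIsCompl W W' hWW')
  -- integral multiples
  choose n hn z hz using fun j => exists_int_multiple (b₀ j)
  let b : Basis (Fin s ⊕ Fin t) ℚ (Fin r → ℚ) :=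
    b₀.isUnitSMul (w := fun j => (n j : ℚ)) fun j =>
      isUnit_iff_ne_zero.2 (by have := hn j; positivity)
  have hb : ∀ j, b j = (n j : ℚ) • b₀ j := fun j => Basis.isUnitSMul_apply _ j
  have hbinl : ∀ j, b (Sum.inl j) ∈ W := by
    intro j
    rw [hb]
    apply W.smul_mem
    have : b₀ (Sum.inl j) = (bW j : Fin r → ℚ) := by
      simp [b₀]
    rw [this]
    exact (bW j).2
  have hWspan : ∀ z ∈ W, ∀ j, b.repr z (Sum.inr j) = 0 := by
    intro z hz j
    have h1 : (⟨z, hz⟩ : W) = ∑ j, bW.repr ⟨z, hz⟩ j • bW j := (bW.sum_repr _).symm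
    have h2 : z = ∑ j, (bW.repr ⟨z, hz⟩ j * (n (Sum.inl j) : ℚ)⁻¹) • b (Sum.inl j) := by
      have h3 : z = ((⟨z, hz⟩ : W) : Fin r → ℚ) := rfl
      conv_lhs => rw [h3, h1]
      rw [Submodule.coe_sum]
      refine Finset.sum_congr rfl fun j _ => ?_
      rw [hb, smul_smul, mul_assoc, inv_mul_cancel₀ (by have := hn (Sum.inl j); positivity),
        mul_one]
      simp [b₀]
    rw [h2, map_sum, Finsupp.finsetSum_apply]
    apply Finset.sum_eq_zero
    intro k _
    rw [map_smul, Basis.repr_self]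
    simp
  refine ⟨u₀, s, t, b, hu₀, ?_, ?_, ?_, ?_⟩
  · intro j
    exact ⟨z j, by rw [hb]; exact hz j⟩
  · intro u hu j
    apply hWspan
    rw [hWmem]
    intro i hi
    rw [map_sub]
    have h1 := htight i hi u hu
    have h2 := (hI₀mem i).1 hi
    linarith
  · -- ε
    have h1 : ∀ j, ∃ ε : ℚ, 0 < ε ∧ ∀ ε' : ℚ, 0 < ε' → ε' ≤ ε →
        (∀ i, 0 ≤ φ i (u₀ + ε' • b (Sum.inl j)) + d i) ∧
        (∀ i, 0 ≤ φ i (u₀ - ε' • b (Sum.inl j)) + d i) := by
      intro j
      have h2 := (hWmem _).1 (hbinl j)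
      obtain ⟨ε₁, h3, h4⟩ := hstep (b (Sum.inl j)) (fun i hi => (h2 i hi).ge)
      obtain ⟨ε₂, h5, h6⟩ := hstep (-b (Sum.inl j)) (fun i hi => by
        rw [map_neg, h2 i hi, neg_zero])
      refine ⟨min ε₁ ε₂, lt_min h3 h5, fun ε' h0 hle => ⟨h4 ε' h0 (hle.trans (min_le_left _ _)),
        fun i => ?_⟩⟩
      have := h6 ε' h0 (hle.trans (min_le_right _ _)) i
      rwa [smul_neg, ← sub_eq_add_neg] at this
    choose e he he' using h1
    by_cases hs0 : Nonempty (Fin s)
    · obtain ⟨i₁, -, hmin⟩ := Finset.exists_min_image Finset.univ e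
        ⟨hs0.some, Finset.mem_univ _⟩
      exact ⟨e i₁, he i₁, fun j => he' j _ (he i₁) (hmin j (Finset.mem_univ j))⟩
    · exact ⟨1, one_pos, fun j => absurd ⟨j⟩ hs0⟩
  · intro α
    -- bounds on φ i (u - m u₀)
    have hA : ∃ A : ℚ, 0 ≤ A ∧ ∀ m : ℕ, 1 ≤ m → ∀ u, (∀ i, 0 ≤ φ i u + m * d i + α i) →
        ∀ i, -(A * m) ≤ φ i (u - (m : ℚ) • u₀) := by
      refine ⟨∑ i, (|φ i u₀ + d i| + |α i|), by positivity, ?_⟩
      intro m hm u hu i
      have h1 := hu i
      rw [map_sub, map_smul, smul_eq_mul]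
      have h2 : |φ i u₀ + d i| + |α i| ≤ ∑ i, (|φ i u₀ + d i| + |α i|) :=
        Finset.single_le_sum (f := fun i => |φ i u₀ + d i| + |α i|)
          (fun i _ => by positivity) (Finset.mem_univ i)
      have h3 : (1 : ℚ) ≤ m := by exact_mod_cast hm
      have h4 := le_abs_self (φ i u₀ + d i)
      have h5 := le_abs_self (α i)
      have h6 : |α i| ≤ |α i| * m := le_mul_of_one_le_right (abs_nonneg _) h3
      nlinarith [abs_nonneg (α i), abs_nonneg (φ i u₀ + d i)]
    obtain ⟨A, hA0, hA⟩ := hA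
    have hB : ∃ B : ℚ, 0 ≤ B ∧ ∀ m : ℕ, 1 ≤ m → ∀ u, (∀ i, 0 ≤ φ i u + m * d i + α i) →
        ∀ i, |φ i (u - (m : ℚ) • u₀)| ≤ B * m := by
      choose c hc hc' using hneg
      refine ⟨A + ∑ i, ∑ j, c i j * A, ?_, ?_⟩
      · have : 0 ≤ ∑ i, ∑ j, c i j * A :=
          Finset.sum_nonneg fun i _ => Finset.sum_nonneg fun j _ => mul_nonneg (hc i j) hA0
        linarith
      · intro m hm u hu i
        have h1 := hA m hm u hu
        have hm0 : (0 : ℚ) ≤ m := by positivity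
        have h2 : ∑ j, c i j * A ≤ ∑ i, ∑ j, c i j * A :=
          Finset.single_le_sum (f := fun i => ∑ j, c i j * A)
            (fun i _ => Finset.sum_nonneg fun j _ => mul_nonneg (hc i j) hA0) (Finset.mem_univ i)
        have h3 : 0 ≤ ∑ j, c i j * A :=
          Finset.sum_nonneg fun j _ => mul_nonneg (hc i j) hA0
        rw [abs_le]
        constructor
        · have := h1 i
          nlinarith
        · have h4 : -(φ i (u - (m : ℚ) • u₀)) = ∑ j, c i j * φ j (u - (m : ℚ) • u₀) := by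
            have := congrArg (fun f => f (u - (m : ℚ) • u₀)) (hc' i)
            simpa using this
          have h5 : -(∑ j, c i j * A * m) ≤ ∑ j, c i j * φ j (u - (m : ℚ) • u₀) := by
            rw [← Finset.sum_neg_distrib]
            apply Finset.sum_le_sum
            intro j _
            have := mul_le_mul_of_nonneg_left (h1 j) (hc i j)
            linarith
          rw [← Finset.sum_mul] at h5
          nlinarith
    obtain ⟨B, hB0, hB⟩ := hB
    have hB' : ∃ B' : ℚ, 0 ≤ B' ∧ ∀ m : ℕ, 1 ≤ m → ∀ u, (∀ i, 0 ≤ φ i u + m * d i + α i) →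
        ∀ i ∈ I₀, |φ i (u - (m : ℚ) • u₀)| ≤ B' := by
      have hlow : ∀ m : ℕ, ∀ u, (∀ i, 0 ≤ φ i u + m * d i + α i) →
          ∀ i ∈ I₀, -(∑ i, |α i|) ≤ φ i (u - (m : ℚ) • u₀) := by
        intro m u hu i hi
        have h1 := hu i
        have h2 := (hI₀mem i).1 hi
        have h3 : |α i| ≤ ∑ i, |α i| :=
          Finset.single_le_sum (f := fun i => |α i|) (fun i _ => abs_nonneg _) (Finset.mem_univ i)
        have h4 := le_abs_self (α i)
        rw [map_sub, map_smul, smul_eq_mul]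
        have h5 : (m : ℚ) * (φ i u₀ + d i) = 0 := by rw [h2, mul_zero]
        linarith
      set A' := ∑ i, |α i| with hA'
      have hA'0 : 0 ≤ A' := Finset.sum_nonneg fun i _ => abs_nonneg _
      have hf : ∀ i, ∃ c : H → ℚ, i ∈ I₀ → (∀ j ∈ I₀, 0 ≤ c j) ∧ -φ i = ∑ j ∈ I₀, c j • φ j := by
        intro i
        by_cases hi : i ∈ I₀
        · obtain ⟨c, hc⟩ := hfark i hi
          exact ⟨c, fun _ => hc⟩
        · exact ⟨0, fun h => absurd h hi⟩
      choose c hc using hf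
      refine ⟨A' + ∑ i ∈ I₀, ∑ j ∈ I₀, c i j * A', ?_, ?_⟩
      · have : 0 ≤ ∑ i ∈ I₀, ∑ j ∈ I₀, c i j * A' :=
          Finset.sum_nonneg fun i hi => Finset.sum_nonneg fun j hj =>
            mul_nonneg ((hc i hi).1 j hj) hA'0
        linarith
      · intro m hm u hu i hi
        have h1 := hlow m u hu
        have h2 : ∑ j ∈ I₀, c i j * A' ≤ ∑ i ∈ I₀, ∑ j ∈ I₀, c i j * A' :=
          Finset.single_le_sum (f := fun i => ∑ j ∈ I₀, c i j * A')
            (fun i hi => Finset.sum_nonneg fun j hj => mul_nonneg ((hc i hi).1 j hj) hA'0) hi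
        have h3 : 0 ≤ ∑ j ∈ I₀, c i j * A' :=
          Finset.sum_nonneg fun j hj => mul_nonneg ((hc i hi).1 j hj) hA'0
        rw [abs_le]
        constructor
        · have := h1 i hi
          linarith
        · have h4 : -(φ i (u - (m : ℚ) • u₀)) = ∑ j ∈ I₀, c i j * φ j (u - (m : ℚ) • u₀) := by
            have := congrArg (fun f => f (u - (m : ℚ) • u₀)) (hc i hi).2
            simpa using this
          have h5 : -(∑ j ∈ I₀, c i j * A') ≤ ∑ j ∈ I₀, c i j * φ j (u - (m : ℚ) • u₀) := by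
            rw [← Finset.sum_neg_distrib]
            apply Finset.sum_le_sum
            intro j hj
            have := mul_le_mul_of_nonneg_left (h1 j hj) ((hc i hi).1 j hj)
            linarith
          linarith
    obtain ⟨B', hB'0, hB'⟩ := hB'
    -- coordinates in terms of the functionals
    have hco : ∀ j : Fin s ⊕ Fin t, ∃ a : H → ℚ, ∀ z, b.repr z j = ∑ i, a i * φ i z := by
      intro j
      have h1 : b.coord j ∈ Submodule.span ℚ (Set.range φ) := by
        apply mem_span_of_iInf_ker_le_ker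
        intro z hz
        have : z = 0 := hsep z fun i => by
          have := (Submodule.mem_iInf _).1 hz i
          exact this
        rw [this]
        simp
      rw [Submodule.mem_span_range_iff_exists_fun] at h1
      obtain ⟨a, ha⟩ := h1
      refine ⟨a, fun z => ?_⟩
      have := congrArg (fun f => f z) ha
      simp only [LinearMap.sum_apply, LinearMap.smul_apply, smul_eq_mul, Basis.coord_apply] at this
      exact this.symm
    have hco' : ∀ j : Fin t, ∃ a : I₀ → ℚ, ∀ z, b.repr z (Sum.inr j) = ∑ i, a i * φ i z := by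
      intro j
      have h1 : b.coord (Sum.inr j) ∈ Submodule.span ℚ (Set.range fun i : I₀ => φ i) := by
        apply mem_span_of_iInf_ker_le_ker
        intro z hz
        rw [LinearMap.mem_ker, Basis.coord_apply]
        exact hWspan z hz j
      rw [Submodule.mem_span_range_iff_exists_fun] at h1
      obtain ⟨a, ha⟩ := h1
      refine ⟨a, fun z => ?_⟩
      have := congrArg (fun f => f z) ha
      simp only [LinearMap.sum_apply, LinearMap.smul_apply, smul_eq_mul, Basis.coord_apply] at this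
      exact this.symm
    choose a ha using hco
    choose a' ha' using hco'
    refine ⟨(∑ j, ∑ i, |a j i|) * B + (∑ j, ∑ i, |a' j i|) * B', by positivity, ?_⟩
    intro m hm u hu
    have hm1 : (1 : ℚ) ≤ m := by exact_mod_cast hm
    constructor
    · intro j
      rw [ha]
      have h1 : |∑ i, a (Sum.inl j) i * φ i (u - (m : ℚ) • u₀)| ≤
          ∑ i, |a (Sum.inl j) i| * (B * m) := by
        refine (Finset.abs_sum_le_sum_abs _ _).trans (Finset.sum_le_sum fun i _ => ?_)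
        rw [abs_mul]
        exact mul_le_mul_of_nonneg_left (hB m hm u hu i) (abs_nonneg _)
      rw [← Finset.sum_mul] at h1
      have h2 : ∑ i, |a (Sum.inl j) i| ≤ ∑ j, ∑ i, |a j i| :=
        Finset.single_le_sum (f := fun j => ∑ i, |a j i|)
          (fun j _ => Finset.sum_nonneg fun i _ => abs_nonneg _) (Finset.mem_univ _)
      have h3 : (0 : ℚ) ≤ B * m := by positivity
      have h4 : (∑ i, |a (Sum.inl j) i|) * (B * m) ≤ (∑ j, ∑ i, |a j i|) * (B * m) :=
        mul_le_mul_of_nonneg_right h2 h3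
      have h5 : (0 : ℚ) ≤ (∑ j, ∑ i, |a' j i|) * B' * m := by positivity
      calc _ ≤ _ := h1
        _ ≤ _ := h4
        _ ≤ _ := by ring_nf at h5 ⊢; linarith
    · intro j
      rw [ha']
      have h1 : |∑ i, a' j i * φ i (u - (m : ℚ) • u₀)| ≤ ∑ i, |a' j i| * B' := by
        refine (Finset.abs_sum_le_sum_abs _ _).trans (Finset.sum_le_sum fun i _ => ?_)
        rw [abs_mul]
        exact mul_le_mul_of_nonneg_left (hB' m hm u hu i i.2) (abs_nonneg _)
      rw [← Finset.sum_mul] at h1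
      have h2 : ∑ i, |a' j i| ≤ ∑ j, ∑ i, |a' j i| :=
        Finset.single_le_sum (f := fun j => ∑ i, |a' j i|)
          (fun j _ => Finset.sum_nonneg fun i _ => abs_nonneg _) (Finset.mem_univ _)
      have h4 : (∑ i, |a' j i|) * B' ≤ (∑ j, ∑ i, |a' j i|) * B' :=
        mul_le_mul_of_nonneg_right h2 hB'0
      have h5 : (0 : ℚ) ≤ (∑ j, ∑ i, |a j i|) * B := by positivity
      linarith

/-- If the polytope is empty then so are the polytopes of large multiples. -/
theorem poly_empty (φ : H → (Fin r → ℚ) →ₗ[ℚ] ℚ) (d : H → ℚ)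
    (h : ¬ ∃ u, ∀ i, 0 ≤ φ i u + d i) (α : H → ℚ) :
    ∃ m₀ : ℕ, ∀ m : ℕ, m₀ ≤ m → ¬ ∃ u, ∀ i, 0 ≤ φ i u + m * d i + α i := by
  classical
  let a : Option H → Dual ℚ (Fin r → ℚ) × ℚ := fun o => o.elim (0, 1) fun i => (φ i, d i)
  rcases farkas (Finset.insertNone Finset.univ) a (0, -1) with ⟨c, hc, hb⟩ | ⟨y, hy, hyb⟩
  · have hc0 : 0 ≤ c none := hc none (by simp)
    have hci : ∀ i, 0 ≤ c (some i) := fun i => hc (some i) (by simp)
    rw [Finset.sum_insertNone] at hb
    simp only [a, Option.elim_none, Option.elim_some, Prod.ext_iff, Prod.smul_mk, Prod.fst_add,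
      Prod.snd_add, Prod.fst_sum, Prod.snd_sum, smul_zero, smul_eq_mul, mul_one, zero_add] at hb
    obtain ⟨h1, h2⟩ := hb
    refine ⟨⌈∑ i, c (some i) * α i⌉₊ + 1, fun m hm ⟨u, hu⟩ => ?_⟩
    have h3 : 0 ≤ ∑ i, c (some i) * (φ i u + m * d i + α i) :=
      Finset.sum_nonneg fun i _ => mul_nonneg (hci i) (hu i)
    have h4 : ∑ i, c (some i) * (φ i u + m * d i + α i) =
        (∑ i, c (some i) • φ i) u + m * ∑ i, c (some i) * d i + ∑ i, c (some i) * α i := by
      rw [LinearMap.sum_apply, Finset.mul_sum, ← Finset.sum_add_distrib,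
        ← Finset.sum_add_distrib]
      refine Finset.sum_congr rfl fun i _ => ?_
      simp only [LinearMap.smul_apply, smul_eq_mul]
      ring
    rw [h4, ← h1, LinearMap.zero_apply] at h3
    have h5 : ∑ i, c (some i) * α i < m := by
      have h6 := Nat.le_ceil (∑ i, c (some i) * α i)
      have h7 : ((⌈∑ i, c (some i) * α i⌉₊ : ℕ) : ℚ) + 1 ≤ m := by exact_mod_cast hm
      linarith
    have h8 : (0 : ℚ) ≤ m := by positivity
    nlinarith
  · exfalso
    apply h
    have h0 : 0 ≤ y (0, 1) := hy none (by simp)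
    have hl : 0 < y (0, 1) := by
      have : y (0, -1) = -y (0, 1) := by
        rw [← map_neg]; simp
      linarith
    set z := (evalEquiv ℚ (Fin r → ℚ)).symm (y.comp (LinearMap.inl ℚ _ ℚ)) with hz
    have hyz : ∀ f : Dual ℚ (Fin r → ℚ), y (f, 0) = f z := fun f => by
      rw [hz, apply_evalEquiv_symm_apply]
      rfl
    refine ⟨(y (0, 1))⁻¹ • z, fun i => ?_⟩
    have h1 : 0 ≤ y (φ i, d i) := hy (some i) (by simp)
    have h2 : y (φ i, d i) = φ i z + d i * y (0, 1) := by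
      rw [← hyz]
      have : ((φ i, d i) : Dual ℚ (Fin r → ℚ) × ℚ) = (φ i, 0) + d i • (0, 1) := by simp
      rw [this, map_add, map_smul, smul_eq_mul]
    rw [map_smul, smul_eq_mul]
    have h3 : (y (0, 1))⁻¹ * φ i z + d i = (y (0, 1))⁻¹ * (φ i z + d i * y (0, 1)) := by
      field_simp
    rw [h3, ← h2]
    positivity

omit [Fintype H] in
/-- The dimension of the polytope is the number `s` of `poly_geometry`. -/
theorem finrank_vectorSpan (φ : H → (Fin r → ℚ) →ₗ[ℚ] ℚ) (d : H → ℚ) (u₀ : Fin r → ℚ) (s t : ℕ)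
    (b : Basis (Fin s ⊕ Fin t) ℚ (Fin r → ℚ)) (h0 : ∀ i, 0 ≤ φ i u₀ + d i)
    (h1 : ∀ u, (∀ i, 0 ≤ φ i u + d i) → ∀ j, b.repr (u - u₀) (Sum.inr j) = 0)
    (h2 : ∃ ε : ℚ, 0 < ε ∧ ∀ j, (∀ i, 0 ≤ φ i (u₀ + ε • b (Sum.inl j)) + d i) ∧
        (∀ i, 0 ≤ φ i (u₀ - ε • b (Sum.inl j)) + d i)) :
    finrank ℚ (vectorSpan ℚ {u : Fin r → ℚ | ∀ i, 0 ≤ φ i u + d i}) = s := by
  classical
  have hspan : vectorSpan ℚ {u : Fin r → ℚ | ∀ i, 0 ≤ φ i u + d i} =
      Submodule.span ℚ (Set.range fun j : Fin s => b (Sum.inl j)) := by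
    apply le_antisymm
    · rw [vectorSpan_eq_span_vsub_set_right ℚ (p := u₀) (by exact h0), Submodule.span_le]
      rintro _ ⟨u, hu, rfl⟩
      simp only [vsub_eq_sub, SetLike.mem_coe]
      rw [← b.sum_repr (u - u₀), Fintype.sum_sum_type]
      apply Submodule.add_mem
      · exact Submodule.sum_mem _ fun j _ =>
          Submodule.smul_mem _ _ (Submodule.subset_span ⟨j, rfl⟩)
      · apply Submodule.sum_mem
        intro j _
        rw [h1 u hu j, zero_smul]
        exact Submodule.zero_mem _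
    · rw [Submodule.span_le]
      rintro _ ⟨j, rfl⟩
      obtain ⟨ε, hε, h3⟩ := h2
      have h4 : (u₀ + ε • b (Sum.inl j)) -ᵥ u₀ ∈
          vectorSpan ℚ {u : Fin r → ℚ | ∀ i, 0 ≤ φ i u + d i} :=
        vsub_mem_vectorSpan ℚ (h3 j).1 h0
      simp only [vsub_eq_sub, add_sub_cancel_left] at h4
      have h5 := Submodule.smul_mem _ ε⁻¹ h4
      rw [smul_smul, inv_mul_cancel₀ hε.ne', one_smul] at h5
      exact h5
  rw [hspan, finrank_span_eq_card]
  · simp
  · exact b.linearIndependent.comp _ Sum.inl_injective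

end Pool.Agent.Helper92.Weak
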