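import Pool.Agent.Helper92.Weak.Defs

set_option autoImplicit false

/-! Growth invariants of sequences of dimensions. -/

namespace Pool.Agent.Helper92.Weak

open Filter

lemma log_nat {m : ℕ} (hm : 2 ≤ m) : ENNReal.log (m : ENNReal) = ((Real.log m : ℝ) : EReal) := by
  have h1 : (0 : ℝ) < m := by
    have : 0 < m := by omega
    exact_mod_cast this
  have h2 : (m : ENNReal) = ENNReal.ofReal (m : ℝ) := by simp
  rw [h2, ENNReal.log_ofReal_of_pos h1]

lemma log_nat_pos {m : ℕ} (hm : 2 ≤ m) : 0 < ENNReal.log (m : ENNReal) := by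
  rw [ENNReal.zero_lt_log_iff]
  have : 1 < m := by omega
  exact_mod_cast this

lemma log_nat_ne_top {m : ℕ} (hm : 2 ≤ m) : ENNReal.log (m : ENNReal) ≠ ⊤ := by
  rw [log_nat hm]
  exact EReal.coe_ne_top _

lemma quot_le_iff {n : ENNReal} {m : ℕ} (hm : 2 ≤ m) (x : ℝ) :
    ENNReal.log n / ENNReal.log (m : ENNReal) ≤ (x : EReal) ↔ n ≤ (m : ENNReal) ^ x := by
  rw [EReal.div_le_iff_le_mul (log_nat_pos hm) (log_nat_ne_top hm), mul_comm, ← ENNReal.log_rpow,
    ENNReal.log_le_log_iff]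

lemma quot_neg {n : ℕ∞} {m : ℕ} (hm : 2 ≤ m)
    (h : ENNReal.log (n : ENNReal) / ENNReal.log (m : ENNReal) < 0) : n = 0 := by
  by_contra hn
  have h1 : (1 : ℕ∞) ≤ n := Order.one_le_iff_ne_zero.2 hn
  have h2 : (1 : ENNReal) ≤ (n : ENNReal) := by exact_mod_cast h1
  have h3 : 0 ≤ ENNReal.log (n : ENNReal) := ENNReal.zero_le_log_iff.2 h2
  exact absurd h (not_lt.2 (EReal.div_nonneg h3 (log_nat_pos hm).le))

lemma nat_rpow {m : ℕ} (hm : 1 ≤ m) (x : ℝ) :
    (m : ENNReal) ^ x = ENNReal.ofReal ((m : ℝ) ^ x) := by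
  have h1 : (0 : ℝ) < m := by exact_mod_cast hm
  rw [← ENNReal.ofReal_rpow_of_pos h1]
  simp

/-- Polynomials are eventually bounded by larger powers. -/
lemma eventually_bound' (C a c : ℕ) (s : ℕ) (x' x : ℝ) (hx' : 0 ≤ x') (h : x' < x) :
    ∀ᶠ m : ℕ in atTop, (C : ℝ) * (m : ℝ) ^ s * ((a * (m + c) : ℕ) : ℝ) ^ x' ≤
      (m : ℝ) ^ ((s : ℝ) + x) := by
  set A : ℝ := (C : ℝ) * ((a * (1 + c) : ℕ) : ℝ) ^ x' with hA
  have hA0 : 0 ≤ A := by positivity
  have hlim : Tendsto (fun m : ℕ => (m : ℝ) ^ (x - x')) atTop atTop :=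
    (tendsto_rpow_atTop (by linarith)).comp tendsto_natCast_atTop_atTop
  filter_upwards [hlim.eventually_ge_atTop A, eventually_ge_atTop 1] with m hm hm1
  have hm1' : (1 : ℝ) ≤ m := by exact_mod_cast hm1
  have hm0 : (0 : ℝ) < m := by linarith
  have h1 : ((a * (m + c) : ℕ) : ℝ) ≤ ((a * (1 + c) : ℕ) : ℝ) * m := by
    have : a * (m + c) ≤ a * (1 + c) * m := by
      have : c ≤ c * m := Nat.le_mul_of_pos_right c hm1
      calc a * (m + c) ≤ a * (m + c * m) := Nat.mul_le_mul_left a (by omega)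
        _ = a * (1 + c) * m := by ring
    exact_mod_cast this
  have h2 : ((a * (m + c) : ℕ) : ℝ) ^ x' ≤ ((a * (1 + c) : ℕ) : ℝ) ^ x' * (m : ℝ) ^ x' := by
    rw [← Real.mul_rpow (by positivity) hm0.le]
    exact Real.rpow_le_rpow (by positivity) h1 hx'
  calc (C : ℝ) * (m : ℝ) ^ s * ((a * (m + c) : ℕ) : ℝ) ^ x'
      ≤ (C : ℝ) * (m : ℝ) ^ s * (((a * (1 + c) : ℕ) : ℝ) ^ x' * (m : ℝ) ^ x') :=
        mul_le_mul_of_nonneg_left h2 (by positivity)
    _ = A * (m : ℝ) ^ s * (m : ℝ) ^ x' := by rw [hA]; ring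
    _ ≤ (m : ℝ) ^ (x - x') * (m : ℝ) ^ s * (m : ℝ) ^ x' := by gcongr
    _ = (m : ℝ) ^ ((s : ℝ) + x) := by
        rw [← Real.rpow_natCast, ← Real.rpow_add hm0, ← Real.rpow_add hm0]
        congr 1
        ring

/-- Upper bound for the growth. -/
theorem logGrowth_le {h1 h2 : ℕ → ℕ∞} {s C a c : ℕ} {φ : ℕ → ℕ} (hφ : Tendsto φ atTop atTop)
    (hφ' : ∀ m, φ m ≤ a * (m + c))
    (hU : ∀ᶠ m : ℕ in atTop, h1 m ≤ C * m ^ s * h2 (φ m)) :
    logGrowth h1 ≤ (s : EReal) + logGrowth h2 := by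
  -- it is enough to compare with real numbers
  by_cases htop : logGrowth h2 = ⊤
  · rw [htop]
    have : (s : EReal) + ⊤ = ⊤ := EReal.add_top_of_ne_bot (EReal.natCast_ne_bot s)
    rw [this]
    exact le_top
  by_cases hneg : logGrowth h2 < 0
  · -- then `h2` vanishes eventually
    have h3 : ∀ᶠ m in atTop, ENNReal.log (h2 m : ENNReal) / ENNReal.log ((m : ℕ) : ENNReal) < 0 :=
      eventually_lt_of_limsup_lt hneg
    have h4 : ∀ᶠ m : ℕ in atTop, h2 m = 0 := by
      filter_upwards [h3, eventually_ge_atTop 2] with m hm hm2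
      exact quot_neg hm2 hm
    have h5 : ∀ᶠ m : ℕ in atTop,
        ENNReal.log (h1 m : ENNReal) / ENNReal.log ((m : ℕ) : ENNReal) = ⊥ := by
      filter_upwards [hφ.eventually h4, eventually_ge_atTop 2, hU] with m hm hm1 hm2
      rw [hm, mul_zero] at hm2
      have h6 : h1 m = 0 := le_antisymm hm2 (zero_le)
      rw [h6]
      simp only [ENat.toENNReal_zero, ENNReal.log_zero]
      exact EReal.bot_div_of_pos_ne_top (log_nat_pos hm1) (log_nat_ne_top hm1)
    have h6 : logGrowth h1 = ⊥ := by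
      unfold logGrowth
      rw [limsup_congr h5]
      simp
    rw [h6]
    exact bot_le
  · push Not at hneg
    obtain ⟨β, hβ⟩ : ∃ β : ℝ, logGrowth h2 = (β : EReal) := by
      induction hg : logGrowth h2 with
      | bot => rw [hg] at hneg; simp at hneg
      | coe β => exact ⟨β, rfl⟩
      | top => exact absurd hg htop
    have hβ0 : 0 ≤ β := by rw [hβ] at hneg; exact_mod_cast hneg
    rw [hβ]
    apply le_of_forall_gt
    intro y hy
    obtain ⟨z, hz1, hz2⟩ := EReal.lt_iff_exists_real_btwn.1 hy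
    have hz3 : (s : ℝ) + β < z := by exact_mod_cast hz1
    refine lt_of_le_of_lt ?_ hz2
    have hx : β < z - s := by linarith
    obtain ⟨x', hx1, hx2⟩ := exists_between hx
    have h3 : ∀ᶠ m : ℕ in atTop,
        ENNReal.log (h2 m : ENNReal) / ENNReal.log (m : ENNReal) < (x' : EReal) := by
      have h30 : limsup (fun m : ℕ => ENNReal.log (h2 m : ENNReal) / ENNReal.log (m : ENNReal))
          atTop < (x' : EReal) := by
        change logGrowth h2 < _
        rw [hβ]
        exact_mod_cast hx1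
      exact eventually_lt_of_limsup_lt h30
    have h4 : ∀ᶠ m : ℕ in atTop, (h2 m : ENNReal) ≤ (m : ENNReal) ^ x' ∧ 2 ≤ m := by
      filter_upwards [h3, eventually_ge_atTop 2] with m hm hm2
      exact ⟨(quot_le_iff hm2 x').1 hm.le, hm2⟩
    apply limsup_le_of_le (h := ?_)
    filter_upwards [hφ.eventually h4, eventually_ge_atTop 2, hU,
      eventually_bound' C a c s x' (z - s) (by linarith) hx2] with m hm hm2 hm5 hm3
    rw [quot_le_iff hm2, nat_rpow (by omega)]
    obtain ⟨hm, hm4⟩ := hm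
    have h6 : (h1 m : ENNReal) ≤ (C : ENNReal) * (m : ENNReal) ^ s * (h2 (φ m) : ENNReal) := by
      exact_mod_cast hm5
    calc (h1 m : ENNReal) ≤ (C : ENNReal) * (m : ENNReal) ^ s * (h2 (φ m) : ENNReal) := h6
      _ ≤ (C : ENNReal) * (m : ENNReal) ^ s * ((φ m : ℕ) : ENNReal) ^ x' := by gcongr
      _ = ENNReal.ofReal ((C : ℝ) * (m : ℝ) ^ s * ((φ m : ℕ) : ℝ) ^ x') := by
          rw [nat_rpow (by omega), ENNReal.ofReal_mul (by positivity),
            ENNReal.ofReal_mul (by positivity), ENNReal.ofReal_pow (by positivity)]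
          simp
      _ ≤ ENNReal.ofReal ((m : ℝ) ^ ((s : ℝ) + (z - s))) := by
          apply ENNReal.ofReal_le_ofReal
          refine le_trans ?_ hm3
          have : ((φ m : ℕ) : ℝ) ≤ ((a * (m + c) : ℕ) : ℝ) := by exact_mod_cast hφ' m
          have hx'0 : 0 ≤ x' := by linarith
          gcongr
      _ = ENNReal.ofReal ((m : ℝ) ^ z) := by congr 2; ring

/-- Lower bound for the growth. -/
theorem le_logGrowth {h1 h2 : ℕ → ℕ∞} {s a : ℕ} (ha : 1 ≤ a)
    (hL : ∀ n : ℕ, 1 ≤ n → (n : ℕ∞) ^ s * h2 n ≤ h1 (a * n)) :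
    (s : EReal) + logGrowth h2 ≤ logGrowth h1 := by
  have htend : Tendsto (fun m : ℕ => a * m) atTop atTop := by
    apply tendsto_atTop_mono (f := fun m => m)
    · intro m
      exact Nat.le_mul_of_pos_left _ ha
    · exact tendsto_id
  apply le_of_forall_gt
  intro y hy
  obtain ⟨z, hz1, hz2⟩ := EReal.lt_iff_exists_real_btwn.1 hy
  refine lt_of_le_of_lt ?_ hz2
  obtain ⟨z', hz3, hz4⟩ := EReal.lt_iff_exists_real_btwn.1 hz1
  have hzz : z' < z := by exact_mod_cast hz4
  -- eventually `h1 m ≤ m ^ z'`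
  have h3 : ∀ᶠ m : ℕ in atTop, (h1 m : ENNReal) ≤ (m : ENNReal) ^ z' := by
    have h3 : ∀ᶠ m : ℕ in atTop,
        ENNReal.log (h1 m : ENNReal) / ENNReal.log (m : ENNReal) < (z' : EReal) :=
      eventually_lt_of_limsup_lt hz3
    filter_upwards [h3, eventually_ge_atTop 2] with m hm hm2
    exact (quot_le_iff hm2 z').1 hm.le
  have hlim : Tendsto (fun m : ℕ => (m : ℝ) ^ (z - z')) atTop atTop :=
    (tendsto_rpow_atTop (by linarith)).comp tendsto_natCast_atTop_atTop
  have h4 : ∀ᶠ n : ℕ in atTop, (h2 n : ENNReal) ≤ (n : ENNReal) ^ (z - s) := by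
    filter_upwards [htend.eventually h3, eventually_ge_atTop 1,
      hlim.eventually_ge_atTop ((a : ℝ) ^ z')] with n hn hn1 hn2
    have hn0 : (0 : ℝ) < n := by
      have : 0 < n := hn1
      exact_mod_cast this
    have ha0 : (0 : ℝ) < a := by exact_mod_cast ha
    have h5 : (n : ENNReal) ^ s * (h2 n : ENNReal) ≤ (h1 (a * n) : ENNReal) := by
      exact_mod_cast hL n hn1
    have h6 : (n : ENNReal) ^ s * (h2 n : ENNReal) ≤ ENNReal.ofReal ((n : ℝ) ^ z) := by
      calc (n : ENNReal) ^ s * (h2 n : ENNReal) ≤ (h1 (a * n) : ENNReal) := h5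
        _ ≤ ((a * n : ℕ) : ENNReal) ^ z' := hn
        _ = ENNReal.ofReal (((a * n : ℕ) : ℝ) ^ z') := nat_rpow (Nat.mul_pos ha hn1) z'
        _ ≤ ENNReal.ofReal ((n : ℝ) ^ z) := by
            apply ENNReal.ofReal_le_ofReal
            calc ((a * n : ℕ) : ℝ) ^ z' = (a : ℝ) ^ z' * (n : ℝ) ^ z' := by
                  push_cast
                  rw [Real.mul_rpow (by positivity) hn0.le]
              _ ≤ (n : ℝ) ^ (z - z') * (n : ℝ) ^ z' := by gcongr
              _ = (n : ℝ) ^ z := by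
                  rw [← Real.rpow_add hn0]
                  congr 1
                  ring
    have h7 : (n : ENNReal) ^ (z - s) = ENNReal.ofReal ((n : ℝ) ^ z) / (n : ENNReal) ^ s := by
      have hn2 : (n : ENNReal) ^ s = ENNReal.ofReal ((n : ℝ) ^ s) := by
        rw [ENNReal.ofReal_pow hn0.le]
        simp
      rw [nat_rpow hn1, hn2, ← ENNReal.ofReal_div_of_pos (by positivity), Real.rpow_sub hn0,
        Real.rpow_natCast]
    rw [h7, ENNReal.le_div_iff_mul_le, mul_comm]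
    · exact h6
    · left
      have : (n : ENNReal) ≠ 0 := by
        have : n ≠ 0 := by omega
        exact_mod_cast this
      exact pow_ne_zero _ this
    · left
      exact ENNReal.pow_ne_top (ENNReal.natCast_ne_top _)
  have h5 : logGrowth h2 ≤ ((z - s : ℝ) : EReal) := by
    apply limsup_le_of_le (h := ?_)
    filter_upwards [h4, eventually_ge_atTop 2] with n hn hn2
    exact (quot_le_iff hn2 _).2 hn
  calc (s : EReal) + logGrowth h2 ≤ (s : EReal) + ((z - s : ℝ) : EReal) := by gcongr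
    _ = ((s + (z - s) : ℝ) : EReal) := by push_cast; rfl
    _ = (z : EReal) := by congr 1; ring

/-- Comparison of Kodaira dimensions. -/
theorem kodDim_eq {h1 h2 : ℕ → ℕ∞} {s C a c a' : ℕ} {φ : ℕ → ℕ} (ha' : 1 ≤ a')
    (hφ : Tendsto φ atTop atTop) (hφ' : ∀ m, φ m ≤ a * (m + c)) (hφ0 : ∀ m, 1 ≤ m → h1 m ≠ 0 →
      1 ≤ φ m)
    (hU : ∀ m : ℕ, 1 ≤ m → h1 m ≤ C * m ^ s * h2 (φ m))
    (hL : ∀ n : ℕ, 1 ≤ n → (n : ℕ∞) ^ s * h2 n ≤ h1 (a' * n))
    (hpos : ∀ j m, 1 ≤ j → 1 ≤ m → h2 m ≠ 0 → h2 (j * m) ≠ 0) :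
    kodDim h1 = (s : EReal) + kodDim h2 := by
  by_cases h2z : ∀ m, 1 ≤ m → h2 m = 0
  · -- both are `-∞`
    have h1z : ∀ m, 1 ≤ m → h1 m = 0 := by
      intro m hm
      by_contra hne
      have h3 := hU m hm
      rw [h2z _ (hφ0 m hm hne), mul_zero] at h3
      exact hne (le_antisymm h3 zero_le)
    unfold kodDim
    rw [if_pos h1z, if_pos h2z]
    simp
  have h2ne := h2z
  push Not at h2ne
  obtain ⟨m₁, hm₁, hm₁'⟩ := h2ne
  have h1ne : ¬ ∀ m, 1 ≤ m → h1 m = 0 := by
    intro h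
    have h3 := hL m₁ hm₁
    rw [h (a' * m₁) (Nat.mul_pos ha' hm₁)] at h3
    have h4 : (m₁ : ℕ∞) ^ s * h2 m₁ ≠ 0 := by
      apply mul_ne_zero _ hm₁'
      apply pow_ne_zero
      have : m₁ ≠ 0 := by omega
      exact_mod_cast this
    exact h4 (le_antisymm h3 zero_le)
  unfold kodDim
  rw [if_neg h1ne, if_neg h2z]
  -- the two sets of exponents
  set S1 : ℕ → Prop := fun k =>
    0 < limsup (fun m : ℕ => (h1 m : ENNReal) / (m : ENNReal) ^ k) atTop with hS1
  set S2 : ℕ → Prop := fun k =>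
    0 < limsup (fun m : ℕ => (h2 m : ENNReal) / (m : ENNReal) ^ k) atTop with hS2
  have key1 : ∀ k, S2 k → S1 (s + k) := by
    intro k hk
    simp only [hS1, hS2] at *
    have htend : Tendsto (fun m : ℕ => a' * m) atTop atTop := by
      apply tendsto_atTop_mono (f := fun m => m)
      · intro m
        exact Nat.le_mul_of_pos_left _ ha'
      · exact tendsto_id
    -- limsup over the subsequence
    have h3 : limsup (fun n : ℕ => (h1 (a' * n) : ENNReal) / ((a' * n : ℕ) : ENNReal) ^ (s + k))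
        atTop ≤ limsup (fun m : ℕ => (h1 m : ENNReal) / (m : ENNReal) ^ (s + k)) atTop := by
      have := htend.limsup_comp_le_limsup
        (u := fun m : ℕ => (h1 m : ENNReal) / (m : ENNReal) ^ (s + k))
      exact this
    refine lt_of_lt_of_le ?_ h3
    -- compare with h2
    set K : ENNReal := ((a' ^ (s + k) : ℕ) : ENNReal) with hK
    have hK0 : K ≠ 0 := by
      rw [hK]
      have : a' ^ (s + k) ≠ 0 := (pow_pos ha' _).ne'
      exact_mod_cast this
    have hKt : K ≠ ⊤ := ENNReal.natCast_ne_top _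
    have h4 : ∀ᶠ n : ℕ in atTop, K⁻¹ * ((h2 n : ENNReal) / (n : ENNReal) ^ k) ≤
        (h1 (a' * n) : ENNReal) / ((a' * n : ℕ) : ENNReal) ^ (s + k) := by
      filter_upwards [eventually_ge_atTop 1] with n hn
      have hn0 : (n : ENNReal) ≠ 0 := by
        have : n ≠ 0 := by omega
        exact_mod_cast this
      have hnt : (n : ENNReal) ≠ ⊤ := ENNReal.natCast_ne_top _
      rw [ENNReal.le_div_iff_mul_le (Or.inl (by
        have : a' * n ≠ 0 := Nat.mul_ne_zero (by omega) (by omega)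
        exact pow_ne_zero _ (by exact_mod_cast this))) (Or.inl (ENNReal.pow_ne_top
          (ENNReal.natCast_ne_top _)))]
      have h5 : (n : ENNReal) ^ s * (h2 n : ENNReal) ≤ (h1 (a' * n) : ENNReal) := by
        exact_mod_cast hL n hn
      have h6 : K⁻¹ * ((h2 n : ENNReal) / (n : ENNReal) ^ k) * ((a' * n : ℕ) : ENNReal) ^ (s + k) =
          K⁻¹ * (a' : ENNReal) ^ (s + k) * ((n : ENNReal) ^ s * (h2 n : ENNReal)) := by
        push_cast
        rw [mul_pow, pow_add (n : ENNReal), ENNReal.div_eq_inv_mul]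
        have h7 : ((n : ENNReal) ^ k)⁻¹ * (n : ENNReal) ^ k = 1 :=
          ENNReal.inv_mul_cancel (pow_ne_zero _ hn0) (ENNReal.pow_ne_top hnt)
        calc K⁻¹ * (((n : ENNReal) ^ k)⁻¹ * (h2 n : ENNReal)) *
              ((a' : ENNReal) ^ (s + k) * ((n : ENNReal) ^ s * (n : ENNReal) ^ k))
            = K⁻¹ * (a' : ENNReal) ^ (s + k) * ((n : ENNReal) ^ s * (h2 n : ENNReal)) *
              (((n : ENNReal) ^ k)⁻¹ * (n : ENNReal) ^ k) := by ring
          _ = _ := by rw [h7, mul_one]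
      rw [h6]
      calc K⁻¹ * (a' : ENNReal) ^ (s + k) * ((n : ENNReal) ^ s * (h2 n : ENNReal))
          ≤ K⁻¹ * (a' : ENNReal) ^ (s + k) * (h1 (a' * n) : ENNReal) := by
            gcongr
        _ = K⁻¹ * K * (h1 (a' * n) : ENNReal) := by
            rw [hK]; push_cast; ring
        _ = (h1 (a' * n) : ENNReal) := by
            rw [ENNReal.inv_mul_cancel hK0 hKt, one_mul]
    have h5 := limsup_le_limsup h4
    refine lt_of_lt_of_le ?_ h5
    rw [ENNReal.limsup_const_mul_of_ne_top (ENNReal.inv_ne_top.2 hK0)]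
    exact ENNReal.mul_pos (ENNReal.inv_ne_zero.2 hKt) hk.ne'
  have key2 : ∀ k, S1 (s + k) → S2 k := by
    intro k hk
    simp only [hS1, hS2] at *
    have h3 : limsup (fun m : ℕ => (h2 (φ m) : ENNReal) / ((φ m : ℕ) : ENNReal) ^ k) atTop ≤
        limsup (fun m : ℕ => (h2 m : ENNReal) / (m : ENNReal) ^ k) atTop :=
      hφ.limsup_comp_le_limsup (u := fun m : ℕ => (h2 m : ENNReal) / (m : ENNReal) ^ k)
    refine lt_of_lt_of_le ?_ h3
    set K : ENNReal := (((C + 1) * (a * (1 + c)) ^ k : ℕ) : ENNReal) with hK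
    have hKt : K ≠ ⊤ := ENNReal.natCast_ne_top _
    have h4 : ∀ᶠ m : ℕ in atTop, (h1 m : ENNReal) / (m : ENNReal) ^ (s + k) ≤
        K * ((h2 (φ m) : ENNReal) / ((φ m : ℕ) : ENNReal) ^ k) := by
      filter_upwards [eventually_ge_atTop 1, hφ.eventually_ge_atTop 1] with m hm hφm
      have hm0 : (m : ENNReal) ≠ 0 := by
        have : m ≠ 0 := by omega
        exact_mod_cast this
      have hmt : (m : ENNReal) ≠ ⊤ := ENNReal.natCast_ne_top _
      rw [ENNReal.div_le_iff (pow_ne_zero _ hm0) (ENNReal.pow_ne_top hmt)]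
      have hN0 : ((φ m : ℕ) : ENNReal) ≠ 0 := by
        have : φ m ≠ 0 := by omega
        exact_mod_cast this
      have hNt : ((φ m : ℕ) : ENNReal) ≠ ⊤ := ENNReal.natCast_ne_top _
      have h5 : (h1 m : ENNReal) ≤ (C : ENNReal) * (m : ENNReal) ^ s *
          (h2 (φ m) : ENNReal) := by exact_mod_cast hU m hm
      have h6 : ((φ m : ℕ) : ENNReal) ≤ ((a * (1 + c) : ℕ) : ENNReal) * (m : ENNReal) := by
        have : φ m ≤ a * (1 + c) * m := by
          have : c ≤ c * m := Nat.le_mul_of_pos_right c hm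
          calc φ m ≤ a * (m + c) := hφ' m
            _ ≤ a * (m + c * m) := Nat.mul_le_mul_left a (by omega)
            _ = a * (1 + c) * m := by ring
        exact_mod_cast this
      set N : ENNReal := ((φ m : ℕ) : ENNReal) with hN
      have h7 : (N ^ k)⁻¹ * N ^ k = 1 :=
        ENNReal.inv_mul_cancel (pow_ne_zero _ hN0) (ENNReal.pow_ne_top hNt)
      calc (h1 m : ENNReal) ≤ (C : ENNReal) * (m : ENNReal) ^ s *
            (h2 (φ m) : ENNReal) := h5
        _ = (C : ENNReal) * (m : ENNReal) ^ s * (h2 (φ m) : ENNReal) *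
            ((N ^ k)⁻¹ * N ^ k) := by rw [h7, mul_one]
        _ ≤ (C : ENNReal) * (m : ENNReal) ^ s * (h2 (φ m) : ENNReal) *
            ((N ^ k)⁻¹ * (((a * (1 + c) : ℕ) : ENNReal) * (m : ENNReal)) ^ k) := by
            gcongr
        _ ≤ ((C + 1 : ℕ) : ENNReal) * (m : ENNReal) ^ s * (h2 (φ m) : ENNReal) *
            ((N ^ k)⁻¹ * (((a * (1 + c) : ℕ) : ENNReal) * (m : ENNReal)) ^ k) := by
            gcongr
            omega
        _ = K * ((h2 (φ m) : ENNReal) / N ^ k) * (m : ENNReal) ^ (s + k) := by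
            rw [hK, ENNReal.div_eq_inv_mul, mul_pow, pow_add]
            push_cast
            ring
    have h5 := limsup_le_limsup h4
    have h6 : 0 < limsup (fun m : ℕ => K * ((h2 (φ m) : ENNReal) /
        ((φ m : ℕ) : ENNReal) ^ k)) atTop := lt_of_lt_of_le hk h5
    rw [ENNReal.limsup_const_mul_of_ne_top hKt] at h6
    exact pos_of_mul_pos_right h6 zero_le
  have key0 : S2 0 := by
    simp only [hS2]
    simp only [pow_zero, div_one]
    refine lt_of_lt_of_le one_pos ?_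
    refine le_limsup_of_frequently_le ?_ (by isBoundedDefault)
    rw [frequently_atTop]
    intro N
    refine ⟨(N + 1) * m₁, ?_, ?_⟩
    · calc N ≤ (N + 1) * 1 := by omega
        _ ≤ (N + 1) * m₁ := Nat.mul_le_mul_left _ hm₁
    · have := Order.one_le_iff_ne_zero.2 (hpos (N + 1) m₁ (by omega) hm₁ hm₁')
      exact_mod_cast this
  apply le_antisymm
  · apply sSup_le
    rintro x ⟨k, rfl, hk⟩
    by_cases hks : s ≤ k
    · obtain ⟨k', rfl⟩ := Nat.exists_eq_add_of_le hks
      have h3 : (k' : EReal) ≤ sSup {x : EReal | ∃ k : ℕ, x = (k : EReal) ∧ S2 k} :=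
        le_sSup ⟨k', rfl, key2 k' hk⟩
      push_cast
      gcongr
    · have h3 : (0 : EReal) ≤ sSup {x : EReal | ∃ k : ℕ, x = (k : EReal) ∧ S2 k} :=
        le_sSup ⟨0, by simp, key0⟩
      calc (k : EReal) ≤ (s : EReal) := by
            have : k ≤ s := by omega
            exact_mod_cast this
        _ = (s : EReal) + 0 := (add_zero _).symm
        _ ≤ _ := by gcongr
  · -- s + sup ≤ sup
    have h3 : ∀ k, S2 k → (s : EReal) + (k : EReal) ≤
        sSup {x : EReal | ∃ k : ℕ, x = (k : EReal) ∧ S1 k} := by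
      intro k hk
      apply le_sSup
      exact ⟨s + k, by push_cast; rfl, key1 k hk⟩
    set y := sSup {x : EReal | ∃ k : ℕ, x = (k : EReal) ∧ S1 k} with hy
    have h4 : sSup {x : EReal | ∃ k : ℕ, x = (k : EReal) ∧ S2 k} ≤ y - (s : EReal) := by
      apply sSup_le
      rintro x ⟨k, rfl, hk⟩
      rw [EReal.le_sub_iff_add_le (Or.inl (EReal.natCast_ne_bot s))
        (Or.inl (EReal.natCast_ne_top s)), add_comm]
      exact h3 k hk
    rw [EReal.le_sub_iff_add_le (Or.inl (EReal.natCast_ne_bot s))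
      (Or.inl (EReal.natCast_ne_top s)), add_comm] at h4
    exact h4

end Pool.Agent.Helper92.Weak
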