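import Pool.Agent.Helper92.Weak.DVal
import Pool.Agent.Helper92.Weak.Geo
import Pool.Agent.Helper92.Weak.GrowthE

set_option autoImplicit false

/-! Section spaces of torus-invariant divisors, combinatorially. -/

namespace Pool.Agent.Helper92.Weak

open Module

section sdim

variable {k V V' : Type*} [Field k] [AddCommGroup V] [Module k V] [AddCommGroup V'] [Module k V']

lemma sdim_le_of_injective {W : Submodule k V} {W' : Submodule k V'} (f : W →ₗ[k] W')
    (hf : Function.Injective f) : sdim W ≤ sdim W' := by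
  have h := LinearMap.lift_rank_le_of_injective f hf
  have h2 := OrderHomClass.mono Cardinal.toENat h
  rwa [Cardinal.toENat_lift, Cardinal.toENat_lift] at h2

lemma sdim_mono {W W' : Submodule k V} (h : W ≤ W') : sdim W ≤ sdim W' :=
  sdim_le_of_injective (Submodule.inclusion h) (Submodule.inclusion_injective h)

@[simp] lemma sdim_bot : sdim (⊥ : Submodule k V) = 0 := by
  unfold sdim
  simp

lemma sdim_eq_zero {W : Submodule k V} : sdim W = 0 ↔ W = ⊥ := by
  unfold sdim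
  rw [Cardinal.toENat_eq_zero, Submodule.rank_eq_zero]

lemma sdim_ne_zero {W : Submodule k V} : sdim W ≠ 0 ↔ ∃ f ∈ W, f ≠ 0 := by
  rw [Ne, sdim_eq_zero, Submodule.eq_bot_iff]
  push Not
  rfl

lemma sdim_eq_of_equiv {W : Submodule k V} {W' : Submodule k V'} (f : W ≃ₗ[k] W') :
    sdim W = sdim W' :=
  le_antisymm (sdim_le_of_injective f.toLinearMap f.injective)
    (sdim_le_of_injective f.symm.toLinearMap f.symm.injective)

/-- Multiplication by a nonzero element. -/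
lemma sdim_le_of_mul {K : Type*} [Field K] [Algebra k K] {W W' : Submodule k K} (g : K)
    (hg : g ≠ 0) (h : ∀ f ∈ W, f * g ∈ W') : sdim W ≤ sdim W' := by
  let φ : W →ₗ[k] W' :=
    { toFun := fun f => ⟨f.1 * g, h f.1 f.2⟩
      map_add' := fun a b => by ext; simp [add_mul]
      map_smul' := fun c a => by ext; simp }
  refine sdim_le_of_injective φ ?_
  intro a b hab
  have h1 : a.1 * g = b.1 * g := congrArg Subtype.val hab
  exact Subtype.ext (mul_right_cancel₀ hg h1)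

lemma toENat_rank_finsupp {ι : Type*} [Fintype ι] (W : Submodule k V) :
    Cardinal.toENat (Module.rank k (ι →₀ W)) = Fintype.card ι * sdim W := by
  rw [rank_finsupp, map_mul, Cardinal.toENat_lift, Cardinal.toENat_lift]
  unfold sdim
  congr 1
  rw [Cardinal.mk_fintype, Cardinal.toENat_nat]

lemma sdim_le_card_mul {ι : Type*} [Fintype ι] {W : Submodule k V} {W' : Submodule k V'}
    (f : W →ₗ[k] (ι →₀ W')) (hf : Function.Injective f) :
    sdim W ≤ Fintype.card ι * sdim W' := by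
  have h := LinearMap.lift_rank_le_of_injective f hf
  have h2 := OrderHomClass.mono Cardinal.toENat h
  rwa [Cardinal.toENat_lift, Cardinal.toENat_lift, toENat_rank_finsupp] at h2

lemma card_mul_le_sdim {ι : Type*} [Fintype ι] {W : Submodule k V} {W' : Submodule k V'}
    (f : (ι →₀ W') →ₗ[k] W) (hf : Function.Injective f) :
    Fintype.card ι * sdim W' ≤ sdim W := by
  have h := LinearMap.lift_rank_le_of_injective f hf
  have h2 := OrderHomClass.mono Cardinal.toENat h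
  rwa [Cardinal.toENat_lift, Cardinal.toENat_lift, toENat_rank_finsupp] at h2

end sdim

/-- The pairing of `ℚ ^ r` with a lattice vector. -/
def pairL {r : ℕ} (w : Fin r → ℤ) : (Fin r → ℚ) →ₗ[ℚ] ℚ where
  toFun u := ∑ l, u l * w l
  map_add' u u' := by
    rw [← Finset.sum_add_distrib]
    exact Finset.sum_congr rfl fun l _ => by rw [Pi.add_apply, add_mul]
  map_smul' c u := by
    rw [RingHom.id_apply, smul_eq_mul, Finset.mul_sum]
    exact Finset.sum_congr rfl fun l _ => by rw [Pi.smul_apply, smul_eq_mul, mul_assoc]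

lemma pairL_apply {r : ℕ} (w : Fin r → ℤ) (u : Fin r → ℚ) : pairL w u = ∑ l, u l * w l := rfl

@[simp] lemma pairL_zero {r : ℕ} : pairL (0 : Fin r → ℤ) = 0 := by
  ext u
  simp [pairL_apply]

/-- The combinatorial data of a variety with a torus action: the valuations `ord q` of the prime
divisors of the base, the rays `ρ i` of the horizontal invariant prime divisors, and for the
vertical invariant prime divisors the underlying prime divisor `base j` of the base, the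
multiplicity `e j` and the vector `w j`. -/
structure TData (k K : Type*) [Field k] [Field K] [Algebra k K] (r : ℕ) (Q H J : Type*) where
  ord : Q → DVal k K
  ρ : H → Fin r → ℤ
  base : J → Q
  e : J → ℕ
  e_pos : ∀ j, 0 < e j
  w : J → Fin r → ℤ
  base_surj : Function.Surjective base
  fib : ∀ q, {j | base j = q}.Finite
  special : {j | w j ≠ 0 ∨ e j ≠ 1}.Finite
  complete : ∀ u : Fin r → ℚ, (∀ i, 0 ≤ pairL (ρ i) u) → u = 0

lemma mem_sec {k K : Type*} [Field k] [Field K] [Algebra k K] {Q : Type*} {ord : Q → DVal k K}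
    {G : Q → ℚ} {f : K} : f ∈ sec ord G ↔ ∀ q, (ord q).Ge (-(G q)) f := by
  simp [sec]

lemma mem_sec_of_ne {k K : Type*} [Field k] [Field K] [Algebra k K] {Q : Type*}
    {ord : Q → DVal k K} {G : Q → ℚ} {f : K} (hf : f ≠ 0) :
    f ∈ sec ord G ↔ ∀ q, 0 ≤ (ord q f : ℚ) + G q := by
  rw [mem_sec]
  refine forall_congr' fun q => ?_
  rw [DVal.ge_iff hf]
  constructor <;> intro h <;> linarith

lemma sec_mono {k K : Type*} [Field k] [Field K] [Algebra k K] {Q : Type*} {ord : Q → DVal k K}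
    {G G' : Q → ℚ} (h : ∀ q, G q ≤ G' q) : sec ord G ≤ sec ord G' := by
  intro f hf
  rw [mem_sec] at hf ⊢
  exact fun q => (hf q).mono (by linarith [h q])

namespace TData

variable {k K : Type*} [Field k] [Field K] [Algebra k K] {r : ℕ} {Q H J : Type*}
  (𝒯 : TData k K r Q H J)

/-- The sections of weight `u` of the divisor `D`. -/
def wt (D : H ⊕ J → ℚ) (u : Fin r → ℚ) : Submodule k K where
  carrier := {f | f = 0 ∨ ((∀ i, 0 ≤ pairL (𝒯.ρ i) u + D (Sum.inl i)) ∧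
    ∀ j, 0 ≤ (𝒯.e j : ℚ) * 𝒯.ord (𝒯.base j) f + (pairL (𝒯.w j) u + D (Sum.inr j)))}
  zero_mem' := Or.inl rfl
  add_mem' {f g} hf hg := by
    rcases hf with rfl | ⟨hf1, hf2⟩
    · simpa using hg
    rcases hg with rfl | ⟨hg1, hg2⟩
    · rw [add_zero]; exact Or.inr ⟨hf1, hf2⟩
    by_cases h0 : f + g = 0
    · exact Or.inl h0
    refine Or.inr ⟨hf1, fun j => ?_⟩
    have hej : (0 : ℚ) < 𝒯.e j := by exact_mod_cast 𝒯.e_pos j
    have key : ∀ x : K, 0 ≤ (𝒯.e j : ℚ) * 𝒯.ord (𝒯.base j) x + (pairL (𝒯.w j) u + D (Sum.inr j)) →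
        (𝒯.ord (𝒯.base j)).Ge (-(pairL (𝒯.w j) u + D (Sum.inr j)) / 𝒯.e j) x := by
      intro x hx
      right
      rw [div_le_iff₀ hej]
      linarith
    have h := (key f (hf2 j)).add (key g (hg2 j))
    rw [DVal.ge_iff h0, div_le_iff₀ hej] at h
    linarith
  smul_mem' c f hf := by
    rcases hf with rfl | ⟨hf1, hf2⟩
    · left; simp
    by_cases hc : c = 0
    · left; simp [hc]
    by_cases hf0 : f = 0
    · left; simp [hf0]
    refine Or.inr ⟨hf1, fun j => ?_⟩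
    have : 𝒯.ord (𝒯.base j) (c • f) = 𝒯.ord (𝒯.base j) f := by
      rw [Algebra.smul_def, DVal.map_mul _ (by simpa using hc) hf0]
      simp
    rw [this]
    exact hf2 j

variable {𝒯}

lemma mem_wt {D : H ⊕ J → ℚ} {u : Fin r → ℚ} {f : K} (hf : f ≠ 0) :
    f ∈ 𝒯.wt D u ↔ (∀ i, 0 ≤ pairL (𝒯.ρ i) u + D (Sum.inl i)) ∧
    ∀ j, 0 ≤ (𝒯.e j : ℚ) * 𝒯.ord (𝒯.base j) f + (pairL (𝒯.w j) u + D (Sum.inr j)) := by
  change (f = 0 ∨ _) ↔ _
  simp [hf]

lemma mul_mem_wt {D D' : H ⊕ J → ℚ} {u u' : Fin r → ℚ} {f g : K} (hf : f ∈ 𝒯.wt D u)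
    (hg : g ∈ 𝒯.wt D' u') : f * g ∈ 𝒯.wt (D + D') (u + u') := by
  by_cases hf0 : f = 0
  · rw [hf0, zero_mul]; exact Submodule.zero_mem _
  by_cases hg0 : g = 0
  · rw [hg0, mul_zero]; exact Submodule.zero_mem _
  rw [mem_wt hf0] at hf
  rw [mem_wt hg0] at hg
  rw [mem_wt (mul_ne_zero hf0 hg0)]
  refine ⟨fun i => ?_, fun j => ?_⟩
  · rw [map_add, Pi.add_apply]
    linarith [hf.1 i, hg.1 i]
  · rw [map_add, Pi.add_apply, DVal.map_mul _ hf0 hg0]
    push_cast
    linarith [hf.2 j, hg.2 j]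

lemma pow_mem_wt {D : H ⊕ J → ℚ} {u : Fin r → ℚ} {f : K} (hf : f ∈ 𝒯.wt D u) (hf0 : f ≠ 0)
    (n : ℕ) : f ^ n ∈ 𝒯.wt ((n : ℚ) • D) ((n : ℚ) • u) := by
  rw [mem_wt hf0] at hf
  rw [mem_wt (pow_ne_zero n hf0)]
  have hn : (0 : ℚ) ≤ n := by positivity
  refine ⟨fun i => ?_, fun j => ?_⟩
  · rw [map_smul, Pi.smul_apply, smul_eq_mul, smul_eq_mul]
    have := mul_nonneg hn (hf.1 i)
    linarith
  · rw [map_smul, Pi.smul_apply, DVal.map_pow, smul_eq_mul, smul_eq_mul]
    have := mul_nonneg hn (hf.2 j)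
    push_cast
    linarith

lemma prod_mem_wt {ι : Type*} (s : Finset ι) {D : ι → H ⊕ J → ℚ} {u : ι → Fin r → ℚ} {f : ι → K}
    (hf : ∀ i ∈ s, f i ∈ 𝒯.wt (D i) (u i)) :
    ∏ i ∈ s, f i ∈ 𝒯.wt (∑ i ∈ s, D i) (∑ i ∈ s, u i) := by
  classical
  induction s using Finset.induction_on with
  | empty =>
    rw [Finset.prod_empty, Finset.sum_empty, Finset.sum_empty, mem_wt one_ne_zero]
    simp
  | insert a s ha ih =>
    rw [Finset.prod_insert ha, Finset.sum_insert ha, Finset.sum_insert ha]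
    exact mul_mem_wt (hf a (Finset.mem_insert_self a s))
      (ih fun i hi => hf i (Finset.mem_insert_of_mem hi))

variable (𝒯)

/-- All sections of the divisor `D`, as Laurent polynomials. -/
def secT (D : H ⊕ J → ℚ) : Submodule k ((Fin r → ℤ) →₀ K) where
  carrier := {h | ∀ u, h u ∈ 𝒯.wt D (fun l => (u l : ℚ))}
  zero_mem' u := by simp
  add_mem' {f g} hf hg u := by
    rw [Finsupp.add_apply]
    exact Submodule.add_mem _ (hf u) (hg u)
  smul_mem' c f hf u := by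
    rw [Finsupp.smul_apply]
    exact Submodule.smul_mem _ c (hf u)

variable {𝒯}

lemma mem_secT {D : H ⊕ J → ℚ} {h : (Fin r → ℤ) →₀ K} :
    h ∈ 𝒯.secT D ↔ ∀ u, h u ∈ 𝒯.wt D (fun l => (u l : ℚ)) := Iff.rfl

lemma single_mem_secT {D : H ⊕ J → ℚ} {u : Fin r → ℤ} {f : K}
    (hf : f ∈ 𝒯.wt D (fun l => (u l : ℚ))) : Finsupp.single u f ∈ 𝒯.secT D := by
  classical
  intro u'
  rw [Finsupp.single_apply]
  split_ifs with h
  · rwa [← h]
  · exact Submodule.zero_mem _

variable (𝒯)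

/-- The vertical prime divisors over a given prime divisor of the base. -/
noncomputable def fiber (q : Q) : Finset J := (𝒯.fib q).toFinset

variable {𝒯}

@[simp] lemma mem_fiber {q : Q} {j : J} : j ∈ 𝒯.fiber q ↔ 𝒯.base j = q := by
  simp [fiber]

lemma fiber_nonempty (q : Q) : (𝒯.fiber q).Nonempty := by
  obtain ⟨j, hj⟩ := 𝒯.base_surj q
  exact ⟨j, by simpa using hj⟩

variable (𝒯)

/-- The divisor on the base attached to a weight. -/
noncomputable def low (D : H ⊕ J → ℚ) (u : Fin r → ℚ) (q : Q) : ℚ :=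
  (𝒯.fiber q).inf' (fiber_nonempty q) fun j => (pairL (𝒯.w j) u + D (Sum.inr j)) / 𝒯.e j

variable {𝒯}

lemma low_le {D : H ⊕ J → ℚ} {u : Fin r → ℚ} {q : Q} {j : J} (hj : 𝒯.base j = q) :
    𝒯.low D u q ≤ (pairL (𝒯.w j) u + D (Sum.inr j)) / 𝒯.e j :=
  Finset.inf'_le _ (by simpa using hj)

lemma e_mul_low_le {D : H ⊕ J → ℚ} {u : Fin r → ℚ} {q : Q} {j : J} (hj : 𝒯.base j = q) :
    (𝒯.e j : ℚ) * 𝒯.low D u q ≤ pairL (𝒯.w j) u + D (Sum.inr j) := by
  have hej : (0 : ℚ) < 𝒯.e j := by exact_mod_cast 𝒯.e_pos j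
  have := low_le (D := D) (u := u) hj
  rwa [le_div_iff₀ hej, mul_comm] at this

lemma exists_low (D : H ⊕ J → ℚ) (u : Fin r → ℚ) (q : Q) : ∃ j, 𝒯.base j = q ∧
    (𝒯.e j : ℚ) * 𝒯.low D u q = pairL (𝒯.w j) u + D (Sum.inr j) := by
  obtain ⟨j, hj, h⟩ := Finset.exists_mem_eq_inf' (fiber_nonempty (𝒯 := 𝒯) q)
    (fun j => (pairL (𝒯.w j) u + D (Sum.inr j)) / 𝒯.e j)
  refine ⟨j, by simpa using hj, ?_⟩
  have hej : (𝒯.e j : ℚ) ≠ 0 := by exact_mod_cast (𝒯.e_pos j).ne'
  unfold low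
  rw [h]
  field_simp

lemma le_low_iff {D : H ⊕ J → ℚ} {u : Fin r → ℚ} {q : Q} {c : ℚ} :
    c ≤ 𝒯.low D u q ↔ ∀ j, 𝒯.base j = q → (𝒯.e j : ℚ) * c ≤ pairL (𝒯.w j) u + D (Sum.inr j) := by
  constructor
  · intro h j hj
    have hej : (0 : ℚ) < 𝒯.e j := by exact_mod_cast 𝒯.e_pos j
    exact (mul_le_mul_of_nonneg_left h hej.le).trans (e_mul_low_le hj)
  · intro h
    obtain ⟨j, hj, h2⟩ := exists_low (𝒯 := 𝒯) D u q
    have h3 := h j hj
    rw [← h2] at h3
    have hej : (0 : ℚ) < 𝒯.e j := by exact_mod_cast 𝒯.e_pos j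
    exact le_of_mul_le_mul_left h3 hej

/-- Sections of weight `u` are sections of the divisor `low D u` on the base. -/
lemma wt_eq {D : H ⊕ J → ℚ} {u : Fin r → ℚ} (hu : ∀ i, 0 ≤ pairL (𝒯.ρ i) u + D (Sum.inl i)) :
    𝒯.wt D u = sec 𝒯.ord (𝒯.low D u) := by
  ext f
  by_cases hf : f = 0
  · rw [hf]; simp
  rw [mem_wt hf, mem_sec_of_ne hf]
  constructor
  · rintro ⟨-, h⟩ q
    have : -(𝒯.ord q f : ℚ) ≤ 𝒯.low D u q := by
      rw [le_low_iff]
      intro j hj
      have := h j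
      rw [hj] at this
      linarith
    linarith
  · intro h
    refine ⟨hu, fun j => ?_⟩
    have h1 := h (𝒯.base j)
    have h2 : -(𝒯.ord (𝒯.base j) f : ℚ) ≤ 𝒯.low D u (𝒯.base j) := by linarith
    rw [le_low_iff] at h2
    have := h2 j rfl
    linarith

lemma low_smul {D : H ⊕ J → ℚ} {u : Fin r → ℚ} {q : Q} {c : ℚ} (hc : 0 ≤ c) :
    𝒯.low (c • D) (c • u) q = c * 𝒯.low D u q := by
  apply le_antisymm
  · obtain ⟨j, hj, h⟩ := exists_low (𝒯 := 𝒯) D u q
    have h1 := e_mul_low_le (D := c • D) (u := c • u) hj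
    rw [map_smul, Pi.smul_apply, smul_eq_mul, smul_eq_mul, ← mul_add, ← h] at h1
    have hej : (0 : ℚ) < 𝒯.e j := by exact_mod_cast 𝒯.e_pos j
    have h2 : (𝒯.e j : ℚ) * 𝒯.low (c • D) (c • u) q ≤ 𝒯.e j * (c * 𝒯.low D u q) := by linarith
    exact le_of_mul_le_mul_left h2 hej
  · rw [le_low_iff]
    intro j hj
    rw [map_smul, Pi.smul_apply, smul_eq_mul, smul_eq_mul, ← mul_add]
    have := mul_le_mul_of_nonneg_left (e_mul_low_le (D := D) (u := u) hj) hc
    linarith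

end TData

end Pool.Agent.Helper92.Weak
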