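import Mathlib

set_option autoImplicit false

/-! Normalised discrete valuations of a field over a subfield. -/

namespace Pool.Agent.Helper92.Weak

/-- A normalised discrete valuation of the field `L`, trivial on the subfield `k`
(with the junk value `0` at `0`). -/
structure DVal (k L : Type*) [Field k] [Field L] [Algebra k L] where
  /-- the function -/
  toFun : L → ℤ
  map_zero' : toFun 0 = 0
  map_mul' : ∀ a b, a ≠ 0 → b ≠ 0 → toFun (a * b) = toFun a + toFun b
  map_add' : ∀ a b, a ≠ 0 → b ≠ 0 → a + b ≠ 0 → min (toFun a) (toFun b) ≤ toFun (a + b)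
  map_const' : ∀ c : k, toFun (algebraMap k L c) = 0
  surj' : ∃ a, toFun a = 1

namespace DVal

variable {k L : Type*} [Field k] [Field L] [Algebra k L]

instance : CoeFun (DVal k L) fun _ => L → ℤ := ⟨DVal.toFun⟩

@[ext] lemma ext {v w : DVal k L} (h : ∀ a, v a = w a) : v = w := by
  cases v; cases w
  congr
  exact funext h

variable (v : DVal k L)

@[simp] lemma map_zero : v 0 = 0 := v.map_zero'

lemma map_mul {a b : L} (ha : a ≠ 0) (hb : b ≠ 0) : v (a * b) = v a + v b := v.map_mul' a b ha hb

@[simp] lemma map_const (c : k) : v (algebraMap k L c) = 0 := v.map_const' c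

@[simp] lemma map_one : v 1 = 0 := by
  have := v.map_const 1
  rwa [_root_.map_one] at this

@[simp] lemma map_neg (a : L) : v (-a) = v a := by
  by_cases ha : a = 0
  · simp [ha]
  · have h1 : v (-1) = 0 := by
      have h := v.map_const (-1)
      rwa [_root_.map_neg, _root_.map_one] at h
    have h2 := v.map_mul (a := -1) (b := a) (by simp) ha
    rw [neg_one_mul, h1, zero_add] at h2
    exact h2

lemma map_inv (a : L) : v a⁻¹ = -v a := by
  by_cases ha : a = 0
  · simp [ha]
  · have h := v.map_mul ha (inv_ne_zero ha)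
    rw [mul_inv_cancel₀ ha, v.map_one] at h
    linarith

lemma map_div {a b : L} (ha : a ≠ 0) (hb : b ≠ 0) : v (a / b) = v a - v b := by
  rw [div_eq_mul_inv, v.map_mul ha (inv_ne_zero hb), v.map_inv]
  ring

lemma map_pow (a : L) (n : ℕ) : v (a ^ n) = n * v a := by
  by_cases ha : a = 0
  · rcases Nat.eq_zero_or_pos n with h | h
    · simp [h]
    · rw [ha, zero_pow h.ne']
      simp
  · induction n with
    | zero => simp
    | succ n ih =>
      rw [pow_succ, v.map_mul (pow_ne_zero n ha) ha, ih]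
      push_cast
      ring

lemma map_zpow (a : L) (n : ℤ) : v (a ^ n) = n * v a := by
  cases n with
  | ofNat n =>
    rw [Int.ofNat_eq_natCast, zpow_natCast, v.map_pow]
  | negSucc n =>
    rw [zpow_negSucc, v.map_inv, v.map_pow, Int.negSucc_eq]
    push_cast
    ring

lemma map_prod {ι : Type*} (s : Finset ι) (f : ι → L) (hf : ∀ i ∈ s, f i ≠ 0) :
    v (∏ i ∈ s, f i) = ∑ i ∈ s, v (f i) := by
  classical
  induction s using Finset.induction_on with
  | empty => simp
  | insert a s ha ih =>
    rw [Finset.prod_insert ha, Finset.sum_insert ha, v.map_mul (hf a (Finset.mem_insert_self a s)),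
      ih (fun i hi => hf i (Finset.mem_insert_of_mem hi))]
    exact Finset.prod_ne_zero_iff.2 fun i hi => hf i (Finset.mem_insert_of_mem hi)

/-- `v a ≥ n`, with the convention that this always holds for `a = 0`. -/
def Ge (n : ℚ) (a : L) : Prop := a = 0 ∨ n ≤ v a

variable {v}

lemma Ge.zero {n : ℚ} : v.Ge n 0 := Or.inl rfl

lemma ge_iff {n : ℚ} {a : L} (ha : a ≠ 0) : v.Ge n a ↔ n ≤ v a := by
  unfold Ge
  simp [ha]

lemma ge_self (a : L) : v.Ge (v a) a := Or.inr le_rfl

lemma Ge.mono {n m : ℚ} {a : L} (h : v.Ge n a) (hm : m ≤ n) : v.Ge m a := by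
  rcases h with h | h
  · exact Or.inl h
  · exact Or.inr (hm.trans h)

lemma Ge.add {n : ℚ} {a b : L} (ha : v.Ge n a) (hb : v.Ge n b) : v.Ge n (a + b) := by
  by_cases h1 : a = 0
  · rwa [h1, zero_add]
  by_cases h2 : b = 0
  · rwa [h2, add_zero]
  by_cases h3 : a + b = 0
  · exact Or.inl h3
  right
  have h4 := v.map_add' a b h1 h2 h3
  rw [ge_iff h1] at ha
  rw [ge_iff h2] at hb
  have h5 : ((min (v a) (v b) : ℤ) : ℚ) ≤ v (a + b) := by exact_mod_cast h4
  rw [Int.cast_min] at h5
  exact (le_min ha hb).trans h5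

lemma Ge.mul {n m : ℚ} {a b : L} (ha : v.Ge n a) (hb : v.Ge m b) : v.Ge (n + m) (a * b) := by
  by_cases h1 : a = 0
  · left; rw [h1, zero_mul]
  by_cases h2 : b = 0
  · left; rw [h2, mul_zero]
  right
  rw [v.map_mul h1 h2]
  rw [ge_iff h1] at ha
  rw [ge_iff h2] at hb
  push_cast
  linarith

lemma Ge.neg {n : ℚ} {a : L} (ha : v.Ge n a) : v.Ge n (-a) := by
  rcases ha with h | h
  · left; rw [h, neg_zero]
  · right; rwa [v.map_neg]

lemma Ge.sub {n : ℚ} {a b : L} (ha : v.Ge n a) (hb : v.Ge n b) : v.Ge n (a - b) := by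
  rw [sub_eq_add_neg]
  exact ha.add hb.neg

lemma Ge.sum {ι : Type*} {s : Finset ι} {f : ι → L} {n : ℚ} (h : ∀ i ∈ s, v.Ge n (f i)) :
    v.Ge n (∑ i ∈ s, f i) := by
  classical
  induction s using Finset.induction_on with
  | empty => simp [Ge]
  | insert a s ha ih =>
    rw [Finset.sum_insert ha]
    exact (h a (Finset.mem_insert_self a s)).add
      (ih fun i hi => h i (Finset.mem_insert_of_mem hi))

lemma Ge.smul {n : ℚ} {a : L} (ha : v.Ge n a) (c : k) : v.Ge n (c • a) := by
  rw [Algebra.smul_def]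
  have h : v.Ge 0 (algebraMap k L c) := by
    right
    simp
  simpa using h.mul ha

variable (v)

/-- The elements of value `≥ n`. -/
def filt (n : ℚ) : Submodule k L where
  carrier := {a | v.Ge n a}
  zero_mem' := Ge.zero
  add_mem' ha hb := ha.add hb
  smul_mem' c _ ha := ha.smul c

@[simp] lemma mem_filt {n : ℚ} {a : L} : a ∈ v.filt n ↔ v.Ge n a := Iff.rfl

/-- The valuation ring. -/
def ring : Subalgebra k L where
  carrier := {a | 0 ≤ v a}
  mul_mem' {a b} ha hb := by
    change 0 ≤ v a at ha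
    change 0 ≤ v b at hb
    change 0 ≤ v (a * b)
    by_cases h1 : a = 0
    · simp [h1]
    by_cases h2 : b = 0
    · simp [h2]
    rw [v.map_mul h1 h2]
    linarith
  add_mem' {a b} ha hb := by
    change 0 ≤ v a at ha
    change 0 ≤ v b at hb
    change 0 ≤ v (a + b)
    have h1 : v.Ge 0 a := Or.inr (by exact_mod_cast ha)
    have h2 : v.Ge 0 b := Or.inr (by exact_mod_cast hb)
    rcases h1.add h2 with h | h
    · simp [h]
    · exact_mod_cast h
  algebraMap_mem' c := by
    change 0 ≤ v (algebraMap k L c)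
    simp

@[simp] lemma mem_ring {a : L} : a ∈ v.ring ↔ 0 ≤ v a := Iff.rfl

lemma mem_ring_iff_ge {a : L} : a ∈ v.ring ↔ v.Ge 0 a := by
  constructor
  · intro h
    right
    exact_mod_cast h
  · rintro (h | h)
    · rw [h]; exact v.ring.zero_mem
    · exact_mod_cast h

lemma ne_zero_of_pos {a : L} (h : v a ≠ 0) : a ≠ 0 := by
  rintro rfl
  simp at h

lemma exists_uniformizer : ∃ a : L, a ≠ 0 ∧ v a = 1 := by
  obtain ⟨a, ha⟩ := v.surj'
  exact ⟨a, v.ne_zero_of_pos (by omega), ha⟩

lemma add_ne_zero_of_lt {a b : L} (ha : a ≠ 0) (hb : b = 0 ∨ v a < v b) : a + b ≠ 0 := by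
  rcases hb with hb | hb
  · rwa [hb, add_zero]
  intro h
  have : b = -a := by linear_combination h
  rw [this, v.map_neg] at hb
  exact lt_irrefl _ hb

lemma map_add_eq_of_lt {a b : L} (ha : a ≠ 0) (hb : b = 0 ∨ v a < v b) : v (a + b) = v a := by
  by_cases hb0 : b = 0
  · rw [hb0, add_zero]
  have hne := v.add_ne_zero_of_lt ha hb
  have hb1 : v a < v b := hb.resolve_left hb0
  have h1 := v.map_add' a b ha hb0 hne
  have h2 := v.map_add' (a + b) (-b) hne (neg_ne_zero.2 hb0) (by simpa using ha)
  rw [v.map_neg, add_neg_cancel_right] at h2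
  rcases le_total (v a) (v b) with h | h
  · rw [min_eq_left h] at h1
    rcases le_total (v (a + b)) (v b) with h3 | h3
    · rw [min_eq_left h3] at h2
      exact le_antisymm h2 h1
    · rw [min_eq_right h3] at h2
      omega
  · omega

lemma unit_of_ring {a : L} (_ha : a ≠ 0) (h : v a = 0) : a ∈ v.ring ∧ a⁻¹ ∈ v.ring := by
  constructor
  · rw [mem_ring]; omega
  · rw [mem_ring, v.map_inv]; omega

/-- A discrete valuation is determined by its ring, which is maximal. -/
lemma eq_of_ring_le {v w : DVal k L} (h : v.ring ≤ w.ring) : v = w := by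
  obtain ⟨p, hp0, hp⟩ := v.exists_uniformizer
  have h0 : ∀ a : L, a ≠ 0 → v a = 0 → w a = 0 := by
    intro a ha hv
    obtain ⟨h1, h2⟩ := v.unit_of_ring ha hv
    have h3 := h h1
    have h4 := h h2
    rw [mem_ring] at h3 h4
    rw [w.map_inv] at h4
    omega
  have h1 : ∀ a : L, w a = v a * w p := by
    intro a
    by_cases ha : a = 0
    · simp [ha]
    have h2 : v (a * p ^ (-(v a))) = 0 := by
      rw [v.map_mul ha (zpow_ne_zero _ hp0), v.map_zpow, hp]
      ring
    have h3 := h0 _ (mul_ne_zero ha (zpow_ne_zero _ hp0)) h2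
    rw [w.map_mul ha (zpow_ne_zero _ hp0), w.map_zpow] at h3
    linarith
  have h2 : 0 ≤ w p := by
    have : p ∈ v.ring := by rw [mem_ring]; omega
    have := h this
    rwa [mem_ring] at this
  have h3 : w p = 1 := by
    obtain ⟨b, hb⟩ := w.surj'
    rw [h1 b] at hb
    exact Int.eq_one_of_mul_eq_one_left h2 hb
  apply ext
  intro a
  rw [h1 a, h3, mul_one]

lemma eq_of_ring_eq {v w : DVal k L} (h : v.ring = w.ring) : v = w := eq_of_ring_le h.le

/-- The pull back of a valuation by an automorphism. -/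
def comap (σ : L ≃ₐ[k] L) : DVal k L where
  toFun a := v (σ a)
  map_zero' := by simp
  map_mul' a b ha hb := by
    rw [_root_.map_mul, v.map_mul]
    · simpa using ha
    · simpa using hb
  map_add' a b ha hb hab := by
    rw [_root_.map_add]
    apply v.map_add'
    · simpa using ha
    · simpa using hb
    · rw [← _root_.map_add]
      exact fun h => hab ((map_eq_zero_iff σ σ.injective).1 h)
  map_const' c := by simp
  surj' := by
    obtain ⟨a, ha⟩ := v.surj'
    exact ⟨σ.symm a, by simpa using ha⟩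

@[simp] lemma comap_apply (σ : L ≃ₐ[k] L) (a : L) : v.comap σ a = v (σ a) := rfl

/-- Linearly independent translates: a function which is a combination of functions of value
`≥ n` has value `≥ n`. -/
lemma Ge.of_sum_smul {v : DVal k L} {ι : Type*} {s : Finset ι} {f : ι → L} {c : ι → k} {n : ℚ}
    (h : ∀ i ∈ s, v.Ge n (f i)) : v.Ge n (∑ i ∈ s, c i • f i) :=
  Ge.sum fun i hi => (h i hi).smul (c i)

end DVal

end Pool.Agent.Helper92.Weak
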