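import Pool.Agent.Helper92.Weak.Defs
import Pool.Agent.Helper92.Weak.DVal
import Pool.Agent.Helper92.Weak.GrowthE
import Pool.Agent.Helper92.Weak.Core

set_option autoImplicit false

/-! Differential forms as elements of the exterior power of the module of Kähler differentials. -/

namespace Pool.Agent.Helper92.Weak

open scoped KaehlerDifferential
open Module

section Forms

variable (k : Type*) {L : Type*} [Field k] [Field L] [Algebra k L]

/-- The differential form `dz₁ ∧ ... ∧ dzₙ`. -/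
noncomputable def dform {n : ℕ} (z : Fin n → L) : ⋀[L]^n Ω[L⁄k] :=
  exteriorPower.ιMulti L n fun i => KaehlerDifferential.D k L (z i)

variable {k}

/-- The order of vanishing of the rational differential form `ω` of degree `n` along `v` is `a`:
`a` is the largest value `v f` in a presentation `ω = f dz₁ ∧ ... ∧ dzₙ` with all `zᵢ` in the
valuation ring of `v`. -/
def DVal.IsOrd (v : DVal k L) {n : ℕ} (ω : ⋀[L]^n Ω[L⁄k]) (a : ℤ) : Prop :=
  IsGreatest {m : ℤ | ∃ (z : Fin n → L) (f : L), (∀ i, 0 ≤ v (z i)) ∧ f ≠ 0 ∧ v f = m ∧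
    ω = f • dform k z} a

end Forms

namespace ProjVar

variable {k L : Type*} [Field k] [Field L] [Algebra k L] (X : ProjVar k L)

/-- `K` is the divisor of the rational differential form `ω`. -/
def IsDivOf {n : ℕ} (ω : ⋀[L]^n Ω[L⁄k]) (K : X.Div) : Prop :=
  ∀ P, ∃ a : ℤ, K P = a ∧ P.1.IsOrd ω a

/-- The pair `(X, Δ)` is log canonical, where `K` is the divisor of the form `ω`: the divisor
`K + Δ` is `ℚ`-Cartier, and every divisorial valuation `v` has nonnegative log discrepancy
`1 + ord_v ω - v (K + Δ)`. -/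
def IsLC {n : ℕ} (ω : ⋀[L]^n Ω[L⁄k]) (K Δ : X.Div) : Prop :=
  X.IsQCartier (K + Δ) ∧ ∀ v : DVal k L, v.IsDivisorial → ∀ (a : ℤ) (c : ℚ), v.IsOrd ω a →
    X.IsValue v (K + Δ) c → c ≤ 1 + a

end ProjVar

/-- The pair `(Z, (1/N) 𝔅)` given by a set `𝔅` of divisors (a linear system) is log canonical,
where `KZ` is the divisor of the form `ω`: for every divisorial valuation `v`, some member `B` of
`𝔅` satisfies `v(B) ≤ N (1 + ord_v ω - v(KZ))`. -/
def ProjVar.IsLCSystem {k K : Type*} [Field k] [Field K] [Algebra k K] (Z : ProjVar k K) {n : ℕ}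
    (ω : ⋀[K]^n Ω[K⁄k]) (KZ : Z.Div) (N : ℕ) (𝔅 : Set Z.Div) : Prop :=
  ∀ v : DVal k K, v.IsDivisorial → ∀ (a : ℤ) (κ : ℚ), v.IsOrd ω a → Z.IsValue v KZ κ →
    ∃ B ∈ 𝔅, ∀ c, Z.IsValue v B c → c ≤ N * (1 + a - κ)

end Pool.Agent.Helper92.Weak
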