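import Pool.Agent.Helper92.Weak.Var
import Pool.Agent.Helper50.Forms.Basic

set_option autoImplicit false

/-! Comparison of the two descriptions of differential forms. -/

namespace Pool.Agent.Helper92.Weak

open scoped KaehlerDifferential
open Module Pool.Agent.Helper50.Forms

variable {k L : Type*} [Field k] [Field L] [Algebra k L] {n : ℕ}

/-- The zero form has no order. -/
lemma not_isOrd_zero (v : DVal k L) {n : ℕ} (a : ℤ) : ¬ v.IsOrd (0 : ⋀[L]^n Ω[L⁄k]) a := by
  rintro ⟨⟨z, f, hz, hf, hfa, h⟩, hmax⟩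
  obtain ⟨p, hp0, hp⟩ := v.exists_uniformizer
  have h1 : dform k z = 0 := (smul_eq_zero.1 h.symm).resolve_left hf
  have h2 : a + 1 ≤ a := hmax ⟨z, f * p, hz, mul_ne_zero hf hp0, by
    rw [v.map_mul hf hp0, hp, hfa], by rw [h1, smul_zero]⟩
  omega

lemma wedge_eq_det (b : Basis (Fin n) L Ω[L⁄k]) (y : Fin n → L)
    (hb : ∀ i, b i = KaehlerDifferential.D k L (y i)) (z : Fin n → L) :
    wedge k z = b.det (fun j => KaehlerDifferential.D k L (z j)) • wedge k y := by
  funext D
  rw [Pi.smul_apply, smul_eq_mul]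
  unfold wedge
  have h1 : ∀ (δ : Derivation k L L) (x : L), δ x =
      ∑ l, δ (y l) * b.repr (KaehlerDifferential.D k L x) l := by
    intro δ x
    have h2 : δ x = δ.liftKaehlerDifferential (KaehlerDifferential.D k L x) :=
      (δ.liftKaehlerDifferential_comp_D x).symm
    rw [h2]
    conv_lhs => rw [← b.sum_repr (KaehlerDifferential.D k L x)]
    rw [map_sum]
    refine Finset.sum_congr rfl fun l _ => ?_
    rw [map_smul, hb, Derivation.liftKaehlerDifferential_comp_D, smul_eq_mul, mul_comm]
  have h3 : (Matrix.of fun i j => D i (z j)) = (Matrix.of fun i j => D i (y j)) *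
      b.toMatrix (fun j => KaehlerDifferential.D k L (z j)) := by
    ext i j
    rw [Matrix.mul_apply, Matrix.of_apply, h1]
    rfl
  rw [h3, Matrix.det_mul, mul_comm]
  rfl

lemma wedge_smul_inj (b : Basis (Fin n) L Ω[L⁄k]) (y : Fin n → L)
    (hb : ∀ i, b i = KaehlerDifferential.D k L (y i)) {f g : L}
    (h : f • wedge k y = g • wedge k y) : f = g := by
  let δ : Fin n → Derivation k L L := fun i => (b.coord i).compDer (KaehlerDifferential.D k L)
  have h1 : ∀ i j, δ i (y j) = (1 : Matrix (Fin n) (Fin n) L) i j := by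
    intro i j
    change b.coord i (KaehlerDifferential.D k L (y j)) = _
    rw [← hb, b.coord_apply, b.repr_self, Finsupp.single_apply, Matrix.one_apply]
    simp only [eq_comm]
  have h2 : wedge k y δ = 1 := by
    unfold wedge
    have h3 : (Matrix.of fun i j => δ i (y j)) = (1 : Matrix (Fin n) (Fin n) L) := by
      ext i j
      rw [Matrix.of_apply, h1]
    rw [h3, Matrix.det_one]
  have h4 := congrFun h δ
  rw [Pi.smul_apply, Pi.smul_apply, h2, smul_eq_mul, smul_eq_mul, mul_one, mul_one] at h4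
  exact h4

lemma smul_wedge_eq_iff (b : Basis (Fin n) L Ω[L⁄k]) (y : Fin n → L)
    (hb : ∀ i, b i = KaehlerDifferential.D k L (y i)) {f g : L} {z z' : Fin n → L} :
    f • wedge k z = g • wedge k z' ↔ f • dform k z = g • dform k z' := by
  rw [wedge_eq_det b y hb z, wedge_eq_det b y hb z', dform_eq_det y b hb z,
    dform_eq_det y b hb z', smul_smul, smul_smul, smul_smul, smul_smul]
  constructor
  · intro h
    rw [wedge_smul_inj b y hb h]
  · intro h
    rw [smul_dform_inj y b hb h]

/-- Every form corresponds to an element of the exterior power with the same orders. -/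
theorem exists_form (b : Basis (Fin n) L Ω[L⁄k]) (y : Fin n → L)
    (hb : ∀ i, b i = KaehlerDifferential.D k L (y i)) (ω : Form k L n) :
    ∃ ω' : ⋀[L]^n Ω[L⁄k], ∀ (v : DVal k L) (a : ℤ), v.HasOrd ω a ↔ v.IsOrd ω' a := by
  by_cases h : ∃ (z : Fin n → L) (f : L), ω = f • wedge k z
  · obtain ⟨z, f, rfl⟩ := h
    refine ⟨f • dform k z, fun v a => ?_⟩
    unfold DVal.HasOrd DVal.IsOrd
    simp only [smul_wedge_eq_iff b y hb]
  · refine ⟨0, fun v a => ⟨?_, fun h1 => absurd h1 (not_isOrd_zero v a)⟩⟩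
    rintro ⟨⟨z, f, -, -, -, h1⟩, -⟩
    exact absurd ⟨z, f, h1⟩ h

end Pool.Agent.Helper92.Weak
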