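import Pool.Agent.Helper92.Weak.FormsT

set_option autoImplicit false

/-! The order of `η ∧ dlog t₁ ∧ ... ∧ dlog t_r` along the invariant valuations. -/

namespace Pool.Agent.Helper92.Weak

open scoped KaehlerDifferential
open Module Pool.Agent.Helper50.Forms

variable {k K L : Type*} [Field k] [Field K] [Field L] [Algebra k K] [Algebra k L] [Algebra K L]
  [IsScalarTower k K L] {r : ℕ} {t : Fin r → L}

lemma castAdd_ne_natAdd {d : ℕ} (i : Fin d) (l : Fin r) : Fin.castAdd r i ≠ Fin.natAdd d l := by
  intro h
  have := congrArg Fin.val h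
  simp at this
  omega

lemma not_mem_image_nat {d : ℕ} (i : Fin d) :
    Fin.castAdd r i ∉ Finset.univ.image (Fin.natAdd d : Fin r → Fin (d + r)) := by
  intro hmem
  obtain ⟨l, -, hl⟩ := Finset.mem_image.1 hmem
  exact castAdd_ne_natAdd i l hl.symm

lemma sum_image_nat {M : Type*} [AddCommMonoid M] {d : ℕ} (F : Fin (d + r) → M) :
    ∑ i ∈ Finset.univ.image (Fin.natAdd d : Fin r → Fin (d + r)), F i =
      ∑ l, F (Fin.natAdd d l) := by
  rw [Finset.sum_image fun a _ b _ hab => Fin.natAdd_injective r d hab]

lemma sum_insert_image_nat {M : Type*} [AddCommMonoid M] {d : ℕ} (i : Fin d)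
    (F : Fin (d + r) → M) :
    ∑ i ∈ insert (Fin.castAdd r i) (Finset.univ.image (Fin.natAdd d : Fin r → Fin (d + r))), F i =
      F (Fin.castAdd r i) + ∑ l, F (Fin.natAdd d l) := by
  rw [Finset.sum_insert (not_mem_image_nat i), sum_image_nat]

omit [Algebra k K] [IsScalarTower k K L] in
lemma prod_inv_val (ht : IsTorus K t) (V : DVal k L) :
    V (∏ l, (t l)⁻¹) = -∑ l, V (t l) := by
  rw [V.map_prod _ _ fun l _ => inv_ne_zero (ht.ne_zero l), ← Finset.sum_neg_distrib]
  exact Finset.sum_congr rfl fun l _ => V.map_inv _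

/-- The derivation attached to a functional. -/
lemma exists_der {n : ℕ} (B : Basis (Fin n) L Ω[L⁄k]) (c : Fin n → L) :
    ∃ δ : Derivation k L L, ∀ y, δ y = ∑ i, c i * B.repr (KaehlerDifferential.D k L y) i := by
  refine ⟨(∑ i, c i • B.coord i).compDer (KaehlerDifferential.D k L), fun y => ?_⟩
  rw [Derivation.coe_comp]
  simp

/-- Vertical monomial valuations. -/
theorem isOrd_vert [CharZero k] {d : ℕ} {y : Fin d → K} (hy : IsTranscendenceBasis k y)
    (ht : IsTorus K t) (v₀ : DVal k K) (e : ℕ) (he : 0 < e) (w : Fin r → ℤ)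
    (hs : ∃ (c : K) (u : Fin r → ℤ), c ≠ 0 ∧ ZVal.ofDVal e v₀ c + ipair w u = 1)
    {f : K} (hf : f ≠ 0) (z : Fin d → K) (hz : dform k z ≠ 0) {a : ℤ}
    (h : v₀.IsOrd (f • dform k z) a) :
    (monoVal ht (ZVal.ofDVal e v₀) w hs).IsOrd (omega0 (k := k) t f z) (e * (a + 1) - 1) := by
  classical
  obtain ⟨b₀, -⟩ := exists_kaehler_basis hy
  obtain ⟨z₁, b₁, f₁, hb₁, hz₁, hc₁, hf₁, hvf₁, hω⟩ := exists_coord v₀ b₀ (smul_ne_zero hf hz) h
  obtain ⟨p, hp0, hp⟩ := v₀.exists_uniformizer
  obtain ⟨z', b', i₀, q, hb', hz', hc', hi₀, hq0, hq, hd⟩ :=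
    exists_coord_uniformizer hy v₀ p hp z₁ b₁ hb₁ hz₁ hc₁
  obtain ⟨B, hB, hB1, hB2⟩ := exists_basis_tower hy t ht.indep ht.gen z' b' hb'
  have hfg : f * b'.det (fun j => KaehlerDifferential.D k K (z j)) = f₁ * q := by
    rw [dform_eq_det z' b' hb' z, smul_smul, hd, smul_smul] at hω
    exact smul_dform_inj z' b' hb' hω
  have hg0 : f₁ * q ≠ 0 := mul_ne_zero hf₁ hq0
  have hvg : v₀ (f₁ * q) = a := by rw [v₀.map_mul hf₁ hq0, hvf₁, hq, add_zero]
  set V := monoVal ht (ZVal.ofDVal e v₀) w hs with hV
  have hVK : ∀ c : K, V (algebraMap K L c) = e * v₀ c := fun c =>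
    monoVal_algebraMap ht _ w hs c
  have hVt : ∀ l, V (t l) = w l := monoVal_t ht _ w hs
  have homega : omega0 (k := k) t f z = (algebraMap K L (f₁ * q) * ∏ l, (t l)⁻¹) •
      dform k (Fin.append (fun i => algebraMap K L (z' i)) t) := by
    rw [omega0, dform_append t z z' b' B hB hB1 hB2, smul_smul, ← hfg, _root_.map_mul]
    congr 1
    ring
  set x : Fin (d + r) → L := Fin.append (fun i => algebraMap K L (z' i)) t with hx
  have hxc : ∀ i, x (Fin.castAdd r i) = algebraMap K L (z' i) := fun i => by
    rw [hx, Fin.append_left]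
  have hxn : ∀ l, x (Fin.natAdd d l) = t l := fun l => by rw [hx, Fin.append_right]
  set S : Finset (Fin (d + r)) := insert (Fin.castAdd r i₀) (Finset.univ.image (Fin.natAdd d))
    with hS
  have hsum : ∀ (F : Fin (d + r) → L),
      ∑ i ∈ S, F i = F (Fin.castAdd r i₀) + ∑ l, F (Fin.natAdd d l) :=
    fun F => sum_insert_image_nat i₀ F
  have hsumZ : ∀ (F : Fin (d + r) → ℤ),
      ∑ i ∈ S, F i = F (Fin.castAdd r i₀) + ∑ l, F (Fin.natAdd d l) :=
    fun F => sum_insert_image_nat i₀ F
  have hmemc : ∀ i, Fin.castAdd r i ∈ S ↔ i = i₀ := by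
    intro i
    rw [hS, Finset.mem_insert]
    constructor
    · rintro (h1 | h1)
      · exact Fin.castAdd_injective d r h1
      · obtain ⟨l, -, hl⟩ := Finset.mem_image.1 h1
        exact absurd hl.symm (castAdd_ne_natAdd i l)
    · rintro rfl
      exact Or.inl rfl
  have hmemn : ∀ l, Fin.natAdd d l ∈ S := fun l => by
    rw [hS]
    exact Finset.mem_insert_of_mem (Finset.mem_image_of_mem _ (Finset.mem_univ l))
  -- the values of the coordinates
  have hVp : V (x (Fin.castAdd r i₀)) = e := by
    rw [hxc, hVK, hi₀, hp, mul_one]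
  have hsumV : ∑ i ∈ S, V (x i) = e + ∑ l, w l := by
    rw [hsumZ, hVp]
    congr 1
    exact Finset.sum_congr rfl fun l _ => by rw [hxn, hVt]
  -- derivations of terms
  have hterm0 : ∀ (a : K) (u : Fin r → ℤ), a ≠ 0 → ∃ c : K, (c = 0 ∨ v₀ a + 1 ≤ v₀ c) ∧
      x (Fin.castAdd r i₀) * B.repr (KaehlerDifferential.D k L (a • mono t u))
        (Fin.castAdd r i₀) = c • mono t u + (v₀ a : L) * (a • mono t u) := by
    intro a u ha
    obtain ⟨c, hc, h1⟩ := repr_split hp hi₀ hb' hc' ha i₀
    refine ⟨p * (p ^ (v₀ a) * c), ?_, ?_⟩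
    · by_cases hc0 : c = 0
      · left; rw [hc0, mul_zero, mul_zero]
      · right
        rw [v₀.map_mul hp0 (mul_ne_zero (zpow_ne_zero _ hp0) hc0),
          v₀.map_mul (zpow_ne_zero _ hp0) hc0, v₀.map_zpow, hp]
        linarith
    · rw [repr_term_cast ht hB hB1, h1, if_pos rfl, hxc, hi₀]
      rw [Algebra.smul_def, Algebra.smul_def, Algebra.smul_def]
      simp only [_root_.map_mul, map_add, map_inv₀, map_intCast]
      have hpL : algebraMap K L p ≠ 0 := by simpa using hp0
      field_simp
  have hterm1 : ∀ (a : K) (u : Fin r → ℤ) (i : Fin d), a ≠ 0 → i ≠ i₀ →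
      ∃ c : K, (c = 0 ∨ v₀ a ≤ v₀ c) ∧
      B.repr (KaehlerDifferential.D k L (a • mono t u)) (Fin.castAdd r i) = c • mono t u := by
    intro a u i ha hi
    obtain ⟨c, hc, h1⟩ := repr_split hp hi₀ hb' hc' ha i
    refine ⟨p ^ (v₀ a) * c, ?_, ?_⟩
    · by_cases hc0 : c = 0
      · left; rw [hc0, mul_zero]
      · right
        rw [v₀.map_mul (zpow_ne_zero _ hp0) hc0, v₀.map_zpow, hp]
        linarith
    · rw [repr_term_cast ht hB hB1, h1, if_neg hi, add_zero]
  have hterm2 : ∀ (a : K) (u : Fin r → ℤ) (l : Fin r),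
      x (Fin.natAdd d l) * B.repr (KaehlerDifferential.D k L (a • mono t u)) (Fin.natAdd d l) =
        (u l : L) * (a • mono t u) := by
    intro a u l
    rw [repr_term_nat ht hB hB2, hxn]
    have := ht.ne_zero l
    field_simp
  have hint : ∀ n : ℤ, V.Ge 0 (n : L) := by
    intro n
    have h : (n : L) ∈ V.ring := by
      have := V.ring.algebraMap_mem (n : k)
      rwa [map_intCast] at this
    exact (V.mem_ring_iff_ge).1 h
  have hVterm : ∀ (a : K) (u : Fin r → ℤ), a ≠ 0 → V.Ge ((ZVal.ofDVal e v₀ a + ipair w u : ℤ) : ℚ)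
      (a • mono t u) := by
    intro a u ha
    right
    rw [hV, monoVal_term ht _ w hs ha]
  have hO : ∀ a : K, (ZVal.ofDVal e v₀ : ZVal k K) a = e * v₀ a := fun _ => rfl
  have key : V.IsOrd ((algebraMap K L (f₁ * q) * ∏ l, (t l)⁻¹) • dform k x)
      (V (algebraMap K L (f₁ * q) * ∏ l, (t l)⁻¹) + ∑ i ∈ S, V (x i) - 1) := by
    refine isOrd_log V x B hB S ?_ ?_ ?_ ?_ ?_ ?_ (ht.coef_ne hg0)
    · intro i hi
      induction i using Fin.addCases with
      | left i =>
        rw [(hmemc i).1 hi, hxc, hi₀]
        simpa using hp0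
      | right l =>
        rw [hxn]
        exact ht.ne_zero l
    · intro i hi
      induction i using Fin.addCases with
      | left i =>
        rw [hxc, hVK]
        exact mul_nonneg (by positivity) (hz' i)
      | right l => exact absurd (hmemn l) hi
    · intro y hy i hi
      obtain ⟨δ, hδ⟩ := exists_der B (fun j => if j = i then x i else 0)
      have hδ' : ∀ y, δ y = x i * B.repr (KaehlerDifferential.D k L y) i := by
        intro y
        rw [hδ, Finset.sum_eq_single i]
        · rw [if_pos rfl]
        · intro j _ hj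
          rw [if_neg hj, zero_mul]
        · simp
      have h1 : V.Ge (V y) (δ y) := by
        apply der_ge ht _ w hs
        intro a u ha
        rw [hδ', ← hV]
        induction i using Fin.addCases with
        | left i =>
          have hi' := (hmemc i).1 hi
          subst hi'
          obtain ⟨c, hc, h2⟩ := hterm0 a u ha
          rw [h2]
          apply DVal.Ge.add
          · refine (ge_term ht v₀ e w hs hc u).mono ?_
            have he' : (0 : ℚ) ≤ e := by positivity
            rw [hO]
            push_cast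
            linarith
          · refine ((hint (v₀ a)).mul (hVterm a u ha)).mono ?_
            linarith
        | right l =>
          rw [hterm2]
          refine ((hint (u l)).mul (hVterm a u ha)).mono ?_
          linarith
      rw [hδ'] at h1
      have h2 : V.Ge 0 (x i * B.repr (KaehlerDifferential.D k L y) i) :=
        h1.mono (by exact_mod_cast hy)
      exact (V.mem_ring_iff_ge).2 h2
    · intro y hy i hi
      obtain ⟨δ, hδ⟩ := exists_der B (fun j => if j = i then 1 else 0)
      have hδ' : ∀ y, δ y = B.repr (KaehlerDifferential.D k L y) i := by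
        intro y
        rw [hδ, Finset.sum_eq_single i]
        · rw [if_pos rfl, one_mul]
        · intro j _ hj
          rw [if_neg hj, zero_mul]
        · simp
      have h1 : V.Ge (V y) (δ y) := by
        apply der_ge ht _ w hs
        intro a u ha
        rw [hδ', ← hV]
        induction i using Fin.addCases with
        | left i =>
          have hi' : i ≠ i₀ := fun h => hi ((hmemc i).2 h)
          obtain ⟨c, hc, h2⟩ := hterm1 a u i ha hi'
          rw [h2]
          refine (ge_term ht v₀ e w hs hc u).mono ?_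
          rw [hO]
        | right l => exact absurd (hmemn l) hi
      rw [hδ'] at h1
      exact (V.mem_ring_iff_ge).2 (h1.mono (by exact_mod_cast hy))
    · intro y hy
      obtain ⟨δ, hδ⟩ := exists_der B (fun j => if j ∈ S then (V (x j) : L) * x j else 0)
      have hδ' : ∀ y, δ y =
          ∑ i ∈ S, (V (x i) : L) * (x i * B.repr (KaehlerDifferential.D k L y) i) := by
        intro y
        rw [hδ, ← Finset.sum_subset (Finset.subset_univ S)]
        · exact Finset.sum_congr rfl fun i hi => by rw [if_pos hi]; ring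
        · intro i _ hi
          rw [if_neg hi, zero_mul]
      have h1 : V.Ge (V y + 1) (δ y - (V y : L) * y) := by
        apply euler_ge ht _ w hs
        intro a u ha
        rw [← hV, hδ', hsum]
        obtain ⟨c, hc, h2⟩ := hterm0 a u ha
        have h3 : (V (x (Fin.castAdd r i₀)) : L) * (x (Fin.castAdd r i₀) *
            B.repr (KaehlerDifferential.D k L (a • mono t u)) (Fin.castAdd r i₀)) +
            ∑ l, (V (x (Fin.natAdd d l)) : L) * (x (Fin.natAdd d l) *
              B.repr (KaehlerDifferential.D k L (a • mono t u)) (Fin.natAdd d l)) -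
            ((ZVal.ofDVal e v₀ a + ipair w u : ℤ) : L) * (a • mono t u) =
            (e : L) * (c • mono t u) := by
          rw [h2, hVp, hO]
          simp only [hterm2]
          simp only [hxn, hVt]
          have h4 : ∑ l, (w l : L) * ((u l : L) * (a • mono t u)) =
              (ipair w u : L) * (a • mono t u) := by
            unfold ipair
            push_cast
            rw [Finset.sum_mul]
            exact Finset.sum_congr rfl fun l _ => by ring
          rw [h4]
          push_cast
          ring
        rw [h3]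
        have h5 := (hint (e : ℤ)).mul (ge_term ht v₀ e w hs hc u)
        rw [Int.cast_natCast] at h5
        refine h5.mono ?_
        rw [hO]
        have he' : (1 : ℚ) ≤ e := by exact_mod_cast he
        push_cast
        linarith
      rw [← hδ']
      have h6 : δ y = (δ y - (V y : L) * y) + (V y : L) * y := by ring
      rw [h6]
      apply DVal.Ge.add
      · refine h1.mono ?_
        have : (0 : ℚ) ≤ V y := by exact_mod_cast hy
        linarith
      · rcases hy.eq_or_lt with h7 | h7
        · rw [← h7]
          left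
          simp
        · refine ((hint (V y)).mul (DVal.ge_self y)).mono ?_
          have : (1 : ℚ) ≤ V y := by exact_mod_cast h7
          linarith
    · obtain ⟨c, u, hc, h1⟩ := hs
      refine ⟨Fin.append (fun _ => v₀ c) u, ?_⟩
      rw [hsumZ, Fin.append_left, hVp, ← h1, hO]
      congr 1
      · ring
      · unfold ipair
        exact Finset.sum_congr rfl fun l _ => by rw [Fin.append_right, hxn, hVt]
  rw [homega]
  have hval : V (algebraMap K L (f₁ * q) * ∏ l, (t l)⁻¹) + ∑ i ∈ S, V (x i) - 1 =
      e * (a + 1) - 1 := by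
    rw [V.map_mul (by simpa using hg0) (Finset.prod_ne_zero_iff.2 fun l _ =>
      inv_ne_zero (ht.ne_zero l)), hVK, hvg, prod_inv_val ht, hsumV]
    simp only [hVt]
    ring
  rw [hval] at key
  exact key

/-- Horizontal monomial valuations. -/
theorem isOrd_hor [CharZero k] {d : ℕ} {y : Fin d → K} (hy : IsTranscendenceBasis k y)
    (ht : IsTorus K t) (w : Fin r → ℤ)
    (hs : ∃ (c : K) (u : Fin r → ℤ), c ≠ 0 ∧ ZVal.trivial k K c + ipair w u = 1)
    {f : K} (hf : f ≠ 0) (z : Fin d → K) (hz : dform k z ≠ 0) :
    (monoVal ht (ZVal.trivial k K) w hs).IsOrd (omega0 (k := k) t f z) (-1) := by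
  classical
  obtain ⟨b₀, -⟩ := exists_kaehler_basis hy
  obtain ⟨b, hb⟩ := exists_basis_of_ne_zero b₀ z hz
  obtain ⟨B, hB, hB1, hB2⟩ := exists_basis_tower hy t ht.indep ht.gen z b hb
  set V := monoVal ht (ZVal.trivial k K) w hs with hV
  have hO : ∀ a : K, (ZVal.trivial k K : ZVal k K) a = 0 := fun _ => rfl
  have hVK : ∀ c : K, V (algebraMap K L c) = 0 := fun c =>
    monoVal_algebraMap ht _ w hs c
  have hVt : ∀ l, V (t l) = w l := monoVal_t ht _ w hs
  rw [omega0]
  set x : Fin (d + r) → L := Fin.append (fun i => algebraMap K L (z i)) t with hx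
  have hxc : ∀ i, x (Fin.castAdd r i) = algebraMap K L (z i) := fun i => by
    rw [hx, Fin.append_left]
  have hxn : ∀ l, x (Fin.natAdd d l) = t l := fun l => by rw [hx, Fin.append_right]
  set S : Finset (Fin (d + r)) := Finset.univ.image (Fin.natAdd d) with hS
  have hsum : ∀ (F : Fin (d + r) → L), ∑ i ∈ S, F i = ∑ l, F (Fin.natAdd d l) :=
    fun F => sum_image_nat F
  have hsumZ : ∀ (F : Fin (d + r) → ℤ), ∑ i ∈ S, F i = ∑ l, F (Fin.natAdd d l) :=
    fun F => sum_image_nat F
  have hmemc : ∀ i, Fin.castAdd r i ∉ S := by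
    intro i hi
    obtain ⟨l, -, hl⟩ := Finset.mem_image.1 hi
    exact absurd hl.symm (castAdd_ne_natAdd i l)
  have hmemn : ∀ l, Fin.natAdd d l ∈ S := fun l =>
    Finset.mem_image_of_mem _ (Finset.mem_univ l)
  have hsumV : ∑ i ∈ S, V (x i) = ∑ l, w l := by
    rw [hsumZ]
    exact Finset.sum_congr rfl fun l _ => by rw [hxn, hVt]
  have hterm2 : ∀ (a : K) (u : Fin r → ℤ) (l : Fin r),
      x (Fin.natAdd d l) * B.repr (KaehlerDifferential.D k L (a • mono t u)) (Fin.natAdd d l) =
        (u l : L) * (a • mono t u) := by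
    intro a u l
    rw [repr_term_nat ht hB hB2, hxn]
    have := ht.ne_zero l
    field_simp
  have hint : ∀ n : ℤ, V.Ge 0 (n : L) := by
    intro n
    have h : (n : L) ∈ V.ring := by
      have := V.ring.algebraMap_mem (n : k)
      rwa [map_intCast] at this
    exact (V.mem_ring_iff_ge).1 h
  have hVterm : ∀ (a : K) (u : Fin r → ℤ), V.Ge ((ipair w u : ℤ) : ℚ) (a • mono t u) := by
    intro a u
    by_cases ha : a = 0
    · rw [ha, zero_smul]; exact DVal.Ge.zero
    right
    rw [hV, monoVal_term ht _ w hs ha, hO, zero_add]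
  have key : V.IsOrd ((algebraMap K L f * ∏ l, (t l)⁻¹) • dform k x)
      (V (algebraMap K L f * ∏ l, (t l)⁻¹) + ∑ i ∈ S, V (x i) - 1) := by
    refine isOrd_log V x B hB S ?_ ?_ ?_ ?_ ?_ ?_ (ht.coef_ne hf)
    · intro i hi
      induction i using Fin.addCases with
      | left i => exact absurd hi (hmemc i)
      | right l => rw [hxn]; exact ht.ne_zero l
    · intro i hi
      induction i using Fin.addCases with
      | left i => rw [hxc, hVK]
      | right l => exact absurd (hmemn l) hi
    · intro y hy i hi
      obtain ⟨δ, hδ⟩ := exists_der B (fun j => if j = i then x i else 0)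
      have hδ' : ∀ y, δ y = x i * B.repr (KaehlerDifferential.D k L y) i := by
        intro y
        rw [hδ, Finset.sum_eq_single i]
        · rw [if_pos rfl]
        · intro j _ hj
          rw [if_neg hj, zero_mul]
        · simp
      have h1 : V.Ge (V y) (δ y) := by
        apply der_ge ht _ w hs
        intro a u ha
        rw [hδ', ← hV]
        induction i using Fin.addCases with
        | left i => exact absurd hi (hmemc i)
        | right l =>
          rw [hterm2]
          refine ((hint (u l)).mul (hVterm a u)).mono ?_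
          rw [hO, zero_add, zero_add]
      rw [hδ'] at h1
      exact (V.mem_ring_iff_ge).2 (h1.mono (by exact_mod_cast hy))
    · intro y hy i hi
      obtain ⟨δ, hδ⟩ := exists_der B (fun j => if j = i then 1 else 0)
      have hδ' : ∀ y, δ y = B.repr (KaehlerDifferential.D k L y) i := by
        intro y
        rw [hδ, Finset.sum_eq_single i]
        · rw [if_pos rfl, one_mul]
        · intro j _ hj
          rw [if_neg hj, zero_mul]
        · simp
      have h1 : V.Ge (V y) (δ y) := by
        apply der_ge ht _ w hs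
        intro a u ha
        rw [hδ', ← hV]
        induction i using Fin.addCases with
        | left i =>
          rw [repr_term_cast ht hB hB1]
          refine (hVterm _ u).mono ?_
          rw [hO, zero_add]
        | right l => exact absurd (hmemn l) hi
      rw [hδ'] at h1
      exact (V.mem_ring_iff_ge).2 (h1.mono (by exact_mod_cast hy))
    · intro y hy
      obtain ⟨δ, hδ⟩ := exists_der B (fun j => if j ∈ S then (V (x j) : L) * x j else 0)
      have hδ' : ∀ y, δ y =
          ∑ i ∈ S, (V (x i) : L) * (x i * B.repr (KaehlerDifferential.D k L y) i) := by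
        intro y
        rw [hδ, ← Finset.sum_subset (Finset.subset_univ S)]
        · exact Finset.sum_congr rfl fun i hi => by rw [if_pos hi]; ring
        · intro i _ hi
          rw [if_neg hi, zero_mul]
      have h1 : V.Ge (V y + 1) (δ y - (V y : L) * y) := by
        apply euler_ge ht _ w hs
        intro a u ha
        rw [← hV, hδ', hsum]
        have h3 : ∑ l, (V (x (Fin.natAdd d l)) : L) * (x (Fin.natAdd d l) *
              B.repr (KaehlerDifferential.D k L (a • mono t u)) (Fin.natAdd d l)) -
            ((ZVal.trivial k K a + ipair w u : ℤ) : L) * (a • mono t u) = 0 := by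
          simp only [hterm2]
          simp only [hxn, hVt, hO, zero_add]
          have h4 : ∑ l, (w l : L) * ((u l : L) * (a • mono t u)) =
              (ipair w u : L) * (a • mono t u) := by
            unfold ipair
            push_cast
            rw [Finset.sum_mul]
            exact Finset.sum_congr rfl fun l _ => by ring
          rw [h4, sub_self]
        rw [h3]
        exact DVal.Ge.zero
      rw [← hδ']
      have h6 : δ y = (δ y - (V y : L) * y) + (V y : L) * y := by ring
      rw [h6]
      apply DVal.Ge.add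
      · refine h1.mono ?_
        have : (0 : ℚ) ≤ V y := by exact_mod_cast hy
        linarith
      · rcases hy.eq_or_lt with h7 | h7
        · rw [← h7]
          left
          simp
        · refine ((hint (V y)).mul (DVal.ge_self y)).mono ?_
          have : (1 : ℚ) ≤ V y := by exact_mod_cast h7
          linarith
    · obtain ⟨c, u, hc, h1⟩ := hs
      refine ⟨Fin.append (fun _ => 0) u, ?_⟩
      rw [hsumZ, ← h1, hO, zero_add]
      unfold ipair
      exact Finset.sum_congr rfl fun l _ => by rw [Fin.append_right, hxn, hVt]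
  have hval : V (algebraMap K L f * ∏ l, (t l)⁻¹) + ∑ i ∈ S, V (x i) - 1 = -1 := by
    rw [V.map_mul (by simpa using hf) (Finset.prod_ne_zero_iff.2 fun l _ =>
      inv_ne_zero (ht.ne_zero l)), hVK, prod_inv_val ht, hsumV]
    simp only [hVt]
    ring
  rw [hval] at key
  exact key

open MvPolynomial in
/-- Prime polynomials which are not variables. -/
theorem isOrd_polyVal [CharZero k] {d : ℕ} {y : Fin d → K} (hy : IsTranscendenceBasis k y)
    (ht : IsTorus K t) {p : MvPolynomial (Fin r) K} (hp : Prime p)
    (hi : ∀ i, ¬ p ∣ MvPolynomial.X i)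
    {f : K} (hf : f ≠ 0) (z : Fin d → K) (hz : dform k z ≠ 0) :
    (polyVal k ht p hp).IsOrd (omega0 (k := k) t f z) 0 := by
  classical
  obtain ⟨b₀, -⟩ := exists_kaehler_basis hy
  obtain ⟨b, hb⟩ := exists_basis_of_ne_zero b₀ z hz
  obtain ⟨B, hB, hB1, hB2⟩ := exists_basis_tower hy t ht.indep ht.gen z b hb
  set V := polyVal k ht p hp with hV
  rw [omega0]
  set x : Fin (d + r) → L := Fin.append (fun i => algebraMap K L (z i)) t with hx
  have hxc : ∀ i, x (Fin.castAdd r i) = algebraMap K L (z i) := fun i => by
    rw [hx, Fin.append_left]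
  have hxn : ∀ l, x (Fin.natAdd d l) = t l := fun l => by rw [hx, Fin.append_right]
  have hcast : ∀ c : K, algebraMap K L c = aeval t (C c : MvPolynomial (Fin r) K) := fun c => by
    simp
  have hpoly : ∀ (q : MvPolynomial (Fin r) K) (i : Fin (d + r)),
      ∃ q' : MvPolynomial (Fin r) K,
        B.repr (KaehlerDifferential.D k L (aeval t q)) i = aeval t q' := by
    intro q i
    induction q using MvPolynomial.induction_on with
    | C a =>
      rw [← hcast]
      induction i using Fin.addCases with
      | left i => exact ⟨C (b.repr (KaehlerDifferential.D k K a) i), by rw [hB1, ← hcast]⟩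
      | right l => exact ⟨0, by rw [hB2, map_zero]⟩
    | add q₁ q₂ h1 h2 =>
      obtain ⟨a₁, h1⟩ := h1
      obtain ⟨a₂, h2⟩ := h2
      exact ⟨a₁ + a₂, by rw [map_add, map_add, map_add, Finsupp.add_apply, h1, h2, map_add]⟩
    | mul_X q j h1 =>
      obtain ⟨a₁, h1⟩ := h1
      have h2 : KaehlerDifferential.D k L (t j) = B (Fin.natAdd d j) := by
        rw [hB, hxn]
      refine ⟨q * C (if Fin.natAdd d j = i then 1 else 0) + X j * a₁, ?_⟩
      rw [_root_.map_mul, aeval_X, Derivation.leibniz, map_add, map_smul, map_smul,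
        Finsupp.add_apply, Finsupp.smul_apply, Finsupp.smul_apply, h1, h2, B.repr_self,
        Finsupp.single_apply, map_add, _root_.map_mul, _root_.map_mul, aeval_X, smul_eq_mul,
        smul_eq_mul, ← hcast]
      congr 2
      split_ifs <;> simp
  have key : V.IsOrd ((algebraMap K L f * ∏ l, (t l)⁻¹) • dform k x)
      (V (algebraMap K L f * ∏ l, (t l)⁻¹)) := by
    refine isOrd_of_coord V x B hB ?_ ?_ (ht.coef_ne hf)
    · intro i
      induction i using Fin.addCases with
      | left i => rw [hxc, hV, polyVal_algebraMap]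
      | right l => rw [hxn, hV, polyVal_t k ht hp (hi l)]
    · intro y hy i
      have hy' : y ∈ V.ring := hy
      rw [hV, mem_polyVal_ring] at hy'
      obtain ⟨a', b', hb', rfl⟩ := hy'
      obtain ⟨a₁, h1⟩ := hpoly a' i
      obtain ⟨b₁, h2⟩ := hpoly b' i
      have h3 : B.repr (KaehlerDifferential.D k L (aeval t a' / aeval t b')) i =
          aeval t (b' * a₁ - a' * b₁) / aeval t (b' ^ 2) := by
        rw [Derivation.leibniz_div, map_smul, map_sub, map_smul, map_smul, Finsupp.smul_apply,
          Finsupp.sub_apply, Finsupp.smul_apply, Finsupp.smul_apply, h1, h2]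
        simp only [smul_eq_mul, map_sub, _root_.map_mul, map_pow]
        rw [div_eq_mul_inv, inv_pow, mul_comm]
      rw [h3]
      change _ ∈ V.ring
      rw [hV, mem_polyVal_ring]
      exact ⟨_, _, fun h => hb' (hp.dvd_of_dvd_pow h), rfl⟩
  have hval : V (algebraMap K L f * ∏ l, (t l)⁻¹) = 0 := by
    rw [V.map_mul (by simpa using hf) (Finset.prod_ne_zero_iff.2 fun l _ =>
      inv_ne_zero (ht.ne_zero l)), prod_inv_val ht, hV, polyVal_algebraMap]
    simp [polyVal_t k ht hp (hi _)]
  rw [hval] at key
  exact key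

end Pool.Agent.Helper92.Weak
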