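import Pool.Agent.Helper92.Weak.Adj2
import Pool.Agent.Helper92.Weak.FormsOrd
import Pool.Agent.Helper92.Weak.Bridge

set_option autoImplicit false
set_option linter.unusedSectionVars false

/-! The comparison theorem for log canonical pairs with torus action. -/

namespace Pool.Agent.Helper92.Weak

open scoped KaehlerDifferential
open Module

section

variable {k L : Type*} [Field k] [Field L] [Algebra k L]

lemma isOrd_unique {v : DVal k L} {n : ℕ} {ω : ⋀[L]^n Ω[L⁄k]} {a b : ℤ} (ha : v.IsOrd ω a)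
    (hb : v.IsOrd ω b) : a = b := ha.unique hb

/-- If there is a discrete valuation then there is a prime divisor. -/
lemma ProjVar.exists_prime (X : ProjVar k L) (v : DVal k L) : ∃ P, P ∈ X.primeDivisors := by
  obtain ⟨R, hR, hRv⟩ := X.exists_center v
  obtain ⟨p, hp0, hp⟩ := v.exists_uniformizer
  by_contra hcon
  push Not at hcon
  have h1 : p⁻¹ ∈ R := X.hartogs hR fun P hP => absurd hP (hcon P)
  have h2 := hRv.1 h1
  rw [DVal.mem_ring, DVal.map_inv, hp] at h2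
  omega

lemma exists_basis_of_trdeg {d : ℕ} (hd : Algebra.trdeg k L = d) :
    ∃ y : Fin d → L, IsTranscendenceBasis k y := by
  obtain ⟨ι, x, hx⟩ := exists_isTranscendenceBasis' k L
  have h1 : Cardinal.mk ι = d := by rw [hx.cardinalMk_eq_trdeg, hd]
  have h2 : Finite ι := by
    rw [← Cardinal.lt_aleph0_iff_finite, h1]
    exact Cardinal.natCast_lt_aleph0
  let _ := Fintype.ofFinite ι
  have h3 : Fintype.card ι = d := by
    have : (Fintype.card ι : Cardinal) = d := by rw [← Cardinal.mk_fintype, h1]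
    exact_mod_cast this
  let e : Fin d ≃ ι := (Fintype.equivFinOfCardEq h3).symm
  exact ⟨x ∘ e, hx.comp_equiv e⟩

end

section

variable {k K L : Type*} [Field k] [Field K] [Field L] [Algebra k K] [Algebra k L] [Algebra K L]
  [IsScalarTower k K L] {r : ℕ} {t : Fin r → L} [IsAlgClosed k] [CharZero k]

/-- The adjoint divisor of a log canonical pair. -/
theorem exists_adj (𝒱 : TV k K t) {d : ℕ} {y : Fin d → K} (hy : IsTranscendenceBasis k y)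
    (ωZ : ⋀[K]^d Ω[K⁄k]) (KZ : 𝒱.Z.Div) (hKZ : 𝒱.Z.IsDivOf ωZ KZ)
    (ωX : ⋀[L]^(d + r) Ω[L⁄k]) (KX : 𝒱.X.Div) (hKX : 𝒱.X.IsDivOf ωX KX)
    (Δ : 𝒱.X.Div) (hΔ : ∀ P, 0 ≤ Δ P) (hlc : 𝒱.X.IsLC ωX KX Δ)
    (ΔZ : 𝒱.Z.Div) (hΔZ : ∀ Q, 0 ≤ ΔZ Q)
    (hle : ∀ j : 𝒱.JJ, TV.mult j * ΔZ (TV.base j) ≤ Δ ⟨j.1, j.2.1⟩ + (TV.mult j - 1)) :
    ∃ 𝒜 : 𝒱.Adj (fun v₀ a => v₀.IsDivisorial ∧ v₀.IsOrd ωZ a),
      𝒜.KX = KX ∧ 𝒜.Δ = Δ ∧ 𝒜.KZ = KZ ∧ 𝒜.ΔZ = ΔZ := by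
  classical
  -- the form on the base
  obtain ⟨b, hb⟩ := Pool.Agent.Helper50.Forms.exists_kaehler_basis hy
  obtain ⟨f₀, hf₀⟩ := Pool.Agent.Helper50.Forms.exists_smul_dform y b hb ωZ
  have hy0 : dform k y ≠ 0 := Pool.Agent.Helper50.Forms.dform_ne_zero y b hb
  obtain ⟨f, hf, hfω⟩ : ∃ f : K, f ≠ 0 ∧ ∀ (v₀ : DVal k K) (a : ℤ), v₀.IsOrd ωZ a →
      v₀.IsOrd (f • dform k y) a := by
    by_cases h : f₀ = 0
    · refine ⟨1, one_ne_zero, fun v₀ a ha => ?_⟩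
      rw [hf₀, h, zero_smul] at ha
      exact absurd ha (not_isOrd_zero v₀ a)
    · exact ⟨f₀, h, fun v₀ a ha => by rwa [hf₀] at ha⟩
  -- the form on `L`
  obtain ⟨g₀, hg₀⟩ := exists_smul_omega0 hy 𝒱.ht hf y hy0 ωX
  -- if there is no valuation on `L` everything is trivial
  obtain ⟨g, hg, hgω⟩ : ∃ g : L, g ≠ 0 ∧ ((∃ v : DVal k L, True) →
      ωX = g • omega0 (k := k) t f y) := by
    by_cases h : g₀ = 0
    · refine ⟨1, one_ne_zero, fun ⟨v, _⟩ => ?_⟩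
      exfalso
      obtain ⟨P, hP⟩ := 𝒱.X.exists_prime v
      obtain ⟨a, -, ha⟩ := hKX ⟨P, hP⟩
      rw [hg₀, h, zero_smul] at ha
      exact not_isOrd_zero _ _ ha
    · exact ⟨g₀, h, fun _ => hg₀⟩
  have hord : ∀ (v : DVal k L) (a : ℤ), v.IsOrd (omega0 (k := k) t f y) a →
      v.IsOrd ωX (v g + a) := by
    intro v a ha
    rw [hgω ⟨v, trivial⟩]
    exact (isOrd_smul v hg).2 ha
  have hKX' : ∀ (P : 𝒱.X.primeDivisors) (a : ℤ), P.1.IsOrd (omega0 (k := k) t f y) a →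
      KX P = P.1 g + a := by
    intro P a ha
    obtain ⟨a', h1, h2⟩ := hKX P
    rw [h1, isOrd_unique h2 (hord P.1 a ha)]
    push_cast
    rfl
  have htriv : ∀ w : Fin r → ℤ, ∀ hs : ∃ (c : K) (u : Fin r → ℤ), c ≠ 0 ∧
      ZVal.trivial k K c + ipair w u = 1,
      (monoVal 𝒱.ht (ZVal.trivial k K) w hs).IsOrd (omega0 (k := k) t f y) (-1) :=
    fun w hs => isOrd_hor hy 𝒱.ht w hs hf y hy0
  refine ⟨{ KX := KX, KZ := KZ, Δ := Δ, Δ_nonneg := hΔ, ΔZ := ΔZ, ΔZ_nonneg := hΔZ,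
            ΔZ_le := hle, KX_int := ?_, KZ_int := ?_, g := g, g_ne := hg, non := ?_, hor := ?_,
            vert := ?_, qc := hlc.1, lc_hor := ?_, lc_vert := ?_ }, rfl, rfl, rfl, rfl⟩
  · intro P
    obtain ⟨a, h1, -⟩ := hKX P
    exact ⟨a, h1⟩
  · intro Q
    obtain ⟨a, h1, -⟩ := hKZ Q
    exact ⟨a, h1⟩
  · intro P hP
    obtain ⟨p, hp, hPp, hi⟩ := exists_polyVal 𝒱.stable P.2 hP
    have h1 : P.1.IsOrd (omega0 (k := k) t f y) 0 := by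
      rw [hPp]
      exact isOrd_polyVal hy 𝒱.ht hp hi hf y hy0
    rw [hKX' P 0 h1]
    simp
  · intro i
    obtain ⟨hs, hi⟩ := 𝒱.inv_eq i.1 i.2.2.1
    have h0 : (ZVal.restrict i.1 : ZVal k K) = ZVal.trivial k K := by
      apply ZVal.ext
      intro a
      exact i.2.2.2 a
    rw [h0] at hs
    have h1 : i.1 = monoVal 𝒱.ht (ZVal.trivial k K) (TV.wvec i.1 t) hs := by
      have h2 : ∀ (v : ZVal k K) (hv : v = ZVal.trivial k K) hs',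
          monoVal 𝒱.ht v (TV.wvec i.1 t) hs' =
            monoVal 𝒱.ht (ZVal.trivial k K) (TV.wvec i.1 t) hs := by
        intro v hv hs'
        subst hv
        rfl
      exact hi.trans (h2 _ h0 _)
    have h3 : i.1.IsOrd (omega0 (k := k) t f y) (-1) := by
      rw [h1]
      exact htriv _ hs
    rw [hKX' ⟨i.1, i.2.1⟩ (-1) h3]
    push_cast
    ring
  · intro j
    obtain ⟨hs, hi⟩ := 𝒱.inv_eq j.1 (𝒱.vert_inv j)
    have h0 : (ZVal.restrict j.1 : ZVal k K) = ZVal.ofDVal (TV.mult j) (TV.base j).1 := by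
      apply ZVal.ext
      intro a
      exact TV.mult_spec j a
    rw [h0] at hs
    have h1 : j.1 = monoVal 𝒱.ht (ZVal.ofDVal (TV.mult j) (TV.base j).1)
        (TV.wvec j.1 t) hs := by
      have h2 : ∀ (v : ZVal k K) (hv : v = ZVal.ofDVal (TV.mult j) (TV.base j).1) hs',
          monoVal 𝒱.ht v (TV.wvec j.1 t) hs' =
            monoVal 𝒱.ht (ZVal.ofDVal (TV.mult j) (TV.base j).1) (TV.wvec j.1 t) hs := by
        intro v hv hs'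
        subst hv
        rfl
      exact hi.trans (h2 _ h0 _)
    obtain ⟨a, ha1, ha2⟩ := hKZ (TV.base j)
    have h3 : j.1.IsOrd (omega0 (k := k) t f y) (TV.mult j * (a + 1) - 1) := by
      rw [h1]
      exact isOrd_vert hy 𝒱.ht _ _ (TV.mult_pos j) _ hs hf y hy0 (hfω _ _ ha2)
    rw [hKX' ⟨j.1, j.2.1⟩ _ h3, ha1]
    push_cast
    ring
  · intro w hs c hc
    have h1 := hlc.2 _ (monoVal_isDivisorial 𝒱.ht 𝒱.fgK _ w hs (Or.inl rfl)) _ c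
      (hord _ _ (htriv w hs)) hc
    push_cast at h1
    linarith
  · rintro v₀ a ⟨hdiv, ha⟩ e w hs c he hc
    have h1 := hlc.2 _ (monoVal_isDivisorial 𝒱.ht 𝒱.fgK _ w hs (Or.inr ⟨e, v₀, hdiv, he, rfl⟩)) _ c
      (hord _ _ (isOrd_vert hy 𝒱.ht v₀ e he w hs hf y hy0 (hfω _ _ ha))) hc
    push_cast at h1
    linarith

end

section

variable {k K L : Type*} [Field k] [Field K] [Field L] [Algebra k K] [Algebra k L] [Algebra K L]
  [IsScalarTower k K L] {r : ℕ} {t : Fin r → L} [IsAlgClosed k] [CharZero k]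

lemma stable_of {X : ProjVar k L} (ht : IsTorus K t)
    (h : ∀ (σ : L ≃ₐ[K] L) (c : Fin r → k), (∀ i, σ (t i) = c i • t i) →
      ∀ R ∈ X.localRings, ∃ R' ∈ X.localRings, ∀ z, z ∈ R' ↔ σ z ∈ R) : Stable X ht := by
  intro c P hP
  obtain ⟨R', hR', h1⟩ := h (scaleEquiv ht (toK K c)) (fun i => c i) (fun i => by
    have := scale_t ht c i
    rw [scale_apply] at this
    rw [this, Algebra.smul_def]) P.ring hP
  have h2 : R' = (P.comap (scale k ht c)).ring := by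
    ext z
    rw [h1, DVal.mem_ring, DVal.mem_ring, DVal.comap_apply, scale_apply]
  change (P.comap (scale k ht c)).ring ∈ X.localRings
  rwa [← h2]

/-- The comparison theorem. -/
theorem torus_quotient {d : ℕ} (hd : Algebra.trdeg k K = d)
    (ht : AlgebraicIndependent K t) (hgen : IntermediateField.adjoin K (Set.range t) = ⊤)
    (Z : ProjVar k K) (X : ProjVar k L) (hZ : Z.IsQFactorial)
    (hstable : ∀ (σ : L ≃ₐ[K] L) (c : Fin r → k), (∀ i, σ (t i) = c i • t i) →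
      ∀ R ∈ X.localRings, ∃ R' ∈ X.localRings, ∀ z, z ∈ R' ↔ σ z ∈ R)
    (hmor : IsMorphism X Z)
    (hequi : ∀ P ∈ X.primeDivisors, (∃ a : K, P (algebraMap K L a) ≠ 0) →
      ∃ Q ∈ Z.primeDivisors, ∃ e, LiesOver P Q e)
    (ωZ : ⋀[K]^d Ω[K⁄k]) (KZ : Z.Div) (hKZ : Z.IsDivOf ωZ KZ)
    (ωX : ⋀[L]^(d + r) Ω[L⁄k]) (KX : X.Div) (hKX : X.IsDivOf ωX KX)
    (Δ : X.Div) (hΔ : ∀ P, 0 ≤ Δ P) (hlc : X.IsLC ωX KX Δ)
    (ΔZ : Z.Div) (hΔZ : ∀ Q, 0 ≤ ΔZ Q)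
    (hbase : ∀ (P : X.primeDivisors) (Q : Z.primeDivisors) (e : ℕ), LiesOver P.1 Q.1 e →
      e * ΔZ Q ≤ Δ P + (e - 1))
    (hκ : Z.kod (KZ + ΔZ) ≠ ⊥) :
    (X.genKod K (KX + Δ) = ⊥ ∧ X.kod (KX + Δ) = ⊥ ∧ X.nu (KX + Δ) = ⊥) ∨
    ∃ (s N : ℕ) (𝔅 : Set Z.Div), s ≤ r ∧ X.genKod K (KX + Δ) = s ∧
      0 < N ∧ 𝔅.Finite ∧ 𝔅.Nonempty ∧
      (∀ B ∈ 𝔅, Z.IsInt B ∧ ∀ Q, N * ΔZ Q ≤ B Q) ∧
      (∀ B ∈ 𝔅, ∀ B' ∈ 𝔅, ∃ ψ : K, ψ ≠ 0 ∧ ∀ Q, B' Q = B Q + Q.1 ψ) ∧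
      Z.IsLCSystem ωZ KZ N 𝔅 ∧
      ∀ B ∈ 𝔅, X.kod (KX + Δ) = s + Z.kod ((N : ℚ) • KZ + B) ∧
        X.nu (KX + Δ) = s + Z.nu ((N : ℚ) • KZ + B) := by
  obtain ⟨y, hy⟩ := exists_basis_of_trdeg hd
  have ht' : IsTorus K t := ⟨ht, hgen⟩
  let 𝒱 : TV k K t :=
    { ht := ht'
      Z := Z
      X := X
      stable := stable_of ht' hstable
      mor := hmor
      equi := fun P hP h => by
        obtain ⟨Q, hQ, e, -, he⟩ := hequi P hP h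
        exact ⟨Q, hQ, e, he⟩ }
  obtain ⟨𝒜, h1, h2, h3, h4⟩ := exists_adj 𝒱 hy ωZ KZ hKZ ωX KX hKX Δ hΔ hlc ΔZ hΔZ
    (fun j => hbase ⟨j.1, j.2.1⟩ (TV.base j) (TV.mult j) ⟨TV.mult_pos j, TV.mult_spec j⟩)
  have hE : 𝒜.E = KX + Δ := by
    unfold TV.Adj.E
    rw [h1, h2]
  -- a pluricanonical form
  obtain ⟨m, hm, η, hη, hη2⟩ : ∃ m : ℕ, 0 < m ∧ ∃ η : K, η ≠ 0 ∧
      ∀ Q : 𝒱.QQ, 0 ≤ (Q.1 η : ℚ) + m * (𝒜.KZ Q + 𝒜.ΔZ Q) := by
    have hne : ¬ ∀ m : ℕ, 1 ≤ m → Z.h0 ((m : ℚ) • (KZ + ΔZ)) = 0 := by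
      intro h
      apply hκ
      unfold ProjVar.kod kodDim
      rw [if_pos h]
    push Not at hne
    obtain ⟨m, hm, hm2⟩ := hne
    have h5 : sdim (Z.H0 ((m : ℚ) • (KZ + ΔZ))) ≠ 0 := by
      intro h0
      have := Z.h0_le ((m : ℚ) • (KZ + ΔZ))
      rw [h0] at this
      exact hm2 (le_antisymm this zero_le)
    rw [sdim_ne_zero] at h5
    obtain ⟨η, hη, hη0⟩ := h5
    refine ⟨m, hm, η, hη0, fun Q => ?_⟩
    unfold ProjVar.H0 at hη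
    rw [mem_sec_of_ne hη0] at hη
    have h6 := hη Q
    rw [Finsupp.smul_apply, Finsupp.add_apply, smul_eq_mul] at h6
    rw [h3, h4]
    exact h6
  have key := TV.adj_main 𝒜 hZ hm hη hη2
  rw [hE, h3, h4] at key
  rcases key with h | ⟨s, N, 𝔅, hs, hgk, hN, hfin, hne, hB, hlin, hlcs, hinv⟩
  · exact Or.inl h
  · refine Or.inr ⟨s, N, 𝔅, hs, hgk, hN, hfin, hne, hB, ?_, ?_, hinv⟩
    · intro B hB B' hB'
      obtain ⟨ψ, hψ, h5⟩ := hlin B hB B' hB'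
      refine ⟨ψ, hψ, fun Q => ?_⟩
      rw [h5]
      rfl
    · intro v hv a κ ha hκ'
      exact hlcs v a κ ⟨hv, ha⟩ hκ'

/-- The comparison theorem, in terms of pairs. -/
theorem torus_quotient_pair {d : ℕ} (hd : Algebra.trdeg k K = d) (Z : ProjVar k K)
    (X : ProjVar k L) (hZ : Z.IsQFactorial) (h : IsTorusQuotient t X Z) (p : X.Pair (d + r))
    (hlc : p.LC) (q : Z.Pair d) (hq : IsOrbifoldBase p q) (hκ : Z.kod q.logDiv ≠ ⊥) :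
    (X.genKod K p.logDiv = ⊥ ∧ X.kod p.logDiv = ⊥ ∧ X.nu p.logDiv = ⊥) ∨
    ∃ (s N : ℕ) (𝔅 : Set Z.Div), s ≤ r ∧ X.genKod K p.logDiv = s ∧ q.LCSystem N 𝔅 ∧
      ∀ B ∈ 𝔅, X.kod p.logDiv = s + Z.kod ((N : ℚ) • q.can + B) ∧
        X.nu p.logDiv = s + Z.nu ((N : ℚ) • q.can + B) := by
  obtain ⟨y, hy⟩ := exists_basis_of_trdeg hd
  have ht : IsTorus K t := ⟨h.indep, h.gen⟩
  obtain ⟨b, hb⟩ := Pool.Agent.Helper50.Forms.exists_kaehler_basis hy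
  obtain ⟨B, hB, -, -⟩ := Pool.Agent.Helper50.Forms.exists_basis_tower hy t h.indep h.gen y b hb
  obtain ⟨ωZ, hωZ⟩ := exists_form b y hb q.ω
  obtain ⟨ωX, hωX⟩ := exists_form B _ hB p.ω
  have h1 : Z.IsDivOf ωZ q.can := by
    intro Q
    obtain ⟨a, ha, ha'⟩ := q.isDivisorOf Q
    exact ⟨a, ha, (hωZ _ _).1 ha'⟩
  have h2 : X.IsDivOf ωX p.can := by
    intro P
    obtain ⟨a, ha, ha'⟩ := p.isDivisorOf P
    exact ⟨a, ha, (hωX _ _).1 ha'⟩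
  have h3 : X.IsLC ωX p.can p.Δ :=
    ⟨hlc.1, fun v hv a c ha hc => hlc.2 v hv a c ((hωX v a).2 ha) hc⟩
  rcases torus_quotient hd h.indep h.gen Z X hZ h.stable h.mor h.equi ωZ q.can h1
    ωX p.can h2 p.Δ p.nonneg h3 q.Δ q.nonneg hq hκ with
    h1 | ⟨s, N, 𝔅, hs, hgk, hN, hfin, hne, hB, hlin, hlcs, hinv⟩
  · exact Or.inl h1
  · exact Or.inr ⟨s, N, 𝔅, hs, hgk, ⟨hN, hfin, hne, fun B h => (hB B h).1,
      fun B h => (hB B h).2, hlin, fun v hv a κ ha hκ => hlcs v hv a κ ((hωZ v a).1 ha) hκ⟩,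
      hinv⟩

end

end Pool.Agent.Helper92.Weak
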