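import Pool.Agent.Helper92.Weak.DVal

set_option autoImplicit false

/-! The valuation attached to a prime element. -/

namespace Pool.Agent.Helper92.Weak

namespace DVal

variable {k L : Type*} [Field k] [Field L] [Algebra k L]
  {B : Type*} [CommRing B] [IsDomain B] [WfDvdMonoid B] [Algebra k B] [Algebra B L]
  [IsScalarTower k B L] [IsFractionRing B L]

section mult

variable {p : B}

lemma finMul (hp : Prime p) {a : B} (ha : a ≠ 0) : FiniteMultiplicity p a :=
  FiniteMultiplicity.of_prime_left hp ha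

lemma mult_mul (hp : Prime p) {a b : B} (ha : a ≠ 0) (hb : b ≠ 0) :
    multiplicity p (a * b) = multiplicity p a + multiplicity p b :=
  _root_.multiplicity_mul hp (finMul hp (mul_ne_zero ha hb))

lemma mult_add (hp : Prime p) {a b : B} (_ha : a ≠ 0) (_hb : b ≠ 0) (hab : a + b ≠ 0) :
    min (multiplicity p a) (multiplicity p b) ≤ multiplicity p (a + b) := by
  apply (finMul hp hab).le_multiplicity_of_pow_dvd
  apply dvd_add
  · exact pow_dvd_of_le_multiplicity (min_le_left _ _)
  · exact pow_dvd_of_le_multiplicity (min_le_right _ _)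

end mult

/-- The value of a fraction. -/
noncomputable def fracVal (p : B) (z : L) : ℤ :=
  open Classical in
  if z = 0 then 0 else
    (multiplicity p (IsFractionRing.div_surjective (A := B) z).choose : ℤ) -
      multiplicity p (IsFractionRing.div_surjective (A := B) z).choose_spec.choose

lemma fracVal_eq {p : B} (hp : Prime p) {a b : B} (ha : a ≠ 0) (hb : b ≠ 0) :
    fracVal p (algebraMap B L a / algebraMap B L b) = (multiplicity p a : ℤ) - multiplicity p b := by
  have hinj := IsFractionRing.injective B L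
  have ha' : algebraMap B L a ≠ 0 := (map_ne_zero_iff _ hinj).2 ha
  have hb' : algebraMap B L b ≠ 0 := (map_ne_zero_iff _ hinj).2 hb
  set z := algebraMap B L a / algebraMap B L b with hz
  have hz0 : z ≠ 0 := div_ne_zero ha' hb'
  unfold fracVal
  rw [if_neg hz0]
  obtain ⟨hb'0, hz'⟩ := (IsFractionRing.div_surjective (A := B) z).choose_spec.choose_spec
  generalize (IsFractionRing.div_surjective (A := B) z).choose_spec.choose = b' at hb'0 hz' ⊢
  generalize (IsFractionRing.div_surjective (A := B) z).choose = a' at hz' ⊢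
  have hb'1 : b' ≠ 0 := nonZeroDivisors.ne_zero hb'0
  have hb'2 : algebraMap B L b' ≠ 0 := (map_ne_zero_iff _ hinj).2 hb'1
  have ha'1 : a' ≠ 0 := by
    intro h
    rw [h, _root_.map_zero, zero_div] at hz'
    exact hz0 hz'.symm
  have h1 : algebraMap B L (a' * b) = algebraMap B L (a * b') := by
    rw [_root_.map_mul, _root_.map_mul]
    rw [hz, div_eq_div_iff hb'2 hb'] at hz'
    exact hz'
  have h2 := hinj h1
  have h3 : multiplicity p a' + multiplicity p b = multiplicity p a + multiplicity p b' := by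
    rw [← mult_mul hp ha'1 hb, ← mult_mul hp ha hb'1, h2]
  omega

/-- The valuation attached to a prime element. -/
noncomputable def ofPrime (k L : Type*) [Field k] [Field L] [Algebra k L] [Algebra k B]
    [Algebra B L] [IsScalarTower k B L] [IsFractionRing B L] (p : B) (hp : Prime p) :
    DVal k L where
  toFun := fracVal p
  map_zero' := by simp [fracVal]
  map_mul' a b ha hb := by
    obtain ⟨a₁, a₂, ha₂, rfl⟩ := IsFractionRing.div_surjective (A := B) a
    obtain ⟨b₁, b₂, hb₂, rfl⟩ := IsFractionRing.div_surjective (A := B) b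
    have ha₂' := nonZeroDivisors.ne_zero ha₂
    have hb₂' := nonZeroDivisors.ne_zero hb₂
    have ha₁ : a₁ ≠ 0 := by rintro rfl; simp at ha
    have hb₁ : b₁ ≠ 0 := by rintro rfl; simp at hb
    rw [div_mul_div_comm, ← _root_.map_mul, ← _root_.map_mul, fracVal_eq hp ha₁ ha₂',
      fracVal_eq hp hb₁ hb₂', fracVal_eq hp (mul_ne_zero ha₁ hb₁) (mul_ne_zero ha₂' hb₂'),
      mult_mul hp ha₁ hb₁, mult_mul hp ha₂' hb₂']
    push_cast
    ring
  map_add' a b ha hb hab := by
    obtain ⟨a₁, a₂, ha₂, rfl⟩ := IsFractionRing.div_surjective (A := B) a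
    obtain ⟨b₁, b₂, hb₂, rfl⟩ := IsFractionRing.div_surjective (A := B) b
    have hinj := IsFractionRing.injective B L
    have ha₂' := nonZeroDivisors.ne_zero ha₂
    have hb₂' := nonZeroDivisors.ne_zero hb₂
    have ha₁ : a₁ ≠ 0 := by rintro rfl; simp at ha
    have hb₁ : b₁ ≠ 0 := by rintro rfl; simp at hb
    have ha₃ : algebraMap B L a₂ ≠ 0 := (map_ne_zero_iff _ hinj).2 ha₂'
    have hb₃ : algebraMap B L b₂ ≠ 0 := (map_ne_zero_iff _ hinj).2 hb₂'
    have h1 : algebraMap B L a₁ / algebraMap B L a₂ + algebraMap B L b₁ / algebraMap B L b₂ =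
        algebraMap B L (a₁ * b₂ + a₂ * b₁) / algebraMap B L (a₂ * b₂) := by
      rw [div_add_div _ _ ha₃ hb₃]
      simp only [_root_.map_add, _root_.map_mul]
    rw [h1] at hab ⊢
    have hs : a₁ * b₂ + a₂ * b₁ ≠ 0 := by
      intro h
      rw [h] at hab
      simp at hab
    rw [fracVal_eq hp ha₁ ha₂', fracVal_eq hp hb₁ hb₂', fracVal_eq hp hs (mul_ne_zero ha₂' hb₂'),
      mult_mul hp ha₂' hb₂']
    have h2 := mult_add hp (mul_ne_zero ha₁ hb₂') (mul_ne_zero ha₂' hb₁) hs
    rw [mult_mul hp ha₁ hb₂', mult_mul hp ha₂' hb₁] at h2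
    omega
  map_const' c := by
    by_cases hc : c = 0
    · rw [hc]; simp [fracVal]
    have h1 : algebraMap k L c = algebraMap B L (algebraMap k B c) / algebraMap B L 1 := by
      rw [← IsScalarTower.algebraMap_apply, _root_.map_one, div_one]
    have hu : IsUnit (algebraMap k B c) := (IsUnit.mk0 c hc).map _
    have h0 : algebraMap k B c ≠ 0 := hu.ne_zero
    rw [h1, fracVal_eq hp h0 one_ne_zero, multiplicity_of_isUnit_right hp.not_isUnit hu,
      multiplicity_of_one_right hp.not_isUnit]
    simp
  surj' := by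
    refine ⟨algebraMap B L p / algebraMap B L 1, ?_⟩
    rw [fracVal_eq hp hp.ne_zero one_ne_zero, multiplicity_of_one_right hp.not_isUnit]
    have : multiplicity p p = 1 := multiplicity_self
    rw [this]
    simp

section ofPrime

variable (k L) {p : B} (hp : Prime p)

lemma ofPrime_div {a b : B} (ha : a ≠ 0) (hb : b ≠ 0) :
    ofPrime k L p hp (algebraMap B L a / algebraMap B L b) =
      (multiplicity p a : ℤ) - multiplicity p b := fracVal_eq hp ha hb

lemma ofPrime_algebraMap {a : B} (ha : a ≠ 0) :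
    ofPrime k L p hp (algebraMap B L a) = multiplicity p a := by
  have h := ofPrime_div k L hp ha one_ne_zero
  rw [_root_.map_one, div_one, multiplicity_of_one_right hp.not_isUnit] at h
  simpa using h

lemma ofPrime_nonneg (a : B) : 0 ≤ ofPrime k L p hp (algebraMap B L a) := by
  by_cases ha : a = 0
  · rw [ha]; simp
  · rw [ofPrime_algebraMap k L hp ha]; positivity

lemma ofPrime_pos_iff {a : B} (ha : a ≠ 0) :
    0 < ofPrime k L p hp (algebraMap B L a) ↔ p ∣ a := by
  rw [ofPrime_algebraMap k L hp ha]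
  rw [← dvd_iff_multiplicity_pos]
  exact Int.natCast_pos

lemma ofPrime_eq_zero {a : B} (ha : ¬ p ∣ a) :
    ofPrime k L p hp (algebraMap B L a) = 0 := by
  have ha0 : a ≠ 0 := by rintro rfl; exact ha (dvd_zero p)
  have h1 := ofPrime_nonneg k L hp a
  have h2 := mt (ofPrime_pos_iff k L hp ha0).1 ha
  omega

lemma mem_ofPrime_ring {z : L} : z ∈ (ofPrime k L p hp).ring ↔
    ∃ a b : B, ¬ p ∣ b ∧ z = algebraMap B L a / algebraMap B L b := by
  constructor
  · intro hz
    by_cases hz0 : z = 0
    · exact ⟨0, 1, hp.not_dvd_one, by simp [hz0]⟩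
    obtain ⟨a, b, hb, rfl⟩ := IsFractionRing.div_surjective (A := B) z
    have hb0 := nonZeroDivisors.ne_zero hb
    have ha0 : a ≠ 0 := by rintro rfl; simp at hz0
    rw [mem_ring, ofPrime_div k L hp ha0 hb0] at hz
    obtain ⟨b', hb', hndvd⟩ := (finMul hp hb0).exists_eq_pow_mul_and_not_dvd
    have hle : multiplicity p b ≤ multiplicity p a := by omega
    obtain ⟨a', ha'⟩ := pow_dvd_of_le_multiplicity hle
    generalize multiplicity p b = n at ha' hb'
    refine ⟨a', b', hndvd, ?_⟩
    have hinj := IsFractionRing.injective B L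
    have hp0 : algebraMap B L p ^ n ≠ 0 :=
      pow_ne_zero _ ((map_ne_zero_iff _ hinj).2 hp.ne_zero)
    rw [ha', hb', _root_.map_mul, _root_.map_mul, _root_.map_pow]
    rw [mul_div_mul_left _ _ hp0]
  · rintro ⟨a, b, hb, rfl⟩
    by_cases ha : a = 0
    · rw [ha]; simp
    have hb0 : b ≠ 0 := by rintro rfl; exact hb (dvd_zero p)
    rw [mem_ring, ofPrime_div k L hp ha hb0]
    have : multiplicity p b = 0 := multiplicity_eq_zero.2 hb
    rw [this]
    simp

end ofPrime

end DVal

end Pool.Agent.Helper92.Weak
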