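import Pool.Agent.Helper92.Weak.Torus7

set_option autoImplicit false

/-! Monomial valuations are divisorial. -/

namespace Pool.Agent.Helper92.Weak

open Module

section loc

variable {k L : Type*} [Field k] [Field L] [Algebra k L] (A : Subalgebra k L) (V : DVal k L)

/-- Quotients of elements of `A` with denominator of value `0`. -/
def InLoc (z : L) : Prop := ∃ a ∈ A, ∃ b ∈ A, b ≠ 0 ∧ V b = 0 ∧ z = a / b

variable {A V}

lemma InLoc.of_mem {z : L} (h : z ∈ A) : InLoc A V z :=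
  ⟨z, h, 1, A.one_mem, one_ne_zero, V.map_one, by rw [div_one]⟩

lemma InLoc.add {z z' : L} (h : InLoc A V z) (h' : InLoc A V z') : InLoc A V (z + z') := by
  obtain ⟨a, ha, b, hb, hb0, hv, rfl⟩ := h
  obtain ⟨a', ha', b', hb', hb0', hv', rfl⟩ := h'
  refine ⟨a * b' + b * a', A.add_mem (A.mul_mem ha hb') (A.mul_mem hb ha'), b * b',
    A.mul_mem hb hb', mul_ne_zero hb0 hb0', ?_, ?_⟩
  · rw [V.map_mul hb0 hb0', hv, hv']; rfl
  · rw [div_add_div _ _ hb0 hb0']

lemma InLoc.mul {z z' : L} (h : InLoc A V z) (h' : InLoc A V z') : InLoc A V (z * z') := by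
  obtain ⟨a, ha, b, hb, hb0, hv, rfl⟩ := h
  obtain ⟨a', ha', b', hb', hb0', hv', rfl⟩ := h'
  refine ⟨a * a', A.mul_mem ha ha', b * b', A.mul_mem hb hb', mul_ne_zero hb0 hb0', ?_, ?_⟩
  · rw [V.map_mul hb0 hb0', hv, hv']; rfl
  · rw [div_mul_div_comm]

lemma InLoc.inv {z : L} (h : InLoc A V z) (h0 : z ≠ 0) (hv : V z = 0) : InLoc A V z⁻¹ := by
  obtain ⟨a, ha, b, hb, hb0, hvb, rfl⟩ := h
  have ha0 : a ≠ 0 := by
    rintro rfl
    rw [zero_div] at h0
    exact h0 rfl
  refine ⟨b, hb, a, ha, ha0, ?_, ?_⟩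
  · rw [V.map_div ha0 hb0, hvb, sub_zero] at hv
    exact hv
  · rw [inv_div]

lemma InLoc.sum {ι : Type*} {s : Finset ι} {f : ι → L} (h : ∀ i ∈ s, InLoc A V (f i)) :
    InLoc A V (∑ i ∈ s, f i) := by
  classical
  induction s using Finset.induction_on with
  | empty => exact InLoc.of_mem A.zero_mem
  | insert a s ha ih =>
    rw [Finset.sum_insert ha]
    exact (h a (Finset.mem_insert_self a s)).add
      (ih fun i hi => h i (Finset.mem_insert_of_mem hi))

end loc

variable {k K L : Type*} [Field k] [Field K] [Field L] [Algebra k K] [Algebra k L] [Algebra K L]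
  [IsScalarTower k K L] {r : ℕ} {t : Fin r → L}

/-- The structure of the valuation of the base used below. -/
lemma exists_base_structure (hK : (⊤ : IntermediateField k K).FG) (v : ZVal k K)
    (hv : v = ZVal.trivial k K ∨
      ∃ (e : ℕ) (v₀ : DVal k K), v₀.IsDivisorial ∧ 0 < e ∧ v = ZVal.ofDVal e v₀) :
    ∃ (s : Finset K) (p : K), p ≠ 0 ∧ (∀ a ∈ Algebra.adjoin k (s : Set K), 0 ≤ v a) ∧
      ∀ c : K, c ≠ 0 → ∃ (n : ℤ) (a b : K), a ∈ Algebra.adjoin k (s : Set K) ∧
        b ∈ Algebra.adjoin k (s : Set K) ∧ a ≠ 0 ∧ b ≠ 0 ∧ v a = 0 ∧ v b = 0 ∧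
        c = p ^ n * (a / b) := by
  rcases hv with rfl | ⟨e, v₀, ⟨s, hs1, hs2⟩, he, rfl⟩
  · obtain ⟨s, hs⟩ := hK
    refine ⟨s, 1, one_ne_zero, fun a _ => le_refl 0, fun c hc => ?_⟩
    have h : c ∈ IntermediateField.adjoin k (s : Set K) := by rw [hs]; trivial
    rw [IntermediateField.mem_adjoin_iff_div] at h
    obtain ⟨a, ha, b, hb, h⟩ := h
    have ha0 : a ≠ 0 := by rintro rfl; rw [zero_div] at h; exact hc h
    have hb0 : b ≠ 0 := by rintro rfl; rw [div_zero] at h; exact hc h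
    exact ⟨0, a, b, ha, hb, ha0, hb0, rfl, rfl, by rw [zpow_zero, one_mul]; exact h⟩
  · obtain ⟨p, hp0, hp⟩ := v₀.exists_uniformizer
    refine ⟨s, p, hp0, fun a ha => ?_, fun c hc => ?_⟩
    · have h := hs1 ha
      rw [DVal.mem_ring] at h
      exact mul_nonneg (by positivity) h
    · have hu0 : c * p ^ (-(v₀ c)) ≠ 0 := mul_ne_zero hc (zpow_ne_zero _ hp0)
      have hu : v₀ (c * p ^ (-(v₀ c))) = 0 := by
        rw [v₀.map_mul hc (zpow_ne_zero _ hp0), v₀.map_zpow, hp]
        ring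
      obtain ⟨a, ha, b, hb, hb0, hvb, h⟩ := hs2 _ (by rw [DVal.mem_ring, hu])
      have ha0 : a ≠ 0 := by rintro rfl; rw [zero_div] at h; exact hu0 h
      have hva : v₀ a = 0 := by
        rw [h, v₀.map_div ha0 hb0, hvb, sub_zero] at hu
        exact hu
      refine ⟨v₀ c, a, b, ha, hb, ha0, hb0, ?_, ?_, ?_⟩
      · change (e : ℤ) * v₀ a = 0
        rw [hva, mul_zero]
      · change (e : ℤ) * v₀ b = 0
        rw [hvb, mul_zero]
      · rw [← h, zpow_neg]
        field_simp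

lemma ipair_neg (w u : Fin r → ℤ) : ipair w (-u) = -ipair w u := by
  unfold ipair
  rw [← Finset.sum_neg_distrib]
  exact Finset.sum_congr rfl fun l _ => by rw [Pi.neg_apply, neg_mul]

lemma ipair_smul (w : Fin r → ℤ) (n : ℤ) (u : Fin r → ℤ) : ipair w (n • u) = n * ipair w u := by
  unfold ipair
  rw [Finset.mul_sum]
  exact Finset.sum_congr rfl fun l _ => by rw [Pi.smul_apply, smul_eq_mul, mul_assoc]

theorem monoVal_isDivisorial (ht : IsTorus K t) (hK : (⊤ : IntermediateField k K).FG)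
    (v : ZVal k K) (w : Fin r → ℤ)
    (hs : ∃ (c : K) (u : Fin r → ℤ), c ≠ 0 ∧ v c + ipair w u = 1)
    (hv : v = ZVal.trivial k K ∨
      ∃ (e : ℕ) (v₀ : DVal k K), v₀.IsDivisorial ∧ 0 < e ∧ v = ZVal.ofDVal e v₀) :
    (monoVal ht v w hs).IsDivisorial := by
  classical
  obtain ⟨s, p, hp0, hs1, hs2⟩ := exists_base_structure hK v hv
  set V := monoVal ht v w hs with hV
  have hpL : algebraMap K L p ≠ 0 := by simpa using hp0
  have hvz : ∀ n : ℤ, v (p ^ n) = n * v p := by
    intro n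
    have h1 := monoVal_algebraMap ht v w hs (p ^ n)
    have h2 := monoVal_algebraMap ht v w hs p
    rw [map_zpow₀, DVal.map_zpow, h2] at h1
    exact h1.symm
  -- the monomials
  let φ : ℤ × (Fin r → ℤ) →ₗ[ℤ] ℤ :=
    { toFun := fun x => x.1 * v p + ipair w x.2
      map_add' := fun x y => by
        rw [Prod.fst_add, Prod.snd_add, ipair_add]; ring
      map_smul' := fun n x => by
        rw [Prod.smul_fst, Prod.smul_snd, ipair_smul, RingHom.id_apply, smul_eq_mul, smul_eq_mul]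
        ring }
  have hφ : ∀ x, φ x = x.1 * v p + ipair w x.2 := fun _ => rfl
  let X : ℤ × (Fin r → ℤ) → L := fun x => algebraMap K L p ^ x.1 * mono t x.2
  have hX0 : ∀ x, X x ≠ 0 := fun x => mul_ne_zero (zpow_ne_zero _ hpL) (ht.mono_ne _)
  have hXadd : ∀ x y, X (x + y) = X x * X y := by
    intro x y
    change algebraMap K L p ^ (x.1 + y.1) * mono t (x.2 + y.2) = _
    rw [zpow_add₀ hpL, mono_add ht.ne_zero]
    change _ = (algebraMap K L p ^ x.1 * mono t x.2) * (algebraMap K L p ^ y.1 * mono t y.2)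
    ring
  have hXsmul : ∀ (n : ℤ) x, X (n • x) = X x ^ n := by
    intro n x
    change algebraMap K L p ^ (n • x.1) * mono t (n • x.2) = (algebraMap K L p ^ x.1 * mono t x.2) ^ n
    rw [mono_smul, mul_zpow, smul_eq_mul, mul_comm n, zpow_mul]
  have hXzero : X 0 = 1 := by
    change algebraMap K L p ^ (0 : ℤ) * mono t 0 = 1
    rw [zpow_zero, mono_zero, one_mul]
  have hVX : ∀ x, V (X x) = φ x := by
    intro x
    have h := monoVal_term ht v w hs (zpow_ne_zero x.1 hp0) x.2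
    rw [Algebra.smul_def, map_zpow₀, hvz] at h
    exact h
  obtain ⟨τ, hτ⟩ : ∃ τ, φ τ = 1 := by
    obtain ⟨c, u, hc, h⟩ := hs
    obtain ⟨n, a, b, -, -, ha0, hb0, hva, hvb, rfl⟩ := hs2 c hc
    refine ⟨(n, u), ?_⟩
    rw [hφ]
    have h3 : v (a / b) = 0 := by
      rw [div_eq_mul_inv, v.map_mul ha0 (inv_ne_zero hb0), v.map_inv, hva, hvb]
      rfl
    rw [v.map_mul (zpow_ne_zero _ hp0) (div_ne_zero ha0 hb0), hvz, h3, add_zero] at h
    exact h
  obtain ⟨G, hG⟩ : (LinearMap.ker φ).FG := IsNoetherian.noetherian _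
  let S : Finset L := s.image (algebraMap K L) ∪
    (G.image X ∪ (G.image fun x => (X x)⁻¹) ∪ {X τ})
  let A := Algebra.adjoin k (S : Set L)
  have hsub : ∀ y ∈ S, y ∈ A := fun y hy => Algebra.subset_adjoin hy
  have hA0 : ∀ a ∈ Algebra.adjoin k (s : Set K), algebraMap K L a ∈ A := by
    intro a ha
    have h1 : Algebra.adjoin k (s : Set K) ≤ A.comap (IsScalarTower.toAlgHom k K L) := by
      rw [Algebra.adjoin_le_iff]
      intro y hy
      apply hsub
      simp only [S, Finset.mem_union, Finset.mem_image]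
      exact Or.inl ⟨y, hy, rfl⟩
    exact h1 ha
  have hker : ∀ x, φ x = 0 → X x ∈ A ∧ (X x)⁻¹ ∈ A := by
    intro x hx
    have h1 : x ∈ Submodule.span ℤ (G : Set (ℤ × (Fin r → ℤ))) := by
      rw [hG]
      exact hx
    induction h1 using Submodule.span_induction with
    | mem y hy =>
      constructor
      · apply hsub
        simp only [S, Finset.mem_union, Finset.mem_image]
        exact Or.inr (Or.inl (Or.inl ⟨y, hy, rfl⟩))
      · apply hsub
        simp only [S, Finset.mem_union, Finset.mem_image]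
        exact Or.inr (Or.inl (Or.inr ⟨y, hy, rfl⟩))
    | zero =>
      rw [hXzero, inv_one]
      exact ⟨A.one_mem, A.one_mem⟩
    | add y z hy hz hy' hz' =>
      have h2 : ∀ y ∈ Submodule.span ℤ (G : Set (ℤ × (Fin r → ℤ))), φ y = 0 := by
        intro y hy
        rw [hG] at hy
        exact hy
      obtain ⟨h3, h4⟩ := hy' (h2 y hy)
      obtain ⟨h5, h6⟩ := hz' (h2 z hz)
      rw [hXadd, mul_inv]
      exact ⟨A.mul_mem h3 h5, A.mul_mem h4 h6⟩
    | smul n y hy hy' =>
      have h2 : φ y = 0 := by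
        rw [hG] at hy
        exact hy
      obtain ⟨h3, h4⟩ := hy' h2
      rw [hXsmul]
      have h5 : ∀ n : ℤ, X y ^ n ∈ A := by
        intro n
        cases n with
        | ofNat n =>
          rw [Int.ofNat_eq_natCast, zpow_natCast]
          exact A.pow_mem h3 n
        | negSucc n =>
          rw [zpow_negSucc, ← inv_pow]
          exact A.pow_mem h4 _
      exact ⟨h5 n, by rw [← zpow_neg]; exact h5 _⟩
  have hτA : X τ ∈ A := by
    apply hsub
    exact Finset.mem_union_right _ (Finset.mem_union_right _ (Finset.mem_singleton_self _))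
  have hpos : ∀ x, 0 ≤ φ x → X x ∈ A := by
    intro x hx
    have h1 : φ (x + (-(φ x)) • τ) = 0 := by
      rw [map_add, map_smul, hτ, smul_eq_mul]
      ring
    have h2 : X x = X (x + (-(φ x)) • τ) * X τ ^ (φ x) := by
      rw [hXadd, hXsmul, mul_assoc, zpow_neg, inv_mul_cancel₀ (zpow_ne_zero _ (hX0 τ)), mul_one]
    rw [h2]
    refine A.mul_mem (hker _ h1).1 ?_
    obtain ⟨m, hm⟩ := Int.eq_ofNat_of_zero_le hx
    rw [hm, zpow_natCast]
    exact A.pow_mem hτA m
  have hAV : A ≤ V.ring := by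
    apply Algebra.adjoin_le_iff.2
    intro y hy
    simp only [S, Finset.coe_union, Finset.coe_image, Set.mem_union, Set.mem_image,
      Finset.mem_coe, Finset.coe_singleton, Set.mem_singleton_iff] at hy
    change 0 ≤ V y
    have hGk : ∀ x ∈ G, φ x = 0 := by
      intro x hx
      have : x ∈ Submodule.span ℤ (G : Set (ℤ × (Fin r → ℤ))) := Submodule.subset_span hx
      rw [hG] at this
      exact this
    rcases hy with ⟨a, ha, rfl⟩ | (⟨x, hx, rfl⟩ | ⟨x, hx, rfl⟩) | rfl
    · rw [hV, monoVal_algebraMap]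
      exact hs1 a (Algebra.subset_adjoin ha)
    · rw [hVX, hGk x hx]
    · rw [V.map_inv, hVX, hGk x hx, neg_zero]
    · rw [hVX, hτ]
      exact zero_le_one
  -- terms
  have hterm : ∀ (c : K) (u : Fin r → ℤ) (m : ℤ), c ≠ 0 → m ≤ v c + ipair w u →
      InLoc A V (c • mono t u * X τ ^ (-m)) := by
    intro c u m hc hm
    obtain ⟨n, a, b, ha, hb, ha0, hb0, hva, hvb, rfl⟩ := hs2 c hc
    have h3 : v (a / b) = 0 := by
      rw [div_eq_mul_inv, v.map_mul ha0 (inv_ne_zero hb0), v.map_inv, hva, hvb]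
      rfl
    rw [v.map_mul (zpow_ne_zero _ hp0) (div_ne_zero ha0 hb0), hvz, h3, add_zero] at hm
    have h4 : 0 ≤ φ ((n, u) + (-m) • τ) := by
      rw [map_add, map_smul, hτ, smul_eq_mul, hφ]
      change 0 ≤ n * v p + ipair w u + -m * 1
      linarith
    refine ⟨algebraMap K L a * X ((n, u) + (-m) • τ), A.mul_mem (hA0 a ha) (hpos _ h4),
      algebraMap K L b, hA0 b hb, by simpa using hb0, ?_, ?_⟩
    · rw [hV, monoVal_algebraMap, hvb]
    · rw [hXadd, hXsmul, Algebra.smul_def, _root_.map_mul, map_zpow₀, map_div₀]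
      change _ = algebraMap K L a * (algebraMap K L p ^ n * mono t u * X τ ^ (-m)) /
        algebraMap K L b
      ring
  have hev : ∀ f : (Fin r → ℤ) →₀ K, f ≠ 0 →
      InLoc A V (ev K t f * X τ ^ (-(gaussN v w f))) := by
    intro f hf
    rw [ev_apply, Finset.sum_mul]
    apply InLoc.sum
    intro u hu
    have hu' := Finsupp.mem_support_iff.1 hu
    exact hterm _ _ _ hu' (gaussN_le hu')
  refine ⟨S, hAV, fun z hz => ?_⟩
  change InLoc A V z
  by_cases hz0 : z = 0
  · rw [hz0]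
    exact InLoc.of_mem A.zero_mem
  obtain ⟨f, g, hg, rfl⟩ := exists_ev_div ht z
  have hf : f ≠ 0 := by
    rintro rfl
    rw [map_zero, zero_div] at hz0
    exact hz0 rfl
  have hf' : ev K t f ≠ 0 := fun h => hf (ev_injective ht (by rw [h, map_zero]))
  have hg' : ev K t g ≠ 0 := fun h => hg (ev_injective ht (by rw [h, map_zero]))
  rw [DVal.mem_ring, hV, monoVal_div ht v w hs hf hg] at hz
  have h1 := hev f hf
  have h2 := hev g hg
  have h3 : ev K t g * X τ ^ (-(gaussN v w g)) ≠ 0 := mul_ne_zero hg' (zpow_ne_zero _ (hX0 τ))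
  have h4 : V (ev K t g * X τ ^ (-(gaussN v w g))) = 0 := by
    rw [V.map_mul hg' (zpow_ne_zero _ (hX0 τ)), V.map_zpow, hVX, hτ, hV, monoVal_ev ht v w hs hg]
    ring
  have h5 := h2.inv h3 h4
  obtain ⟨m, hm⟩ := Int.eq_ofNat_of_zero_le hz
  have h6 : InLoc A V (X τ ^ m) := InLoc.of_mem (A.pow_mem hτA m)
  have h7 := (h1.mul h5).mul h6
  have h8 : ev K t f / ev K t g = ev K t f * X τ ^ (-(gaussN v w f)) *
      (ev K t g * X τ ^ (-(gaussN v w g)))⁻¹ * X τ ^ m := by
    rw [← zpow_natCast (X τ) m]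
    have h9 : ((m : ℕ) : ℤ) = gaussN v w f - gaussN v w g := hm.symm
    rw [h9, mul_inv, zpow_sub₀ (hX0 τ), zpow_neg, zpow_neg, inv_inv]
    have h10 := zpow_ne_zero (gaussN v w f) (hX0 τ)
    have h11 := zpow_ne_zero (gaussN v w g) (hX0 τ)
    field_simp
  rw [h8]
  exact h7

end Pool.Agent.Helper92.Weak
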