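import Pool.Agent.Helper92.Weak.Torus7
import Pool.Agent.Helper92.Weak.Mono
import Pool.Agent.Helper50.Forms.Basic
import Pool.Agent.Helper50.Forms.Log
import Pool.Agent.Helper50.Forms.Unif

set_option autoImplicit false

/-! The order of `η ∧ dlog t₁ ∧ ... ∧ dlog t_r` along monomial valuations. -/

namespace Pool.Agent.Helper92.Weak

open scoped KaehlerDifferential
open Module Pool.Agent.Helper50.Forms

section smul

variable {k L : Type*} [Field k] [Field L] [Algebra k L]

lemma isOrd_smul_aux {n : ℕ} (v : DVal k L) {g : L} (hg : g ≠ 0) {ω : ⋀[L]^n Ω[L⁄k]} {a : ℤ}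
    (h : v.IsOrd ω a) : v.IsOrd (g • ω) (v g + a) := by
  obtain ⟨⟨z, f, hz, hf, hfa, he⟩, h2⟩ := h
  constructor
  · refine ⟨z, g * f, hz, mul_ne_zero hg hf, ?_, ?_⟩
    · rw [v.map_mul hg hf, hfa]
    · rw [he, smul_smul]
  · rintro m ⟨z', f', hz', hf', rfl, he'⟩
    have h3 : v (g⁻¹ * f') ≤ a := by
      apply h2
      refine ⟨z', g⁻¹ * f', hz', mul_ne_zero (inv_ne_zero hg) hf', rfl, ?_⟩
      rw [mul_smul, ← he', smul_smul, inv_mul_cancel₀ hg, one_smul]
    rw [v.map_mul (inv_ne_zero hg) hf', v.map_inv] at h3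
    linarith

theorem isOrd_smul {n : ℕ} (v : DVal k L) {g : L} (hg : g ≠ 0) {ω : ⋀[L]^n Ω[L⁄k]} {a : ℤ} :
    v.IsOrd (g • ω) (v g + a) ↔ v.IsOrd ω a := by
  constructor
  · intro h
    have h1 := isOrd_smul_aux v (inv_ne_zero hg) h
    rw [smul_smul, inv_mul_cancel₀ hg, one_smul, v.map_inv] at h1
    have h2 : -v g + (v g + a) = a := by ring
    rwa [h2] at h1
  · exact isOrd_smul_aux v hg

end smul

variable {k K L : Type*} [Field k] [Field K] [Field L] [Algebra k K] [Algebra k L] [Algebra K L]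
  [IsScalarTower k K L] {r : ℕ} {t : Fin r → L}

/-- The form `f dz₁ ∧ ... ∧ dz_d ∧ dlog t₁ ∧ ... ∧ dlog t_r`. -/
noncomputable def omega0 {d : ℕ} (t : Fin r → L) (f : K) (z : Fin d → K) :
    ⋀[L]^(d + r) Ω[L⁄k] :=
  (algebraMap K L f * ∏ l, (t l)⁻¹) •
    dform k (Fin.append (fun i => algebraMap K L (z i)) t)

lemma IsTorus.coef_ne (ht : IsTorus K t) {f : K} (hf : f ≠ 0) :
    algebraMap K L f * ∏ l, (t l)⁻¹ ≠ 0 :=
  mul_ne_zero (by simpa using hf) (Finset.prod_ne_zero_iff.2 fun l _ => inv_ne_zero (ht.ne_zero l))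

theorem exists_smul_omega0 [CharZero k] {d : ℕ} {y : Fin d → K} (hy : IsTranscendenceBasis k y)
    (ht : IsTorus K t) {f : K} (hf : f ≠ 0) (z : Fin d → K) (hz : dform k z ≠ 0)
    (ω : ⋀[L]^(d + r) Ω[L⁄k]) : ∃ g : L, ω = g • omega0 (k := k) t f z := by
  obtain ⟨b₀, -⟩ := exists_kaehler_basis hy
  obtain ⟨b, hb⟩ := exists_basis_of_ne_zero b₀ z hz
  obtain ⟨B, hB, -, -⟩ := exists_basis_tower hy t ht.indep ht.gen z b hb
  obtain ⟨g, hg⟩ := exists_smul_dform _ B hB ω
  refine ⟨g * (algebraMap K L f * ∏ l, (t l)⁻¹)⁻¹, ?_⟩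
  rw [omega0, smul_smul, mul_assoc, inv_mul_cancel₀ (ht.coef_ne hf), mul_one]
  exact hg

omit [IsScalarTower k K L] in
/-- Change of the coordinates of the base. -/
lemma dform_append {d : ℕ} (t : Fin r → L) (z z' : Fin d → K) (b' : Basis (Fin d) K Ω[K⁄k])
    (B' : Basis (Fin (d + r)) L Ω[L⁄k])
    (hB' : ∀ i, B' i = KaehlerDifferential.D k L
      (Fin.append (fun i => algebraMap K L (z' i)) t i))
    (h1 : ∀ (f : K) (i : Fin d), B'.repr (KaehlerDifferential.D k L (algebraMap K L f))
      (Fin.castAdd r i) = algebraMap K L (b'.repr (KaehlerDifferential.D k K f) i))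
    (h2 : ∀ (f : K) (j : Fin r),
      B'.repr (KaehlerDifferential.D k L (algebraMap K L f)) (Fin.natAdd d j) = 0) :
    dform k (Fin.append (fun i => algebraMap K L (z i)) t) =
      algebraMap K L (b'.det fun j => KaehlerDifferential.D k K (z j)) •
        dform k (Fin.append (fun i => algebraMap K L (z' i)) t) := by
  rw [dform_eq_det _ B' hB']
  congr 1
  rw [Basis.det_apply, Basis.det_apply, RingHom.map_det, ← Matrix.det_submatrix_equiv_self
    (finSumFinEquiv : Fin d ⊕ Fin r ≃ Fin (d + r))]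
  have h3 : (B'.toMatrix fun j => KaehlerDifferential.D k L
      (Fin.append (fun i => algebraMap K L (z i)) t j)).submatrix finSumFinEquiv finSumFinEquiv =
      Matrix.fromBlocks ((algebraMap K L).mapMatrix
        (b'.toMatrix fun j => KaehlerDifferential.D k K (z j))) 0 0 1 := by
    ext i j
    rw [Matrix.submatrix_apply, Basis.toMatrix_apply]
    rcases i with i | i <;> rcases j with j | j
    · rw [finSumFinEquiv_apply_left, finSumFinEquiv_apply_left, Fin.append_left, h1]
      rfl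
    · rw [finSumFinEquiv_apply_left, finSumFinEquiv_apply_right, Fin.append_right]
      have h4 : KaehlerDifferential.D k L (t j) = B' (Fin.natAdd d j) := by
        rw [hB', Fin.append_right]
      rw [h4, B'.repr_self, Finsupp.single_apply, if_neg, Matrix.fromBlocks_apply₁₂]
      · rfl
      · intro h
        have := congrArg Fin.val h
        simp at this
        omega
    · rw [finSumFinEquiv_apply_left, finSumFinEquiv_apply_right, Fin.append_left, h2]
      rfl
    · rw [finSumFinEquiv_apply_right, finSumFinEquiv_apply_right, Fin.append_right]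
      have h4 : KaehlerDifferential.D k L (t j) = B' (Fin.natAdd d j) := by
        rw [hB', Fin.append_right]
      rw [h4, B'.repr_self, Finsupp.single_apply, Matrix.fromBlocks_apply₂₂, Matrix.one_apply]
      by_cases hij : i = j
      · subst hij; simp
      · rw [if_neg hij, if_neg]
        intro h
        exact hij (Fin.natAdd_injective r d h).symm
  rw [h3, Matrix.det_fromBlocks_zero₂₁, Matrix.det_one, mul_one]

section der

variable (ht : IsTorus K t) (v : ZVal k K) (w : Fin r → ℤ)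
  (hs : ∃ (c : K) (u : Fin r → ℤ), c ≠ 0 ∧ v c + ipair w u = 1)

/-- A derivation which does not drop the values of the terms does not drop any value. -/
lemma der_ge (δ : Derivation k L L)
    (hδ : ∀ (a : K) (u : Fin r → ℤ), a ≠ 0 →
      (monoVal ht v w hs).Ge ((v a + ipair w u : ℤ) : ℚ) (δ (a • mono t u))) (y : L) :
    (monoVal ht v w hs).Ge ((monoVal ht v w hs) y) (δ y) := by
  by_cases hy0 : y = 0
  · rw [hy0, map_zero]; exact DVal.Ge.zero
  have hev : ∀ f : (Fin r → ℤ) →₀ K, f ≠ 0 →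
      (monoVal ht v w hs).Ge ((monoVal ht v w hs) (ev K t f)) (δ (ev K t f)) := by
    intro f hf
    rw [monoVal_ev ht v w hs hf, ev_apply, map_sum]
    apply DVal.Ge.sum
    intro u hu
    have hu' := Finsupp.mem_support_iff.1 hu
    refine (hδ _ u hu').mono ?_
    exact_mod_cast gaussN_le hu'
  obtain ⟨f, g, hg, rfl⟩ := exists_ev_div ht y
  have hf : f ≠ 0 := by
    rintro rfl
    rw [map_zero, zero_div] at hy0
    exact hy0 rfl
  have hf' : ev K t f ≠ 0 := fun h => hf (ev_injective ht (by rw [h, map_zero]))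
  have hg' : ev K t g ≠ 0 := fun h => hg (ev_injective ht (by rw [h, map_zero]))
  set V := monoVal ht v w hs with hV
  rw [Derivation.leibniz_div, V.map_div hf' hg', smul_eq_mul, smul_eq_mul, smul_eq_mul]
  have h1 : V.Ge ((V (ev K t f) : ℚ) + V (ev K t g))
      (ev K t g * δ (ev K t f) - ev K t f * δ (ev K t g)) := by
    apply DVal.Ge.sub
    · have := (DVal.ge_self (v := V) (ev K t g)).mul (hev f hf)
      rwa [add_comm] at this
    · exact (DVal.ge_self (v := V) (ev K t f)).mul (hev g hg)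
  have h2 : V.Ge (-2 * (V (ev K t g) : ℚ)) ((ev K t g)⁻¹ ^ 2) := by
    right
    rw [V.map_pow, V.map_inv]
    push_cast
    linarith
  refine (h2.mul h1).mono ?_
  push_cast
  linarith

/-- Euler type derivations. -/
lemma euler_ge (δ : Derivation k L L)
    (hδ : ∀ (a : K) (u : Fin r → ℤ), a ≠ 0 →
      (monoVal ht v w hs).Ge ((v a + ipair w u : ℤ) + 1 : ℚ)
        (δ (a • mono t u) - ((v a + ipair w u : ℤ) : L) * (a • mono t u))) (y : L) :
    (monoVal ht v w hs).Ge ((monoVal ht v w hs) y + 1)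
      (δ y - ((monoVal ht v w hs) y : L) * y) := by
  by_cases hy0 : y = 0
  · rw [hy0, map_zero, mul_zero, sub_zero]; exact DVal.Ge.zero
  set V := monoVal ht v w hs with hV
  have hint : ∀ n : ℤ, V.Ge 0 (n : L) := by
    intro n
    have h : (n : L) ∈ V.ring := by
      have := V.ring.algebraMap_mem (n : k)
      rwa [map_intCast] at this
    exact (V.mem_ring_iff_ge).1 h
  have hev : ∀ f : (Fin r → ℤ) →₀ K, f ≠ 0 →
      V.Ge (V (ev K t f) + 1) (δ (ev K t f) - (V (ev K t f) : L) * ev K t f) := by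
    intro f hf
    rw [hV, monoVal_ev ht v w hs hf]
    rw [ev_apply, map_sum, Finset.mul_sum, ← Finset.sum_sub_distrib]
    apply DVal.Ge.sum
    intro u hu
    have hu' := Finsupp.mem_support_iff.1 hu
    have h1 := hδ _ u hu'
    have h2 : gaussN v w f ≤ v (f u) + ipair w u := gaussN_le hu'
    rcases h2.eq_or_lt with h3 | h3
    · rw [h3]
      exact h1
    · have h4 : V.Ge ((v (f u) + ipair w u : ℤ) : ℚ) (f u • mono t u) := by
        right
        rw [hV, monoVal_term ht v w hs hu']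
      have h5 : δ (f u • mono t u) - (gaussN v w f : L) * (f u • mono t u) =
          (δ (f u • mono t u) - ((v (f u) + ipair w u : ℤ) : L) * (f u • mono t u)) +
          (((v (f u) + ipair w u : ℤ) - gaussN v w f : ℤ) : L) * (f u • mono t u) := by
        push_cast
        ring
      rw [h5]
      have h6 : (gaussN v w f : ℚ) + 1 ≤ ((v (f u) + ipair w u : ℤ) : ℚ) := by
        exact_mod_cast h3
      apply DVal.Ge.add
      · refine h1.mono ?_
        linarith
      · have h7 := (hint ((v (f u) + ipair w u : ℤ) - gaussN v w f)).mul h4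
        refine h7.mono ?_
        linarith
  obtain ⟨f, g, hg, rfl⟩ := exists_ev_div ht y
  have hf : f ≠ 0 := by
    rintro rfl
    rw [map_zero, zero_div] at hy0
    exact hy0 rfl
  have hf' : ev K t f ≠ 0 := fun h => hf (ev_injective ht (by rw [h, map_zero]))
  have hg' : ev K t g ≠ 0 := fun h => hg (ev_injective ht (by rw [h, map_zero]))
  have h0 : δ (ev K t f / ev K t g) - ((V (ev K t f / ev K t g) : ℤ) : L) * (ev K t f / ev K t g) =
      (ev K t g)⁻¹ ^ 2 * (ev K t g * (δ (ev K t f) - (V (ev K t f) : L) * ev K t f) -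
        ev K t f * (δ (ev K t g) - (V (ev K t g) : L) * ev K t g)) := by
    rw [Derivation.leibniz_div, V.map_div hf' hg', smul_eq_mul, smul_eq_mul, smul_eq_mul]
    push_cast
    field_simp
    ring
  rw [h0, V.map_div hf' hg']
  have h1 : V.Ge ((V (ev K t f) : ℚ) + V (ev K t g) + 1)
      (ev K t g * (δ (ev K t f) - (V (ev K t f) : L) * ev K t f) -
        ev K t f * (δ (ev K t g) - (V (ev K t g) : L) * ev K t g)) := by
    apply DVal.Ge.sub
    · refine ((DVal.ge_self (v := V) (ev K t g)).mul (hev f hf)).mono ?_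
      linarith
    · refine ((DVal.ge_self (v := V) (ev K t f)).mul (hev g hg)).mono ?_
      linarith
  have h2 : V.Ge (-2 * (V (ev K t g) : ℚ)) ((ev K t g)⁻¹ ^ 2) := by
    right
    rw [V.map_pow, V.map_inv]
    push_cast
    linarith
  refine (h2.mul h1).mono ?_
  push_cast
  linarith

end der

set_option linter.unusedSectionVars false

section par

variable {d : ℕ} {z : Fin d → K} {b : Basis (Fin d) K Ω[K⁄k]} {B : Basis (Fin (d + r)) L Ω[L⁄k]}

lemma D_mono (ht : IsTorus K t) (u : Fin r → ℤ) :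
    KaehlerDifferential.D k L (mono t u) =
      mono t u • ∑ l, (u l : L) • dl k (t l) := by
  rw [← smul_dl (k := k) (ht.mono_ne u)]
  congr 1
  exact dl_prod Finset.univ t u fun l _ => ht.ne_zero l

lemma repr_dl_t (hB : ∀ i, B i = KaehlerDifferential.D k L
      (Fin.append (fun i => algebraMap K L (z i)) t i)) (l : Fin r) (i : Fin (d + r)) :
    B.repr (dl k (t l)) i = if i = Fin.natAdd d l then (t l)⁻¹ else 0 := by
  have h4 : KaehlerDifferential.D k L (t l) = B (Fin.natAdd d l) := by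
    rw [hB, Fin.append_right]
  rw [dl, h4, map_smul, Finsupp.smul_apply, B.repr_self, Finsupp.single_apply, smul_eq_mul]
  by_cases h : Fin.natAdd d l = i
  · rw [if_pos h, if_pos h.symm, mul_one]
  · rw [if_neg h, if_neg (Ne.symm h), mul_zero]

lemma repr_mono_cast (ht : IsTorus K t) (hB : ∀ i, B i = KaehlerDifferential.D k L
      (Fin.append (fun i => algebraMap K L (z i)) t i)) (u : Fin r → ℤ) (i : Fin d) :
    B.repr (KaehlerDifferential.D k L (mono t u)) (Fin.castAdd r i) = 0 := by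
  rw [D_mono ht, map_smul, Finsupp.smul_apply, map_sum, Finsupp.finsetSum_apply]
  rw [Finset.sum_eq_zero, smul_zero]
  intro l _
  rw [map_smul, Finsupp.smul_apply, repr_dl_t hB, if_neg, smul_zero]
  intro h
  have := congrArg Fin.val h
  simp at this
  omega

lemma repr_mono_nat (ht : IsTorus K t) (hB : ∀ i, B i = KaehlerDifferential.D k L
      (Fin.append (fun i => algebraMap K L (z i)) t i)) (u : Fin r → ℤ) (j : Fin r) :
    B.repr (KaehlerDifferential.D k L (mono t u)) (Fin.natAdd d j) =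
      mono t u * ((u j : L) * (t j)⁻¹) := by
  rw [D_mono ht, map_smul, Finsupp.smul_apply, map_sum, Finsupp.finsetSum_apply, smul_eq_mul]
  congr 1
  rw [Finset.sum_eq_single j]
  · rw [map_smul, Finsupp.smul_apply, repr_dl_t hB, if_pos rfl, smul_eq_mul]
  · intro l _ hl
    rw [map_smul, Finsupp.smul_apply, repr_dl_t hB, if_neg, smul_zero]
    intro h
    exact hl (Fin.natAdd_injective r d h).symm
  · simp

lemma repr_term_cast (ht : IsTorus K t) (hB : ∀ i, B i = KaehlerDifferential.D k L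
      (Fin.append (fun i => algebraMap K L (z i)) t i))
    (h1 : ∀ (f : K) (i : Fin d), B.repr (KaehlerDifferential.D k L (algebraMap K L f))
      (Fin.castAdd r i) = algebraMap K L (b.repr (KaehlerDifferential.D k K f) i))
    (a : K) (u : Fin r → ℤ) (i : Fin d) :
    B.repr (KaehlerDifferential.D k L (a • mono t u)) (Fin.castAdd r i) =
      (b.repr (KaehlerDifferential.D k K a) i) • mono t u := by
  rw [Algebra.smul_def, Derivation.leibniz, map_add, map_smul, map_smul, Finsupp.add_apply,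
    Finsupp.smul_apply, Finsupp.smul_apply, repr_mono_cast ht hB, h1, smul_zero, zero_add,
    smul_eq_mul, mul_comm, ← Algebra.smul_def]

lemma repr_term_nat (ht : IsTorus K t) (hB : ∀ i, B i = KaehlerDifferential.D k L
      (Fin.append (fun i => algebraMap K L (z i)) t i))
    (h2 : ∀ (f : K) (j : Fin r),
      B.repr (KaehlerDifferential.D k L (algebraMap K L f)) (Fin.natAdd d j) = 0)
    (a : K) (u : Fin r → ℤ) (j : Fin r) :
    B.repr (KaehlerDifferential.D k L (a • mono t u)) (Fin.natAdd d j) =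
      (a • mono t u) * ((u j : L) * (t j)⁻¹) := by
  rw [Algebra.smul_def, Derivation.leibniz, map_add, map_smul, map_smul, Finsupp.add_apply,
    Finsupp.smul_apply, Finsupp.smul_apply, repr_mono_nat ht hB, h2, smul_zero, add_zero,
    smul_eq_mul, mul_assoc]

end par

section base

variable {d : ℕ} {z : Fin d → K} {b : Basis (Fin d) K Ω[K⁄k]} {v₀ : DVal k K}

lemma repr_split {p : K} (hp : v₀ p = 1) {i₀ : Fin d} (hz : z i₀ = p)
    (hb : ∀ i, b i = KaehlerDifferential.D k K (z i))
    (h : ∀ y, 0 ≤ v₀ y → ∀ i, 0 ≤ v₀ (b.repr (KaehlerDifferential.D k K y) i))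
    {a : K} (ha : a ≠ 0) (i : Fin d) :
    ∃ c : K, 0 ≤ v₀ c ∧ b.repr (KaehlerDifferential.D k K a) i =
      p ^ (v₀ a) * c + if i = i₀ then (v₀ a : K) * p⁻¹ * a else 0 := by
  have hp0 : p ≠ 0 := v₀.ne_zero_of_pos (by omega)
  set q := a * p ^ (-(v₀ a)) with hq
  have hq0 : v₀ q = 0 := by
    rw [hq, v₀.map_mul ha (zpow_ne_zero _ hp0), v₀.map_zpow, hp]
    ring
  have haq : a = p ^ (v₀ a) * q := by
    have h10 := zpow_ne_zero (v₀ a) hp0
    rw [hq, zpow_neg]
    field_simp
  refine ⟨b.repr (KaehlerDifferential.D k K q) i, h q (by omega) i, ?_⟩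
  have hDp : KaehlerDifferential.D k K (p ^ (v₀ a)) =
      ((v₀ a : K) * p⁻¹ * p ^ (v₀ a)) • b i₀ := by
    rw [← smul_dl (k := k) (zpow_ne_zero (v₀ a) hp0), dl_zpow hp0, dl, hb, hz, smul_smul, smul_smul]
    congr 1
    ring
  conv_lhs => rw [haq]
  rw [Derivation.leibniz, map_add, map_smul, map_smul, Finsupp.add_apply, Finsupp.smul_apply,
    Finsupp.smul_apply, hDp, map_smul, Finsupp.smul_apply, b.repr_self, Finsupp.single_apply,
    smul_eq_mul, smul_eq_mul, smul_eq_mul]
  congr 1
  by_cases hi : i₀ = i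
  · rw [if_pos hi, if_pos hi.symm]
    have h11 : (v₀ a : K) * p⁻¹ * a = (v₀ a : K) * p⁻¹ * (p ^ (v₀ a) * q) := by rw [← haq]
    rw [h11]
    ring
  · rw [if_neg hi, if_neg (Ne.symm hi)]
    ring

end base

lemma ge_term (ht : IsTorus K t) (v₀ : DVal k K) (e : ℕ) (w : Fin r → ℤ)
    (hs : ∃ (c : K) (u : Fin r → ℤ), c ≠ 0 ∧ ZVal.ofDVal e v₀ c + ipair w u = 1)
    {c : K} {n : ℤ} (hc : c = 0 ∨ n ≤ v₀ c) (u : Fin r → ℤ) :
    (monoVal ht (ZVal.ofDVal e v₀) w hs).Ge ((e * n + ipair w u : ℤ) : ℚ) (c • mono t u) := by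
  by_cases hc0 : c = 0
  · rw [hc0, zero_smul]; exact DVal.Ge.zero
  right
  rw [monoVal_term ht _ w hs hc0]
  have h : n ≤ v₀ c := hc.resolve_left hc0
  have h1 : (e : ℤ) * n ≤ e * v₀ c := mul_le_mul_of_nonneg_left h (by positivity)
  change ((e * n + ipair w u : ℤ) : ℚ) ≤ ((e * v₀ c + ipair w u : ℤ) : ℚ)
  exact_mod_cast (by linarith : e * n + ipair w u ≤ e * v₀ c + ipair w u)

end Pool.Agent.Helper92.Weak
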