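import Pool.Agent.Helper92.Weak.Torus3

set_option autoImplicit false

/-! The prime divisors of a variety with torus action. -/

namespace Pool.Agent.Helper92.Weak

open MvPolynomial

section polyVal

variable {K L : Type*} [Field K] [Field L] [Algebra K L] {r : ℕ} {t : Fin r → L}
variable (k : Type*) [Field k] [Algebra k K] [Algebra k L] [IsScalarTower k K L]

lemma polyAlg_tower (t : Fin r → L) :
    letI := polyAlg K t
    IsScalarTower k (MvPolynomial (Fin r) K) L := by
  let _ := polyAlg K t
  apply IsScalarTower.of_algebraMap_eq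
  intro x
  change _ = aeval t (algebraMap k (MvPolynomial (Fin r) K) x)
  rw [IsScalarTower.algebraMap_apply k K (MvPolynomial (Fin r) K), AlgHom.commutes,
    ← IsScalarTower.algebraMap_apply]

/-- The valuation of a prime polynomial. -/
noncomputable def polyVal (ht : IsTorus K t) (p : MvPolynomial (Fin r) K) (hp : Prime p) :
    DVal k L :=
  letI := polyAlg K t
  haveI := isFractionRing_poly ht
  haveI := polyAlg_tower (K := K) k t
  DVal.ofPrime k L p hp

variable (ht : IsTorus K t) {p : MvPolynomial (Fin r) K} (hp : Prime p)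

lemma polyVal_nonneg (a : MvPolynomial (Fin r) K) : 0 ≤ polyVal k ht p hp (aeval t a) := by
  let _ := polyAlg K t
  have := isFractionRing_poly ht
  have := polyAlg_tower (K := K) k t
  exact DVal.ofPrime_nonneg k L hp a

lemma polyVal_pos_iff {a : MvPolynomial (Fin r) K} (ha : a ≠ 0) :
    0 < polyVal k ht p hp (aeval t a) ↔ p ∣ a := by
  let _ := polyAlg K t
  have := isFractionRing_poly ht
  have := polyAlg_tower (K := K) k t
  exact DVal.ofPrime_pos_iff k L hp ha

lemma polyVal_eq_zero {a : MvPolynomial (Fin r) K} (ha : ¬ p ∣ a) :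
    polyVal k ht p hp (aeval t a) = 0 := by
  let _ := polyAlg K t
  have := isFractionRing_poly ht
  have := polyAlg_tower (K := K) k t
  exact DVal.ofPrime_eq_zero k L hp ha

lemma polyVal_self : polyVal k ht p hp (aeval t p) = 1 := by
  let _ := polyAlg K t
  have := isFractionRing_poly ht
  have := polyAlg_tower (K := K) k t
  have h := DVal.ofPrime_algebraMap k L hp hp.ne_zero
  rw [multiplicity_self] at h
  exact_mod_cast h

lemma mem_polyVal_ring {z : L} : z ∈ (polyVal k ht p hp).ring ↔
    ∃ a b : MvPolynomial (Fin r) K, ¬ p ∣ b ∧ z = aeval t a / aeval t b := by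
  let _ := polyAlg K t
  have := isFractionRing_poly ht
  have := polyAlg_tower (K := K) k t
  exact DVal.mem_ofPrime_ring k L hp

lemma polyVal_algebraMap (a : K) : polyVal k ht p hp (algebraMap K L a) = 0 := by
  by_cases ha : a = 0
  · rw [ha]; simp
  have h1 : algebraMap K L a = aeval t (C a : MvPolynomial (Fin r) K) := by simp
  rw [h1]
  apply polyVal_eq_zero
  intro h
  have h2 : IsUnit (C a : MvPolynomial (Fin r) K) := (IsUnit.mk0 a ha).map C
  exact hp.not_isUnit (isUnit_of_dvd_unit h h2)

lemma polyVal_t {i : Fin r} (hi : ¬ p ∣ X i) : polyVal k ht p hp (t i) = 0 := by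
  have h1 : t i = aeval t (X i : MvPolynomial (Fin r) K) := by simp
  conv_lhs => rw [h1]
  exact polyVal_eq_zero k ht hp hi

lemma polyVal_mono (hi : ∀ i, ¬ p ∣ X i) (u : Fin r → ℤ) : polyVal k ht p hp (mono t u) = 0 := by
  unfold mono
  rw [DVal.map_prod _ _ _ fun l _ => zpow_ne_zero _ (ht.ne_zero l)]
  apply Finset.sum_eq_zero
  intro l _
  rw [DVal.map_zpow, polyVal_t k ht hp (hi l), mul_zero]

lemma polyVal_term (hi : ∀ i, ¬ p ∣ X i) (a : K) (u : Fin r → ℤ) :
    polyVal k ht p hp (a • mono t u) = 0 := by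
  by_cases ha : a = 0
  · rw [ha]; simp
  rw [Algebra.smul_def, DVal.map_mul _ (by simpa using ha) (ht.mono_ne u),
    polyVal_algebraMap, polyVal_mono k ht hp hi, add_zero]

end polyVal

section action

variable {k K L : Type*} [Field k] [Field K] [Field L] [Algebra k K] [Algebra k L] [Algebra K L]
  [IsScalarTower k K L] {r : ℕ} {t : Fin r → L}

/-- A polynomial which is not a variable is not invariant. -/
lemma polyVal_not_inv [CharZero k] (ht : IsTorus K t) {p : MvPolynomial (Fin r) K} (hp : Prime p)
    (hi : ∀ i, ¬ p ∣ X i) : ¬ IsInv ht (polyVal k ht p hp) := by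
  intro h
  obtain ⟨f, hf⟩ := exists_ev_eq t p
  have hf0 : f ≠ 0 := by
    rintro rfl
    rw [map_zero] at hf
    exact hp.ne_zero (ht.indep (by rw [← hf, map_zero]))
  obtain ⟨u, hu⟩ := Finsupp.ne_iff.1 hf0
  have h1 := h.le_term f u hu
  rw [hf, polyVal_self, polyVal_term k ht hp hi] at h1
  omega

lemma scale_aeval (ht : IsTorus K t) (c : Fin r → kˣ) (p : MvPolynomial (Fin r) K) :
    scale k ht c (aeval t p) = aeval t (polyScale (toK K c) p) := by
  have h : ((scaleEquiv ht (toK K c) : L ≃ₐ[K] L) : L →ₐ[K] L).comp (aeval t) =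
      (aeval t).comp (polyScale (toK K c)) := by
    apply MvPolynomial.algHom_ext
    intro i
    simp only [AlgHom.comp_apply, aeval_X, polyScale, map_mul]
    change scaleEquiv ht (toK K c) (t i) = _
    rw [scaleEquiv_t]
    simp
  exact DFunLike.congr_fun h p

lemma polyScale_comp' (c : Fin r → Kˣ) (p : MvPolynomial (Fin r) K) :
    polyScale c (polyScale c⁻¹ p) = p := by
  have h := polyScale_comp c⁻¹ p
  rwa [inv_inv] at h

lemma polyScale_dvd (c : Fin r → Kˣ) {p q : MvPolynomial (Fin r) K} :
    polyScale c p ∣ polyScale c q ↔ p ∣ q := by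
  constructor
  · intro h
    have h2 := map_dvd (polyScale c⁻¹) h
    rwa [polyScale_comp, polyScale_comp] at h2
  · exact map_dvd (polyScale c)

lemma polyScale_prime (c : Fin r → Kˣ) {p : MvPolynomial (Fin r) K} (hp : Prime p) :
    Prime (polyScale c p) := by
  refine ⟨?_, ?_, ?_⟩
  · intro h
    apply hp.ne_zero
    rw [← polyScale_comp c p, h, map_zero]
  · intro h
    apply hp.not_isUnit
    rw [← polyScale_comp c p]
    exact h.map _
  · intro a b h
    rw [← polyScale_comp' c a, ← polyScale_comp' c b, ← map_mul, polyScale_dvd] at h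
    rcases hp.dvd_or_dvd h with h1 | h1
    · left
      rw [← polyScale_comp' c a, polyScale_dvd]
      exact h1
    · right
      rw [← polyScale_comp' c b, polyScale_dvd]
      exact h1

/-- The translates of the valuation of a prime polynomial. -/
lemma polyVal_comap (ht : IsTorus K t) (c : Fin r → kˣ) {p : MvPolynomial (Fin r) K}
    (hp : Prime p) :
    (polyVal k ht p hp).comap (scale k ht c) =
      polyVal k ht (polyScale (toK K c)⁻¹ p) (polyScale_prime _ hp) := by
  apply DVal.eq_of_ring_le
  intro z hz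
  rw [DVal.mem_ring, DVal.comap_apply] at hz
  have hz' : scale k ht c z ∈ (polyVal k ht p hp).ring := hz
  rw [mem_polyVal_ring] at hz' ⊢
  obtain ⟨a, b, hb, h⟩ := hz'
  refine ⟨polyScale (toK K c)⁻¹ a, polyScale (toK K c)⁻¹ b, ?_, ?_⟩
  · rwa [polyScale_dvd]
  · apply (scale k ht c).injective
    rw [map_div₀, scale_aeval, scale_aeval, polyScale_comp', polyScale_comp', h]

end action

end Pool.Agent.Helper92.Weak
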