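import Pool.Agent.Helper92.Weak.VarLem

set_option autoImplicit false

/-! Laurent polynomials inside a purely transcendental extension. -/

namespace Pool.Agent.Helper92.Weak

open MvPolynomial

variable {K L : Type*} [Field K] [Field L] [Algebra K L] {r : ℕ}

/-- The monomial `t ^ u`. -/
def mono (t : Fin r → L) (u : Fin r → ℤ) : L := ∏ l, t l ^ u l

/-- `L = K(t₁, ..., t_r)` with `t₁, ..., t_r` algebraically independent. -/
structure IsTorus (K : Type*) {L : Type*} [Field K] [Field L] [Algebra K L] {r : ℕ}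
    (t : Fin r → L) : Prop where
  indep : AlgebraicIndependent K t
  gen : IntermediateField.adjoin K (Set.range t) = ⊤

lemma mono_zero (t : Fin r → L) : mono t 0 = 1 := by simp [mono]

lemma mono_add {t : Fin r → L} (ht : ∀ l, t l ≠ 0) (u u' : Fin r → ℤ) :
    mono t (u + u') = mono t u * mono t u' := by
  unfold mono
  rw [← Finset.prod_mul_distrib]
  exact Finset.prod_congr rfl fun l _ => zpow_add₀ (ht l) _ _

lemma mono_ne_zero {t : Fin r → L} (ht : ∀ l, t l ≠ 0) (u : Fin r → ℤ) : mono t u ≠ 0 :=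
  Finset.prod_ne_zero_iff.2 fun l _ => zpow_ne_zero _ (ht l)

lemma mono_neg (t : Fin r → L) (u : Fin r → ℤ) : mono t (-u) = (mono t u)⁻¹ := by
  unfold mono
  rw [← Finset.prod_inv_distrib]
  exact Finset.prod_congr rfl fun l _ => by rw [Pi.neg_apply, zpow_neg]

lemma mono_smul (t : Fin r → L) (n : ℤ) (u : Fin r → ℤ) : mono t (n • u) = mono t u ^ n := by
  unfold mono
  rw [← Finset.prod_zpow]
  exact Finset.prod_congr rfl fun l _ => by
    rw [Pi.smul_apply, smul_eq_mul, mul_comm, zpow_mul]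

lemma mono_single (t : Fin r → L) (l : Fin r) : mono t (Pi.single l 1) = t l := by
  unfold mono
  rw [Finset.prod_eq_single l]
  · simp
  · intro j _ hj
    rw [Pi.single_eq_of_ne hj]
    simp
  · simp

namespace IsTorus

variable {t : Fin r → L} (ht : IsTorus K t)

include ht

lemma ne_zero (l : Fin r) : t l ≠ 0 := ht.indep.ne_zero l

lemma mono_ne (u : Fin r → ℤ) : mono t u ≠ 0 := mono_ne_zero ht.ne_zero u

end IsTorus

variable (K) in
/-- Evaluation of Laurent polynomials. -/
noncomputable def ev (t : Fin r → L) : ((Fin r → ℤ) →₀ K) →ₗ[K] L :=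
  Finsupp.linearCombination K (mono t)

lemma ev_apply (t : Fin r → L) (f : (Fin r → ℤ) →₀ K) :
    ev K t f = ∑ u ∈ f.support, f u • mono t u := rfl

lemma ev_single (t : Fin r → L) (u : Fin r → ℤ) (c : K) :
    ev K t (Finsupp.single u c) = c • mono t u := by
  simp [ev]

/-- Shifting the exponents of a polynomial. -/
noncomputable def shift (f : (Fin r → ℤ) →₀ K) (s : Fin r → ℤ) : MvPolynomial (Fin r) K :=
  ∑ u ∈ f.support, monomial (Finsupp.equivFunOnFinite.symm fun l => (u l + s l).toNat) (f u)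

lemma aeval_shift {t : Fin r → L} (ht : ∀ l, t l ≠ 0) (f : (Fin r → ℤ) →₀ K) (s : Fin r → ℤ)
    (hs : ∀ u ∈ f.support, ∀ l, 0 ≤ u l + s l) :
    aeval t (shift f s) = ev K t f * mono t s := by
  unfold shift
  rw [map_sum, ev_apply, Finset.sum_mul]
  refine Finset.sum_congr rfl fun u hu => ?_
  rw [aeval_monomial, Finsupp.prod_fintype _ _ (fun i => by simp), smul_mul_assoc,
    ← mono_add ht, Algebra.smul_def]
  congr 1
  unfold mono
  refine Finset.prod_congr rfl fun l _ => ?_
  have h := hs u hu l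
  simp only [Finsupp.equivFunOnFinite_symm_apply_apply, Pi.add_apply]
  rw [← zpow_natCast, Int.toNat_of_nonneg h]

lemma exists_shift (f : (Fin r → ℤ) →₀ K) : ∃ s : Fin r → ℤ, ∀ u ∈ f.support, ∀ l, 0 ≤ u l + s l :=
  ⟨fun l => ∑ u ∈ f.support, |u l|, fun u hu l => by
    have h1 := Finset.single_le_sum (f := fun u : Fin r → ℤ => |u l|) (fun u _ => abs_nonneg _) hu
    have h2 := neg_abs_le (u l)
    linarith⟩

lemma shift_eq_zero {f : (Fin r → ℤ) →₀ K} {s : Fin r → ℤ}
    (hs : ∀ u ∈ f.support, ∀ l, 0 ≤ u l + s l) (h : shift f s = 0) : f = 0 := by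
  classical
  ext u
  rw [Finsupp.zero_apply]
  by_contra hu
  have hu' : u ∈ f.support := Finsupp.mem_support_iff.2 hu
  have h1 := congrArg (coeff (Finsupp.equivFunOnFinite.symm fun l => (u l + s l).toNat)) h
  unfold shift at h1
  rw [coeff_sum, coeff_zero, Finset.sum_eq_single u] at h1
  · rw [coeff_monomial, if_pos rfl] at h1
    exact hu h1
  · intro u' hu'' hne
    rw [coeff_monomial, if_neg]
    intro heq
    apply hne
    funext l
    have h2 := DFunLike.congr_fun heq l
    simp only [Finsupp.equivFunOnFinite_symm_apply_apply] at h2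
    have h3 := hs u hu' l
    have h4 := hs u' hu'' l
    omega
  · intro hne
    exact absurd hu' hne

lemma ev_injective {t : Fin r → L} (ht : IsTorus K t) : Function.Injective (ev K t) := by
  rw [injective_iff_map_eq_zero]
  intro f hf
  obtain ⟨s, hs⟩ := exists_shift f
  apply shift_eq_zero hs
  have h := aeval_shift ht.ne_zero f s hs
  rw [hf, zero_mul] at h
  exact ht.indep (by rw [h, map_zero])

lemma exists_ev_eq (t : Fin r → L) (p : MvPolynomial (Fin r) K) : ∃ f : (Fin r → ℤ) →₀ K,
    ev K t f = aeval t p := by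
  classical
  refine ⟨∑ m ∈ p.support, Finsupp.single (fun l => ((m l : ℕ) : ℤ)) (coeff m p), ?_⟩
  rw [map_sum]
  conv_rhs => rw [p.as_sum]
  rw [map_sum]
  refine Finset.sum_congr rfl fun m _ => ?_
  rw [ev_single, aeval_monomial, Finsupp.prod_fintype _ _ (fun i => by simp), Algebra.smul_def]
  congr 1
  unfold mono
  exact Finset.prod_congr rfl fun l _ => zpow_natCast _ _

/-- The polynomial ring maps to the field. -/
@[reducible] noncomputable def polyAlg (K : Type*) {L : Type*} [Field K] [Field L] [Algebra K L]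
    {r : ℕ} (t : Fin r → L) : Algebra (MvPolynomial (Fin r) K) L :=
  (aeval t : MvPolynomial (Fin r) K →ₐ[K] L).toRingHom.toAlgebra

lemma exists_aeval_div {t : Fin r → L} (ht : IsTorus K t) (z : L) :
    ∃ a b : MvPolynomial (Fin r) K, b ≠ 0 ∧ z = aeval t a / aeval t b := by
  have hz : z ∈ IntermediateField.adjoin K (Set.range t) := by rw [ht.gen]; trivial
  rw [IntermediateField.mem_adjoin_iff_div] at hz
  obtain ⟨a, ha, b, hb, h⟩ := hz
  rw [Algebra.adjoin_range_eq_range_aeval] at ha hb
  obtain ⟨a, rfl⟩ := ha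
  obtain ⟨b, rfl⟩ := hb
  by_cases hb0 : b = 0
  · refine ⟨0, 1, one_ne_zero, ?_⟩
    rw [h, hb0]
    simp
  · exact ⟨a, b, hb0, h⟩

lemma isFractionRing_poly {t : Fin r → L} (ht : IsTorus K t) :
    letI := polyAlg K t
    IsFractionRing (MvPolynomial (Fin r) K) L := by
  let _ := polyAlg K t
  have hinj : Function.Injective (algebraMap (MvPolynomial (Fin r) K) L) := ht.indep
  have : FaithfulSMul (MvPolynomial (Fin r) K) L :=
    (faithfulSMul_iff_algebraMap_injective _ _).2 hinj
  apply IsFractionRing.of_field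
  intro z
  obtain ⟨a, b, -, h⟩ := exists_aeval_div ht z
  exact ⟨a, b, h⟩

lemma exists_ev_div {t : Fin r → L} (ht : IsTorus K t) (z : L) :
    ∃ f g : (Fin r → ℤ) →₀ K, g ≠ 0 ∧ z = ev K t f / ev K t g := by
  obtain ⟨a, b, hb, h⟩ := exists_aeval_div ht z
  obtain ⟨f, hf⟩ := exists_ev_eq t a
  obtain ⟨g, hg⟩ := exists_ev_eq t b
  refine ⟨f, g, ?_, by rw [h, hf, hg]⟩
  rintro rfl
  rw [map_zero] at hg
  exact hb (ht.indep (by rw [← hg, map_zero]))

end Pool.Agent.Helper92.Weak
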