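import Mathlib

set_option autoImplicit false

/-! Farkas' lemma over `ℚ` and some consequences. -/

namespace Pool.Agent.Helper92.Weak

open Finset

variable {E : Type*} [AddCommGroup E] [Module ℚ E]

/-- Farkas' lemma over the rationals. -/
theorem farkas {ι : Type*} (s : Finset ι) : ∀ (a : ι → E) (b : E),
    (∃ c : ι → ℚ, (∀ i ∈ s, 0 ≤ c i) ∧ b = ∑ i ∈ s, c i • a i) ∨
      (∃ y : E →ₗ[ℚ] ℚ, (∀ i ∈ s, 0 ≤ y (a i)) ∧ y b < 0) := by
  classical
  induction s using Finset.induction_on with
  | empty =>
    intro a b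
    by_cases hb : b = 0
    · left
      exact ⟨0, by simp, by simp [hb]⟩
    · right
      have h : ¬ ∀ φ : Module.Dual ℚ E, φ b = 0 := fun h =>
        hb ((Module.forall_dual_apply_eq_zero_iff ℚ b).1 h)
      push Not at h
      obtain ⟨φ, hφ⟩ := h
      rcases lt_or_gt_of_ne hφ with h1 | h1
      · exact ⟨φ, by simp, h1⟩
      · refine ⟨-φ, by simp, ?_⟩
        simp only [LinearMap.neg_apply]
        linarith
  | insert k s hk ih =>
    intro a b
    rcases ih a b with ⟨c, hc, hb⟩ | ⟨y, hy, hyb⟩
    · left
      refine ⟨fun i => if i = k then 0 else c i, ?_, ?_⟩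
      · intro i hi
        by_cases h : i = k
        · simp [h]
        · simp only [h, if_false]
          exact hc i ((Finset.mem_insert.1 hi).resolve_left h)
      · rw [Finset.sum_insert hk, hb]
        simp only [if_true, zero_smul, zero_add]
        refine Finset.sum_congr rfl fun i hi => ?_
        have : i ≠ k := fun h => hk (h ▸ hi)
        simp [this]
    · by_cases hk0 : 0 ≤ y (a k)
      · right
        refine ⟨y, ?_, hyb⟩
        intro i hi
        rcases Finset.mem_insert.1 hi with rfl | hi
        · exact hk0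
        · exact hy i hi
      · push Not at hk0
        set p : E → E := fun x => x - (y x / y (a k)) • a k with hp
        rcases ih (fun i => p (a i)) (p b) with ⟨c, hc, hb⟩ | ⟨z, hz, hzb⟩
        · left
          refine ⟨fun i => if i = k then y b / y (a k) - ∑ j ∈ s, c j * (y (a j) / y (a k))
            else c i, ?_, ?_⟩
          · intro i hi
            by_cases h : i = k
            · simp only [h, if_true]
              have h1 : 0 < y b / y (a k) := div_pos_of_neg_of_neg hyb hk0
              have h2 : ∑ j ∈ s, c j * (y (a j) / y (a k)) ≤ 0 := by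
                apply Finset.sum_nonpos
                intro j hj
                exact mul_nonpos_of_nonneg_of_nonpos (hc j hj)
                  (div_nonpos_of_nonneg_of_nonpos (hy j hj) hk0.le)
              linarith
            · simp only [h, if_false]
              exact hc i ((Finset.mem_insert.1 hi).resolve_left h)
          · rw [Finset.sum_insert hk]
            simp only [if_true]
            have h3 : ∑ i ∈ s, (if i = k then y b / y (a k) -
                ∑ j ∈ s, c j * (y (a j) / y (a k)) else c i) • a i = ∑ i ∈ s, c i • a i := by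
              refine Finset.sum_congr rfl fun i hi => ?_
              have : i ≠ k := fun h => hk (h ▸ hi)
              simp [this]
            rw [h3]
            have h4 : b - (y b / y (a k)) • a k =
                ∑ i ∈ s, c i • (a i - (y (a i) / y (a k)) • a k) := hb
            have h5 : ∑ i ∈ s, c i • (a i - (y (a i) / y (a k)) • a k) =
                ∑ i ∈ s, c i • a i - (∑ i ∈ s, c i * (y (a i) / y (a k))) • a k := by
              rw [Finset.sum_smul, ← Finset.sum_sub_distrib]
              refine Finset.sum_congr rfl fun i _ => ?_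
              rw [smul_sub, smul_smul]
            rw [h5] at h4
            have h6 : b = ∑ i ∈ s, c i • a i - (∑ i ∈ s, c i * (y (a i) / y (a k))) • a k +
                (y b / y (a k)) • a k := by
              rw [← h4]; abel
            conv_lhs => rw [h6]
            rw [sub_smul]
            abel
        · right
          refine ⟨z - (z (a k) / y (a k)) • y, ?_, ?_⟩
          · intro i hi
            rcases Finset.mem_insert.1 hi with rfl | hi
            · simp only [LinearMap.sub_apply, LinearMap.smul_apply, smul_eq_mul]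
              rw [div_mul_cancel₀ _ hk0.ne, sub_self]
            · have := hz i hi
              simp only [hp, map_sub, map_smul, smul_eq_mul] at this
              simp only [LinearMap.sub_apply, LinearMap.smul_apply, smul_eq_mul]
              have e : y (a i) / y (a k) * z (a k) = z (a k) / y (a k) * y (a i) := by ring
              rw [e] at this
              exact this
          · simp only [hp, map_sub, map_smul, smul_eq_mul] at hzb
            simp only [LinearMap.sub_apply, LinearMap.smul_apply, smul_eq_mul]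
            have e : y b / y (a k) * z (a k) = z (a k) / y (a k) * y b := by ring
            rw [e] at hzb
            exact hzb

/-- Linear programming duality: either there is a convex combination of the points `x i` equal to
`u` with cost at most `C`, or the points can be separated. -/
theorem lp_dual {ι : Type*} (s : Finset ι) (x : ι → E) (c : ι → ℚ) (u : E) (C : ℚ) :
    (∃ t : ι → ℚ, (∀ i ∈ s, 0 ≤ t i) ∧ ∑ i ∈ s, t i = 1 ∧ ∑ i ∈ s, t i • x i = u ∧
      ∑ i ∈ s, t i * c i ≤ C) ∨
    (∃ (w : E →ₗ[ℚ] ℚ) (l : ℚ), 0 ≤ l ∧ ∀ i ∈ s, w u + l * C < w (x i) + l * c i) := by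
  classical
  -- vectors in `E × ℚ × ℚ`, index `none` is `(0, 0, 1)`
  let a : Option ι → E × ℚ × ℚ := fun o => o.elim (0, 0, 1) fun i => (x i, 1, c i)
  rcases farkas (Finset.insertNone s) a (u, 1, C) with ⟨t, ht, hb⟩ | ⟨y, hy, hyb⟩
  · left
    have ht0 : 0 ≤ t none := ht none (by simp)
    have hti : ∀ i ∈ s, 0 ≤ t (some i) := fun i hi => ht (some i) (by simpa using hi)
    rw [Finset.sum_insertNone] at hb
    simp only [a, Option.elim_none, Option.elim_some, Prod.ext_iff, Prod.smul_mk, Prod.fst_add,
      Prod.snd_add, Prod.fst_sum, Prod.snd_sum, smul_zero, smul_eq_mul, mul_one, mul_zero,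
      zero_add] at hb
    obtain ⟨h1, h2, h3⟩ := hb
    exact ⟨fun i => t (some i), hti, h2.symm, h1.symm, by linarith⟩
  · right
    have h0 : 0 ≤ y (0, 0, 1) := hy none (by simp)
    refine ⟨y.comp (LinearMap.inl ℚ E (ℚ × ℚ)), y (0, 0, 1), h0, ?_⟩
    intro i hi
    have h1 : 0 ≤ y (x i, 1, c i) := hy (some i) (by simpa using hi)
    have e : ∀ (z : E) (r q : ℚ), y (z, r, q) = y (z, 0, 0) + r * y (0, 1, 0) + q * y (0, 0, 1) := by
      intro z r q
      have : ((z, r, q) : E × ℚ × ℚ) = (z, 0, 0) + r • (0, 1, 0) + q • (0, 0, 1) := by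
        simp
      rw [this, map_add, map_add, map_smul, map_smul]
      simp
    rw [e] at h1 hyb
    simp only [LinearMap.comp_apply, LinearMap.inl_apply]
    have e2 : ((0, 0) : ℚ × ℚ) = 0 := rfl
    rw [e2] at h1 hyb
    nlinarith

/-- Carathéodory with costs: minimal support. -/
theorem exists_indep_support {ι : Type*} (s : Finset ι) (x : ι → E) (c : ι → ℚ) (u : E)
    (C : ℚ) (h : ∃ t : ι → ℚ, (∀ i ∈ s, 0 ≤ t i) ∧ ∑ i ∈ s, t i = 1 ∧ ∑ i ∈ s, t i • x i = u ∧
      ∑ i ∈ s, t i * c i ≤ C) :
    ∃ t : ι → ℚ, (∀ i, 0 ≤ t i) ∧ (∀ i ∉ s, t i = 0) ∧ ∑ i ∈ s, t i = 1 ∧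
      ∑ i ∈ s, t i • x i = u ∧ ∑ i ∈ s, t i * c i ≤ C ∧
      ∀ μ : ι → ℚ, (∀ i, t i = 0 → μ i = 0) → ∑ i ∈ s, μ i = 0 → ∑ i ∈ s, μ i • x i = 0 →
        μ = 0 := by
  classical
  -- the cardinalities of the supports
  let S : Set ℕ := {n | ∃ t : ι → ℚ, (∀ i, 0 ≤ t i) ∧ (∀ i ∉ s, t i = 0) ∧ ∑ i ∈ s, t i = 1 ∧
      ∑ i ∈ s, t i • x i = u ∧ ∑ i ∈ s, t i * c i ≤ C ∧ (s.filter (fun i => t i ≠ 0)).card = n}
  have hS : S.Nonempty := by
    obtain ⟨t, h1, h2, h3, h4⟩ := h
    refine ⟨_, fun i => if i ∈ s then t i else 0, ?_, ?_, ?_, ?_, ?_, rfl⟩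
    · intro i
      by_cases hi : i ∈ s
      · simp [hi, h1 i hi]
      · simp [hi]
    · intro i hi
      simp [hi]
    · rw [← h2]
      exact Finset.sum_congr rfl fun i hi => by simp [hi]
    · rw [← h3]
      exact Finset.sum_congr rfl fun i hi => by simp [hi]
    · refine le_of_eq_of_le ?_ h4
      exact Finset.sum_congr rfl fun i hi => by simp [hi]
  obtain ⟨t, h1, h2, h3, h4, h5, h6⟩ := Nat.sInf_mem hS
  refine ⟨t, h1, h2, h3, h4, h5, ?_⟩
  intro μ hμ hμ1 hμ2
  by_contra hne
  -- choose the sign of μ so that the cost does not increase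
  have key : ∀ μ : ι → ℚ, (∀ i, t i = 0 → μ i = 0) → ∑ i ∈ s, μ i = 0 →
      ∑ i ∈ s, μ i • x i = 0 → μ ≠ 0 → ∑ i ∈ s, μ i * c i ≤ 0 → False := by
    intro μ hμ hμ1 hμ2 hne hμ3
    have hsupp : ∀ i, μ i ≠ 0 → i ∈ s := by
      intro i hi
      by_contra his
      exact hi (hμ i (h2 i his))
    -- a negative coordinate
    have hneg : ∃ i ∈ s, μ i < 0 := by
      by_contra hcon
      push Not at hcon
      have h7 : ∀ i ∈ s, μ i = 0 := (Finset.sum_eq_zero_iff_of_nonneg hcon).1 hμ1
      apply hne
      funext i
      by_contra h8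
      exact h8 (h7 i (hsupp i h8))
    obtain ⟨i₁, hi₁, hi₁'⟩ := hneg
    -- the maximal step
    obtain ⟨i₀, hi₀, hmin⟩ := (s.filter (fun i => μ i < 0)).exists_min_image
      (fun i => t i / (-μ i)) ⟨i₁, by simp [hi₁, hi₁']⟩
    simp only [Finset.mem_filter] at hi₀ hmin
    set l := t i₀ / (-μ i₀) with hl
    have hl0 : 0 ≤ l := div_nonneg (h1 i₀) (by linarith [hi₀.2])
    have hnew : (s.filter (fun i => t i + l * μ i ≠ 0)).card ∈ S := by
      refine ⟨fun i => t i + l * μ i, ?_, ?_, ?_, ?_, ?_, rfl⟩
      · intro i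
        by_cases hi : μ i < 0
        · have his : i ∈ s := hsupp i hi.ne
          have := hmin i ⟨his, hi⟩
          rw [le_div_iff₀ (by linarith)] at this
          nlinarith
        · push Not at hi
          have := h1 i
          positivity
      · intro i hi
        have h7 : μ i = 0 := hμ i (h2 i hi)
        simp [h2 i hi, h7]
      · rw [Finset.sum_add_distrib, ← Finset.mul_sum, hμ1, h3]
        simp
      · simp only [add_smul, mul_smul]
        rw [Finset.sum_add_distrib, ← Finset.smul_sum, hμ2, h4]
        simp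
      · have : ∑ i ∈ s, (t i + l * μ i) * c i = ∑ i ∈ s, t i * c i + l * ∑ i ∈ s, μ i * c i := by
          rw [Finset.mul_sum, ← Finset.sum_add_distrib]
          exact Finset.sum_congr rfl fun i _ => by ring
        rw [this]
        nlinarith
    have hlt : (s.filter (fun i => t i + l * μ i ≠ 0)).card <
        (s.filter (fun i => t i ≠ 0)).card := by
      apply Finset.card_lt_card
      rw [Finset.ssubset_iff_of_subset]
      · refine ⟨i₀, ?_, ?_⟩
        · simp only [Finset.mem_filter]
          exact ⟨hi₀.1, fun h => by have := hμ i₀ h; linarith [hi₀.2]⟩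
        · simp only [Finset.mem_filter, not_and, not_not]
          intro _
          rw [hl]
          have : μ i₀ ≠ 0 := hi₀.2.ne
          field_simp
          ring
      · intro i hi
        simp only [Finset.mem_filter] at hi ⊢
        refine ⟨hi.1, fun h => hi.2 ?_⟩
        rw [h, hμ i h]
        ring
    have := Nat.sInf_le hnew
    omega
  rcases le_total (∑ i ∈ s, μ i * c i) 0 with h7 | h7
  · exact key μ hμ hμ1 hμ2 hne h7
  · refine key (-μ) (fun i hi => by simp [hμ i hi]) (by simp [hμ1]) ?_
      (fun h => hne (neg_eq_zero.1 h)) ?_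
    · simp only [Pi.neg_apply, neg_smul, Finset.sum_neg_distrib, hμ2, neg_zero]
    · simp only [Pi.neg_apply, neg_mul, Finset.sum_neg_distrib]
      linarith

/-- The set of vertices is finite. -/
theorem finite_vertices {ι : Type*} (s : Finset ι) (x : ι → E) (u : E) :
    {t : ι → ℚ | (∀ i, 0 ≤ t i) ∧ (∀ i ∉ s, t i = 0) ∧ ∑ i ∈ s, t i = 1 ∧
      ∑ i ∈ s, t i • x i = u ∧
      ∀ μ : ι → ℚ, (∀ i, t i = 0 → μ i = 0) → ∑ i ∈ s, μ i = 0 → ∑ i ∈ s, μ i • x i = 0 →
        μ = 0}.Finite := by
  classical
  apply Set.Finite.of_finite_image (f := fun t => s.filter (fun i => t i ≠ 0))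
  · exact (Finset.finite_toSet s.powerset).subset (by
      rintro _ ⟨t, -, rfl⟩
      exact Finset.mem_coe.2 (Finset.mem_powerset.2 (Finset.filter_subset _ _)))
  · rintro t ⟨-, h1, h2, h3, h4⟩ t' ⟨-, h1', h2', h3', h4'⟩ h
    have hs : ∀ i, t i = 0 → t' i = 0 := by
      intro i hi
      by_contra hne
      have his : i ∈ s := by
        by_contra his
        exact hne (h1' i his)
      have : i ∈ s.filter (fun i => t' i ≠ 0) := by simp [his, hne]
      have h' : s.filter (fun i => t i ≠ 0) = s.filter (fun i => t' i ≠ 0) := h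
      rw [← h'] at this
      simp [hi] at this
    have h5 := h4 (t - t') (fun i hi => by simp [hi, hs i hi])
      (by simp [h2, h2']) (by simp [sub_smul, h3, h3'])
    exact sub_eq_zero.1 h5

end Pool.Agent.Helper92.Weak
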