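import Pool.Agent.Helper92.Weak.DVal

set_option autoImplicit false

/-!
# Definitions

Growth invariants; normal projective varieties, described by the local rings inside their function
field; divisors, Kodaira dimension, numerical dimension, differential forms and log canonical pairs.
-/

namespace Pool.Agent.Helper92.Weak

open Module Filter

/-! ### Growth -/

/-- The Kodaira dimension of a sequence `h m = h⁰(m D)`: it is `-∞` if `h m = 0` for all `m ≥ 1`,
and otherwise the largest `k` with `limsup h m / m ^ k > 0`. -/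
noncomputable def kodDim (h : ℕ → ℕ∞) : EReal :=
  open Classical in
  if ∀ m, 1 ≤ m → h m = 0 then ⊥
  else sSup {x : EReal | ∃ k : ℕ, x = (k : EReal) ∧
    0 < limsup (fun m : ℕ => (h m : ENNReal) / (m : ENNReal) ^ k) atTop}

/-- `limsup log (h m) / log m`, with `log 0 = -∞`. -/
noncomputable def logGrowth (h : ℕ → ℕ∞) : EReal :=
  limsup (fun m : ℕ => ENNReal.log (h m : ENNReal) / ENNReal.log (m : ENNReal)) atTop

/-- The dimension of a space, as an element of `ℕ ∪ {∞}`. -/
noncomputable def sdim {k V : Type*} [Field k] [AddCommGroup V] [Module k V]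
    (W : Submodule k V) : ℕ∞ :=
  Cardinal.toENat (Module.rank k W)

/-- The functions `f` with `f = 0` or `ord_q f + G q ≥ 0` for all `q`. -/
def sec {k K : Type*} [Field k] [Field K] [Algebra k K] {Q : Type*} (ord : Q → DVal k K)
    (G : Q → ℚ) : Submodule k K :=
  ⨅ q, (ord q).filt (-(G q))

/-! ### Projective varieties -/

section Defs

variable (k : Type*) {L : Type*} [Field k] [Field L] [Algebra k L]

/-- The coordinate ring `k[x₀ / xᵢ, ..., xₙ / xᵢ]` of the `i`-th standard affine chart of the
closure of the point `(x₀ : ... : xₙ)` of projective space. -/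
def chart {n : ℕ} (x : Fin (n + 1) → L) (i : Fin (n + 1)) : Subalgebra k L :=
  Algebra.adjoin k (Set.range fun j => x j / x i)

end Defs

/-- The ring `R` is the localisation of `A` at a prime ideal (both subrings of a field). -/
def IsLocalizationOf {k L : Type*} [Field k] [Field L] [Algebra k L] (A R : Subalgebra k L) :
    Prop :=
  ∃ p : Ideal A, p.IsPrime ∧ ∀ z : L, z ∈ R ↔ ∃ a b : A, b ∉ p ∧ z * b = a

/-- A normal projective variety over `k` with function field `L`: the closure in `ℙⁿ` of the
`L`-point `(x₀ : ... : xₙ)`, where the `xⱼ / xᵢ` generate the field `L` and the coordinate rings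
of the standard affine charts are integrally closed. -/
structure ProjVar (k L : Type*) [Field k] [Field L] [Algebra k L] where
  n : ℕ
  x : Fin (n + 1) → L
  x_ne : ∀ i, x i ≠ 0
  gen : ∀ i, IntermediateField.adjoin k (Set.range fun j => x j / x i) = ⊤
  normal : ∀ i, IsIntegrallyClosed (chart k x i)

namespace DVal

variable {k L : Type*} [Field k] [Field L] [Algebra k L]

/-- The valuation is divisorial: its ring is the localisation of a finitely generated
`k`-algebra at a prime ideal. -/
def IsDivisorial (v : DVal k L) : Prop :=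
  ∃ s : Finset L, Algebra.adjoin k (s : Set L) ≤ v.ring ∧
    ∀ z ∈ v.ring, ∃ a ∈ Algebra.adjoin k (s : Set L), ∃ b ∈ Algebra.adjoin k (s : Set L),
      b ≠ 0 ∧ v b = 0 ∧ z = a / b

end DVal

section Forms

variable (k : Type*) {L : Type*} [Field k] [Field L] [Algebra k L]

variable (L) in
/-- Rational differential forms of degree `n`, as functions of `n` derivations (vector fields). -/
abbrev Form (n : ℕ) : Type _ := (Fin n → Derivation k L L) → L

/-- The differential form `dz₁ ∧ ... ∧ dzₙ`. -/
def wedge {n : ℕ} (z : Fin n → L) : Form k L n :=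
  fun D => (Matrix.of fun i j => D i (z j)).det

variable {k}

/-- The order of vanishing of the rational differential form `ω` of degree `n` along `v` is `a`:
`a` is the largest value `v f` in a presentation `ω = f dz₁ ∧ ... ∧ dzₙ` with all `zᵢ` in the
valuation ring of `v`. -/
def DVal.HasOrd (v : DVal k L) {n : ℕ} (ω : Form k L n) (a : ℤ) : Prop :=
  IsGreatest {m : ℤ | ∃ (z : Fin n → L) (f : L), (∀ i, 0 ≤ v (z i)) ∧ f ≠ 0 ∧ v f = m ∧
    ω = f • wedge k z} a

end Forms

namespace ProjVar

variable {k L : Type*} [Field k] [Field L] [Algebra k L] (X : ProjVar k L)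

/-- The local rings of the (scheme theoretic) points of `X`, as subrings of the function field. -/
def localRings : Set (Subalgebra k L) := {R | ∃ i, IsLocalizationOf (chart k X.x i) R}

/-- The prime divisors of `X`: the discrete valuations whose rings are local rings of `X`. -/
def primeDivisors : Set (DVal k L) := {v | v.ring ∈ X.localRings}

/-- `ℚ`-divisors on `X`. -/
abbrev Div : Type _ := X.primeDivisors →₀ ℚ

/-- The divisor has integral coefficients. -/
def IsInt (D : X.Div) : Prop := ∀ P, ∃ z : ℤ, D P = z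

/-- `H⁰(X, D)`. -/
noncomputable def H0 (D : X.Div) : Submodule k L :=
  sec (fun P : X.primeDivisors => P.1) D

open Classical in
/-- `h⁰(X, D)` for an integral divisor, and `0` if `D` is not integral. -/
noncomputable def h0 (D : X.Div) : ℕ∞ := if X.IsInt D then sdim (X.H0 D) else 0

/-- The Kodaira dimension of a `ℚ`-divisor. -/
noncomputable def kod (D : X.Div) : EReal := kodDim fun m => X.h0 ((m : ℚ) • D)

/-- The numerical dimension of a `ℚ`-divisor: the supremum over all divisors `A` of the growth
`limsup log h⁰(m D + A) / log m`. -/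
noncomputable def nu (D : X.Div) : EReal :=
  ⨆ A : X.Div, logGrowth fun m => X.h0 ((m : ℚ) • D + A)

/-- `K` is the divisor of the rational differential form `ω`. -/
def IsDivisorOf {n : ℕ} (ω : Form k L n) (K : X.Div) : Prop :=
  ∀ P, ∃ a : ℤ, K P = a ∧ P.1.HasOrd ω a

/-- `f` is a local equation of the divisor `D` at the point with local ring `R`. -/
def IsLocalEq (R : Subalgebra k L) (f : L) (D : X.Div) : Prop :=
  f ≠ 0 ∧ ∀ P : X.primeDivisors, R ≤ P.1.ring → (P.1 f : ℚ) = D P

/-- `D` is `ℚ`-Cartier. -/
def IsQCartier (D : X.Div) : Prop :=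
  ∀ R ∈ X.localRings, ∃ m : ℕ, 0 < m ∧ ∃ f : L, X.IsLocalEq R f ((m : ℚ) • D)

/-- `X` is `ℚ`-factorial. -/
def IsQFactorial : Prop := ∀ D : X.Div, X.IsQCartier D

end ProjVar

/-- The local ring `R'` dominates the local ring `R` (both subrings of a field). -/
def Dominates {k L : Type*} [Field k] [Field L] [Algebra k L] (R R' : Subalgebra k L) : Prop :=
  R ≤ R' ∧ ∀ z ∈ R, z⁻¹ ∈ R' → z⁻¹ ∈ R

namespace ProjVar

variable {k L : Type*} [Field k] [Field L] [Algebra k L] (X : ProjVar k L)

/-- The value at `v` of the `ℚ`-Cartier divisor `D` is `c`. -/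
def IsValue (v : DVal k L) (D : X.Div) (c : ℚ) : Prop :=
  ∃ R ∈ X.localRings, Dominates R v.ring ∧ ∃ (m : ℕ) (f : L), 0 < m ∧
    X.IsLocalEq R f ((m : ℚ) • D) ∧ c = (v f : ℚ) / m

/-- The pair `(X, Δ)` is log canonical, where `K` is the divisor of the form `ω`: the divisor
`K + Δ` is `ℚ`-Cartier, and every divisorial valuation `v` has nonnegative log discrepancy
`1 + ord_v ω - v (K + Δ)`. -/
def IsLogCanonical {n : ℕ} (ω : Form k L n) (K Δ : X.Div) : Prop :=
  X.IsQCartier (K + Δ) ∧ ∀ v : DVal k L, v.IsDivisorial → ∀ (a : ℤ) (c : ℚ), v.HasOrd ω a →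
    X.IsValue v (K + Δ) c → c ≤ 1 + a

end ProjVar

/-! ### The generic fibre -/

/-- A valuation of `L` over `k` which is trivial on the field `K`, as a valuation over `K`. -/
def DVal.over {k L : Type*} [Field k] [Field L] [Algebra k L] (K : Type*) [Field K] [Algebra K L]
    (v : DVal k L) (h : ∀ a : K, v (algebraMap K L a) = 0) : DVal K L where
  toFun := v
  map_zero' := v.map_zero'
  map_mul' := v.map_mul'
  map_add' := v.map_add'
  map_const' := h
  surj' := v.surj'

namespace ProjVar

variable {k L : Type*} [Field k] [Field L] [Algebra k L] (X : ProjVar k L)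
  (K : Type*) [Field K] [Algebra K L]

/-- The prime divisors of the generic fibre of `X` over the variety with function field `K`: these
are the prime divisors of `X` whose valuations are trivial on `K`. -/
abbrev GenDivisor : Type _ := {P : X.primeDivisors // ∀ a : K, P.1 (algebraMap K L a) = 0}

/-- The space of sections of the restriction of `D` to the generic fibre. -/
noncomputable def genH0 (D : X.Div) : Submodule K L :=
  sec (fun P : X.GenDivisor K => P.1.1.over K P.2) fun P => D P.1

open Classical in
/-- `h⁰` of the restriction of `D` to the generic fibre, and `0` if it is not integral. -/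
noncomputable def genh0 (D : X.Div) : ℕ∞ :=
  if ∀ P : X.GenDivisor K, ∃ z : ℤ, D P.1 = z then sdim (X.genH0 K D) else 0

/-- The Kodaira dimension of the restriction of `D` to the generic fibre. -/
noncomputable def genKod (D : X.Div) : EReal := kodDim fun m => X.genh0 K ((m : ℚ) • D)

end ProjVar

/-! ### Morphisms -/

/-- The local ring `R` (of a variety with function field `L`) lies above the local ring `S` (of a
variety with function field `K ⊆ L`). -/
def Above {k K L : Type*} [Field k] [Field K] [Field L] [Algebra k K] [Algebra k L] [Algebra K L]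
    (S : Subalgebra k K) (R : Subalgebra k L) : Prop :=
  (∀ a ∈ S, algebraMap K L a ∈ R) ∧ ∀ a ∈ S, (algebraMap K L a)⁻¹ ∈ R → a⁻¹ ∈ S

/-- The inclusion of function fields `K ⊆ L` induces a morphism `X → Z`: every local ring of `X`
lies above a local ring of `Z`. -/
def IsMorphism {k K L : Type*} [Field k] [Field K] [Field L] [Algebra k K] [Algebra k L]
    [Algebra K L] (X : ProjVar k L) (Z : ProjVar k K) : Prop :=
  ∀ R ∈ X.localRings, ∃ S ∈ Z.localRings, Above S R

/-- `P` is a prime divisor of `X` which maps onto the prime divisor `Q` of `Z`, and `e` is its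
multiplicity in the fibre over `Q`. -/
def LiesOver {k K L : Type*} [Field k] [Field K] [Field L] [Algebra k K] [Algebra k L]
    [Algebra K L] (P : DVal k L) (Q : DVal k K) (e : ℕ) : Prop :=
  0 < e ∧ ∀ a : K, P (algebraMap K L a) = e * Q a

/-- The pair `(Z, (1/N) 𝔅)` given by a set `𝔅` of divisors (a linear system) is log canonical,
where `KZ` is the divisor of the form `ω`: for every divisorial valuation `v`, some member `B` of
`𝔅` satisfies `v(B) ≤ N (1 + ord_v ω - v(KZ))`. -/
def ProjVar.IsLogCanonicalSystem {k K : Type*} [Field k] [Field K] [Algebra k K]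
    (Z : ProjVar k K) {n : ℕ} (ω : Form k K n) (KZ : Z.Div) (N : ℕ) (𝔅 : Set Z.Div) : Prop :=
  ∀ v : DVal k K, v.IsDivisorial → ∀ (a : ℤ) (κ : ℚ), v.HasOrd ω a → Z.IsValue v KZ κ →
    ∃ B ∈ 𝔅, ∀ c, Z.IsValue v B c → c ≤ N * (1 + a - κ)

/-- A pair `(X, Δ)`: an effective `ℚ`-divisor `Δ` on `X`, together with the divisor `can` of a
form `ω` of degree `n = dim X`. -/
structure ProjVar.Pair {k L : Type*} [Field k] [Field L] [Algebra k L] (X : ProjVar k L)
    (n : ℕ) where
  ω : Form k L n
  can : X.Div
  isDivisorOf : X.IsDivisorOf ω can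
  Δ : X.Div
  nonneg : ∀ P, 0 ≤ Δ P

namespace ProjVar.Pair

variable {k L : Type*} [Field k] [Field L] [Algebra k L] {X : ProjVar k L} {n : ℕ}

/-- The log canonical divisor `K + Δ`. -/
noncomputable def logDiv (p : X.Pair n) : X.Div := p.can + p.Δ

/-- The pair is log canonical. -/
def LC (p : X.Pair n) : Prop := X.IsLogCanonical p.ω p.can p.Δ

/-- A finite nonempty set `𝔅` of linearly equivalent integral divisors `B ≥ N Δ` on the variety
`X` such that `(X, (1/N) 𝔅)` is log canonical. -/
structure LCSystem (p : X.Pair n) (N : ℕ) (𝔅 : Set X.Div) : Prop where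
  pos : 0 < N
  finite : 𝔅.Finite
  nonempty : 𝔅.Nonempty
  isInt : ∀ B ∈ 𝔅, X.IsInt B
  le : ∀ B ∈ 𝔅, ∀ Q, N * p.Δ Q ≤ B Q
  linEquiv : ∀ B ∈ 𝔅, ∀ B' ∈ 𝔅, ∃ ψ : L, ψ ≠ 0 ∧ ∀ Q, B' Q = B Q + Q.1 ψ
  lc : X.IsLogCanonicalSystem p.ω p.can N 𝔅

end ProjVar.Pair

/-- The variety `X` with function field `L = K(t₁, ..., t_r)` is stable under the torus action
`t_i ↦ c_i t_i`, and `X → Z` is a morphism which maps every prime divisor of `X` onto `Z` or onto
a prime divisor of `Z`; here `K` is the function field of `Z`. -/
structure IsTorusQuotient {k K L : Type*} [Field k] [Field K] [Field L] [Algebra k K]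
    [Algebra k L] [Algebra K L] {r : ℕ} (t : Fin r → L) (X : ProjVar k L) (Z : ProjVar k K) :
    Prop where
  indep : AlgebraicIndependent K t
  gen : IntermediateField.adjoin K (Set.range t) = ⊤
  stable : ∀ (σ : L ≃ₐ[K] L) (c : Fin r → k), (∀ i, σ (t i) = c i • t i) →
    ∀ R ∈ X.localRings, ∃ R' ∈ X.localRings, ∀ z, z ∈ R' ↔ σ z ∈ R
  mor : IsMorphism X Z
  equi : ∀ P ∈ X.primeDivisors, (∃ a : K, P (algebraMap K L a) ≠ 0) →
    ∃ Q ∈ Z.primeDivisors, ∃ e, LiesOver P Q e

/-- The divisor of the pair `q` on `Z` is a part of the orbifold divisor of the map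
from `(X, Δ)` to `Z`: `e Δ_Z(Q) ≤ Δ(P) + e - 1` whenever `P` lies over `Q` with multiplicity `e`. -/
def IsOrbifoldBase {k K L : Type*} [Field k] [Field K] [Field L] [Algebra k K] [Algebra k L]
    [Algebra K L] {X : ProjVar k L} {Z : ProjVar k K} {m n : ℕ} (p : X.Pair m)
    (q : Z.Pair n) : Prop :=
  ∀ (P : X.primeDivisors) (Q : Z.primeDivisors) (e : ℕ), LiesOver P.1 Q.1 e →
    e * q.Δ Q ≤ p.Δ P + (e - 1)

end Pool.Agent.Helper92.Weak
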