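import Pool.Agent.Helper92.Weak.Torus6

set_option autoImplicit false
set_option linter.unusedSectionVars false

/-! The combinatorial data of a variety with torus action. -/

namespace Pool.Agent.Helper92.Weak

open MvPolynomial

/-- Normalising a valuation. -/
lemma ZVal.exists_dval {k L : Type*} [Field k] [Field L] [Algebra k L] (v : ZVal k L)
    (hv : ∃ a, v a ≠ 0) : ∃ (e : ℕ) (w : DVal k L), 0 < e ∧ ∀ a, v a = e * w a := by
  let G : AddSubgroup ℤ :=
    { carrier := {n | ∃ a, a ≠ 0 ∧ v a = n}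
      zero_mem' := ⟨1, one_ne_zero, v.map_one⟩
      add_mem' := by
        rintro _ _ ⟨a, ha, rfl⟩ ⟨b, hb, rfl⟩
        exact ⟨a * b, mul_ne_zero ha hb, v.map_mul ha hb⟩
      neg_mem' := by
        rintro _ ⟨a, ha, rfl⟩
        exact ⟨a⁻¹, inv_ne_zero ha, v.map_inv a⟩ }
  obtain ⟨g, hg⟩ := Int.subgroup_cyclic G
  have hG : ∀ n, n ∈ G ↔ ∃ m : ℤ, n = m * g := by
    intro n
    rw [hg, ← AddSubgroup.zmultiples_eq_closure, AddSubgroup.mem_zmultiples_iff]
    constructor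
    · rintro ⟨m, hm⟩
      exact ⟨m, by rw [← hm, smul_eq_mul]⟩
    · rintro ⟨m, hm⟩
      exact ⟨m, by rw [hm, smul_eq_mul]⟩
  have hg0 : g ≠ 0 := by
    rintro rfl
    obtain ⟨a, ha⟩ := hv
    have ha0 : a ≠ 0 := by rintro rfl; simp at ha
    have h1 : v a ∈ G := ⟨a, ha0, rfl⟩
    rw [hG] at h1
    obtain ⟨m, hm⟩ := h1
    rw [mul_zero] at hm
    exact ha hm
  have he : (0 : ℤ) < |g| := abs_pos.2 hg0
  have hdvd : ∀ a, |g| ∣ v a := by
    intro a
    by_cases ha : a = 0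
    · rw [ha, v.map_zero]; exact dvd_zero _
    have h1 : v a ∈ G := ⟨a, ha, rfl⟩
    rw [hG] at h1
    obtain ⟨m, hm⟩ := h1
    rw [hm, abs_dvd]
    exact dvd_mul_left _ _
  have hmul : ∀ a, v a = |g| * (v a / |g|) := fun a => (Int.mul_ediv_cancel' (hdvd a)).symm
  refine ⟨g.natAbs, ⟨fun a => v a / |g|, ?_, ?_, ?_, ?_, ?_⟩, Int.natAbs_pos.2 hg0, ?_⟩
  · simp
  · intro a b ha hb
    rw [v.map_mul ha hb, Int.add_ediv_of_dvd_left (hdvd a)]
  · intro a b ha hb hab
    have h1 : min (v a) (v b) ≤ v (a + b) := v.map_add' a b ha hb hab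
    change min (v a / |g|) (v b / |g|) ≤ v (a + b) / |g|
    rcases le_total (v a) (v b) with h | h
    · rw [min_eq_left h] at h1
      exact (min_le_left _ _).trans (Int.ediv_le_ediv he h1)
    · rw [min_eq_right h] at h1
      exact (min_le_right _ _).trans (Int.ediv_le_ediv he h1)
  · intro c
    rw [v.map_const, Int.zero_ediv]
  · have h1 : |g| ∈ G := by
      rw [hG]
      rcases abs_choice g with h | h
      · exact ⟨1, by rw [h, one_mul]⟩
      · exact ⟨-1, by rw [h, neg_one_mul]⟩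
    obtain ⟨a, ha, h2⟩ := h1
    refine ⟨a, ?_⟩
    rw [h2]
    exact Int.ediv_self he.ne'
  · intro a
    change v a = (g.natAbs : ℤ) * (v a / |g|)
    rw [Int.natCast_natAbs]
    exact hmul a

section monoZ

variable {k K L : Type*} [Field k] [Field K] [Field L] [Algebra k K] [Algebra k L] [Algebra K L]
  [IsScalarTower k K L] {r : ℕ} {t : Fin r → L}

lemma monoZ_div (ht : IsTorus K t) (v : ZVal k K) (w : Fin r → ℤ) {f g : (Fin r → ℤ) →₀ K}
    (hf : f ≠ 0) (hg : g ≠ 0) :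
    monoZ ht v w (ev K t f / ev K t g) = gaussN v w f - gaussN v w g :=
  monoFun_eq ht v w hf hg

lemma monoZ_ev (ht : IsTorus K t) (v : ZVal k K) (w : Fin r → ℤ) {f : (Fin r → ℤ) →₀ K}
    (hf : f ≠ 0) : monoZ ht v w (ev K t f) = gaussN v w f := by
  have h1 : (Finsupp.single (0 : Fin r → ℤ) (1 : K)) ≠ 0 := Finsupp.single_ne_zero.2 one_ne_zero
  have h := monoZ_div ht v w hf h1
  rw [ev_one, div_one, gaussN_single v w 0 one_ne_zero, v.map_one] at h
  rw [h]
  simp [ipair]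

lemma monoZ_term (ht : IsTorus K t) (v : ZVal k K) (w : Fin r → ℤ) {a : K} (ha : a ≠ 0)
    (u : Fin r → ℤ) : monoZ ht v w (a • mono t u) = v a + ipair w u := by
  rw [← ev_single, monoZ_ev ht v w (Finsupp.single_ne_zero.2 ha), gaussN_single v w u ha]

lemma monoZ_algebraMap (ht : IsTorus K t) (v : ZVal k K) (w : Fin r → ℤ) (a : K) :
    monoZ ht v w (algebraMap K L a) = v a := by
  by_cases ha : a = 0
  · simp [ha]
  have h := monoZ_term ht v w ha 0
  rw [mono_zero, ← Algebra.algebraMap_eq_smul_one] at h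
  rw [h]
  simp [ipair]

end monoZ

/-- A variety `X` with an action of a torus and a quotient `X → Z`. -/
structure TV (k K : Type*) {L : Type*} [Field k] [Field K] [Field L] [Algebra k K] [Algebra k L]
    [Algebra K L] [IsScalarTower k K L] {r : ℕ} (t : Fin r → L) where
  ht : IsTorus K t
  Z : ProjVar k K
  X : ProjVar k L
  stable : Stable X ht
  mor : ∀ R ∈ X.localRings, ∃ S ∈ Z.localRings, Above S R
  equi : ∀ P ∈ X.primeDivisors, (∃ a : K, P (algebraMap K L a) ≠ 0) →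
    ∃ Q ∈ Z.primeDivisors, ∃ e : ℕ, ∀ a : K, P (algebraMap K L a) = e * Q a

namespace TV

variable {k K L : Type*} [Field k] [Field K] [Field L] [Algebra k K] [Algebra k L] [Algebra K L]
  [IsScalarTower k K L] {r : ℕ} {t : Fin r → L} (𝒱 : TV k K t)

include 𝒱 in
lemma fgK : (⊤ : IntermediateField k K).FG := by
  classical
  refine ⟨Finset.univ.image (fun j => 𝒱.Z.x j / 𝒱.Z.x 0), ?_⟩
  rw [← 𝒱.Z.gen 0]
  congr 1
  simp

/-- The prime divisors of the base. -/
abbrev QQ : Type _ := {Q : DVal k K // Q ∈ 𝒱.Z.primeDivisors}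

/-- The horizontal invariant prime divisors. -/
abbrev HH : Type _ := {P : DVal k L // P ∈ 𝒱.X.primeDivisors ∧ IsInv 𝒱.ht P ∧
  ∀ a : K, P (algebraMap K L a) = 0}

/-- The vertical prime divisors. -/
abbrev JJ : Type _ := {P : DVal k L // P ∈ 𝒱.X.primeDivisors ∧
  ∃ a : K, P (algebraMap K L a) ≠ 0}

/-- The weight vector of a valuation. -/
def wvec (P : DVal k L) (t : Fin r → L) : Fin r → ℤ := fun l => P (t l)

section

variable {𝒱} (j : 𝒱.JJ)

/-- The underlying prime divisor of the base. -/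
noncomputable def base (j : 𝒱.JJ) : 𝒱.QQ :=
  ⟨(𝒱.equi j.1 j.2.1 j.2.2).choose, (𝒱.equi j.1 j.2.1 j.2.2).choose_spec.1⟩

/-- The multiplicity. -/
noncomputable def mult (j : 𝒱.JJ) : ℕ := (𝒱.equi j.1 j.2.1 j.2.2).choose_spec.2.choose

lemma mult_spec (a : K) : j.1 (algebraMap K L a) = mult j * (base j).1 a :=
  (𝒱.equi j.1 j.2.1 j.2.2).choose_spec.2.choose_spec a

lemma mult_pos : 0 < mult j := by
  obtain ⟨a, ha⟩ := j.2.2
  rw [mult_spec] at ha
  have := left_ne_zero_of_mul ha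
  omega

end

variable [IsAlgClosed k] [CharZero k]

/-- An invariant valuation is monomial. -/
lemma inv_eq (P : DVal k L) (hP : IsInv 𝒱.ht P) :
    ∃ hs, P = monoVal 𝒱.ht (ZVal.restrict P) (wvec P t) hs :=
  eq_monoVal 𝒱.ht P fun f u hu => hP.le_term f u hu

lemma vert_inv (j : 𝒱.JJ) : IsInv 𝒱.ht j.1 := by
  obtain ⟨a, ha⟩ := j.2.2
  exact isInv_of_algebraMap 𝒱.stable j.2.1 ha

lemma vert_term (j : 𝒱.JJ) {a : K} (ha : a ≠ 0) (u : Fin r → ℤ) :
    j.1 (a • mono t u) = mult j * (base j).1 a + ipair (wvec j.1 t) u := by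
  obtain ⟨hs, h⟩ := 𝒱.inv_eq j.1 (𝒱.vert_inv j)
  conv_lhs => rw [h]
  rw [monoVal_term 𝒱.ht _ _ hs ha]
  congr 1
  exact mult_spec j a

lemma hor_term (i : 𝒱.HH) {a : K} (ha : a ≠ 0) (u : Fin r → ℤ) :
    i.1 (a • mono t u) = ipair (wvec i.1 t) u := by
  obtain ⟨hs, h⟩ := 𝒱.inv_eq i.1 i.2.2.1
  conv_lhs => rw [h]
  rw [monoVal_term 𝒱.ht _ _ hs ha]
  have : (ZVal.restrict i.1 : ZVal k K) a = 0 := i.2.2.2 a
  rw [this, zero_add]

/-- The normalisation of a vertical divisor. -/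
lemma vert_norm (j : 𝒱.JJ) : ∃ (c : K) (u : Fin r → ℤ), c ≠ 0 ∧
    mult j * (base j).1 c + ipair (wvec j.1 t) u = 1 := by
  obtain ⟨⟨c, u, hc, h1⟩, h⟩ := 𝒱.inv_eq j.1 (𝒱.vert_inv j)
  refine ⟨c, u, hc, ?_⟩
  rw [← h1]
  congr 1
  exact (mult_spec j c).symm

lemma hor_ne (i : 𝒱.HH) : ∃ l, i.1 (t l) ≠ 0 := by
  obtain ⟨⟨c, u, hc, h1⟩, h⟩ := 𝒱.inv_eq i.1 i.2.2.1
  by_contra hcon
  push Not at hcon
  have h2 : ipair (wvec i.1 t) u = 0 := by
    unfold ipair wvec
    exact Finset.sum_eq_zero fun l _ => by rw [hcon l, mul_zero]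
  have h3 : (ZVal.restrict i.1 : ZVal k K) c = 0 := i.2.2.2 c
  rw [h2, h3] at h1
  omega

lemma hor_finite : Finite 𝒱.HH := by
  have h : {P : DVal k L | P ∈ 𝒱.X.primeDivisors ∧ IsInv 𝒱.ht P ∧
      ∀ a : K, P (algebraMap K L a) = 0}.Finite := by
    apply (Set.finite_iUnion fun l => 𝒱.X.finite_support (𝒱.ht.ne_zero l)).subset
    rintro P hP
    obtain ⟨l, hl⟩ := 𝒱.hor_ne ⟨P, hP⟩
    rw [Set.mem_iUnion]
    exact ⟨l, hP.1, hl⟩
  exact h.to_subtype

/-- Every prime divisor of the base lies below a vertical prime divisor. -/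
lemma base_surj : Function.Surjective (base (𝒱 := 𝒱)) := by
  rintro ⟨Q, hQ⟩
  obtain ⟨p, hp0, hp⟩ := Q.exists_uniformizer
  -- the Gauss valuation
  have hs : ∃ (c : K) (u : Fin r → ℤ), c ≠ 0 ∧ ZVal.ofDVal 1 Q c + ipair (0 : Fin r → ℤ) u = 1 := by
    refine ⟨p, 0, hp0, ?_⟩
    change ((1 : ℕ) : ℤ) * Q p + _ = 1
    rw [hp]
    simp [ipair]
  set G := monoVal 𝒱.ht (ZVal.ofDVal 1 Q) 0 hs with hG
  have hGK : ∀ a : K, G (algebraMap K L a) = Q a := by
    intro a
    rw [hG, monoVal_algebraMap]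
    change ((1 : ℕ) : ℤ) * Q a = Q a
    simp
  obtain ⟨R, hR, hRG⟩ := 𝒱.X.exists_center G
  obtain ⟨S, hS, hSR⟩ := 𝒱.mor R hR
  have hSQ : S = Q.ring := by
    apply 𝒱.Z.separated hS hQ (V := Q.ring) _ (Dominates.refl _)
    constructor
    · intro a ha
      have h1 := hRG.1 (hSR.1 a ha)
      rw [DVal.mem_ring, hGK] at h1
      exact h1
    · intro a ha ha'
      apply hSR.2 a ha
      apply hRG.2 _ (hSR.1 a ha)
      rw [DVal.mem_ring, ← map_inv₀, hGK]
      exact ha'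
  -- `1 / p` is not in `R`
  have hpR : (algebraMap K L p)⁻¹ ∉ R := by
    intro h
    have h1 := hRG.1 h
    rw [DVal.mem_ring, DVal.map_inv, hGK, hp] at h1
    omega
  obtain ⟨P, hP, hRP, hPp⟩ : ∃ P ∈ 𝒱.X.primeDivisors, R ≤ P.ring ∧
      (algebraMap K L p)⁻¹ ∉ P.ring := by
    by_contra hcon
    push Not at hcon
    exact hpR (𝒱.X.hartogs hR hcon)
  have hPp' : 0 < P (algebraMap K L p) := by
    rw [DVal.mem_ring, DVal.map_inv] at hPp
    omega
  let j : 𝒱.JJ := ⟨P, hP, p, hPp'.ne'⟩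
  refine ⟨j, Subtype.ext ?_⟩
  symm
  apply DVal.eq_of_ring_le
  intro a ha
  rw [← hSQ] at ha
  have h1 := hRP (hSR.1 a ha)
  rw [DVal.mem_ring] at h1 ⊢
  have h2 := mult_spec j a
  change P (algebraMap K L a) = _ at h2
  rw [h2] at h1
  have h3 : (0 : ℤ) < mult j := by exact_mod_cast mult_pos j
  by_contra hneg
  push Not at hneg
  have := mul_neg_of_pos_of_neg h3 hneg
  omega

lemma fib (Q : 𝒱.QQ) : {j : 𝒱.JJ | base j = Q}.Finite := by
  obtain ⟨p, hp0, hp⟩ := Q.1.exists_uniformizer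
  have hp0' : algebraMap K L p ≠ 0 := by simpa using hp0
  apply Set.Finite.of_finite_image (f := fun j : 𝒱.JJ => j.1) _ (Subtype.val_injective.injOn)
  apply (𝒱.X.finite_support hp0').subset
  rintro _ ⟨j, hj, rfl⟩
  refine ⟨j.2.1, ?_⟩
  rw [Set.mem_ofPred_eq] at hj
  change j.1 _ ≠ 0
  rw [mult_spec, hj, hp]
  have := mult_pos j
  simp
  omega

lemma special : {j : 𝒱.JJ | wvec j.1 t ≠ 0 ∨ mult j ≠ 1}.Finite := by
  apply Set.Finite.of_finite_image (f := fun j : 𝒱.JJ => j.1) _ (Subtype.val_injective.injOn)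
  apply (Set.finite_iUnion fun l => 𝒱.X.finite_support (𝒱.ht.ne_zero l)).subset
  rintro _ ⟨j, hj, rfl⟩
  have hw : wvec j.1 t ≠ 0 := by
    intro hw
    obtain ⟨c, u, hc, h⟩ := 𝒱.vert_norm j
    rw [hw] at h
    have h1 : (mult j : ℤ) * (base j).1 c = 1 := by
      rw [← h]
      simp [ipair]
    have h2 : mult j = 1 := by
      have h3 : (0 : ℤ) ≤ mult j := by positivity
      have h4 := Int.eq_one_of_mul_eq_one_right h3 h1
      exact_mod_cast h4
    rcases hj with h3 | h3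
    · exact h3 hw
    · exact h3 h2
  obtain ⟨l, hl⟩ := Function.ne_iff.1 hw
  rw [Set.mem_iUnion]
  exact ⟨l, j.2.1, hl⟩

/-- The rays span. -/
lemma complete (u : Fin r → ℚ) (hu : ∀ i : 𝒱.HH, 0 ≤ pairL (wvec i.1 t) u) : u = 0 := by
  classical
  by_contra hne
  obtain ⟨n, hn, hint⟩ := exists_int_multiple u
  obtain ⟨z, hz'⟩ := hint
  have hz : ∀ l, (n : ℚ) * u l = z l := fun l => congrFun hz' l
  have hz0 : z ≠ 0 := by
    intro h
    apply hne
    funext l
    have h1 := hz l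
    rw [h, Pi.zero_apply, Int.cast_zero] at h1
    have h2 : (n : ℚ) ≠ 0 := by positivity
    exact (mul_eq_zero.1 h1).resolve_left h2
  have hzz : ipair (-z) z < 0 := by
    unfold ipair
    have h1 : ∑ l, z l * (-z) l = -∑ l, z l * z l := by
      rw [← Finset.sum_neg_distrib]
      exact Finset.sum_congr rfl fun l _ => by rw [Pi.neg_apply, mul_neg]
    rw [h1]
    obtain ⟨l, hl⟩ := Function.ne_iff.1 hz0
    have h2 : z l * z l ≤ ∑ l, z l * z l :=
      Finset.single_le_sum (f := fun l => z l * z l) (fun l _ => mul_self_nonneg _)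
        (Finset.mem_univ l)
    have h3 : 0 < z l * z l := mul_self_pos.2 hl
    omega
  set v := monoZ 𝒱.ht (ZVal.trivial k K) (-z) with hv
  have hvt : ∀ u, v (mono t u) = ipair (-z) u := by
    intro u
    have h := monoZ_term 𝒱.ht (ZVal.trivial k K) (-z) (one_ne_zero : (1 : K) ≠ 0) u
    rw [one_smul] at h
    rw [hv, h]
    change 0 + _ = _
    rw [zero_add]
  have hvK : ∀ a : K, v (algebraMap K L a) = 0 := fun a => monoZ_algebraMap 𝒱.ht _ _ a
  obtain ⟨e, w, he, hw⟩ := v.exists_dval ⟨mono t z, by rw [hvt]; omega⟩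
  have he' : (0 : ℤ) < e := by exact_mod_cast he
  have hwK : ∀ a : K, w (algebraMap K L a) = 0 := by
    intro a
    have h1 := hw (algebraMap K L a)
    rw [hvK] at h1
    exact (mul_eq_zero.1 h1.symm).resolve_left he'.ne'
  obtain ⟨R, hR, hRw⟩ := 𝒱.X.exists_center w
  obtain ⟨S, hS, hSR⟩ := 𝒱.mor R hR
  have hSinv : ∀ a ∈ S, a⁻¹ ∈ S := by
    intro a ha
    apply hSR.2 a ha
    exact hRw.inv_mem (hSR.1 a ha) (hwK a)
  have hStop : ∀ a : K, a ∈ S := by
    intro a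
    obtain ⟨i, p, hp, hS'⟩ := 𝒱.Z.mem_localRings.1 hS
    obtain ⟨b, hb, c, hc, hc0, rfl⟩ := 𝒱.Z.chart_isFrac i a
    rw [div_eq_mul_inv]
    apply S.mul_mem
    · rw [hS']; exact le_locAt _ hb
    · apply hSinv
      rw [hS']; exact le_locAt _ hc
  have hKR : ∀ a : K, algebraMap K L a ∈ R := fun a => hSR.1 a (hStop a)
  have hzR : mono t z ∉ R := by
    intro h
    have h1 := hRw.1 h
    rw [DVal.mem_ring] at h1
    have h2 := hw (mono t z)
    rw [hvt] at h2
    have := mul_nonneg he'.le h1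
    omega
  obtain ⟨P, hP, hRP, hPz⟩ : ∃ P ∈ 𝒱.X.primeDivisors, R ≤ P.ring ∧ mono t z ∉ P.ring := by
    by_contra hcon
    push Not at hcon
    exact hzR (𝒱.X.hartogs hR hcon)
  have hPK : ∀ a : K, P (algebraMap K L a) = 0 := by
    intro a
    have h1 := hRP (hKR a)
    have h2 := hRP (hKR a⁻¹)
    rw [DVal.mem_ring] at h1 h2
    rw [map_inv₀, DVal.map_inv] at h2
    omega
  have hinv : IsInv 𝒱.ht P := by
    by_contra hni
    apply hPz
    have h1 := term_eq_zero 𝒱.stable hP hni 1 z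
    rw [one_smul] at h1
    rw [DVal.mem_ring, h1]
  have h1 := hu ⟨P, hP, hinv, hPK⟩
  have h2 := 𝒱.hor_term ⟨P, hP, hinv, hPK⟩ (one_ne_zero : (1 : K) ≠ 0) z
  rw [one_smul] at h2
  change P (mono t z) = ipair (wvec P t) z at h2
  change 0 ≤ pairL (wvec P t) u at h1
  have h3 : pairL (wvec P t) (fun l => (z l : ℚ)) = n * pairL (wvec P t) u := by
    rw [← smul_eq_mul, ← map_smul]
    congr 1
    funext l
    rw [Pi.smul_apply, smul_eq_mul]
    exact (hz l).symm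
  rw [← ipair_cast, ← h2] at h3
  have h4 : (0 : ℚ) ≤ P (mono t z) := by
    rw [h3]
    positivity
  apply hPz
  rw [DVal.mem_ring]
  exact_mod_cast h4

/-- The combinatorial data. -/
noncomputable def data : TData k K r 𝒱.QQ 𝒱.HH 𝒱.JJ where
  ord Q := Q.1
  ρ i := wvec i.1 t
  base := base
  e := mult
  e_pos := mult_pos
  w j := wvec j.1 t
  base_surj := 𝒱.base_surj
  fib := 𝒱.fib
  special := 𝒱.special
  complete := 𝒱.complete

end TV

end Pool.Agent.Helper92.Weak
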