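import Pool.Agent.Helper92.Weak.Torus5

set_option autoImplicit false

/-! Every prime polynomial which is not a variable gives a prime divisor; Laurent polynomials;
local equations of invariant divisors. -/

namespace Pool.Agent.Helper92.Weak

open MvPolynomial

variable {k K L : Type*} [Field k] [Field K] [Field L] [Algebra k K] [Algebra k L] [Algebra K L]
  [IsScalarTower k K L] {r : ℕ} {t : Fin r → L}

lemma polyVal_eq_of_associated (ht : IsTorus K t) {p q : MvPolynomial (Fin r) K} (hp : Prime p)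
    (hq : Prime q) (h : q ∣ p) : polyVal k ht p hp = polyVal k ht q hq := by
  apply DVal.eq_of_ring_le
  intro z hz
  rw [mem_polyVal_ring] at hz ⊢
  obtain ⟨a, b, hb, h1⟩ := hz
  refine ⟨a, b, fun h2 => hb ?_, h1⟩
  exact ((hq.dvd_prime_iff_associated hp).1 h).symm.dvd.trans h2

/-- Finiteness of the support, for prime polynomials. -/
lemma finite_polyVal (ht : IsTorus K t) {f : L} (hf : f ≠ 0) :
    {v : DVal k L | (∃ (p : MvPolynomial (Fin r) K) (hp : Prime p), v = polyVal k ht p hp) ∧
      v f ≠ 0}.Finite := by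
  classical
  obtain ⟨a, b, hb, rfl⟩ := exists_aeval_div ht f
  have ha : a ≠ 0 := by
    rintro rfl
    rw [map_zero, zero_div] at hf
    exact hf rfl
  have hb' : aeval t b ≠ 0 := fun h => hb (ht.indep (by rw [h, map_zero]))
  have ha' : aeval t a ≠ 0 := fun h => ha (ht.indep (by rw [h, map_zero]))
  have key : ∀ c : MvPolynomial (Fin r) K, c ≠ 0 → {v : DVal k L |
      (∃ (p : MvPolynomial (Fin r) K) (hp : Prime p), v = polyVal k ht p hp) ∧
      v (aeval t c) ≠ 0}.Finite := by
    intro c hc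
    let F : MvPolynomial (Fin r) K → Set (DVal k L) := fun q =>
      {v | ∃ hq : Prime q, v = polyVal k ht q hq}
    have hF : ∀ q, (F q).Finite := by
      intro q
      by_cases hq : Prime q
      · apply (Set.finite_singleton (polyVal k ht q hq)).subset
        rintro v ⟨hq', rfl⟩
        rfl
      · have : F q = ∅ := by
          ext v
          simp only [F, Set.mem_ofPred_eq, Set.mem_empty_iff_false, iff_false]
          rintro ⟨h, -⟩
          exact hq h
        rw [this]
        exact Set.finite_empty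
    apply (Set.Finite.biUnion (UniqueFactorizationMonoid.factors c).toFinset.finite_toSet
      fun q _ => hF q).subset
    rintro v ⟨⟨p, hp, rfl⟩, hv⟩
    have h1 : p ∣ c := by
      by_contra h
      exact hv (polyVal_eq_zero k ht hp h)
    obtain ⟨q, hq, hpq⟩ := UniqueFactorizationMonoid.exists_mem_factors_of_dvd hc hp.irreducible h1
    have hqp : Prime q := UniqueFactorizationMonoid.prime_of_factor q hq
    rw [Set.mem_iUnion₂]
    refine ⟨q, by simpa using hq, hqp, ?_⟩
    exact polyVal_eq_of_associated ht hp hqp hpq.symm.dvd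
  refine ((key a ha).union (key b hb)).subset ?_
  rintro v ⟨hv, hv2⟩
  by_contra hcon
  simp only [Set.mem_union, Set.mem_ofPred_eq, not_or, not_and, not_not] at hcon
  rw [DVal.map_div _ ha' hb', hcon.1 hv, hcon.2 hv] at hv2
  exact hv2 (sub_self _)

variable [IsAlgClosed k] [CharZero k] {X : ProjVar k L} {ht : IsTorus K t}

/-- Prime polynomials which are not variables give prime divisors. -/
theorem polyVal_mem (hK : (⊤ : IntermediateField k K).FG) (hX : Stable X ht)
    {p : MvPolynomial (Fin r) K} (hp : Prime p) (hi : ∀ i, ¬ p ∣ MvPolynomial.X i) :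
    polyVal k ht p hp ∈ X.primeDivisors := by
  classical
  set P := polyVal k ht p hp with hP
  have hinf : ¬ (Set.range fun c : Fin r → kˣ => P.comap (scale k ht c)).Finite := fun h =>
    polyVal_not_inv ht hp hi (isInv_of_finite ht P h)
  obtain ⟨s, hs⟩ := hK
  -- denominators
  have hden : ∀ z : L, ∃ b : L, b ≠ 0 ∧ b ∈ chart k X.x 0 ∧ z * b ∈ chart k X.x 0 := by
    intro z
    obtain ⟨a, ha, b, hb, hb0, rfl⟩ := X.chart_isFrac 0 z
    refine ⟨b, hb0, hb, ?_⟩
    rw [div_mul_cancel₀ _ hb0]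
    exact ha
  choose d hd0 hd hzd using hden
  have hy : ∀ j, X.x j / X.x 0 ≠ 0 := fun j => div_ne_zero (X.x_ne j) (X.x_ne 0)
  have hE : ((⋃ y ∈ (s : Set K), {v : DVal k L |
        (∃ (p : MvPolynomial (Fin r) K) (hp : Prime p), v = polyVal k ht p hp) ∧
          v (d (algebraMap K L y)) ≠ 0}) ∪
      ((⋃ i, {v : DVal k L |
        (∃ (p : MvPolynomial (Fin r) K) (hp : Prime p), v = polyVal k ht p hp) ∧
          v (d (t i)) ≠ 0}) ∪
      ⋃ j, {v : DVal k L |
        (∃ (p : MvPolynomial (Fin r) K) (hp : Prime p), v = polyVal k ht p hp) ∧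
          v (X.x j / X.x 0) ≠ 0})).Finite :=
    (Set.Finite.biUnion s.finite_toSet fun y _ => finite_polyVal ht (hd0 _)).union
      ((Set.finite_iUnion fun i => finite_polyVal ht (hd0 _)).union
      (Set.finite_iUnion fun j => finite_polyVal ht (hy j)))
  obtain ⟨c, hc⟩ : ∃ c : Fin r → kˣ, P.comap (scale k ht c) ∉ ((⋃ y ∈ (s : Set K), {v : DVal k L |
        (∃ (p : MvPolynomial (Fin r) K) (hp : Prime p), v = polyVal k ht p hp) ∧
          v (d (algebraMap K L y)) ≠ 0}) ∪
      ((⋃ i, {v : DVal k L |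
        (∃ (p : MvPolynomial (Fin r) K) (hp : Prime p), v = polyVal k ht p hp) ∧
          v (d (t i)) ≠ 0}) ∪
      ⋃ j, {v : DVal k L |
        (∃ (p : MvPolynomial (Fin r) K) (hp : Prime p), v = polyVal k ht p hp) ∧
          v (X.x j / X.x 0) ≠ 0})) := by
    by_contra hcon
    push Not at hcon
    apply hinf
    apply hE.subset
    rintro _ ⟨c, rfl⟩
    exact hcon c
  obtain ⟨p', hp', hPp'⟩ : ∃ (p' : MvPolynomial (Fin r) K) (hp' : Prime p'),
      P.comap (scale k ht c) = polyVal k ht p' hp' := ⟨_, _, polyVal_comap ht c hp⟩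
  rw [hPp'] at hc
  set P' := polyVal k ht p' hp' with hP'
  simp only [Set.mem_union, Set.mem_iUnion, Set.mem_ofPred_eq, not_or, not_exists, not_and,
    not_not] at hc
  obtain ⟨hc1, hc2, hc3⟩ := hc
  have hex : ∃ (p : MvPolynomial (Fin r) K) (hp : Prime p), P' = polyVal k ht p hp := ⟨p', hp', rfl⟩
  have hP'K : ∀ a : K, P' (algebraMap K L a) = 0 := polyVal_algebraMap k ht hp'
  have hchart : chart k X.x 0 ≤ P'.ring := by
    rw [ProjVar.chart_le_iff]
    intro j
    rw [DVal.mem_ring, hc3 j hex]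
  set R := locAt _ (posIdeal P' _ hchart) with hR
  have hdom : Dominates R P'.ring := dominates_posIdeal hchart
  have hmem : ∀ z : L, P' (d z) = 0 → z ∈ R := by
    intro z hz
    have h1 : z = (z * d z) * (d z)⁻¹ := by
      have := hd0 z
      field_simp
    rw [h1]
    exact R.mul_mem (le_locAt _ (hzd z)) (hdom.inv_mem (le_locAt _ (hd z)) hz)
  have hRt : ∀ i, t i ∈ R := fun i => hmem _ (hc2 i hex)
  have hRK : ∀ a : K, algebraMap K L a ∈ R := by
    intro a
    have hadj : ∀ b ∈ Algebra.adjoin k (s : Set K), algebraMap K L b ∈ R := by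
      have : Algebra.adjoin k (s : Set K) ≤ R.comap (IsScalarTower.toAlgHom k K L) := by
        rw [Algebra.adjoin_le_iff]
        intro y hy
        exact hmem _ (hc1 y hy hex)
      intro b hb
      exact this hb
    have ha : a ∈ IntermediateField.adjoin k (s : Set K) := by
      rw [hs]; trivial
    rw [IntermediateField.mem_adjoin_iff_div] at ha
    obtain ⟨u, hu, w, hw, rfl⟩ := ha
    rw [map_div₀, div_eq_mul_inv]
    exact R.mul_mem (hadj u hu) (hdom.inv_mem (hadj w hw) (hP'K w))
  have hRp : P'.ring ≤ R := by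
    intro z hz
    rw [mem_polyVal_ring] at hz
    obtain ⟨a, b, hb, rfl⟩ := hz
    rw [div_eq_mul_inv]
    exact R.mul_mem (aeval_mem hRK hRt a)
      (hdom.inv_mem (aeval_mem hRK hRt b) (polyVal_eq_zero k ht hp' hb))
  have hP'X : P' ∈ X.primeDivisors := by
    change P'.ring ∈ X.localRings
    rw [le_antisymm hRp hdom.1]
    exact X.locAt_mem 0 _
  have hPeq : P = P'.comap (scale k ht c⁻¹) := by
    apply DVal.ext
    intro z
    rw [← hPp', DVal.comap_apply, DVal.comap_apply, ← scale_mul, mul_inv_cancel, scale_one]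
  rw [hPeq]
  exact hX _ _ hP'X

omit [CharZero k] in
/-- Non-invariant divisors are trivial on terms. -/
lemma term_eq_zero (hX : Stable X ht) {P : DVal k L} (hP : P ∈ X.primeDivisors)
    (hni : ¬ IsInv ht P) (a : K) (u : Fin r → ℤ) : P (a • mono t u) = 0 := by
  obtain ⟨p, hp, rfl, hi⟩ := exists_polyVal hX hP hni
  exact polyVal_term k ht hp hi a u

omit [IsAlgClosed k] [CharZero k] in
/-- A polynomial whose prime factors are variables is a monomial. -/
lemma exists_term_of_factors (ht : IsTorus K t) (b : MvPolynomial (Fin r) K) (hb0 : b ≠ 0)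
    (h : ∀ p, Prime p → p ∣ b → ∃ i, p ∣ MvPolynomial.X i) :
    ∃ (c : K) (u : Fin r → ℤ), c ≠ 0 ∧ aeval t b = c • mono t u := by
  induction b using UniqueFactorizationMonoid.induction_on_prime with
  | h₁ => exact absurd rfl hb0
  | h₂ x hx =>
    obtain ⟨c, hc, rfl⟩ := MvPolynomial.isUnit_iff_eq_C_of_isReduced.1 hx
    refine ⟨c, 0, hc.ne_zero, ?_⟩
    rw [mono_zero, aeval_C, Algebra.algebraMap_eq_smul_one]
  | h₃ x p hx hp ih =>
    obtain ⟨c, u, hc, hcu⟩ := ih hx (fun q hq hqx => h q hq (hqx.mul_left p))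
    obtain ⟨i, hi⟩ := h p hp (dvd_mul_right p x)
    have hXi : Prime (MvPolynomial.X i : MvPolynomial (Fin r) K) := MvPolynomial.X_prime
    obtain ⟨w, hw⟩ := ((hp.dvd_prime_iff_associated hXi).1 hi).symm
    obtain ⟨d, hd, hwd⟩ := MvPolynomial.isUnit_iff_eq_C_of_isReduced.1 w.isUnit
    refine ⟨c * d, u + Pi.single i 1, mul_ne_zero hc hd.ne_zero, ?_⟩
    rw [map_mul, hcu, ← hw, hwd, map_mul, aeval_X, aeval_C, mono_add ht.ne_zero, mono_single]
    rw [Algebra.smul_def, Algebra.smul_def, map_mul]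
    ring

/-- Reduced fractions. -/
lemma exists_reduced (ht : IsTorus K t) (z : L) : ∃ a b : MvPolynomial (Fin r) K,
    b ≠ 0 ∧ IsRelPrime a b ∧ z = aeval t a / aeval t b := by
  let _ := polyAlg K t
  have := isFractionRing_poly ht
  obtain ⟨a, b, hab, h⟩ := IsFractionRing.exists_reduced_fraction
    (A := MvPolynomial (Fin r) K) (K := L) z
  refine ⟨a, b, nonZeroDivisors.ne_zero b.2, hab, ?_⟩
  rw [← h, IsFractionRing.mk'_eq_div]
  rfl

/-- Functions without poles outside the invariant divisors are Laurent polynomials. -/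
theorem exists_ev_of_nonneg (hK : (⊤ : IntermediateField k K).FG) (hX : Stable X ht) {z : L}
    (hz : ∀ P ∈ X.primeDivisors, ¬ IsInv ht P → 0 ≤ P z) :
    ∃ f : (Fin r → ℤ) →₀ K, z = ev K t f := by
  obtain ⟨a, b, hb, hab, rfl⟩ := exists_reduced ht z
  have hb' : aeval t b ≠ 0 := fun h => hb (ht.indep (by rw [h, map_zero]))
  by_cases ha : a = 0
  · refine ⟨0, ?_⟩
    rw [ha]; simp
  have ha' : aeval t a ≠ 0 := fun h => ha (ht.indep (by rw [h, map_zero]))
  obtain ⟨c, u, hc, hcu⟩ := exists_term_of_factors ht b hb (by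
    intro p hp hpb
    by_contra hcon
    push Not at hcon
    have h1 := hz _ (polyVal_mem hK hX hp hcon) (polyVal_not_inv ht hp hcon)
    rw [DVal.map_div _ ha' hb'] at h1
    have h2 := (polyVal_pos_iff k ht hp hb).2 hpb
    have h3 : ¬ p ∣ a := fun h => hp.not_isUnit (hab h hpb)
    rw [polyVal_eq_zero k ht hp h3] at h1
    omega)
  obtain ⟨f, hf⟩ := exists_ev_eq t a
  refine ⟨conv f (Finsupp.single (-u) c⁻¹), ?_⟩
  rw [ev_conv ht.ne_zero, ev_single, hf, hcu, mono_neg, Algebra.smul_def, Algebra.smul_def,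
    map_inv₀, div_eq_mul_inv, mul_inv]

/-- A polynomial whose zeros through the point are invariant is locally a term times a unit. -/
lemma exists_unit_term (hX : Stable X ht) {R : Subalgebra k L} (hR : R ∈ X.localRings)
    {f : (Fin r → ℤ) →₀ K} (hf : f ≠ 0)
    (h : ∀ P ∈ X.primeDivisors, R ≤ P.ring → ¬ IsInv ht P → P (ev K t f) = 0) :
    ∃ u, f u ≠ 0 ∧ ∀ P ∈ X.primeDivisors, R ≤ P.ring → P (ev K t f) = P (f u • mono t u) := by
  have hf' : ev K t f ≠ 0 := fun h => hf (ev_injective ht (by rw [h, map_zero]))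
  have hmem : ∀ u ∈ f.support, f u • mono t u / ev K t f ∈ R := by
    intro u hu
    have hu' : f u ≠ 0 := Finsupp.mem_support_iff.1 hu
    have hne : f u • mono t u ≠ 0 := smul_ne_zero hu' (ht.mono_ne u)
    apply X.hartogs hR
    intro P hP hRP
    rw [DVal.mem_ring, DVal.map_div _ hne hf']
    by_cases hinv : IsInv ht P
    · have := hinv.le_term f u hu'
      omega
    · rw [h P hP hRP hinv, term_eq_zero hX hP hinv]
      simp
  have hsum : ∑ u ∈ f.support, f u • mono t u / ev K t f = 1 := by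
    rw [← Finset.sum_div, ← ev_apply, div_self hf']
  obtain ⟨u, hu, h1, h2⟩ := X.isUnit_of_sum hR f.support _ hmem hsum
  have hu' : f u ≠ 0 := Finsupp.mem_support_iff.1 hu
  have hne : f u • mono t u ≠ 0 := smul_ne_zero hu' (ht.mono_ne u)
  refine ⟨u, hu', fun P hP hRP => ?_⟩
  have h3 := hRP (hmem u hu)
  have h4 := hRP h1
  rw [DVal.mem_ring] at h3 h4
  rw [DVal.map_inv] at h4
  rw [DVal.map_div _ hne hf'] at h3 h4
  omega

/-- Local equations of invariant divisors can be taken to be terms. -/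
theorem exists_term_eq (hX : Stable X ht) {R : Subalgebra k L} (hR : R ∈ X.localRings) {h : L}
    (hh : h ≠ 0) (h0 : ∀ P ∈ X.primeDivisors, R ≤ P.ring → ¬ IsInv ht P → P h = 0) :
    ∃ (c : K) (u : Fin r → ℤ), c ≠ 0 ∧
      ∀ P ∈ X.primeDivisors, R ≤ P.ring → P h = P (c • mono t u) := by
  obtain ⟨a, b, hb, hab, rfl⟩ := exists_reduced ht h
  have hb' : aeval t b ≠ 0 := fun h => hb (ht.indep (by rw [h, map_zero]))
  have ha : a ≠ 0 := by
    rintro rfl
    rw [map_zero, zero_div] at hh
    exact hh rfl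
  have ha' : aeval t a ≠ 0 := fun h => ha (ht.indep (by rw [h, map_zero]))
  obtain ⟨f, hf⟩ := exists_ev_eq t a
  obtain ⟨g, hg⟩ := exists_ev_eq t b
  have hf0 : f ≠ 0 := by
    rintro rfl
    rw [map_zero] at hf
    exact ha' hf.symm
  have hg0 : g ≠ 0 := by
    rintro rfl
    rw [map_zero] at hg
    exact hb' hg.symm
  have key : ∀ P ∈ X.primeDivisors, R ≤ P.ring → ¬ IsInv ht P →
      P (aeval t a) = 0 ∧ P (aeval t b) = 0 := by
    intro P hP hRP hni
    have h1 := h0 P hP hRP hni
    obtain ⟨p, hp, rfl, hi⟩ := exists_polyVal hX hP hni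
    rw [DVal.map_div _ ha' hb'] at h1
    have h2 := polyVal_nonneg k ht hp a
    have h3 := polyVal_nonneg k ht hp b
    by_cases hpb : p ∣ b
    · have h4 : ¬ p ∣ a := fun h => hp.not_isUnit (hab h hpb)
      have h5 := polyVal_eq_zero k ht hp h4
      omega
    · have h5 := polyVal_eq_zero k ht hp hpb
      omega
  obtain ⟨u, hu, h1⟩ := exists_unit_term hX hR hf0 (fun P hP hRP hni => by
    rw [hf]; exact (key P hP hRP hni).1)
  obtain ⟨w, hw, h2⟩ := exists_unit_term hX hR hg0 (fun P hP hRP hni => by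
    rw [hg]; exact (key P hP hRP hni).2)
  refine ⟨f u * (g w)⁻¹, u + -w, mul_ne_zero hu (inv_ne_zero hw), fun P hP hRP => ?_⟩
  have h3 := h1 P hP hRP
  have h4 := h2 P hP hRP
  rw [hf] at h3
  rw [hg] at h4
  have e1 : (f u * (g w)⁻¹) • mono t (u + -w) = (f u • mono t u) / (g w • mono t w) := by
    rw [mono_add ht.ne_zero, mono_neg, Algebra.smul_def, Algebra.smul_def, Algebra.smul_def,
      map_mul, map_inv₀]
    have h5 : algebraMap K L (g w) ≠ 0 := by simpa using hw
    have h6 := ht.mono_ne w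
    field_simp
  rw [e1, DVal.map_div _ ha' hb', DVal.map_div _ (smul_ne_zero hu (ht.mono_ne u))
    (smul_ne_zero hw (ht.mono_ne w)), h3, h4]

end Pool.Agent.Helper92.Weak
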