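import Pool.Agent.Helper92.Weak.Values

set_option autoImplicit false
set_option linter.unusedSectionVars false

/-! Adjoint divisors on a variety with torus action. -/

namespace Pool.Agent.Helper92.Weak

open MvPolynomial

namespace TV

variable {k K L : Type*} [Field k] [Field K] [Field L] [Algebra k K] [Algebra k L] [Algebra K L]
  [IsScalarTower k K L] {r : ℕ} {t : Fin r → L} (𝒱 : TV k K t) [IsAlgClosed k] [CharZero k]

/-- The centre of a valuation which is trivial on `K` contains `K`. -/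
lemma K_le_center {v : DVal k L} (hv : ∀ a : K, v (algebraMap K L a) = 0) {R : Subalgebra k L}
    (hR : R ∈ 𝒱.X.localRings) (hRv : Dominates R v.ring) : ∀ a : K, algebraMap K L a ∈ R := by
  obtain ⟨S, hS, hSR⟩ := 𝒱.mor R hR
  have hSinv : ∀ a ∈ S, a⁻¹ ∈ S := by
    intro a ha
    apply hSR.2 a ha
    exact hRv.inv_mem (hSR.1 a ha) (hv a)
  intro a
  apply hSR.1
  obtain ⟨i, p, hp, hS'⟩ := 𝒱.Z.mem_localRings.1 hS
  obtain ⟨b, hb, c, hc, hc0, rfl⟩ := 𝒱.Z.chart_isFrac i a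
  rw [div_eq_mul_inv]
  apply S.mul_mem
  · rw [hS']; exact le_locAt _ hb
  · apply hSinv
    rw [hS']; exact le_locAt _ hc

/-- A polynomial with given zeros along the non-invariant divisors. -/
lemma exists_poly (A : 𝒱.X.Div) (hA : ∀ P, 0 ≤ A P) (hint : 𝒱.X.IsInt A) :
    ∃ f : MvPolynomial (Fin r) K, f ≠ 0 ∧ ∀ P : 𝒱.X.primeDivisors, ¬ IsInv 𝒱.ht P.1 →
      (P.1 (aeval t f) : ℚ) = A P := by
  classical
  -- the polynomials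
  have hq : ∀ P : 𝒱.X.primeDivisors, ∃ q : MvPolynomial (Fin r) K, q ≠ 0 ∧
      ∀ P' : 𝒱.X.primeDivisors, ¬ IsInv 𝒱.ht P'.1 → P'.1 (aeval t q) = if P' = P then 1 else 0 := by
    intro P
    by_cases hP : IsInv 𝒱.ht P.1
    · refine ⟨1, one_ne_zero, fun P' hP' => ?_⟩
      rw [map_one, DVal.map_one, if_neg]
      rintro rfl
      exact hP' hP
    · obtain ⟨p, hp, hPp, hi⟩ := exists_polyVal 𝒱.stable P.2 hP
      refine ⟨p, hp.ne_zero, fun P' hP' => ?_⟩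
      split_ifs with h
      · rw [h, hPp, polyVal_self]
      · obtain ⟨p', hp', hPp', hi'⟩ := exists_polyVal 𝒱.stable P'.2 hP'
        rw [hPp']
        apply polyVal_eq_zero
        intro hdvd
        apply h
        apply Subtype.ext
        rw [hPp, hPp']
        exact (polyVal_eq_of_associated 𝒱.ht hp hp' hdvd).symm
  choose q hq0 hq using hq
  refine ⟨∏ P ∈ A.support, q P ^ (A P).num.toNat, ?_, fun P hP => ?_⟩
  · rw [Finset.prod_ne_zero_iff]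
    exact fun P _ => pow_ne_zero _ (hq0 P)
  · have hinj : ∀ P, aeval t (q P) ≠ 0 := fun P h => hq0 P (𝒱.ht.indep (by rw [h, map_zero]))
    rw [map_prod, DVal.map_prod]
    · have h1 : ∀ P' ∈ A.support, P.1 (aeval t (q P' ^ (A P').num.toNat)) =
          if P = P' then ((A P').num.toNat : ℤ) else 0 := by
        intro P' _
        rw [map_pow, DVal.map_pow, hq P' P hP]
        split_ifs <;> simp
      rw [Finset.sum_congr rfl h1, Finset.sum_ite_eq]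
      obtain ⟨z, hz⟩ := hint P
      have hz0 : 0 ≤ z := by
        have := hA P
        rw [hz] at this
        exact_mod_cast this
      split_ifs with h
      · rw [hz, Rat.num_intCast, Int.toNat_of_nonneg hz0]
      · rw [Finsupp.notMem_support_iff] at h
        rw [h]
        simp
    · intro P' _
      rw [map_pow]
      exact pow_ne_zero _ (hinj P')

/-- An adjoint divisor `KX + Δ`, where `KX` is the divisor of `g ω₀`; the predicate `A v₀ a` says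
that `v₀` is a divisorial valuation of `K` and that the form on `K` has order `a` along `v₀`. -/
structure Adj (A : DVal k K → ℤ → Prop) where
  KX : 𝒱.X.Div
  KZ : 𝒱.Z.Div
  Δ : 𝒱.X.Div
  Δ_nonneg : ∀ P, 0 ≤ Δ P
  ΔZ : 𝒱.Z.Div
  ΔZ_nonneg : ∀ Q, 0 ≤ ΔZ Q
  ΔZ_le : ∀ j : 𝒱.JJ, mult j * ΔZ (base j) ≤ Δ ⟨j.1, j.2.1⟩ + (mult j - 1)
  KX_int : 𝒱.X.IsInt KX
  KZ_int : 𝒱.Z.IsInt KZ
  g : L
  g_ne : g ≠ 0
  non : ∀ P : 𝒱.X.primeDivisors, ¬ IsInv 𝒱.ht P.1 → KX P = P.1 g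
  hor : ∀ i : 𝒱.HH, KX ⟨i.1, i.2.1⟩ = i.1 g - 1
  vert : ∀ j : 𝒱.JJ, KX ⟨j.1, j.2.1⟩ = j.1 g + (mult j * (KZ (base j) + 1) - 1)
  qc : 𝒱.X.IsQCartier (KX + Δ)
  lc_hor : ∀ (w : Fin r → ℤ) (hs : ∃ (c : K) (u : Fin r → ℤ), c ≠ 0 ∧
    ZVal.trivial k K c + ipair w u = 1) (c : ℚ),
    𝒱.X.IsValue (monoVal 𝒱.ht (ZVal.trivial k K) w hs) (KX + Δ) c →
      c ≤ monoVal 𝒱.ht (ZVal.trivial k K) w hs g
  lc_vert : ∀ (v₀ : DVal k K) (a : ℤ), A v₀ a → ∀ (e : ℕ) (w : Fin r → ℤ) (hs : ∃ (c : K)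
    (u : Fin r → ℤ), c ≠ 0 ∧ ZVal.ofDVal e v₀ c + ipair w u = 1) (c : ℚ), 0 < e →
    𝒱.X.IsValue (monoVal 𝒱.ht (ZVal.ofDVal e v₀) w hs) (KX + Δ) c →
      c ≤ monoVal 𝒱.ht (ZVal.ofDVal e v₀) w hs g + e * (a + 1)

variable {𝒱} {A : DVal k K → ℤ → Prop} (𝒜 : 𝒱.Adj A)

namespace Adj

/-- The adjoint divisor. -/
noncomputable def E : 𝒱.X.Div := 𝒜.KX + 𝒜.Δ

lemma E_apply (P : 𝒱.X.primeDivisors) : 𝒜.E P = 𝒜.KX P + 𝒜.Δ P := rfl

/-- The common denominator. -/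
lemma exists_M : ∃ M : ℕ, 0 < M ∧ 𝒱.X.IsInt ((M : ℚ) • 𝒜.Δ) := by
  obtain ⟨M, hM, h⟩ := exists_common_den 𝒜.Δ.support 𝒜.Δ
  refine ⟨M, hM, fun P => ?_⟩
  rw [Finsupp.smul_apply, smul_eq_mul]
  by_cases hP : P ∈ 𝒜.Δ.support
  · exact h P hP
  · rw [Finsupp.notMem_support_iff] at hP
    exact ⟨0, by rw [hP]; simp⟩

/-- The reduction to an invariant divisor. -/
structure Data where
  M : ℕ
  M_pos : 0 < M
  int : 𝒱.X.IsInt ((M : ℚ) • 𝒜.Δ)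
  φ : (Fin r → ℤ) →₀ K
  φ_ne : φ ≠ 0
  φ_eq : ∀ P : 𝒱.X.primeDivisors, ¬ IsInv 𝒱.ht P.1 → (P.1 (ev K t φ) : ℚ) = M * 𝒜.Δ P

lemma exists_data : Nonempty 𝒜.Data := by
  obtain ⟨M, hM, hint⟩ := 𝒜.exists_M
  obtain ⟨f, hf, h⟩ := 𝒱.exists_poly ((M : ℚ) • 𝒜.Δ) (fun P => by
    rw [Finsupp.smul_apply, smul_eq_mul]
    exact mul_nonneg (by positivity) (𝒜.Δ_nonneg P)) hint
  obtain ⟨φ, hφ⟩ := exists_ev_eq t f
  refine ⟨⟨M, hM, hint, φ, ?_, fun P hP => ?_⟩⟩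
  · rintro rfl
    rw [map_zero] at hφ
    exact hf (𝒱.ht.indep (by rw [← hφ, map_zero]))
  · rw [hφ, h P hP, Finsupp.smul_apply, smul_eq_mul]

variable {𝒜} (𝒟 : 𝒜.Data)

namespace Data

lemma ev_ne : ev K t 𝒟.φ ≠ 0 := fun h => 𝒟.φ_ne (ev_injective 𝒱.ht (by rw [h, map_zero]))

/-- The invariant divisor. -/
noncomputable def red : 𝒱.Red 𝒜.E where
  M := 𝒟.M
  M_pos := 𝒟.M_pos
  int := by
    unfold E
    rw [smul_add]
    exact (𝒜.KX_int.nsmul _).add 𝒟.int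
  G := 𝒜.g ^ 𝒟.M * ev K t 𝒟.φ
  G_ne := mul_ne_zero (pow_ne_zero _ 𝒜.g_ne) 𝒟.ev_ne
  D P := 𝒟.M * 𝒜.E P - P.1 (𝒜.g ^ 𝒟.M * ev K t 𝒟.φ)
  D_eq P := rfl
  inv P hP := by
    change (𝒟.M : ℚ) * 𝒜.E P - (P.1 (𝒜.g ^ 𝒟.M * ev K t 𝒟.φ) : ℚ) = 0
    rw [DVal.map_mul _ (pow_ne_zero _ 𝒜.g_ne) 𝒟.ev_ne, DVal.map_pow, 𝒜.E_apply,
      𝒜.non P hP]
    push_cast
    rw [𝒟.φ_eq P hP]
    ring

lemma G_val (v : DVal k L) : v 𝒟.red.G = 𝒟.M * v 𝒜.g + v (ev K t 𝒟.φ) := by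
  change v (𝒜.g ^ 𝒟.M * ev K t 𝒟.φ) = _
  rw [DVal.map_mul _ (pow_ne_zero _ 𝒜.g_ne) 𝒟.ev_ne, DVal.map_pow]

/-- Terms are local equations. -/
lemma exists_term {R : Subalgebra k L} (hR : R ∈ 𝒱.X.localRings) :
    ∃ (m : ℕ) (c : K) (u : Fin r → ℤ), 0 < m ∧ c ≠ 0 ∧
      ∀ P : 𝒱.X.primeDivisors, R ≤ P.1.ring → (P.1 (c • mono t u) : ℚ) = m * 𝒟.red.D P := by
  obtain ⟨m, hm, h, hh0, hh⟩ := 𝒜.qc R hR
  have hne : h ^ 𝒟.M * (𝒟.red.G ^ m)⁻¹ ≠ 0 :=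
    mul_ne_zero (pow_ne_zero _ hh0) (inv_ne_zero (pow_ne_zero _ 𝒟.red.G_ne))
  have hval : ∀ P : 𝒱.X.primeDivisors, R ≤ P.1.ring →
      (P.1 (h ^ 𝒟.M * (𝒟.red.G ^ m)⁻¹) : ℚ) = m * 𝒟.red.D P := by
    intro P hRP
    rw [DVal.map_mul _ (pow_ne_zero _ hh0) (inv_ne_zero (pow_ne_zero _ 𝒟.red.G_ne)), DVal.map_inv,
      DVal.map_pow, DVal.map_pow, 𝒟.red.D_eq]
    have h1 := hh P hRP
    rw [Finsupp.smul_apply, smul_eq_mul] at h1
    change _ = (m : ℚ) * 𝒜.E P at h1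
    have h2 : (𝒟.red.M : ℚ) = 𝒟.M := rfl
    push_cast
    rw [h1, h2]
    ring
  obtain ⟨c, u, hc, hcu⟩ := exists_term_eq 𝒱.stable hR hne (fun P hP hRP hni => by
    have h1 := hval ⟨P, hP⟩ hRP
    rw [𝒟.red.inv ⟨P, hP⟩ hni, mul_zero] at h1
    exact_mod_cast h1)
  refine ⟨m, c, u, hm, hc, fun P hRP => ?_⟩
  rw [← hcu P.1 P.2 hRP, hval P hRP]

/-- The value of `KX + Δ` in terms of a term. -/
lemma value_eq {v : DVal k L} {R : Subalgebra k L} (hR : R ∈ 𝒱.X.localRings)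
    (hRv : Dominates R v.ring) {m : ℕ} {c : K} {u : Fin r → ℤ} (hm : 0 < m) (hc : c ≠ 0)
    (h : ∀ P : 𝒱.X.primeDivisors, R ≤ P.1.ring → (P.1 (c • mono t u) : ℚ) = m * 𝒟.red.D P)
    {x : ℚ} (hx : 𝒱.X.IsValue v (𝒜.KX + 𝒜.Δ) x) :
    𝒟.M * x = (v (c • mono t u) : ℚ) / m + (𝒟.M * v 𝒜.g + v (ev K t 𝒟.φ)) := by
  have hne : c • mono t u ≠ 0 := smul_ne_zero hc (𝒱.ht.mono_ne u)
  have h1 : 𝒱.X.IsValue v ((𝒟.M : ℚ) • 𝒜.E + (-1 : ℚ) • 𝒱.X.prin 𝒟.red.G)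
      ((v (c • mono t u) : ℚ) / m) := by
    refine ⟨R, hR, hRv, m, c • mono t u, hm, ⟨hne, fun P hRP => ?_⟩, rfl⟩
    rw [h P hRP, 𝒟.red.D_eq, Finsupp.smul_apply, Finsupp.add_apply, Finsupp.smul_apply,
      Finsupp.smul_apply, ProjVar.prin_apply]
    simp only [smul_eq_mul]
    have h2 : (𝒟.red.M : ℚ) = 𝒟.M := rfl
    rw [h2]
    ring
  have h2 := (hx.smul (𝒟.M : ℚ)).add
    ((ProjVar.IsValue.prin (X := 𝒱.X) (v := v) 𝒟.red.G_ne).smul (-1 : ℚ))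
  have h3 := h1.unique h2
  rw [𝒟.G_val] at h3
  push_cast at h3
  linarith

/-- The support of the polynomial. -/
noncomputable def S : Finset (Fin r → ℤ) := 𝒟.φ.support

lemma mem_S {b : Fin r → ℤ} : b ∈ 𝒟.S ↔ 𝒟.φ b ≠ 0 := Finsupp.mem_support_iff

lemma S_nonempty : 𝒟.S.Nonempty := by
  unfold S
  rw [Finset.nonempty_iff_ne_empty, Ne, Finsupp.support_eq_empty]
  exact 𝒟.φ_ne

/-- The polytope. -/
abbrev InQ (u : Fin r → ℚ) : Prop := InP 𝒱.data (𝒱.res 𝒟.red.D) u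

lemma hor_D {i : 𝒱.HH} {u : Fin r → ℚ} (hu : 𝒟.InQ u) :
    0 ≤ pairL (wvec i.1 t) u + 𝒟.red.D ⟨i.1, i.2.1⟩ := hu i

/-- Comparison along horizontal valuations. -/
lemma le_hor {u : Fin r → ℚ} (hu : 𝒟.InQ u) (w : Fin r → ℤ) (hw : ∃ a, ipair w a = 1) :
    ∃ b ∈ 𝒟.S, pairL w (toQ b) ≤ pairL w u := by
  have hs : ∃ (c : K) (u : Fin r → ℤ), c ≠ 0 ∧ ZVal.trivial k K c + ipair w u = 1 := by
    obtain ⟨a, ha⟩ := hw
    refine ⟨1, a, one_ne_zero, ?_⟩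
    change 0 + _ = _
    rw [zero_add, ha]
  set v := monoVal 𝒱.ht (ZVal.trivial k K) w hs with hv
  have hvK : ∀ a : K, v (algebraMap K L a) = 0 := fun a => monoVal_algebraMap 𝒱.ht _ _ hs a
  have hvt : ∀ (c : K) (u : Fin r → ℤ), c ≠ 0 → v (c • mono t u) = ipair w u := by
    intro c u hc
    rw [hv, monoVal_term 𝒱.ht _ _ hs hc]
    change 0 + _ = _
    rw [zero_add]
  obtain ⟨R, hR, hRv⟩ := 𝒱.X.exists_center v
  have hKR := 𝒱.K_le_center hvK hR hRv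
  obtain ⟨m, c, u', hm, hc, hterm⟩ := 𝒟.exists_term hR
  obtain ⟨x, hx⟩ : ∃ x, 𝒱.X.IsValue v 𝒜.E x := 𝒜.qc.exists_value v
  have h1 := 𝒟.value_eq hR hRv hm hc hterm hx
  have h2 := 𝒜.lc_hor w hs x hx
  have hm0 : (0 : ℚ) < m := by exact_mod_cast hm
  have hM0 : (0 : ℚ) < 𝒟.M := by exact_mod_cast 𝒟.M_pos
  -- the value of the polynomial
  have h3 : (v (ev K t 𝒟.φ) : ℚ) ≤ -((v (c • mono t u') : ℚ) / m) := by
    have h4 := mul_le_mul_of_nonneg_left h2 hM0.le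
    linarith
  -- nonnegativity
  obtain ⟨n, hn, z, hz⟩ := exists_int_multiple u
  have hn0 : (0 : ℚ) < n := by exact_mod_cast hn
  have hne : c • mono t u' ≠ 0 := smul_ne_zero hc (𝒱.ht.mono_ne u')
  have h5 : 0 ≤ v (mono t z ^ m * (c • mono t u') ^ n) := by
    apply ProjVar.val_nonneg hR hRv
    intro P hP hRP
    rw [DVal.map_mul _ (pow_ne_zero _ (𝒱.ht.mono_ne z)) (pow_ne_zero _ hne), DVal.map_pow,
      DVal.map_pow]
    have h6 := hterm ⟨P, hP⟩ hRP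
    have h7 : (0 : ℚ) ≤ ((m * P (mono t z) + n * P (c • mono t u') : ℤ) : ℚ) := by
      push_cast
      change (P (c • mono t u') : ℚ) = _ at h6
      rw [h6]
      rcases 𝒱.tricho P hP with hni | ⟨i, hi⟩ | ⟨j, hj⟩
      · have h8 := term_eq_zero 𝒱.stable hP hni 1 z
        rw [one_smul] at h8
        rw [h8, 𝒟.red.inv ⟨P, hP⟩ hni]
        simp
      · have h8 := 𝒱.hor_term i (one_ne_zero : (1 : K) ≠ 0) z
        rw [one_smul] at h8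
        subst hi
        rw [h8, ipair_cast, ← hz, map_smul, smul_eq_mul]
        have h9 := 𝒟.hor_D hu (i := i)
        have h10 : (0 : ℚ) ≤ m * n := by positivity
        have h11 := mul_nonneg h10 h9
        linarith
      · exfalso
        obtain ⟨a, ha⟩ := j.2.2
        rw [hj] at ha
        have h8 := hRP (hKR a)
        have h9 := hRP (hKR a⁻¹)
        rw [DVal.mem_ring] at h8 h9
        rw [map_inv₀, DVal.map_inv] at h9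
        omega
    exact_mod_cast h7
  rw [DVal.map_mul _ (pow_ne_zero _ (𝒱.ht.mono_ne z)) (pow_ne_zero _ hne), DVal.map_pow,
    DVal.map_pow] at h5
  have h6 : v (mono t z) = ipair w z := by
    have := hvt 1 z one_ne_zero
    rwa [one_smul] at this
  have h7 : (0 : ℚ) ≤ (m * v (mono t z) + n * v (c • mono t u') : ℤ) := by exact_mod_cast h5
  rw [h6] at h7
  push_cast at h7
  rw [ipair_cast, ← hz, map_smul, smul_eq_mul] at h7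
  have h8 : -((v (c • mono t u') : ℚ) / m) ≤ pairL w u := by
    rw [neg_le, ← sub_nonneg]
    have h9 : (v (c • mono t u') : ℚ) / m - -pairL w u =
        (m * (n * pairL w u) + n * v (c • mono t u')) / (m * n) := by
      field_simp
      ring
    rw [h9]
    positivity
  -- the minimum
  obtain ⟨b, hb, h9⟩ := exists_gaussN (v := ZVal.trivial k K) (w := w) 𝒟.φ_ne
  refine ⟨b, 𝒟.mem_S.2 hb, ?_⟩
  have h10 : v (ev K t 𝒟.φ) = ipair w b := by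
    rw [hv, monoVal_ev 𝒱.ht _ _ hs 𝒟.φ_ne, h9]
    change 0 + _ = _
    rw [zero_add]
  rw [h10, ipair_cast] at h3
  exact h3.trans h8

/-- The polytope is contained in the Newton polytope. -/
lemma exists_vert {u : Fin r → ℚ} (hu : 𝒟.InQ u) : ∃ τ, τ ∈ verts 𝒟.S u :=
  exists_conv 𝒟.S 𝒟.S_nonempty u fun w hw => 𝒟.le_hor hu w hw

/-- Effectivity. -/
lemma eff {u : Fin r → ℚ} {τ : (Fin r → ℤ) → ℚ} (hτ : τ ∈ verts 𝒟.S u) (j : 𝒱.JJ) :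
    (mult j : ℚ) * (𝒟.M * (𝒜.KZ (base j) + 𝒜.ΔZ (base j)) -
      ∑ b ∈ 𝒟.S, τ b * (base j).1 (𝒟.φ b)) ≤
      pairL (wvec j.1 t) u + 𝒟.red.D ⟨j.1, j.2.1⟩ := by
  obtain ⟨h1, h2, h3, h4, -⟩ := hτ
  have hM0 : (0 : ℚ) < 𝒟.M := by exact_mod_cast 𝒟.M_pos
  have hj1 : (1 : ℚ) ≤ mult j := by exact_mod_cast mult_pos j
  -- the value of the polynomial
  have h5 : (j.1 (ev K t 𝒟.φ) : ℚ) ≤
      mult j * ∑ b ∈ 𝒟.S, τ b * (base j).1 (𝒟.φ b) + pairL (wvec j.1 t) u := by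
    have h6 : ∀ b ∈ 𝒟.S, (j.1 (ev K t 𝒟.φ) : ℚ) ≤
        mult j * (base j).1 (𝒟.φ b) + pairL (wvec j.1 t) (toQ b) := by
      intro b hb
      have h7 := (𝒱.vert_inv j).le_term 𝒟.φ b (𝒟.mem_S.1 hb)
      rw [𝒱.vert_term j (𝒟.mem_S.1 hb)] at h7
      have h8 : (j.1 (ev K t 𝒟.φ) : ℚ) ≤ ((mult j * (base j).1 (𝒟.φ b) +
          ipair (wvec j.1 t) b : ℤ) : ℚ) := by exact_mod_cast h7
      push_cast at h8
      rw [ipair_cast] at h8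
      exact h8
    calc (j.1 (ev K t 𝒟.φ) : ℚ) = ∑ b ∈ 𝒟.S, τ b * (j.1 (ev K t 𝒟.φ) : ℚ) := by
          rw [← Finset.sum_mul, h3, one_mul]
      _ ≤ ∑ b ∈ 𝒟.S, τ b * (mult j * (base j).1 (𝒟.φ b) + pairL (wvec j.1 t) (toQ b)) :=
          Finset.sum_le_sum fun b hb => mul_le_mul_of_nonneg_left (h6 b hb) (h1 b)
      _ = mult j * ∑ b ∈ 𝒟.S, τ b * (base j).1 (𝒟.φ b) + pairL (wvec j.1 t) u := by
          rw [← h4, map_sum, Finset.mul_sum, ← Finset.sum_add_distrib]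
          refine Finset.sum_congr rfl fun b _ => ?_
          rw [map_smul, smul_eq_mul]
          ring
  have h6 : 𝒟.red.D ⟨j.1, j.2.1⟩ = 𝒟.M * ((mult j * (𝒜.KZ (base j) + 1) - 1) +
      𝒜.Δ ⟨j.1, j.2.1⟩) - j.1 (ev K t 𝒟.φ) := by
    rw [𝒟.red.D_eq]
    change (𝒟.M : ℚ) * 𝒜.E _ - (j.1 𝒟.red.G : ℚ) = _
    rw [𝒟.G_val, 𝒜.E_apply, 𝒜.vert]
    push_cast
    ring
  have h7 := 𝒜.ΔZ_le j
  rw [h6]
  have h8 : (0 : ℚ) ≤ 𝒟.M * (mult j - 1 + 𝒜.Δ ⟨j.1, j.2.1⟩ - mult j * 𝒜.ΔZ (base j)) :=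
    mul_nonneg hM0.le (by linarith)
  linarith

/-- Every point of the polytope is effective. -/
lemma hEff {mη : ℕ} (hmη : 0 < mη) {η : K} (hη : η ≠ 0)
    (h : ∀ Q : 𝒱.QQ, 0 ≤ (Q.1 η : ℚ) + mη * (𝒜.KZ Q + 𝒜.ΔZ Q)) {u : Fin r → ℚ}
    (hu : 𝒟.InQ u) :
    ∃ T : ℕ, 0 < T ∧ ∃ g : K, g ≠ 0 ∧
      g ∈ 𝒱.data.wt ((T : ℚ) • 𝒱.res 𝒟.red.D) ((T : ℚ) • u) := by
  classical
  obtain ⟨τ, hτ⟩ := 𝒟.exists_vert hu
  obtain ⟨q, hq, hqτ⟩ := exists_common_den 𝒟.S τ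
  choose! z hz using hqτ
  have hz0 : ∀ b ∈ 𝒟.S, 0 ≤ z b := by
    intro b hb
    have h1 := hz b hb
    have h2 : (0 : ℚ) ≤ z b := by
      rw [← h1]
      exact mul_nonneg (by positivity) (hτ.1 b)
    exact_mod_cast h2
  have hφb : ∀ b ∈ 𝒟.S, 𝒟.φ b ≠ 0 := fun b hb => 𝒟.mem_S.1 hb
  refine ⟨mη * q, Nat.mul_pos hmη hq,
    η ^ (𝒟.M * q) * ∏ b ∈ 𝒟.S, 𝒟.φ b ^ ((mη : ℤ) * z b), ?_, ?_⟩
  · apply mul_ne_zero (pow_ne_zero _ hη)
    rw [Finset.prod_ne_zero_iff]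
    exact fun b hb => zpow_ne_zero _ (hφb b hb)
  · have hne : ∏ b ∈ 𝒟.S, 𝒟.φ b ^ ((mη : ℤ) * z b) ≠ 0 := by
      rw [Finset.prod_ne_zero_iff]
      exact fun b hb => zpow_ne_zero _ (hφb b hb)
    rw [TData.mem_wt (mul_ne_zero (pow_ne_zero _ hη) hne)]
    have hT0 : (0 : ℚ) ≤ ((mη * q : ℕ) : ℚ) := by positivity
    refine ⟨fun i => ?_, fun j => ?_⟩
    · have h1 := hu i
      have h2 := mul_nonneg hT0 h1
      rw [map_smul, Pi.smul_apply, smul_eq_mul, smul_eq_mul]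
      linarith
    · have h1 := 𝒟.eff hτ j
      have h2 := mul_le_mul_of_nonneg_left h1 hT0
      have h3 : ((base j).1 (η ^ (𝒟.M * q) * ∏ b ∈ 𝒟.S, 𝒟.φ b ^ ((mη : ℤ) * z b)) : ℚ) =
          (𝒟.M * q) * (base j).1 η + (mη * q) * ∑ b ∈ 𝒟.S, τ b * (base j).1 (𝒟.φ b) := by
        rw [DVal.map_mul _ (pow_ne_zero _ hη) hne, DVal.map_pow, DVal.map_prod _ _ _ (fun b hb =>
          zpow_ne_zero _ (hφb b hb))]
        push_cast
        congr 1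
        rw [Finset.mul_sum]
        refine Finset.sum_congr rfl fun b hb => ?_
        rw [DVal.map_zpow]
        push_cast
        rw [← hz b hb]
        ring
      have h4 := h (base j)
      have hj0 : (0 : ℚ) ≤ mult j := by positivity
      change 0 ≤ (mult j : ℚ) * ((base j).1 _ : ℚ) +
        (pairL (wvec j.1 t) _ + (((mη * q : ℕ) : ℚ) • 𝒱.res 𝒟.red.D) (Sum.inr j))
      rw [h3, map_smul, Pi.smul_apply, smul_eq_mul, smul_eq_mul]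
      change 0 ≤ (mult j : ℚ) * _ + (((mη * q : ℕ) : ℚ) * pairL (wvec j.1 t) u +
        ((mη * q : ℕ) : ℚ) * 𝒟.red.D ⟨j.1, j.2.1⟩)
      have h5 : (0 : ℚ) ≤ mult j * ((𝒟.M * q) * ((base j).1 η +
          mη * (𝒜.KZ (base j) + 𝒜.ΔZ (base j)))) :=
        mul_nonneg hj0 (mul_nonneg (by positivity) h4)
      push_cast at h2 ⊢
      linarith

end Data

end Adj

end TV

end Pool.Agent.Helper92.Weak
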