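import Pool.Agent.Helper92.Weak.Compare

set_option autoImplicit false
set_option linter.unusedSectionVars false

/-! The Kodaira dimension of the restriction of a divisor to the generic fibre. -/

namespace Pool.Agent.Helper92.Weak

open Filter

namespace ProjVar

variable {k L : Type*} [Field k] [Field L] [Algebra k L] (X : ProjVar k L)
  (K : Type*) [Field K] [Algebra K L]

lemma genh0_le (D : X.Div) : X.genh0 K D ≤ sdim (X.genH0 K D) := by
  unfold genh0
  split_ifs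
  · exact le_rfl
  · exact zero_le

end ProjVar

lemma kodDim_one : kodDim (fun _ => 1) = 0 := by
  unfold kodDim
  rw [if_neg (by push Not; exact ⟨1, le_rfl, one_ne_zero⟩)]
  have h : {x : EReal | ∃ k : ℕ, x = (k : EReal) ∧
      0 < limsup (fun m : ℕ => (((1 : ℕ∞) : ENNReal)) / (m : ENNReal) ^ k) atTop} = {0} := by
    ext x
    rw [Set.mem_ofPred_eq, Set.mem_singleton_iff]
    constructor
    · rintro ⟨k, rfl, hk⟩
      rcases Nat.eq_zero_or_pos k with h | h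
      · rw [h]; simp
      · exfalso
        have h1 : Tendsto (fun m : ℕ => ((1 : ℕ∞) : ENNReal) / (m : ENNReal) ^ k) atTop
            (nhds 0) := by
          have h2 : ∀ m : ℕ, ((1 : ℕ∞) : ENNReal) / (m : ENNReal) ^ k = ((m : ENNReal)⁻¹) ^ k := by
            intro m
            rw [ENat.toENNReal_one, one_div, ENNReal.inv_pow]
          simp_rw [h2]
          have h3 := ENNReal.Tendsto.pow (n := k) ENNReal.tendsto_inv_nat_nhds_zero
          rwa [zero_pow h.ne'] at h3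
        rw [h1.limsup_eq] at hk
        exact lt_irrefl _ hk
    · rintro rfl
      refine ⟨0, by simp, ?_⟩
      simp
  rw [h, sSup_singleton]

section data

variable {k K : Type*} [Field k] [Field K] [Algebra k K] {r : ℕ} {Q H J : Type*}

/-- The data of the generic fibre. -/
def TData.gen (𝒯 : TData k K r Q H J) : TData K K r Empty H Empty where
  ord q := q.elim
  ρ := 𝒯.ρ
  base j := j
  e j := j.elim
  e_pos j := j.elim
  w j := j.elim
  base_surj q := q.elim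
  fib q := q.elim
  special := Set.toFinite _
  complete := 𝒯.complete

/-- The divisor on the generic fibre. -/
def genD (D : H ⊕ J → ℚ) : H ⊕ Empty → ℚ := Sum.elim (fun i => D (Sum.inl i)) fun j => j.elim

/-- The auxiliary data of the generic fibre. -/
def Geom.gen {𝒯 : TData k K r Q H J} {D : H ⊕ J → ℚ} (𝒢 : Geom 𝒯 D) :
    Geom 𝒯.gen (genD D) where
  u₀ := 𝒢.u₀
  s := 𝒢.s
  t := 𝒢.t
  b := 𝒢.b
  h0 := 𝒢.h0
  haff := 𝒢.haff
  ε := 𝒢.ε
  ε_pos := 𝒢.ε_pos
  hε₁ := 𝒢.hε₁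
  hε₂ := 𝒢.hε₂
  hbd := 𝒢.hbd
  T := 𝒢.T
  T_pos := 𝒢.T_pos
  g₀ := 1
  g₀_ne := one_ne_zero
  g₀_mem := by
    rw [TData.mem_wt one_ne_zero]
    refine ⟨fun i => ?_, fun j => j.elim⟩
    have h1 := 𝒢.h0 i
    have h3 : (0 : ℚ) ≤ 𝒢.T := by positivity
    have h4 := mul_nonneg h3 h1
    rw [map_smul, Pi.smul_apply, smul_eq_mul, smul_eq_mul]
    change 0 ≤ 𝒢.T * pairL (𝒯.ρ i) 𝒢.u₀ + 𝒢.T * D (Sum.inl i)
    linarith
  g₁ _ := 1
  g₁_ne _ := one_ne_zero
  g₁_mem l := by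
    rw [TData.mem_wt one_ne_zero]
    refine ⟨fun i => ?_, fun j => j.elim⟩
    have h1 := 𝒢.hε₁ l i
    have h3 : (0 : ℚ) ≤ 𝒢.T := by positivity
    have h4 := mul_nonneg h3 h1
    rw [map_smul, Pi.smul_apply, smul_eq_mul, smul_eq_mul]
    change 0 ≤ 𝒢.T * pairL (𝒯.ρ i) (𝒢.u₀ + 𝒢.ε • 𝒢.b (Sum.inl l)) + 𝒢.T * D (Sum.inl i)
    linarith
  g₂ _ := 1
  g₂_ne _ := one_ne_zero
  g₂_mem l := by
    rw [TData.mem_wt one_ne_zero]
    refine ⟨fun i => ?_, fun j => j.elim⟩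
    have h1 := 𝒢.hε₂ l i
    have h3 : (0 : ℚ) ≤ 𝒢.T := by positivity
    have h4 := mul_nonneg h3 h1
    rw [map_smul, Pi.smul_apply, smul_eq_mul, smul_eq_mul]
    change 0 ≤ 𝒢.T * pairL (𝒯.ρ i) (𝒢.u₀ - 𝒢.ε • 𝒢.b (Sum.inl l)) + 𝒢.T * D (Sum.inl i)
    linarith
  int₀ := 𝒢.int₀
  int₁ := 𝒢.int₁
  int_low q := q.elim

lemma sdim_top : sdim (⊤ : Submodule K K) = 1 := by
  unfold sdim
  rw [rank_top]
  simp

lemma sec_empty (G : Empty → ℚ) (ord : Empty → DVal K K) : sec ord G = ⊤ := by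
  rw [eq_top_iff]
  intro f _
  rw [mem_sec]
  exact fun q => q.elim

end data

namespace TV

variable {k K L : Type*} [Field k] [Field K] [Field L] [Algebra k K] [Algebra k L] [Algebra K L]
  [IsScalarTower k K L] {r : ℕ} {t : Fin r → L} (𝒱 : TV k K t) [IsAlgClosed k] [CharZero k]

lemma gen_mem_iff {D : 𝒱.X.primeDivisors → ℚ} (hD : 𝒱.InvDiv D) (h : (Fin r → ℤ) →₀ K) :
    ev K t h ∈ sec (fun P : 𝒱.X.GenDivisor K => P.1.1.over K P.2) (fun P => D P.1) ↔
      h ∈ 𝒱.data.gen.secT (genD (𝒱.res D)) := by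
  rw [mem_sec, TData.mem_secT]
  constructor
  · intro hs u
    by_cases hu : h u = 0
    · rw [hu]; exact Submodule.zero_mem _
    have hev : ev K t h ≠ 0 := by
      intro h0
      have : h = 0 := ev_injective 𝒱.ht (by rw [h0, map_zero])
      rw [this] at hu
      exact hu rfl
    rw [TData.mem_wt hu]
    refine ⟨fun i => ?_, fun j => j.elim⟩
    have h1 := hs ⟨⟨i.1, i.2.1⟩, i.2.2.2⟩
    rw [DVal.ge_iff hev] at h1
    have h2 := i.2.2.1.le_term h u hu
    rw [𝒱.hor_term i hu] at h2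
    have h3 : (i.1 (ev K t h) : ℚ) ≤ ipair (wvec i.1 t) u := by exact_mod_cast h2
    rw [ipair_cast] at h3
    change 0 ≤ pairL (wvec i.1 t) (fun l => (u l : ℚ)) + D ⟨i.1, i.2.1⟩
    change -(D ⟨i.1, i.2.1⟩) ≤ (i.1 (ev K t h) : ℚ) at h1
    linarith
  · intro hs P
    rw [ev_apply]
    apply DVal.Ge.sum
    intro u hu
    have hu' : h u ≠ 0 := Finsupp.mem_support_iff.1 hu
    have hne : h u • mono t u ≠ 0 := smul_ne_zero hu' (𝒱.ht.mono_ne u)
    have h1 := hs u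
    rw [TData.mem_wt hu'] at h1
    rw [DVal.ge_iff hne]
    change -(D P.1) ≤ (P.1.1 (h u • mono t u) : ℚ)
    rcases 𝒱.tricho P.1.1 P.1.2 with hni | ⟨i, hi⟩ | ⟨j, hj⟩
    · rw [hD P.1 hni, term_eq_zero 𝒱.stable P.1.2 hni]
      simp
    · have h2 := h1.1 i
      have h3 := 𝒱.hor_term i hu' u
      have h4 : P.1 = ⟨i.1, i.2.1⟩ := Subtype.ext hi.symm
      rw [h4]
      change -(D ⟨i.1, i.2.1⟩) ≤ (i.1 (h u • mono t u) : ℚ)
      rw [h3, ipair_cast]
      change 0 ≤ pairL (wvec i.1 t) (fun l => (u l : ℚ)) + D ⟨i.1, i.2.1⟩ at h2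
      linarith
    · exfalso
      obtain ⟨a, ha⟩ := j.2.2
      rw [hj] at ha
      exact ha (P.2 a)

lemma gen_exists_ev {D : 𝒱.X.primeDivisors → ℚ} (hD : 𝒱.InvDiv D) {z : L}
    (hz : z ∈ sec (fun P : 𝒱.X.GenDivisor K => P.1.1.over K P.2) (fun P => D P.1)) :
    ∃ f : (Fin r → ℤ) →₀ K, z = ev K t f := by
  apply exists_ev_of_nonneg 𝒱.fgK 𝒱.stable
  intro P hP hni
  rw [mem_sec] at hz
  have hPK : ∀ a : K, P (algebraMap K L a) = 0 := by
    intro a
    by_contra h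
    exact hni (isInv_of_algebraMap 𝒱.stable hP h)
  have h1 := hz ⟨⟨P, hP⟩, hPK⟩
  rw [hD _ hni, neg_zero] at h1
  have h2 : P.Ge 0 z := h1
  exact (P.mem_ring_iff_ge).2 h2

/-- The dimension of the space of sections on the generic fibre. -/
theorem gen_sdim {D : 𝒱.X.primeDivisors → ℚ} (hD : 𝒱.InvDiv D) :
    sdim (sec (fun P : 𝒱.X.GenDivisor K => P.1.1.over K P.2) (fun P => D P.1)) =
      sdim (𝒱.data.gen.secT (genD (𝒱.res D))) := by
  apply le_antisymm
  · choose φ hφ using fun z : sec (fun P : 𝒱.X.GenDivisor K => P.1.1.over K P.2)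
      (fun P => D P.1) => 𝒱.gen_exists_ev hD z.2
    have hinj := ev_injective 𝒱.ht
    let F : sec (fun P : 𝒱.X.GenDivisor K => P.1.1.over K P.2) (fun P => D P.1) →ₗ[K]
        𝒱.data.gen.secT (genD (𝒱.res D)) :=
      { toFun := fun z => ⟨φ z, by
          rw [← 𝒱.gen_mem_iff hD, ← hφ]; exact z.2⟩
        map_add' := fun a b => by
          apply Subtype.ext
          apply hinj
          change ev K t (φ (a + b)) = ev K t (φ a + φ b)
          rw [map_add, ← hφ, ← hφ, ← hφ]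
          rfl
        map_smul' := fun c a => by
          apply Subtype.ext
          apply hinj
          change ev K t (φ (c • a)) = ev K t (c • φ a)
          rw [← hφ, map_smul, ← hφ]
          rfl }
    apply sdim_le_of_injective F
    intro a b hab
    apply Subtype.ext
    rw [hφ a, hφ b]
    exact congrArg (fun x => ev K t x.1) hab
  · let F : 𝒱.data.gen.secT (genD (𝒱.res D)) →ₗ[K]
        sec (fun P : 𝒱.X.GenDivisor K => P.1.1.over K P.2) (fun P => D P.1) :=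
      { toFun := fun h => ⟨ev K t h.1, by rw [𝒱.gen_mem_iff hD]; exact h.2⟩
        map_add' := fun a b => by
          apply Subtype.ext
          change ev K t (a.1 + b.1) = _
          rw [map_add]
          rfl
        map_smul' := fun c a => by
          apply Subtype.ext
          change ev K t (c • a.1) = _
          rw [map_smul]
          rfl }
    apply sdim_le_of_injective F
    intro a b hab
    apply Subtype.ext
    exact ev_injective 𝒱.ht (congrArg Subtype.val hab)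

variable {𝒱}

lemma genD_smul (D : 𝒱.HH ⊕ 𝒱.JJ → ℚ) (c : ℚ) : genD (c • D) = c • genD D := by
  funext x
  cases x with
  | inl i => rfl
  | inr j => exact j.elim

lemma gen_smul {E : 𝒱.X.Div} (n : ℕ) : 𝒱.X.genH0 K ((n : ℚ) • E) =
    sec (fun P : 𝒱.X.GenDivisor K => P.1.1.over K P.2) ((n : ℚ) • fun P => E P.1) := rfl

/-- Multiples of `M E` on the generic fibre. -/
lemma Red.gen_exact {E : 𝒱.X.Div} (R : 𝒱.Red E) (n : ℕ) :
    sdim (𝒱.X.genH0 K (((R.M * n : ℕ) : ℚ) • E)) =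
      sdim (𝒱.data.gen.secT ((n : ℚ) • genD (𝒱.res R.D))) := by
  have hinv : 𝒱.InvDiv ((n : ℚ) • R.D) := by
    intro P hP
    rw [Pi.smul_apply, R.inv P hP, smul_zero]
  rw [← genD_smul, ← 𝒱.res_smul, ← 𝒱.gen_sdim hinv]
  apply le_antisymm
  · apply sdim_sec_le (R.G ^ n) (pow_ne_zero _ R.G_ne)
    intro P
    change (((R.M * n : ℕ) : ℚ) • E) P.1 ≤ ((n : ℚ) • R.D) P.1 + (P.1.1 (R.G ^ n) : ℚ)
    rw [DVal.map_pow, Pi.smul_apply, R.D_eq, Finsupp.smul_apply, smul_eq_mul, smul_eq_mul]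
    push_cast
    linarith
  · apply sdim_sec_le (R.G ^ n)⁻¹ (inv_ne_zero (pow_ne_zero _ R.G_ne))
    intro P
    change ((n : ℚ) • R.D) P.1 ≤ (((R.M * n : ℕ) : ℚ) • E) P.1 + (P.1.1 (R.G ^ n)⁻¹ : ℚ)
    rw [DVal.map_inv, DVal.map_pow, Pi.smul_apply, R.D_eq, Finsupp.smul_apply, smul_eq_mul,
      smul_eq_mul]
    push_cast
    linarith

variable [Fintype 𝒱.HH]

/-- The Kodaira dimension on the generic fibre. -/
theorem genKod_eq {E : 𝒱.X.Div} (R : 𝒱.Red E) (𝒢 : Geom 𝒱.data (𝒱.res R.D)) :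
    𝒱.X.genKod K E = 𝒢.s := by
  classical
  obtain ⟨C, a, c₀, ha, hup⟩ := kappa_upper 𝒢.gen
  obtain ⟨c, hc⟩ := exists_mult_bound (ord := fun P : 𝒱.X.GenDivisor K => P.1.1.over K P.2)
    (fun P => E P.1) R.M R.M_pos
  unfold ProjVar.genKod
  have key : kodDim (fun m => 𝒱.X.genh0 K ((m : ℚ) • E)) =
      (𝒢.s : EReal) + kodDim (fun _ => 1) := by
    apply kodDim_eq (C := C * (1 + c) ^ 𝒢.s) (a := a) (c := c + c₀)
      (a' := R.M * ((𝒢.s + 1) * 𝒢.T)) (φ := fun m => a * (m + (c + c₀)))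
    · exact Nat.mul_pos R.M_pos (Nat.mul_pos (Nat.succ_pos _) 𝒢.T_pos)
    · apply tendsto_atTop_mono (f := fun m => m)
      · intro m
        calc m ≤ m + (c + c₀) := Nat.le_add_right _ _
          _ ≤ a * (m + (c + c₀)) := Nat.le_mul_of_pos_left _ ha
      · exact tendsto_id
    · intro m; exact le_rfl
    · intro m hm _
      exact Nat.mul_pos ha (by omega)
    · intro m hm
      obtain ⟨n, hn1, hnm, hn2⟩ := hc m hm
      have h1 : 𝒱.X.genh0 K ((m : ℚ) • E) ≤ C * (n : ℕ∞) ^ 𝒢.s := by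
        refine (𝒱.X.genh0_le K _).trans ?_
        have h2 := hup n hn1
        rw [sec_empty, sdim_top, mul_one] at h2
        refine le_trans ?_ h2
        rw [← R.gen_exact n]
        exact hn2
      have h3 : (n : ℕ∞) ^ 𝒢.s ≤ (1 + c) ^ 𝒢.s * (m : ℕ∞) ^ 𝒢.s := by
        rw [← mul_pow]
        gcongr
        have h4 : n ≤ (1 + c) * m := by nlinarith
        exact_mod_cast h4
      refine h1.trans ?_
      calc C * (n : ℕ∞) ^ 𝒢.s ≤ C * ((1 + c) ^ 𝒢.s * (m : ℕ∞) ^ 𝒢.s) := by gcongr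
        _ = _ := by push_cast; ring
    · intro n _
      have h1 := Weak.lower 𝒢.gen (fun _ => 0) n
      rw [sec_empty, sdim_top] at h1
      have h2 : ∀ P : 𝒱.X.GenDivisor K, ∃ z : ℤ,
          ((((R.M * ((𝒢.s + 1) * 𝒢.T)) * n : ℕ) : ℚ) • E) P.1 = z := by
        intro P
        obtain ⟨z, hz⟩ := R.int P.1
        refine ⟨(((𝒢.s + 1) * 𝒢.T) * n : ℕ) * z, ?_⟩
        rw [Finsupp.smul_apply, smul_eq_mul] at hz ⊢
        push_cast
        rw [← hz]
        ring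
      have h3 : 𝒱.X.genh0 K ((((R.M * ((𝒢.s + 1) * 𝒢.T)) * n : ℕ) : ℚ) • E) =
          sdim (𝒱.X.genH0 K ((((R.M * ((𝒢.s + 1) * 𝒢.T)) * n : ℕ) : ℚ) • E)) := by
        unfold ProjVar.genh0
        rw [if_pos h2]
      rw [h3, mul_assoc R.M, R.gen_exact]
      have h4 : pull 𝒱.data.gen (fun _ => 0) = 0 := by
        funext x
        cases x with
        | inl i => rfl
        | inr j => exact j.elim
      rw [h4, add_zero] at h1
      exact h1
    · intro j m _ _ _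
      exact one_ne_zero
  rw [key, kodDim_one, add_zero]

/-- The generic fibre, if the polytope is empty. -/
theorem genKod_empty {E : 𝒱.X.Div} (R : 𝒱.Red E)
    (hP : ¬ ∃ u, InP 𝒱.data (𝒱.res R.D) u) : 𝒱.X.genKod K E = ⊥ := by
  classical
  unfold ProjVar.genKod kodDim
  rw [if_pos]
  intro m hm
  by_contra hne
  have h1 : sdim (𝒱.X.genH0 K ((m : ℚ) • E)) ≠ 0 := by
    intro h0
    have := 𝒱.X.genh0_le K ((m : ℚ) • E)
    rw [h0] at this
    exact hne (le_antisymm this zero_le)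
  rw [sdim_ne_zero] at h1
  obtain ⟨f, hf, hf0⟩ := h1
  have h2 := pow_mem_sec (ord := fun P : 𝒱.X.GenDivisor K => P.1.1.over K P.2) hf0 hf R.M
  have h4 : sdim (𝒱.X.genH0 K (((R.M * m : ℕ) : ℚ) • E)) ≠ 0 := by
    rw [sdim_ne_zero]
    refine ⟨f ^ R.M, ?_, pow_ne_zero _ hf0⟩
    have h3 : (R.M : ℚ) • (fun P : 𝒱.X.GenDivisor K => (((m : ℚ) • E : 𝒱.X.Div)) P.1) =
        fun P : 𝒱.X.GenDivisor K => (((((R.M * m : ℕ) : ℚ) • E : 𝒱.X.Div))) P.1 := by
      funext q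
      simp only [Pi.smul_apply, Finsupp.smul_apply, smul_eq_mul]
      push_cast
      ring
    rw [h3] at h2
    exact h2
  rw [R.gen_exact, sdim_ne_zero] at h4
  obtain ⟨h, hh, hh0⟩ := h4
  obtain ⟨u, hu⟩ := Finsupp.ne_iff.1 hh0
  rw [Finsupp.zero_apply] at hu
  have h6 := hh u
  rw [TData.mem_wt hu] at h6
  apply hP
  have hm0 : (0 : ℚ) < m := by exact_mod_cast hm
  refine ⟨(m : ℚ)⁻¹ • fun l => (u l : ℚ), fun i => ?_⟩
  have h7 := h6.1 i
  rw [map_smul, smul_eq_mul]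
  rw [Pi.smul_apply, smul_eq_mul] at h7
  change 0 ≤ pairL (𝒱.data.ρ i) (fun l => (u l : ℚ)) + m * 𝒱.res R.D (Sum.inl i) at h7
  have h8 := mul_nonneg (inv_nonneg.2 hm0.le) h7
  rw [mul_add, ← mul_assoc _ (m : ℚ), inv_mul_cancel₀ hm0.ne', one_mul] at h8
  exact h8

end TV

end Pool.Agent.Helper92.Weak
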