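import Pool.Agent.Helper92.Weak.Adj
import Pool.Agent.Helper92.Weak.Gen

set_option autoImplicit false
set_option linter.unusedSectionVars false

/-! The comparison theorem for adjoint divisors. -/

namespace Pool.Agent.Helper92.Weak

open MvPolynomial

lemma ProjVar.prin_zpow {k L : Type*} [Field k] [Field L] [Algebra k L] (X : ProjVar k L) (f : L)
    (n : ℤ) : X.prin (f ^ n) = (n : ℚ) • X.prin f := by
  ext P
  rw [Finsupp.smul_apply, ProjVar.prin_apply, ProjVar.prin_apply, DVal.map_zpow, smul_eq_mul]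
  push_cast
  rfl

lemma ProjVar.prin_prod {k L : Type*} [Field k] [Field L] [Algebra k L] (X : ProjVar k L)
    {ι : Type*} (s : Finset ι) (f : ι → L) (hf : ∀ i ∈ s, f i ≠ 0) :
    X.prin (∏ i ∈ s, f i) = ∑ i ∈ s, X.prin (f i) := by
  ext P
  rw [ProjVar.prin_apply, DVal.map_prod _ _ _ hf, Finsupp.finsetSum_apply]
  push_cast
  rfl

namespace TV

variable {k K L : Type*} [Field k] [Field K] [Field L] [Algebra k K] [Algebra k L] [Algebra K L]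
  [IsScalarTower k K L] {r : ℕ} {t : Fin r → L} {𝒱 : TV k K t} [IsAlgClosed k] [CharZero k]
  {A : DVal k K → ℤ → Prop} {𝒜 : 𝒱.Adj A} (𝒟 : 𝒜.Data)

namespace Adj.Data

/-- Comparison along vertical valuations. -/
lemma le_vert {v₀ : DVal k K} {a : ℤ} (hA : A v₀ a) {u₀ : Fin r → ℚ} (hu : 𝒟.InQ u₀) {T : ℕ}
    (hT : 0 < T) {z : Fin r → ℤ} (hz : (T : ℚ) • u₀ = fun l => (z l : ℚ)) {DZ : 𝒱.Z.Div}
    (hDZ : ∀ q, DZ q = T * 𝒱.data.low (𝒱.res 𝒟.red.D) u₀ q) {d : ℚ}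
    (hd : 𝒱.Z.IsValue v₀ DZ d) {e : ℕ} (he : 0 < e) {w : Fin r → ℤ}
    (hw : ∃ (n : ℤ) (a : Fin r → ℤ), n * e + ipair w a = 1) :
    ∃ b ∈ 𝒟.S, (e : ℚ) * v₀ (𝒟.φ b) + pairL w (toQ b) ≤
      e * (𝒟.M * (a + 1) - d / T) + pairL w u₀ := by
  obtain ⟨p, hp0, hp⟩ := v₀.exists_uniformizer
  have hs : ∃ (c : K) (u : Fin r → ℤ), c ≠ 0 ∧ ZVal.ofDVal e v₀ c + ipair w u = 1 := by
    obtain ⟨n, a, hna⟩ := hw
    refine ⟨p ^ n, a, zpow_ne_zero _ hp0, ?_⟩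
    change (e : ℤ) * v₀ (p ^ n) + _ = 1
    rw [DVal.map_zpow, hp, mul_one]
    linarith
  set v := monoVal 𝒱.ht (ZVal.ofDVal e v₀) w hs with hv
  have hvK : ∀ a : K, v (algebraMap K L a) = e * v₀ a := fun a =>
    monoVal_algebraMap 𝒱.ht _ _ hs a
  have hvt : ∀ (c : K) (u : Fin r → ℤ), c ≠ 0 → v (c • mono t u) = e * v₀ c + ipair w u := by
    intro c u hc
    rw [hv, monoVal_term 𝒱.ht _ _ hs hc]
    rfl
  have he0 : (0 : ℤ) < e := by exact_mod_cast he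
  obtain ⟨R, hR, hRv⟩ := 𝒱.X.exists_center v
  obtain ⟨S₁, hS₁, hS₁R⟩ := 𝒱.mor R hR
  have hS₁v : Dominates S₁ v₀.ring := by
    constructor
    · intro x hx
      have h1 := hRv.1 (hS₁R.1 x hx)
      rw [DVal.mem_ring, hvK] at h1
      rw [DVal.mem_ring]
      by_contra hneg
      push Not at hneg
      have := mul_neg_of_pos_of_neg he0 hneg
      omega
    · intro x hx hx'
      apply hS₁R.2 x hx
      apply hRv.2 _ (hS₁R.1 x hx)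
      rw [DVal.mem_ring] at hx' ⊢
      rw [← map_inv₀, hvK]
      positivity
  obtain ⟨S₂, hS₂, hS₂v, m', h, hm', ⟨hh0, hh⟩, rfl⟩ := hd
  have hSS : S₁ = S₂ := 𝒱.Z.separated hS₁ hS₂ hS₁v hS₂v
  subst hSS
  obtain ⟨m, c, u', hm, hc, hterm⟩ := 𝒟.exists_term hR
  obtain ⟨x, hx⟩ : ∃ x, 𝒱.X.IsValue v 𝒜.E x := 𝒜.qc.exists_value v
  have h1 := 𝒟.value_eq hR hRv hm hc hterm hx
  have h2 := 𝒜.lc_vert v₀ a hA e w hs x he hx
  change x ≤ (v 𝒜.g : ℚ) + e * (a + 1) at h2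
  have hm0 : (0 : ℚ) < m := by exact_mod_cast hm
  have hm0' : (0 : ℚ) < m' := by exact_mod_cast hm'
  have hT0 : (0 : ℚ) < T := by exact_mod_cast hT
  have hM0 : (0 : ℚ) < 𝒟.M := by exact_mod_cast 𝒟.M_pos
  -- the value of the polynomial
  have h3 : (v (ev K t 𝒟.φ) : ℚ) ≤ 𝒟.M * (e * (a + 1)) - (v (c • mono t u') : ℚ) / m := by
    have h4 := mul_le_mul_of_nonneg_left h2 hM0.le
    linarith
  -- nonnegativity
  have hne : c • mono t u' ≠ 0 := smul_ne_zero hc (𝒱.ht.mono_ne u')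
  have hhL : algebraMap K L h ≠ 0 := by simpa using hh0
  have hne2 : (algebraMap K L h ^ m)⁻¹ ≠ 0 := inv_ne_zero (pow_ne_zero _ hhL)
  have hne1 : mono t z ^ (m * m') * (c • mono t u') ^ (m' * T) ≠ 0 :=
    mul_ne_zero (pow_ne_zero _ (𝒱.ht.mono_ne z)) (pow_ne_zero _ hne)
  have hexp : ∀ P : DVal k L, P (mono t z ^ (m * m') * (c • mono t u') ^ (m' * T) *
      (algebraMap K L h ^ m)⁻¹) = (m * m') * P (mono t z) + (m' * T) * P (c • mono t u') -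
        m * P (algebraMap K L h) := by
    intro P
    rw [DVal.map_mul _ hne1 hne2, DVal.map_mul _ (pow_ne_zero _ (𝒱.ht.mono_ne z))
      (pow_ne_zero _ hne), DVal.map_pow, DVal.map_pow, DVal.map_inv, DVal.map_pow]
    push_cast
    ring
  have h5 : 0 ≤ v (mono t z ^ (m * m') * (c • mono t u') ^ (m' * T) *
      (algebraMap K L h ^ m)⁻¹) := by
    apply ProjVar.val_nonneg hR hRv
    intro P hP hRP
    rw [hexp]
    have h6 := hterm ⟨P, hP⟩ hRP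
    have h7 : (0 : ℚ) ≤ (((m * m') * P (mono t z) + (m' * T) * P (c • mono t u') -
        m * P (algebraMap K L h) : ℤ) : ℚ) := by
      push_cast
      change (P (c • mono t u') : ℚ) = _ at h6
      rw [h6]
      rcases 𝒱.tricho P hP with hni | ⟨i, hi⟩ | ⟨j, hj⟩
      · have h8 := term_eq_zero 𝒱.stable hP hni 1 z
        rw [one_smul] at h8
        have h9 : P (algebraMap K L h) = 0 := by
          by_contra h10
          exact hni (isInv_of_algebraMap 𝒱.stable hP h10)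
        rw [h8, h9, 𝒟.red.inv ⟨P, hP⟩ hni]
        simp
      · have h8 := 𝒱.hor_term i (one_ne_zero : (1 : K) ≠ 0) z
        rw [one_smul] at h8
        subst hi
        rw [h8, ipair_cast, ← hz, map_smul, smul_eq_mul, i.2.2.2 h]
        have h9 := 𝒟.hor_D hu (i := i)
        have h10 : (0 : ℚ) ≤ m * m' * T := by positivity
        have h11 := mul_nonneg h10 h9
        push_cast
        linarith
      · have h8 := 𝒱.vert_term j (one_ne_zero : (1 : K) ≠ 0) z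
        rw [one_smul, DVal.map_one, mul_zero, zero_add] at h8
        subst hj
        rw [h8, ipair_cast, ← hz, map_smul, smul_eq_mul, mult_spec]
        have hSj : S₁ ≤ (base j).1.ring := by
          intro y hy
          have h9 := hRP (hS₁R.1 y hy)
          rw [DVal.mem_ring, mult_spec] at h9
          rw [DVal.mem_ring]
          have h10 : (0 : ℤ) < mult j := by exact_mod_cast mult_pos j
          by_contra hneg
          push Not at hneg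
          have := mul_neg_of_pos_of_neg h10 hneg
          omega
        have h9 := hh (base j) hSj
        rw [Finsupp.smul_apply, smul_eq_mul, hDZ] at h9
        have h10 : (mult j : ℚ) * 𝒱.data.low (𝒱.res 𝒟.red.D) u₀ (base j) ≤
            pairL (wvec j.1 t) u₀ + 𝒟.red.D ⟨j.1, j.2.1⟩ :=
          TData.e_mul_low_le (𝒯 := 𝒱.data) (D := 𝒱.res 𝒟.red.D) (u := u₀) (j := j) rfl
        push_cast
        rw [h9]
        have h11 : (0 : ℚ) ≤ m * m' * T := by positivity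
        have h12 := mul_le_mul_of_nonneg_left h10 h11
        linarith
    exact_mod_cast h7
  rw [hexp, hvK] at h5
  have h6 : v (mono t z) = ipair w z := by
    have := hvt 1 z one_ne_zero
    rw [one_smul, DVal.map_one, mul_zero, zero_add] at this
    exact this
  have h7 : (0 : ℚ) ≤ (((m * m') * v (mono t z) + (m' * T) * v (c • mono t u') -
      m * (e * v₀ h) : ℤ) : ℚ) := by exact_mod_cast h5
  rw [h6] at h7
  push_cast at h7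
  rw [ipair_cast, ← hz, map_smul, smul_eq_mul] at h7
  have h8 : (e : ℚ) * (v₀ h / m') / T ≤ (v (c • mono t u') : ℚ) / m + pairL w u₀ := by
    rw [← sub_nonneg]
    have h9 : (v (c • mono t u') : ℚ) / m + pairL w u₀ - e * (v₀ h / m') / T =
        ((m * m') * (T * pairL w u₀) + (m' * T) * v (c • mono t u') - m * (e * v₀ h)) /
          (m * m' * T) := by
      field_simp
      ring
    rw [h9]
    positivity
  -- the minimum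
  obtain ⟨b, hb, h9⟩ := exists_gaussN (v := ZVal.ofDVal e v₀) (w := w) 𝒟.φ_ne
  refine ⟨b, 𝒟.mem_S.2 hb, ?_⟩
  have h10 : v (ev K t 𝒟.φ) = e * v₀ (𝒟.φ b) + ipair w b := by
    rw [hv, monoVal_ev 𝒱.ht _ _ hs 𝒟.φ_ne, h9]
    rfl
  rw [h10] at h3
  push_cast at h3
  rw [ipair_cast] at h3
  change (e : ℚ) * v₀ (𝒟.φ b) + pairL w (fun l => (b l : ℚ)) ≤ _
  have h11 : (e : ℚ) * (𝒟.M * (a + 1) - v₀ h / m' / T) =
      𝒟.M * (e * (a + 1)) - e * (v₀ h / m') / T := by ring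
  rw [h11]
  linarith

end Adj.Data

variable (𝒜)

/-- The comparison theorem for adjoint divisors. -/
theorem adj_main (hQF : 𝒱.Z.IsQFactorial) {mη : ℕ} (hmη : 0 < mη) {η : K} (hη : η ≠ 0)
    (hηKZ : ∀ Q : 𝒱.QQ, 0 ≤ (Q.1 η : ℚ) + mη * (𝒜.KZ Q + 𝒜.ΔZ Q)) :
    (𝒱.X.genKod K 𝒜.E = ⊥ ∧ 𝒱.X.kod 𝒜.E = ⊥ ∧ 𝒱.X.nu 𝒜.E = ⊥) ∨
    ∃ (s N : ℕ) (𝔅 : Set 𝒱.Z.Div), s ≤ r ∧ 𝒱.X.genKod K 𝒜.E = s ∧ 0 < N ∧ 𝔅.Finite ∧ 𝔅.Nonempty ∧
      (∀ B ∈ 𝔅, 𝒱.Z.IsInt B ∧ ∀ Q, N * 𝒜.ΔZ Q ≤ B Q) ∧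
      (∀ B ∈ 𝔅, ∀ B' ∈ 𝔅, ∃ ψ : K, ψ ≠ 0 ∧ B' = B + 𝒱.Z.prin ψ) ∧
      (∀ (v₀ : DVal k K) (a : ℤ) (κ : ℚ), A v₀ a → 𝒱.Z.IsValue v₀ 𝒜.KZ κ →
        ∃ B ∈ 𝔅, ∀ c, 𝒱.Z.IsValue v₀ B c → c ≤ N * (1 + a - κ)) ∧
      ∀ B ∈ 𝔅, 𝒱.X.kod 𝒜.E = s + 𝒱.Z.kod ((N : ℚ) • 𝒜.KZ + B) ∧
        𝒱.X.nu 𝒜.E = s + 𝒱.Z.nu ((N : ℚ) • 𝒜.KZ + B) := by
  classical
  have : Finite 𝒱.HH := 𝒱.hor_finite
  let _ : Fintype 𝒱.HH := Fintype.ofFinite _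
  obtain ⟨𝒟⟩ := 𝒜.exists_data
  by_cases hP : ∃ u, InP 𝒱.data (𝒱.res 𝒟.red.D) u
  swap
  · exact Or.inl ⟨genKod_empty 𝒟.red hP, empty_case 𝒟.red hP⟩
  right
  obtain ⟨u₀, hu₀, hG⟩ := exists_geom 𝒱.data (𝒱.res 𝒟.red.D) 𝒟.red.finite'
    (fun u hu => 𝒟.hEff hmη hη hηKZ hu) hP
  have hVfin := verts_finite 𝒟.S u₀
  obtain ⟨T₀, hT₀, hTden⟩ := exists_common_den (hVfin.toFinset ×ˢ 𝒟.S) (fun x => x.1 x.2)
  obtain ⟨𝒢, h𝒢u, hT⟩ := hG T₀ hT₀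
  have hTpos : (0 : ℚ) < 𝒢.T := by exact_mod_cast 𝒢.T_pos
  have hTint : ∀ τ ∈ verts 𝒟.S u₀, ∀ b ∈ 𝒟.S, ∃ n : ℤ, (𝒢.T : ℚ) * τ b = n := by
    intro τ hτ b hb
    obtain ⟨z, hz⟩ := hTden (τ, b) (by simp [hτ, hb])
    obtain ⟨q, hq⟩ := hT
    refine ⟨q * z, ?_⟩
    rw [hq]
    push_cast
    rw [← hz]
    ring
  -- the divisor on the base
  have hfin := G₀_finite (𝒱 := 𝒱) 𝒟.red.finite' 𝒢
  let DZ : 𝒱.Z.Div := Finsupp.onFinset hfin.toFinset 𝒢.G₀ (by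
    intro q hq
    rw [Set.Finite.mem_toFinset]
    exact hq)
  have hDZ : ∀ q, DZ q = 𝒢.G₀ q := fun q => rfl
  have hDZ' : ∀ q, DZ q = 𝒢.T * 𝒱.data.low (𝒱.res 𝒟.red.D) u₀ q := by
    intro q
    rw [hDZ, ← h𝒢u]
    rfl
  have hDZint : 𝒱.Z.IsInt DZ := fun q => 𝒢.int_low q
  obtain ⟨z₀, hz₀⟩ := 𝒢.int₀
  rw [h𝒢u] at hz₀
  -- the linear system
  set Bτ : ((Fin r → ℤ) → ℚ) → 𝒱.Z.Div := fun τ =>
    DZ - ((𝒢.T * 𝒟.M : ℕ) : ℚ) • 𝒜.KZ + ∑ b ∈ 𝒟.S, (𝒢.T * τ b) • 𝒱.Z.prin (𝒟.φ b) with hBτ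
  have hφ0 : ∀ b ∈ 𝒟.S, 𝒟.φ b ≠ 0 := fun b hb => 𝒟.mem_S.1 hb
  -- the functions
  have hψ : ∀ τ ∈ verts 𝒟.S u₀, ∃ ψ : K, ψ ≠ 0 ∧
      ∑ b ∈ 𝒟.S, (𝒢.T * τ b) • 𝒱.Z.prin (𝒟.φ b) = 𝒱.Z.prin ψ := by
    intro τ hτ
    choose! n hn using hTint τ hτ
    refine ⟨∏ b ∈ 𝒟.S, 𝒟.φ b ^ n b, ?_, ?_⟩
    · rw [Finset.prod_ne_zero_iff]
      exact fun b hb => zpow_ne_zero _ (hφ0 b hb)
    · rw [𝒱.Z.prin_prod _ _ (fun b hb => zpow_ne_zero _ (hφ0 b hb))]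
      refine Finset.sum_congr rfl fun b hb => ?_
      rw [𝒱.Z.prin_zpow, hn b hb]
  refine ⟨𝒢.s, 𝒢.T * 𝒟.M, Bτ '' verts 𝒟.S u₀, ?_, genKod_eq 𝒟.red 𝒢, Nat.mul_pos 𝒢.T_pos 𝒟.M_pos,
    hVfin.image _, Set.Nonempty.image _ (𝒟.exists_vert hu₀), ?_, ?_, ?_, ?_⟩
  · -- `s ≤ r`
    have h1 := Module.finrank_eq_card_basis 𝒢.b
    rw [Module.finrank_fin_fun, Fintype.card_sum, Fintype.card_fin, Fintype.card_fin] at h1
    omega
  · -- effectivity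
    rintro _ ⟨τ, hτ, rfl⟩
    constructor
    · obtain ⟨ψ, hψ0, hψ1⟩ := hψ τ hτ
      simp only [hBτ]
      rw [hψ1]
      exact (hDZint.sub (𝒜.KZ_int.nsmul _)).add (𝒱.Z.isInt_prin ψ)
    · intro Q
      simp only [hBτ]
      rw [Finsupp.add_apply, Finsupp.sub_apply, Finsupp.smul_apply, Finsupp.finsetSum_apply,
        hDZ', smul_eq_mul]
      have h1 : 𝒟.M * (𝒜.KZ Q + 𝒜.ΔZ Q) - ∑ b ∈ 𝒟.S, τ b * Q.1 (𝒟.φ b) ≤
          𝒱.data.low (𝒱.res 𝒟.red.D) u₀ Q := by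
        rw [TData.le_low_iff]
        rintro j rfl
        exact 𝒟.eff hτ j
      have h2 := mul_le_mul_of_nonneg_left h1 hTpos.le
      have h3 : ∑ b ∈ 𝒟.S, ((𝒢.T * τ b) • 𝒱.Z.prin (𝒟.φ b)) Q =
          𝒢.T * ∑ b ∈ 𝒟.S, τ b * Q.1 (𝒟.φ b) := by
        rw [Finset.mul_sum]
        refine Finset.sum_congr rfl fun b _ => ?_
        rw [Finsupp.smul_apply, smul_eq_mul, ProjVar.prin_apply]
        ring
      rw [h3]
      push_cast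
      linarith
  · -- linear equivalence
    rintro _ ⟨τ, hτ, rfl⟩ _ ⟨τ', hτ', rfl⟩
    obtain ⟨ψ, hψ0, hψ1⟩ := hψ τ hτ
    obtain ⟨ψ', hψ0', hψ1'⟩ := hψ τ' hτ'
    refine ⟨ψ' * ψ⁻¹, mul_ne_zero hψ0' (inv_ne_zero hψ0), ?_⟩
    simp only [hBτ]
    rw [hψ1, hψ1', 𝒱.Z.prin_mul hψ0' (inv_ne_zero hψ0), 𝒱.Z.prin_inv]
    abel
  · -- log canonicity
    intro v₀ a κ hA hκ
    obtain ⟨d, hd⟩ := (hQF DZ).exists_value v₀
    obtain ⟨τ, hτ, hcost⟩ := exists_vert_cost 𝒟.S 𝒟.S_nonempty u₀ (fun b => (v₀ (𝒟.φ b) : ℚ))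
      (𝒟.M * (a + 1) - d / 𝒢.T) (fun w hw => 𝒟.le_hor hu₀ w hw)
      (fun e w he hw => 𝒟.le_vert hA hu₀ 𝒢.T_pos hz₀ hDZ' hd he hw)
    refine ⟨Bτ τ, ⟨τ, hτ, rfl⟩, fun c hc => ?_⟩
    have h1 : 𝒱.Z.IsValue v₀ (Bτ τ) (d + (-((𝒢.T * 𝒟.M : ℕ) : ℚ)) * κ +
        ∑ b ∈ 𝒟.S, (𝒢.T * τ b) * v₀ (𝒟.φ b)) := by
      simp only [hBτ]
      rw [sub_eq_add_neg, ← neg_smul]
      exact (hd.add (hκ.smul _)).add (ProjVar.IsValue.sum fun b hb =>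
        (ProjVar.IsValue.prin (hφ0 b hb)).smul _)
    rw [hc.unique h1]
    have h2 : ∑ b ∈ 𝒟.S, (𝒢.T * τ b) * (v₀ (𝒟.φ b) : ℚ) =
        𝒢.T * ∑ b ∈ 𝒟.S, τ b * (v₀ (𝒟.φ b) : ℚ) := by
      rw [Finset.mul_sum]
      exact Finset.sum_congr rfl fun b _ => by ring
    rw [h2]
    have h3 := mul_le_mul_of_nonneg_left hcost hTpos.le
    have h4 : (𝒢.T : ℚ) * (𝒟.M * (a + 1) - d / 𝒢.T) = 𝒢.T * 𝒟.M * (a + 1) - d := by
      field_simp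
    rw [h4] at h3
    push_cast
    linarith
  · -- the invariants
    rintro _ ⟨τ, hτ, rfl⟩
    obtain ⟨ψ, hψ0, hψ1⟩ := hψ τ hτ
    have h1 : ((𝒢.T * 𝒟.M : ℕ) : ℚ) • 𝒜.KZ + Bτ τ = DZ + 𝒱.Z.prin ψ := by
      simp only [hBτ]
      rw [hψ1]
      abel
    rw [h1, ProjVar.kod_add_prin _ hψ0, ProjVar.nu_add_prin _ hψ0]
    exact ⟨kod_eq 𝒟.red 𝒢 DZ hDZ hDZint, nu_eq 𝒟.red 𝒢 DZ hDZ hDZint⟩

end TV

end Pool.Agent.Helper92.Weak
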