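import Pool.Agent.Helper92.Weak.Core2

set_option autoImplicit false

/-! The comparison of section spaces: exact upper bound and lower bound. -/

namespace Pool.Agent.Helper92.Weak

open Module

variable {k K : Type*} [Field k] [Field K] [Algebra k K] {r : ℕ} {Q H J : Type*}

/-- Lower bound for the space of all sections. -/
lemma card_mul_le_secT {𝒯 : TData k K r Q H J} {D : H ⊕ J → ℚ} {ι : Type*} [Fintype ι]
    (W : Submodule k K) (u : ι → Fin r → ℤ) (hu : Function.Injective u) (P : ι → K)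
    (hP0 : ∀ i, P i ≠ 0) (hP : ∀ i, ∀ f ∈ W, f * P i ∈ 𝒯.wt D (fun l => (u i l : ℚ))) :
    Fintype.card ι * sdim W ≤ sdim (𝒯.secT D) := by
  classical
  let F : (ι →₀ W) →ₗ[k] ((Fin r → ℤ) →₀ K) :=
    Finsupp.lsum k fun i => (Finsupp.lsingle (u i) : K →ₗ[k] _) ∘ₗ
      (LinearMap.mulRight k (P i)) ∘ₗ W.subtype
  have hF : ∀ φ : ι →₀ W, F φ = ∑ i, Finsupp.single (u i) ((φ i).1 * P i) := by
    intro φ
    simp only [F, Finsupp.lsum_apply]
    rw [Finsupp.sum_fintype]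
    · refine Finset.sum_congr rfl fun i _ => ?_
      simp
    · intro i
      simp
  have hmem : ∀ φ, F φ ∈ 𝒯.secT D := by
    intro φ
    rw [hF]
    exact Submodule.sum_mem _ fun i _ => TData.single_mem_secT (hP i _ (φ i).2)
  refine card_mul_le_sdim (LinearMap.codRestrict (𝒯.secT D) F hmem) ?_
  intro φ ψ h
  have h1 : F φ = F ψ := congrArg Subtype.val h
  ext i
  have h2 : (F φ) (u i) = (F ψ) (u i) := by rw [h1]
  have key : ∀ φ : ι →₀ W, (F φ) (u i) = (φ i).1 * P i := by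
    intro φ
    rw [hF, Finsupp.finsetSum_apply, Finset.sum_eq_single i]
    · simp
    · intro j _ hj
      rw [Finsupp.single_apply, if_neg]
      exact fun h => hj (hu h)
    · simp
  rw [key, key] at h2
  exact mul_right_cancel₀ (hP0 i) h2

/-- The pull back of a divisor on the base. -/
def pull (𝒯 : TData k K r Q H J) (G : Q → ℚ) : H ⊕ J → ℚ :=
  Sum.elim (fun _ => 0) fun j => 𝒯.e j * G (𝒯.base j)

/-- The lower bound. -/
theorem lower {𝒯 : TData k K r Q H J} {D : H ⊕ J → ℚ} (𝒢 : Geom 𝒯 D) (A' : Q → ℚ)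
    (n : ℕ) :
    (n : ℕ∞) ^ 𝒢.s * sdim (sec 𝒯.ord ((n : ℚ) • 𝒢.G₀ + A')) ≤
      sdim (𝒯.secT ((((𝒢.s + 1) * 𝒢.T * n : ℕ) : ℚ) • D + pull 𝒯 A')) := by
  classical
  have hTpos : (0 : ℚ) < 𝒢.T := by exact_mod_cast 𝒢.T_pos
  have hε := 𝒢.ε_pos
  obtain ⟨z₀, hz₀⟩ := 𝒢.int₀
  choose z₁ hz₁ using 𝒢.int₁
  -- the weights
  let u : (Fin 𝒢.s → Fin n) → Fin r → ℤ := fun ν =>
    (((𝒢.s + 1) * n : ℕ) : ℤ) • z₀ + ∑ j, ((ν j : ℕ) : ℤ) • (z₁ j - z₀)
  have hu : ∀ ν, (fun l => (u ν l : ℚ)) = (((𝒢.s + 1) * 𝒢.T * n : ℕ) : ℚ) • 𝒢.u₀ +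
      ∑ j, ((𝒢.T : ℚ) * 𝒢.ε * (ν j : ℕ)) • 𝒢.b (Sum.inl j) := by
    intro ν
    have h1 : (fun l => (u ν l : ℚ)) = (((𝒢.s + 1) * n : ℕ) : ℚ) • (fun l => (z₀ l : ℚ)) +
        ∑ j, ((ν j : ℕ) : ℚ) • ((fun l => (z₁ j l : ℚ)) - fun l => (z₀ l : ℚ)) := by
      funext l
      simp only [u, Pi.add_apply, Pi.smul_apply, Finset.sum_apply, Pi.sub_apply, smul_eq_mul,
        Int.cast_add, Int.cast_mul, Int.cast_natCast, Int.cast_sum, Int.cast_sub]
    rw [h1, ← hz₀, smul_smul]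
    congr 1
    · congr 1
      push_cast
      ring
    · refine Finset.sum_congr rfl fun j _ => ?_
      rw [← hz₁, ← smul_sub, add_sub_cancel_left, smul_smul, smul_smul]
      congr 1
      ring
  have huinj : Function.Injective u := by
    intro ν ν' h
    have h1 : (fun l => (u ν l : ℚ)) = fun l => (u ν' l : ℚ) := by rw [h]
    rw [hu, hu, add_right_inj] at h1
    funext j
    have h2 := congrArg (fun v => 𝒢.b.repr v (Sum.inl j)) h1
    simp only [map_sum, Finsupp.finsetSum_apply, map_smul, Finsupp.smul_apply, smul_eq_mul,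
      Basis.repr_self, Finsupp.single_apply, Sum.inl.injEq, mul_ite, mul_one, mul_zero,
      Finset.sum_ite_eq', Finset.mem_univ, if_true] at h2
    have h3 : ((ν j : ℕ) : ℚ) = ((ν' j : ℕ) : ℚ) := by
      have h4 : (𝒢.T : ℚ) * 𝒢.ε ≠ 0 := by positivity
      exact mul_left_cancel₀ h4 h2
    exact Fin.ext (by exact_mod_cast h3)
  have hcard : (Fintype.card (Fin 𝒢.s → Fin n) : ℕ∞) = (n : ℕ∞) ^ 𝒢.s := by
    rw [Fintype.card_fun, Fintype.card_fin, Fintype.card_fin]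
    push_cast
    rfl
  rw [← hcard]
  apply card_mul_le_secT _ u huinj
    (fun ν => (∏ j, 𝒢.g₁ j ^ (ν j : ℕ)) * 𝒢.g₀ ^ (𝒢.s * n - ∑ j, (ν j : ℕ)))
  · intro ν
    apply mul_ne_zero
    · rw [Finset.prod_ne_zero_iff]
      exact fun j _ => pow_ne_zero _ (𝒢.g₁_ne j)
    · exact pow_ne_zero _ 𝒢.g₀_ne
  · intro ν f hf
    by_cases hf0 : f = 0
    · rw [hf0, zero_mul]; exact Submodule.zero_mem _
    -- `f` as a section of weight `n T u₀`
    have h1 : f ∈ 𝒯.wt (((𝒢.T * n : ℕ) : ℚ) • D + pull 𝒯 A') (((𝒢.T * n : ℕ) : ℚ) • 𝒢.u₀) := by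
      rw [mem_sec_of_ne hf0] at hf
      rw [TData.mem_wt hf0]
      refine ⟨fun i => ?_, fun j => ?_⟩
      · have h2 := 𝒢.h0 i
        have h3 : (0 : ℚ) ≤ ((𝒢.T * n : ℕ) : ℚ) := by positivity
        have h4 := mul_nonneg h3 h2
        rw [map_smul, Pi.add_apply, Pi.smul_apply, smul_eq_mul, smul_eq_mul]
        have h5 : pull 𝒯 A' (Sum.inl i) = 0 := rfl
        rw [h5]
        linarith
      · have h2 := hf (𝒯.base j)
        have h3 := TData.e_mul_low_le (𝒯 := 𝒯) (D := D) (u := 𝒢.u₀) (q := 𝒯.base j) (j := j) rfl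
        have hej : (0 : ℚ) ≤ 𝒯.e j := by positivity
        have h4 := mul_nonneg hej h2
        rw [map_smul, Pi.add_apply, Pi.smul_apply, smul_eq_mul, smul_eq_mul]
        have h5 : pull 𝒯 A' (Sum.inr j) = 𝒯.e j * A' (𝒯.base j) := rfl
        rw [h5]
        simp only [Pi.add_apply, Pi.smul_apply, smul_eq_mul, Geom.G₀] at h4
        have h6 : (0 : ℚ) ≤ ((𝒢.T * n : ℕ) : ℚ) := by positivity
        have h7 := mul_le_mul_of_nonneg_left h3 h6
        push_cast at h7 ⊢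
        nlinarith
    have hsum : ∑ j, (ν j : ℕ) ≤ 𝒢.s * n := by
      calc ∑ j, (ν j : ℕ) ≤ ∑ _j : Fin 𝒢.s, n := Finset.sum_le_sum fun j _ => (ν j).2.le
        _ = 𝒢.s * n := by simp
    have h2 : ∏ j, 𝒢.g₁ j ^ (ν j : ℕ) ∈ 𝒯.wt
        (∑ j, (((ν j : ℕ) : ℚ) • ((𝒢.T : ℚ) • D)))
        (∑ j, (((ν j : ℕ) : ℚ) • ((𝒢.T : ℚ) • (𝒢.u₀ + 𝒢.ε • 𝒢.b (Sum.inl j))))) :=
      TData.prod_mem_wt Finset.univ fun j _ => TData.pow_mem_wt (𝒢.g₁_mem j) (𝒢.g₁_ne j) _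
    have h3 := TData.pow_mem_wt 𝒢.g₀_mem 𝒢.g₀_ne (𝒢.s * n - ∑ j, (ν j : ℕ))
    have h4 := TData.mul_mem_wt h1 (TData.mul_mem_wt h2 h3)
    have hcast : ((𝒢.s * n - ∑ j, (ν j : ℕ) : ℕ) : ℚ) = 𝒢.s * n - ∑ j, ((ν j : ℕ) : ℚ) := by
      rw [Nat.cast_sub hsum]; push_cast; rfl
    have e1 : ((𝒢.T * n : ℕ) : ℚ) • D + pull 𝒯 A' + (∑ j, (((ν j : ℕ) : ℚ) • ((𝒢.T : ℚ) • D)) +
        ((𝒢.s * n - ∑ j, (ν j : ℕ) : ℕ) : ℚ) • ((𝒢.T : ℚ) • D)) =
        (((𝒢.s + 1) * 𝒢.T * n : ℕ) : ℚ) • D + pull 𝒯 A' := by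
      rw [← Finset.sum_smul, ← add_smul, hcast, smul_smul, add_right_comm, ← add_smul]
      congr 2
      push_cast
      ring
    have e2 : ((𝒢.T * n : ℕ) : ℚ) • 𝒢.u₀ +
        (∑ j, (((ν j : ℕ) : ℚ) • ((𝒢.T : ℚ) • (𝒢.u₀ + 𝒢.ε • 𝒢.b (Sum.inl j)))) +
        ((𝒢.s * n - ∑ j, (ν j : ℕ) : ℕ) : ℚ) • ((𝒢.T : ℚ) • 𝒢.u₀)) =
        fun l => (u ν l : ℚ) := by
      rw [hu, hcast]
      have : ∀ j, ((ν j : ℕ) : ℚ) • ((𝒢.T : ℚ) • (𝒢.u₀ + 𝒢.ε • 𝒢.b (Sum.inl j))) =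
          (((ν j : ℕ) : ℚ) * 𝒢.T) • 𝒢.u₀ +
            ((𝒢.T : ℚ) * 𝒢.ε * (ν j : ℕ)) • 𝒢.b (Sum.inl j) := by
        intro j
        rw [smul_add, smul_add, smul_smul, smul_smul, smul_smul]
        congr 2
        ring
      rw [Finset.sum_congr rfl fun j _ => this j, Finset.sum_add_distrib, ← Finset.sum_smul,
        smul_smul]
      have h5 : (((𝒢.s + 1) * 𝒢.T * n : ℕ) : ℚ) = ((𝒢.T * n : ℕ) : ℚ) +
          ∑ j, ((ν j : ℕ) : ℚ) * 𝒢.T + ((𝒢.s : ℚ) * n - ∑ j, ((ν j : ℕ) : ℚ)) * 𝒢.T := by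
        rw [← Finset.sum_mul]
        push_cast
        ring
      rw [h5, add_smul, add_smul]
      abel
    rw [e1, e2] at h4
    exact h4

/-- The exact upper bound. -/
theorem kappa_upper {𝒯 : TData k K r Q H J} {D : H ⊕ J → ℚ} (𝒢 : Geom 𝒯 D) :
    ∃ C a c : ℕ, 1 ≤ a ∧ ∀ m : ℕ, 1 ≤ m →
      sdim (𝒯.secT ((m : ℚ) • D)) ≤ C * m ^ 𝒢.s *
        sdim (sec 𝒯.ord (((a * (m + c) : ℕ) : ℚ) • 𝒢.G₀)) := by
  classical
  obtain ⟨C₁, hC₁⟩ := finite_lattice 𝒢 (fun _ => 0)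
  obtain ⟨C, hC0, hC⟩ := 𝒢.hbd (fun _ => 0)
  have hε := 𝒢.ε_pos
  have hTpos : (0 : ℚ) < 𝒢.T := by exact_mod_cast 𝒢.T_pos
  obtain ⟨a, ha⟩ := exists_nat_ge (1 + 𝒢.s * C / 𝒢.ε)
  have ha1 : 1 ≤ a := by
    have h1 : (0 : ℚ) ≤ 𝒢.s * C / 𝒢.ε := by positivity
    have h2 : (1 : ℚ) ≤ a := by linarith
    exact_mod_cast h2
  -- the modulus
  obtain ⟨q, hq, hden⟩ := exists_coord_den 𝒢.b 𝒢.u₀
  set N : ℕ := 𝒢.ε.num.toNat with hN
  have hNpos : 0 < N := by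
    have := Rat.num_pos.2 hε
    omega
  have hNε : (N : ℚ) = 𝒢.ε * 𝒢.ε.den := by
    have h1 : ((N : ℤ) : ℚ) = 𝒢.ε.num := by
      rw [hN, Int.toNat_of_nonneg (Rat.num_pos.2 hε).le]
    have h2 : (N : ℚ) = ((N : ℤ) : ℚ) := by simp
    rw [h2, h1]
    exact (Rat.mul_den_eq_num 𝒢.ε).symm
  set R : ℕ := q * 𝒢.T * N with hR
  have hRpos : 0 < R := Nat.mul_pos (Nat.mul_pos hq 𝒢.T_pos) hNpos
  have : NeZero R := ⟨hRpos.ne'⟩
  -- representatives
  let Rep : ((Fin r → ZMod R) × ZMod R) → ((Fin r → ℤ) × ℕ × K) → Prop := fun c x =>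
    1 ≤ x.2.1 ∧ x.2.2 ≠ 0 ∧ x.2.2 ∈ 𝒯.wt ((x.2.1 : ℚ) • D) (fun l => (x.1 l : ℚ)) ∧
      (∀ l, ((x.1 l : ℤ) : ZMod R) = c.1 l) ∧ ((x.2.1 : ℕ) : ZMod R) = c.2
  let rep : ((Fin r → ZMod R) × ZMod R) → ((Fin r → ℤ) × ℕ × K) := fun c =>
    if h : ∃ x, Rep c x then h.choose else (0, 0, 0)
  have hrep : ∀ c, (∃ x, Rep c x) → Rep c (rep c) := by
    intro c h
    simp only [rep, dif_pos h]
    exact h.choose_spec
  set Mc : ℕ := Finset.univ.sup fun c => (rep c).2.1 with hMc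
  have hMc' : ∀ c, (rep c).2.1 ≤ Mc := fun c => Finset.le_sup (f := fun c => (rep c).2.1)
    (Finset.mem_univ c)
  refine ⟨C₁, a, (R - 1) * Mc, ha1, fun m hm => ?_⟩
  obtain ⟨S, hScard, hS⟩ := hC₁ m hm
  have key : sdim (𝒯.secT ((m : ℚ) • D)) ≤ S.card *
      sdim (sec 𝒯.ord (((a * (m + (R - 1) * Mc) : ℕ) : ℚ) • 𝒢.G₀)) := by
    apply sdim_secT_le S
    · intro u hu
      rw [Submodule.eq_bot_iff]
      intro f hf
      by_contra hf0
      rw [TData.mem_wt hf0] at hf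
      apply hu
      rw [hS]
      intro i
      have := hf.1 i
      rw [Pi.smul_apply, smul_eq_mul] at this
      linarith
    · intro u _
      by_cases hbot : 𝒯.wt ((m : ℚ) • D) (fun l => (u l : ℚ)) = ⊥
      · refine ⟨1, one_ne_zero, fun f hf => ?_⟩
        rw [hbot, Submodule.mem_bot] at hf
        rw [hf, zero_mul]
        exact Submodule.zero_mem _
      rw [Submodule.eq_bot_iff] at hbot
      push Not at hbot
      obtain ⟨f₀, hf₀, hf₀0⟩ := hbot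
      set c : (Fin r → ZMod R) × ZMod R := (fun l => ((u l : ℤ) : ZMod R), ((m : ℕ) : ZMod R))
        with hc
      have hex : ∃ x, Rep c x := ⟨(u, m, f₀), hm, hf₀0, hf₀, fun l => rfl, rfl⟩
      obtain ⟨hm1, hf1, hf2, hu3, hm3⟩ := hrep c hex
      set u₁ : Fin r → ℤ := (rep c).1 with hu₁
      set m₁ : ℕ := (rep c).2.1 with hm₁
      set f₁ : K := (rep c).2.2 with hf₁
      -- the sum is divisible by `R`
      set mh : ℕ := m + (R - 1) * m₁ with hmhat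
      have hmR : R ∣ mh := by
        rw [← ZMod.natCast_eq_zero_iff, hmhat]
        have h1 : ((R - 1 : ℕ) : ZMod R) = -1 := by
          rw [Nat.cast_sub hRpos]
          simp
        push_cast
        rw [h1, hm3, hc]
        ring
      set uh : Fin r → ℤ := fun l => u l + ((R - 1 : ℕ) : ℤ) * u₁ l with huhat
      have huR : ∀ l, (R : ℤ) ∣ uh l := by
        intro l
        rw [← ZMod.intCast_zmod_eq_zero_iff_dvd, huhat]
        have h1 : ((R - 1 : ℕ) : ZMod R) = -1 := by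
          rw [Nat.cast_sub hRpos]
          simp
        push_cast
        rw [h1, hu3, hc]
        ring
      obtain ⟨m₂, hm₂⟩ := hmR
      choose u₂ hu₂ using huR
      have hmpos : 1 ≤ mh := by omega
      -- coordinates
      have hcoord : ∀ κ, ∃ z : ℤ, 𝒢.b.repr ((fun l => (uh l : ℚ)) - (mh : ℚ) • 𝒢.u₀) κ =
          (𝒢.T : ℚ) * 𝒢.ε * (𝒢.ε.den * z : ℤ) := by
        intro κ
        obtain ⟨z, hz⟩ := hden u₂ m₂ κ
        refine ⟨z, ?_⟩
        have h1 : (fun l => (uh l : ℚ)) - (mh : ℚ) • 𝒢.u₀ =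
            (R : ℚ) • ((fun l => (u₂ l : ℚ)) - ((m₂ : ℤ) : ℚ) • 𝒢.u₀) := by
          funext l
          simp only [Pi.sub_apply, Pi.smul_apply, smul_eq_mul]
          rw [hu₂, hm₂]
          push_cast
          ring
        rw [h1, map_smul, Finsupp.smul_apply, smul_eq_mul, hR]
        push_cast
        rw [hNε]
        calc (q : ℚ) * 𝒢.T * (𝒢.ε * 𝒢.ε.den) *
            (𝒢.b.repr ((fun l => (u₂ l : ℚ)) - (m₂ : ℚ) • 𝒢.u₀)) κ =
            𝒢.T * (𝒢.ε * 𝒢.ε.den) * ((q : ℚ) *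
              (𝒢.b.repr ((fun l => (u₂ l : ℚ)) - (m₂ : ℚ) • 𝒢.u₀)) κ) := by ring
          _ = 𝒢.T * (𝒢.ε * 𝒢.ε.den) * z := by
            have h2 : ((m₂ : ℤ) : ℚ) = (m₂ : ℚ) := by simp
            rw [h2] at hz
            rw [hz]
          _ = _ := by ring
      choose z hz using hcoord
      set x : Fin 𝒢.s → ℚ := fun j =>
        𝒢.b.repr ((fun l => (uh l : ℚ)) - (mh : ℚ) • 𝒢.u₀) (Sum.inl j) with hxdef
      set n : Fin 𝒢.s → ℕ := fun j => (𝒢.ε.den * z (Sum.inl j)).natAbs with hn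
      obtain ⟨P, hP0, hP⟩ := exists_corr 𝒢 x n
      have hxn : ∀ j, |x j| = 𝒢.T * 𝒢.ε * n j := by
        intro j
        have h1 : x j = _ := hz (Sum.inl j)
        rw [h1, abs_mul, abs_of_pos (by positivity : (0 : ℚ) < 𝒢.T * 𝒢.ε), hn]
        simp only
        rw [Nat.cast_natAbs, Int.cast_abs]
      have hxn' : ∀ j, x j = (n j : ℚ) * 𝒢.T * 𝒢.ε * (if 0 ≤ x j then 1 else -1) := by
        intro j
        have h1 := hxn j
        split_ifs with h2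
        · rw [abs_of_nonneg h2] at h1
          rw [h1]; ring
        · push Not at h2
          rw [abs_of_neg h2] at h1
          linarith
      -- the total section
      have hbase : ∀ f ∈ 𝒯.wt ((m : ℚ) • D) (fun l => (u l : ℚ)),
          f * f₁ ^ (R - 1) ∈ 𝒯.wt ((mh : ℚ) • D) (fun l => (uh l : ℚ)) := by
        intro f hf
        have h1 := TData.mul_mem_wt hf (TData.pow_mem_wt hf2 hf1 (R - 1))
        have e1 : (m : ℚ) • D + ((R - 1 : ℕ) : ℚ) • ((m₁ : ℚ) • D) = (mh : ℚ) • D := by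
          rw [smul_smul, ← add_smul, hmhat]
          push_cast
          rfl
        have e2 : (fun l => (u l : ℚ)) + ((R - 1 : ℕ) : ℚ) • (fun l => (u₁ l : ℚ)) =
            fun l => (uh l : ℚ) := by
          funext l
          simp only [Pi.add_apply, Pi.smul_apply, smul_eq_mul, huhat]
          push_cast
          ring
        rw [e1, e2] at h1
        exact h1
      -- the weight lies in the multiple of the polytope
      have hinP : ∀ i, 0 ≤ pairL (𝒯.ρ i) (fun l => (uh l : ℚ)) + mh * D (Sum.inl i) := by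
        intro i
        have h1 := hbase f₀ hf₀
        rw [TData.mem_wt (mul_ne_zero hf₀0 (pow_ne_zero _ hf1))] at h1
        exact h1.1 i
      have hmhat0 : (0 : ℚ) < mh := by exact_mod_cast hmpos
      have hy : ∀ j, 𝒢.b.repr ((fun l => (uh l : ℚ)) - (mh : ℚ) • 𝒢.u₀) (Sum.inr j) = 0 := by
        intro j
        have h1 : InP 𝒯 D ((mh : ℚ)⁻¹ • fun l => (uh l : ℚ)) := by
          intro i
          rw [map_smul, smul_eq_mul]
          have h2 := mul_nonneg (inv_nonneg.2 hmhat0.le) (hinP i)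
          rw [mul_add, ← mul_assoc _ (mh : ℚ), inv_mul_cancel₀ hmhat0.ne', one_mul] at h2
          exact h2
        have h2 := 𝒢.haff _ h1 j
        have h3 : (fun l => (uh l : ℚ)) - (mh : ℚ) • 𝒢.u₀ =
            (mh : ℚ) • ((mh : ℚ)⁻¹ • (fun l => (uh l : ℚ)) - 𝒢.u₀) := by
          rw [smul_sub, smul_smul, mul_inv_cancel₀ hmhat0.ne', one_smul]
        rw [h3, map_smul, Finsupp.smul_apply, h2, smul_zero]
      have hδ : (fun l => (uh l : ℚ)) - (mh : ℚ) • 𝒢.u₀ -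
          ∑ j, ((n j : ℚ) * 𝒢.T * 𝒢.ε * (if 0 ≤ x j then 1 else -1)) • 𝒢.b (Sum.inl j) = 0 := by
        rw [sub_eq_zero]
        conv_lhs => rw [← 𝒢.b.sum_repr ((fun l => (uh l : ℚ)) - (mh : ℚ) • 𝒢.u₀)]
        rw [Fintype.sum_sum_type]
        have h1 : ∑ j, 𝒢.b.repr ((fun l => (uh l : ℚ)) - (mh : ℚ) • 𝒢.u₀) (Sum.inr j) •
            𝒢.b (Sum.inr j) = 0 := Finset.sum_eq_zero fun j _ => by rw [hy j, zero_smul]
        rw [h1, add_zero]
        refine Finset.sum_congr rfl fun j _ => ?_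
        rw [← hxn' j]
      -- the total multiple
      set m' : ℕ := mh + 𝒢.T * ∑ j, n j with hm'
      have hTm' : 𝒢.T ∣ m' := by
        rw [hm']
        refine Dvd.dvd.add ?_ (Dvd.intro _ rfl)
        rw [hm₂, hR]
        exact Dvd.intro (q * N * m₂) (by ring)
      obtain ⟨m₃, hm₃⟩ := hTm'
      have hm'le : (m' : ℚ) ≤ (a : ℚ) * mh := by
        have hx := (hC mh hmpos (fun l => (uh l : ℚ)) (fun i => by
          have := hinP i; linarith)).1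
        have h1 : (𝒢.T : ℚ) * ∑ j, (n j : ℚ) ≤ 𝒢.s * C / 𝒢.ε * mh := by
          have h2 : ∀ j, (𝒢.T : ℚ) * n j ≤ C * mh / 𝒢.ε := by
            intro j
            rw [le_div_iff₀ hε]
            have h3 : |x j| ≤ C * mh := hx j
            rw [hxn j] at h3
            linarith
          calc (𝒢.T : ℚ) * ∑ j, (n j : ℚ) = ∑ j, (𝒢.T : ℚ) * n j := Finset.mul_sum _ _ _
            _ ≤ ∑ j : Fin 𝒢.s, C * mh / 𝒢.ε := Finset.sum_le_sum fun j _ => h2 j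
            _ = 𝒢.s * C / 𝒢.ε * mh := by
              rw [Finset.sum_const, Finset.card_univ, Fintype.card_fin, nsmul_eq_mul]
              ring
        have h3 : (m' : ℚ) = mh + 𝒢.T * ∑ j, (n j : ℚ) := by
          rw [hm']; push_cast; rfl
        rw [h3]
        calc (mh : ℚ) + 𝒢.T * ∑ j, (n j : ℚ) ≤ mh + 𝒢.s * C / 𝒢.ε * mh := by linarith
          _ = (1 + 𝒢.s * C / 𝒢.ε) * mh := by ring
          _ ≤ a * mh := mul_le_mul_of_nonneg_right ha hmhat0.le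
      set M : ℕ := a * (m + (R - 1) * Mc) with hM
      have hm₃M : m₃ ≤ M := by
        have h1 : m' ≤ a * mh := by exact_mod_cast hm'le
        calc m₃ ≤ 𝒢.T * m₃ := Nat.le_mul_of_pos_left _ 𝒢.T_pos
          _ = m' := hm₃.symm
          _ ≤ a * mh := h1
          _ ≤ M := by
            rw [hM, hmhat]
            exact Nat.mul_le_mul_left _ (Nat.add_le_add_left
              (Nat.mul_le_mul_left _ (hMc' c)) _)
      set n₀ : ℕ := M - m₃ with hn₀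
      refine ⟨f₁ ^ (R - 1) * (P * 𝒢.g₀ ^ n₀), mul_ne_zero (pow_ne_zero _ hf1)
        (mul_ne_zero hP0 (pow_ne_zero _ 𝒢.g₀_ne)), fun f hf => ?_⟩
      have h1 := TData.mul_mem_wt (hbase f hf) (TData.mul_mem_wt hP
        (TData.pow_mem_wt 𝒢.g₀_mem 𝒢.g₀_ne n₀))
      rw [mul_assoc] at h1
      have hMcast : ((𝒢.T : ℚ) * M) = mh + ((𝒢.T * ∑ j, n j : ℕ) : ℚ) + n₀ * 𝒢.T := by
        have h2 : 𝒢.T * M = m' + n₀ * 𝒢.T := by
          rw [hm₃, hn₀, mul_comm (M - m₃), ← mul_add]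
          congr 1
          omega
        have h3 : ((𝒢.T * M : ℕ) : ℚ) = ((m' + n₀ * 𝒢.T : ℕ) : ℚ) := by rw [h2]
        rw [hm'] at h3
        push_cast at h3 ⊢
        exact h3
      have e1 : (mh : ℚ) • D + (((𝒢.T * ∑ j, n j : ℕ) : ℚ) • D + (n₀ : ℚ) • ((𝒢.T : ℚ) • D)) =
          ((𝒢.T : ℚ) * M) • D := by
        rw [hMcast, smul_smul, ← add_smul, ← add_smul]
        congr 1
        ring
      have e2 : (fun l => (uh l : ℚ)) + ((((𝒢.T * ∑ j, n j : ℕ) : ℚ) • 𝒢.u₀ -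
          ∑ j, ((n j : ℚ) * 𝒢.T * 𝒢.ε * (if 0 ≤ x j then 1 else -1)) • 𝒢.b (Sum.inl j)) +
          (n₀ : ℚ) • ((𝒢.T : ℚ) • 𝒢.u₀)) = ((𝒢.T : ℚ) * M) • 𝒢.u₀ := by
        rw [hMcast, add_smul, add_smul, smul_smul]
        have h2 : (fun l => (uh l : ℚ)) = (mh : ℚ) • 𝒢.u₀ +
            ∑ j, ((n j : ℚ) * 𝒢.T * 𝒢.ε * (if 0 ≤ x j then 1 else -1)) • 𝒢.b (Sum.inl j) := by
          rw [sub_sub, sub_eq_zero] at hδ
          exact hδ
        rw [h2]
        abel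
      rw [e1, e2] at h1
      rw [TData.wt_eq] at h1
      · have h2 : 𝒯.low (((𝒢.T : ℚ) * M) • D) (((𝒢.T : ℚ) * M) • 𝒢.u₀) = (M : ℚ) • 𝒢.G₀ := by
          funext q'
          rw [TData.low_smul (by positivity)]
          simp only [Pi.smul_apply, smul_eq_mul, Geom.G₀]
          ring
        rw [h2] at h1
        exact h1
      · intro i
        have h2 : (0 : ℚ) ≤ (𝒢.T : ℚ) * M := by positivity
        have h3 := mul_nonneg h2 (𝒢.h0 i)
        rw [map_smul, Pi.smul_apply, smul_eq_mul, smul_eq_mul]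
        linarith
  refine key.trans ?_
  gcongr
  exact_mod_cast hScard

end Pool.Agent.Helper92.Weak
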