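import Pool.Agent.Helper92.Weak.Sec
import Pool.Agent.Helper92.Weak.Core3

set_option autoImplicit false
set_option linter.unusedSectionVars false

/-! Comparison of the Kodaira dimension and the numerical dimension of a divisor on `X` with those
of a divisor on the base. -/

namespace Pool.Agent.Helper92.Weak

open Filter MvPolynomial

lemma logGrowth_eq_bot {h : ℕ → ℕ∞} (hh : ∀ᶠ m in atTop, h m = 0) : logGrowth h = ⊥ := by
  have h5 : ∀ᶠ m : ℕ in atTop,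
      ENNReal.log (h m : ENNReal) / ENNReal.log ((m : ℕ) : ENNReal) = ⊥ := by
    filter_upwards [hh, eventually_ge_atTop 2] with m hm hm1
    rw [hm]
    simp only [ENat.toENNReal_zero, ENNReal.log_zero]
    exact EReal.bot_div_of_pos_ne_top (log_nat_pos hm1) (log_nat_ne_top hm1)
  unfold logGrowth
  rw [limsup_congr h5]
  simp

section sec

variable {k K : Type*} [Field k] [Field K] [Algebra k K] {Q : Type*} {ord : Q → DVal k K}

lemma sdim_sec_le {G G' : Q → ℚ} (g : K) (hg : g ≠ 0) (h : ∀ q, G q ≤ G' q + ord q g) :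
    sdim (sec ord G) ≤ sdim (sec ord G') := by
  apply sdim_le_of_mul g hg
  intro f hf
  by_cases hf0 : f = 0
  · rw [hf0, zero_mul]; exact Submodule.zero_mem _
  rw [mem_sec_of_ne hf0] at hf
  rw [mem_sec_of_ne (mul_ne_zero hf0 hg)]
  intro q
  rw [DVal.map_mul _ hf0 hg]
  push_cast
  linarith [hf q, h q]

lemma pow_mem_sec {G : Q → ℚ} {f : K} (hf0 : f ≠ 0) (hf : f ∈ sec ord G) (n : ℕ) :
    f ^ n ∈ sec ord ((n : ℚ) • G) := by
  rw [mem_sec_of_ne hf0] at hf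
  rw [mem_sec_of_ne (pow_ne_zero n hf0)]
  intro q
  rw [DVal.map_pow, Pi.smul_apply, smul_eq_mul]
  have h1 : (0 : ℚ) ≤ n := by positivity
  have := mul_nonneg h1 (hf q)
  push_cast
  linarith

/-- Comparison with multiples of `M`. -/
lemma exists_mult_bound (G : Q → ℚ) (M : ℕ) (hM : 0 < M) : ∃ c : ℕ, ∀ m : ℕ, 1 ≤ m →
    ∃ n : ℕ, 1 ≤ n ∧ n ≤ m + c ∧
      sdim (sec ord ((m : ℚ) • G)) ≤ sdim (sec ord (((M * n : ℕ) : ℚ) • G)) := by
  classical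
  have : NeZero M := ⟨hM.ne'⟩
  -- representatives
  let Rep : ZMod M → (ℕ × K) → Prop := fun c x =>
    1 ≤ x.1 ∧ x.2 ≠ 0 ∧ x.2 ∈ sec ord ((x.1 : ℚ) • G) ∧ ((x.1 : ℕ) : ZMod M) = c
  let rep : ZMod M → (ℕ × K) := fun c => if h : ∃ x, Rep c x then h.choose else (0, 0)
  have hrep : ∀ c, (∃ x, Rep c x) → Rep c (rep c) := by
    intro c h
    simp only [rep, dif_pos h]
    exact h.choose_spec
  set Mc : ℕ := Finset.univ.sup fun c => (rep c).1 with hMc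
  have hMc' : ∀ c, (rep c).1 ≤ Mc := fun c => Finset.le_sup (f := fun c => (rep c).1)
    (Finset.mem_univ c)
  refine ⟨(M - 1) * Mc, fun m hm => ?_⟩
  by_cases hbot : sec ord ((m : ℚ) • G) = ⊥
  · refine ⟨m, hm, by omega, ?_⟩
    rw [hbot, sdim_bot]
    exact zero_le
  rw [Submodule.eq_bot_iff] at hbot
  push Not at hbot
  obtain ⟨f₀, hf₀, hf₀0⟩ := hbot
  obtain ⟨h1, h2, h3, h4⟩ := hrep (m : ZMod M) ⟨(m, f₀), hm, hf₀0, hf₀, rfl⟩
  set m₁ := (rep (m : ZMod M)).1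
  set f₁ := (rep (m : ZMod M)).2
  have hdvd : M ∣ m + (M - 1) * m₁ := by
    rw [← ZMod.natCast_eq_zero_iff]
    have h5 : ((M - 1 : ℕ) : ZMod M) = -1 := by
      rw [Nat.cast_sub hM]
      simp
    push_cast
    rw [h5, h4]
    ring
  obtain ⟨n, hn⟩ := hdvd
  have hn1 : 1 ≤ n := by
    rcases Nat.eq_zero_or_pos n with h | h
    · rw [h, mul_zero] at hn
      omega
    · exact h
  refine ⟨n, hn1, ?_, ?_⟩
  · have h5 : n ≤ M * n := Nat.le_mul_of_pos_left _ hM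
    have h6 : (M - 1) * m₁ ≤ (M - 1) * Mc := Nat.mul_le_mul_left _ (hMc' _)
    omega
  · apply sdim_sec_le (f₁ ^ (M - 1)) (pow_ne_zero _ h2)
    intro q
    have h5 := pow_mem_sec h2 h3 (M - 1)
    rw [mem_sec_of_ne (pow_ne_zero _ h2)] at h5
    have h6 := h5 q
    rw [← hn]
    simp only [Pi.smul_apply, smul_eq_mul] at h6 ⊢
    push_cast at h6 ⊢
    linarith

end sec

namespace ProjVar

variable {k L : Type*} [Field k] [Field L] [Algebra k L] (X : ProjVar k L)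

lemma h0_le (D : X.Div) : X.h0 D ≤ sdim (X.H0 D) := by
  unfold h0
  split_ifs
  · exact le_rfl
  · exact zero_le

lemma h0_of_int {D : X.Div} (hD : X.IsInt D) : X.h0 D = sdim (X.H0 D) := by
  unfold h0
  rw [if_pos hD]

lemma IsInt.add {X : ProjVar k L} {D D' : X.Div} (h : X.IsInt D) (h' : X.IsInt D') :
    X.IsInt (D + D') := by
  intro P
  obtain ⟨z, hz⟩ := h P
  obtain ⟨z', hz'⟩ := h' P
  exact ⟨z + z', by rw [Finsupp.add_apply, hz, hz']; push_cast; rfl⟩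

lemma IsInt.sub {X : ProjVar k L} {D D' : X.Div} (h : X.IsInt D) (h' : X.IsInt D') :
    X.IsInt (D - D') := by
  intro P
  obtain ⟨z, hz⟩ := h P
  obtain ⟨z', hz'⟩ := h' P
  exact ⟨z - z', by rw [Finsupp.sub_apply, hz, hz']; push_cast; rfl⟩

lemma IsInt.nsmul {X : ProjVar k L} {D : X.Div} (h : X.IsInt D) (n : ℕ) :
    X.IsInt ((n : ℚ) • D) := by
  intro P
  obtain ⟨z, hz⟩ := h P
  exact ⟨n * z, by rw [Finsupp.smul_apply, smul_eq_mul, hz]; push_cast; rfl⟩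

end ProjVar

namespace TV

variable {k K L : Type*} [Field k] [Field K] [Field L] [Algebra k K] [Algebra k L] [Algebra K L]
  [IsScalarTower k K L] {r : ℕ} {t : Fin r → L} (𝒱 : TV k K t) [IsAlgClosed k] [CharZero k]

/-- The multiple `M E` is linearly equivalent to the invariant divisor `D`. -/
structure Red (E : 𝒱.X.Div) where
  M : ℕ
  M_pos : 0 < M
  int : 𝒱.X.IsInt ((M : ℚ) • E)
  G : L
  G_ne : G ≠ 0
  D : 𝒱.X.primeDivisors → ℚ
  D_eq : ∀ P, D P = M * E P - P.1 G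
  inv : 𝒱.InvDiv D

variable {𝒱}

lemma Red.finite {E : 𝒱.X.Div} (R : 𝒱.Red E) : {P | R.D P ≠ 0}.Finite := by
  have h1 : {P : 𝒱.X.primeDivisors | P.1 R.G ≠ 0}.Finite := by
    apply Set.Finite.of_finite_image (f := fun P : 𝒱.X.primeDivisors => P.1) _
      (Subtype.val_injective.injOn)
    apply (𝒱.X.finite_support R.G_ne).subset
    rintro _ ⟨P, hP, rfl⟩
    exact ⟨P.2, hP⟩
  apply ((E.hasFiniteSupport).union h1).subset
  intro P hP
  by_contra hcon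
  simp only [Set.mem_union, Function.mem_support, Set.mem_ofPred_eq, not_or, not_not] at hcon
  apply hP
  rw [R.D_eq, hcon.1, hcon.2]
  simp

lemma Red.finite' {E : 𝒱.X.Div} (R : 𝒱.Red E) :
    {j | 𝒱.res R.D (Sum.inr j) ≠ 0}.Finite := by
  apply Set.Finite.of_finite_image (f := fun j : 𝒱.JJ => (⟨j.1, j.2.1⟩ : 𝒱.X.primeDivisors))
  · apply R.finite.subset
    rintro _ ⟨j, hj, rfl⟩
    exact hj
  · intro j _ j' _ h
    exact Subtype.ext (congrArg (fun x : 𝒱.X.primeDivisors => x.1) h)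

/-- A function with prescribed zeros along non-invariant divisors. -/
lemma exists_fun (A : 𝒱.X.Div) : ∃ f : L, f ≠ 0 ∧ ∀ P : 𝒱.X.primeDivisors, ¬ IsInv 𝒱.ht P.1 →
    A P ≤ P.1 f := by
  classical
  induction A using Finsupp.induction with
  | zero => exact ⟨1, one_ne_zero, fun P _ => by simp⟩
  | single_add P₀ b A _ _ ih =>
    obtain ⟨f, hf, h⟩ := ih
    by_cases hni : IsInv 𝒱.ht P₀.1
    · refine ⟨f, hf, fun P hP => ?_⟩
      rw [Finsupp.add_apply, Finsupp.single_apply, if_neg (by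
        rintro rfl
        exact hP hni), zero_add]
      exact h P hP
    · obtain ⟨p, hp, hPp, hi⟩ := exists_polyVal 𝒱.stable P₀.2 hni
      have hp0 : aeval t p ≠ 0 := fun h => hp.ne_zero (𝒱.ht.indep (by rw [h, map_zero]))
      refine ⟨aeval t p ^ ⌈b⌉₊ * f, mul_ne_zero (pow_ne_zero _ hp0) hf, fun P hP => ?_⟩
      rw [DVal.map_mul _ (pow_ne_zero _ hp0) hf, DVal.map_pow, Finsupp.add_apply,
        Finsupp.single_apply]
      have h1 := h P hP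
      have h2 : 0 ≤ P.1 (aeval t p) := by
        obtain ⟨p', hp', hPp', hi'⟩ := exists_polyVal 𝒱.stable P.2 hP
        rw [hPp']
        exact polyVal_nonneg k 𝒱.ht hp' p
      have h3 : (0 : ℚ) ≤ P.1 (aeval t p) := by exact_mod_cast h2
      push_cast
      split_ifs with heq
      · have h4 : P.1 (aeval t p) = 1 := by
          rw [← heq, hPp, polyVal_self]
        rw [h4]
        have h5 := Nat.le_ceil b
        push_cast
        linarith
      · have h4 : (0 : ℚ) ≤ (⌈b⌉₊ : ℚ) * P.1 (aeval t p) := by positivity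
        linarith

/-- The upper bound on `X` for all `m`, in terms of invariant divisors. -/
lemma Red.upper {E : 𝒱.X.Div} (R : 𝒱.Red E) (A : 𝒱.X.Div) : ∃ A' : 𝒱.HH ⊕ 𝒱.JJ → ℚ,
    {j | A' (Sum.inr j) ≠ 0}.Finite ∧ ∀ m : ℕ,
      sdim (𝒱.X.H0 ((m : ℚ) • E + A)) ≤
        sdim (𝒱.data.secT (((m / R.M : ℕ) : ℚ) • 𝒱.res R.D + A')) := by
  classical
  have key : ∀ ρ : Fin R.M, ∃ A' : 𝒱.HH ⊕ 𝒱.JJ → ℚ, {j | A' (Sum.inr j) ≠ 0}.Finite ∧ ∀ n : ℕ,
      sdim (𝒱.X.H0 (((R.M * n + ρ : ℕ) : ℚ) • E + A)) ≤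
        sdim (𝒱.data.secT ((n : ℚ) • 𝒱.res R.D + A')) := by
    intro ρ
    obtain ⟨f, hf, h⟩ := exists_fun (𝒱 := 𝒱) (((ρ : ℕ) : ℚ) • E + A)
    set A₁ : 𝒱.X.primeDivisors → ℚ := fun P =>
      if IsInv 𝒱.ht P.1 then (((ρ : ℕ) : ℚ) • E + A) P - P.1 f else 0 with hA₁
    have hfin : {P | A₁ P ≠ 0}.Finite := by
      have h1 : {P : 𝒱.X.primeDivisors | P.1 f ≠ 0}.Finite := by
        apply Set.Finite.of_finite_image (f := fun P : 𝒱.X.primeDivisors => P.1) _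
          (Subtype.val_injective.injOn)
        apply (𝒱.X.finite_support hf).subset
        rintro _ ⟨P, hP, rfl⟩
        exact ⟨P.2, hP⟩
      apply (((((ρ : ℕ) : ℚ) • E + A).hasFiniteSupport).union h1).subset
      intro P hP
      by_contra hcon
      simp only [Set.mem_union, Function.mem_support, Set.mem_ofPred_eq, not_or,
        not_not] at hcon
      apply hP
      simp only [hA₁]
      rw [hcon.1, hcon.2]
      simp
    refine ⟨𝒱.res A₁, ?_, fun n => ?_⟩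
    · apply Set.Finite.of_finite_image (f := fun j : 𝒱.JJ => (⟨j.1, j.2.1⟩ : 𝒱.X.primeDivisors))
      · apply hfin.subset
        rintro _ ⟨j, hj, rfl⟩
        exact hj
      · intro j _ j' _ h
        exact Subtype.ext (congrArg (fun x : 𝒱.X.primeDivisors => x.1) h)
    · have hinv : 𝒱.InvDiv ((n : ℚ) • R.D + A₁) := by
        intro P hP
        rw [Pi.add_apply, Pi.smul_apply, R.inv P hP]
        simp only [hA₁]
        rw [if_neg hP]
        simp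
      rw [← 𝒱.res_smul, ← 𝒱.res_add, ← 𝒱.sdim_sec hinv]
      apply sdim_sec_le (R.G ^ n * f) (mul_ne_zero (pow_ne_zero _ R.G_ne) hf)
      intro P
      rw [DVal.map_mul _ (pow_ne_zero _ R.G_ne) hf, DVal.map_pow, Pi.add_apply, Pi.smul_apply,
        R.D_eq, Finsupp.add_apply, Finsupp.smul_apply, smul_eq_mul, smul_eq_mul]
      have h2 : (((ρ : ℕ) : ℚ) • E + A) P ≤ A₁ P + P.1 f := by
        simp only [hA₁]
        split_ifs with hP
        · linarith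
        · linarith [h P hP]
      rw [Finsupp.add_apply, Finsupp.smul_apply, smul_eq_mul] at h2
      push_cast
      linarith
  choose A' hA' hA'2 using key
  refine ⟨fun x => ∑ ρ, |A' ρ x|, ?_, fun m => ?_⟩
  · apply (Set.finite_iUnion hA').subset
    intro j hj
    rw [Set.mem_iUnion]
    by_contra hcon
    push Not at hcon
    apply hj
    apply Finset.sum_eq_zero
    intro ρ _
    have := hcon ρ
    simp only [Set.mem_ofPred_eq, not_not] at this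
    rw [this, abs_zero]
  · have h1 := hA'2 ⟨m % R.M, Nat.mod_lt _ R.M_pos⟩ (m / R.M)
    have h2 : R.M * (m / R.M) + m % R.M = m := Nat.div_add_mod m R.M
    simp only at h1
    rw [h2] at h1
    refine h1.trans (sdim_mono ?_)
    intro h hh u
    have h3 := hh u
    by_cases h0 : h u = 0
    · rw [h0]; exact Submodule.zero_mem _
    rw [TData.mem_wt h0] at h3 ⊢
    have h4 : ∀ x, A' ⟨m % R.M, Nat.mod_lt _ R.M_pos⟩ x ≤ ∑ ρ, |A' ρ x| := fun x =>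
      (le_abs_self _).trans (Finset.single_le_sum (f := fun ρ => |A' ρ x|)
        (fun ρ _ => abs_nonneg _) (Finset.mem_univ _))
    refine ⟨fun i => (h3.1 i).trans ?_, fun j => (h3.2 j).trans ?_⟩
    · have := h4 (Sum.inl i)
      simp only [Pi.add_apply] at this ⊢
      linarith
    · have := h4 (Sum.inr j)
      simp only [Pi.add_apply] at this ⊢
      linarith

variable [Fintype 𝒱.HH]

/-- The divisor on the base attached to the interior point. -/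
lemma G₀_finite {D : 𝒱.HH ⊕ 𝒱.JJ → ℚ} (hD : {j | D (Sum.inr j) ≠ 0}.Finite)
    (𝒢 : Geom 𝒱.data D) : {q | 𝒢.G₀ q ≠ 0}.Finite := by
  refine finite_base_image 𝒱.data (𝒱.data.special.union hD) fun q hq => ?_
  unfold Geom.G₀
  rw [low_eq_zero, mul_zero]
  intro j hj
  have := hq j hj
  simp only [Set.mem_union, Set.mem_ofPred_eq, not_or, not_not] at this
  exact ⟨this.1.1, this.2⟩

/-- The numerical dimension: upper bound. -/
theorem nu_le {E : 𝒱.X.Div} (R : 𝒱.Red E) (𝒢 : Geom 𝒱.data (𝒱.res R.D)) (DZ : 𝒱.Z.Div)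
    (hDZ : ∀ q, DZ q = 𝒢.G₀ q) (hint : 𝒱.Z.IsInt DZ) :
    𝒱.X.nu E ≤ 𝒢.s + 𝒱.Z.nu DZ := by
  classical
  unfold ProjVar.nu
  apply iSup_le
  intro A
  obtain ⟨A', hA', hA2⟩ := R.upper A
  obtain ⟨C, a, A'', ha, hA''f, hA''0, hA''⟩ := nu_upper 𝒢 R.finite' A' hA'
  -- an integral divisor on the base
  let AZ : 𝒱.Z.Div := Finsupp.onFinset hA''f.toFinset (fun q => (⌈A'' q⌉ : ℚ)) (by
    intro q hq
    rw [Set.Finite.mem_toFinset, Set.mem_ofPred_eq]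
    intro h
    rw [h] at hq
    simp at hq)
  have hAZ : ∀ q, AZ q = (⌈A'' q⌉ : ℚ) := fun q => rfl
  have hAZint : 𝒱.Z.IsInt AZ := fun q => ⟨⌈A'' q⌉, hAZ q⟩
  have hle : logGrowth (fun m => 𝒱.X.h0 ((m : ℚ) • E + A)) ≤
      (𝒢.s : EReal) + logGrowth (fun m => 𝒱.Z.h0 ((m : ℚ) • DZ + AZ)) := by
    apply logGrowth_le (C := C) (a := a) (c := 1) (φ := fun m => a * (m / R.M + 1))
    · apply tendsto_atTop_mono (f := fun m => m / R.M)
      · intro m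
        calc m / R.M ≤ m / R.M + 1 := Nat.le_succ _
          _ ≤ a * (m / R.M + 1) := Nat.le_mul_of_pos_left _ ha
      · exact Nat.tendsto_div_const_atTop R.M_pos.ne'
    · intro m
      exact Nat.mul_le_mul_left _ (Nat.add_le_add_right (Nat.div_le_self _ _) _)
    · filter_upwards [eventually_ge_atTop R.M] with m hm
      have hn : 1 ≤ m / R.M := (Nat.one_le_div_iff R.M_pos).2 hm
      have h1 := (𝒱.X.h0_le ((m : ℚ) • E + A)).trans (hA2 m)
      have h2 := h1.trans (hA'' (m / R.M) hn)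
      refine h2.trans ?_
      have h3 : sdim (sec 𝒱.data.ord (((a * (m / R.M + 1) : ℕ) : ℚ) • 𝒢.G₀ + A'')) ≤
          𝒱.Z.h0 (((a * (m / R.M + 1) : ℕ) : ℚ) • DZ + AZ) := by
        rw [𝒱.Z.h0_of_int ((hint.nsmul _).add hAZint)]
        apply sdim_mono
        apply sec_mono
        intro q
        rw [Finsupp.add_apply, Finsupp.smul_apply, hAZ, hDZ, Pi.add_apply, Pi.smul_apply]
        have := Int.le_ceil (A'' q)
        linarith
      have h4 : ((m / R.M : ℕ) : ℕ∞) ≤ m := by exact_mod_cast Nat.div_le_self _ _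
      gcongr
  refine hle.trans ?_
  gcongr
  exact le_iSup (fun A => logGrowth fun m => 𝒱.Z.h0 ((m : ℚ) • DZ + A)) AZ

omit [Fintype 𝒱.HH] in
/-- The pull back of a divisor on the base. -/
noncomputable def pullFun (𝒱 : TV k K t) (A : 𝒱.QQ → ℚ) (P : 𝒱.X.primeDivisors) : ℚ :=
  open Classical in
  if h : ∃ a : K, P.1 (algebraMap K L a) ≠ 0 then
    mult (⟨P.1, P.2, h⟩ : 𝒱.JJ) * A (base (⟨P.1, P.2, h⟩ : 𝒱.JJ)) else 0

omit [Fintype 𝒱.HH] in
lemma pullFun_vert (A : 𝒱.QQ → ℚ) (j : 𝒱.JJ) :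
    pullFun 𝒱 A ⟨j.1, j.2.1⟩ = mult j * A (base j) := by
  unfold pullFun
  rw [dif_pos j.2.2]

omit [Fintype 𝒱.HH] in
lemma pullFun_of_trivial (A : 𝒱.QQ → ℚ) {P : 𝒱.X.primeDivisors}
    (h : ∀ a : K, P.1 (algebraMap K L a) = 0) : pullFun 𝒱 A P = 0 := by
  unfold pullFun
  rw [dif_neg]
  push Not
  exact h

omit [Fintype 𝒱.HH] in
lemma res_pullFun (A : 𝒱.QQ → ℚ) : 𝒱.res (pullFun 𝒱 A) = pull 𝒱.data A := by
  funext x
  cases x with
  | inl i => exact pullFun_of_trivial A i.2.2.2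
  | inr j => exact pullFun_vert A j

omit [Fintype 𝒱.HH] in
lemma pullFun_finite {A : 𝒱.QQ → ℚ} (hA : {q | A q ≠ 0}.Finite) :
    {P | pullFun 𝒱 A P ≠ 0}.Finite := by
  have h1 : (⋃ q ∈ {q | A q ≠ 0}, (fun j : 𝒱.JJ => (⟨j.1, j.2.1⟩ : 𝒱.X.primeDivisors)) ''
      {j : 𝒱.JJ | base j = q}).Finite := hA.biUnion fun q _ => (𝒱.fib q).image _
  apply h1.subset
  intro P hP
  by_cases h : ∃ a : K, P.1 (algebraMap K L a) ≠ 0
  · rw [Set.mem_iUnion₂]
    refine ⟨base ⟨P.1, P.2, h⟩, ?_, ⟨P.1, P.2, h⟩, rfl, rfl⟩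
    intro h0
    apply hP
    have := pullFun_vert A (⟨P.1, P.2, h⟩ : 𝒱.JJ)
    rw [h0, mul_zero] at this
    exact this
  · push Not at h
    exact absurd (pullFun_of_trivial A h) hP

omit [Fintype 𝒱.HH] in
lemma pullFun_inv (A : 𝒱.QQ → ℚ) : 𝒱.InvDiv (pullFun 𝒱 A) := by
  intro P hP
  apply pullFun_of_trivial
  intro a
  by_contra h
  exact hP (isInv_of_algebraMap 𝒱.stable P.2 h)

omit [Fintype 𝒱.HH] in
/-- The pull back as a divisor. -/
noncomputable def pullDiv (A : 𝒱.Z.Div) : 𝒱.X.Div :=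
  Finsupp.onFinset (pullFun_finite (𝒱 := 𝒱) (A := A) A.hasFiniteSupport).toFinset
    (pullFun 𝒱 A) (by
      intro P hP
      rw [Set.Finite.mem_toFinset]
      exact hP)

omit [Fintype 𝒱.HH] in
lemma pullDiv_apply (A : 𝒱.Z.Div) (P : 𝒱.X.primeDivisors) : pullDiv A P = pullFun 𝒱 A P := rfl

omit [Fintype 𝒱.HH] in
lemma pullDiv_int {A : 𝒱.Z.Div} (hA : 𝒱.Z.IsInt A) : 𝒱.X.IsInt (pullDiv A) := by
  intro P
  rw [pullDiv_apply]
  by_cases h : ∃ a : K, P.1 (algebraMap K L a) ≠ 0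
  · obtain ⟨z, hz⟩ := hA (base ⟨P.1, P.2, h⟩)
    refine ⟨mult (⟨P.1, P.2, h⟩ : 𝒱.JJ) * z, ?_⟩
    have := pullFun_vert A (⟨P.1, P.2, h⟩ : 𝒱.JJ)
    rw [hz] at this
    rw [this]
    push_cast
    rfl
  · push Not at h
    exact ⟨0, by rw [pullFun_of_trivial A h]; simp⟩

omit [Fintype 𝒱.HH] in
/-- Invariant divisors give divisors on `X`. -/
lemma Red.lower {E : 𝒱.X.Div} (R : 𝒱.Red E) (A : 𝒱.Z.Div) (n : ℕ) :
    sdim (𝒱.data.secT ((n : ℚ) • 𝒱.res R.D + pull 𝒱.data A)) ≤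
      sdim (𝒱.X.H0 (((R.M * n : ℕ) : ℚ) • E + pullDiv A)) := by
  have hinv : 𝒱.InvDiv ((n : ℚ) • R.D + pullFun 𝒱 A) := by
    intro P hP
    rw [Pi.add_apply, Pi.smul_apply, R.inv P hP, pullFun_inv A P hP]
    simp
  rw [← res_pullFun, ← 𝒱.res_smul, ← 𝒱.res_add, ← 𝒱.sdim_sec hinv]
  apply sdim_sec_le (R.G ^ n)⁻¹ (inv_ne_zero (pow_ne_zero _ R.G_ne))
  intro P
  rw [DVal.map_inv, DVal.map_pow, Pi.add_apply, Pi.smul_apply, R.D_eq, Finsupp.add_apply,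
    Finsupp.smul_apply, smul_eq_mul, smul_eq_mul, pullDiv_apply]
  push_cast
  linarith

/-- The exact lower bound. -/
lemma lower_h0 {E : 𝒱.X.Div} (R : 𝒱.Red E) (𝒢 : Geom 𝒱.data (𝒱.res R.D)) (DZ : 𝒱.Z.Div)
    (hDZ : ∀ q, DZ q = 𝒢.G₀ q) (hint : 𝒱.Z.IsInt DZ) (A : 𝒱.Z.Div) (n : ℕ) :
    (n : ℕ∞) ^ 𝒢.s * 𝒱.Z.h0 ((n : ℚ) • DZ + A) ≤
      𝒱.X.h0 ((((R.M * ((𝒢.s + 1) * 𝒢.T)) * n : ℕ) : ℚ) • E + pullDiv A) := by
  by_cases hA : 𝒱.Z.IsInt ((n : ℚ) • DZ + A)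
  · have hA' : 𝒱.Z.IsInt A := by
      have h1 := hA.sub (hint.nsmul n)
      rwa [add_sub_cancel_left] at h1
    have hX : 𝒱.X.IsInt ((((R.M * ((𝒢.s + 1) * 𝒢.T)) * n : ℕ) : ℚ) • E + pullDiv A) := by
      apply ProjVar.IsInt.add _ (pullDiv_int hA')
      have h1 := R.int.nsmul (((𝒢.s + 1) * 𝒢.T) * n)
      rw [smul_smul] at h1
      have h2 : (((R.M * ((𝒢.s + 1) * 𝒢.T)) * n : ℕ) : ℚ) =
          ((((𝒢.s + 1) * 𝒢.T) * n : ℕ) : ℚ) * R.M := by push_cast; ring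
      rwa [h2]
    rw [𝒱.Z.h0_of_int hA, 𝒱.X.h0_of_int hX]
    have h1 := Weak.lower 𝒢 A n
    have h2 := R.lower A ((𝒢.s + 1) * 𝒢.T * n)
    rw [mul_assoc]
    refine le_trans ?_ (h1.trans h2)
    gcongr
    apply sdim_mono
    apply sec_mono
    intro q
    rw [Finsupp.add_apply, Finsupp.smul_apply, hDZ, Pi.add_apply, Pi.smul_apply]
  · have : 𝒱.Z.h0 ((n : ℚ) • DZ + A) = 0 := by
      unfold ProjVar.h0
      rw [if_neg hA]
    rw [this, mul_zero]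
    exact zero_le

/-- The numerical dimension: lower bound. -/
theorem le_nu {E : 𝒱.X.Div} (R : 𝒱.Red E) (𝒢 : Geom 𝒱.data (𝒱.res R.D)) (DZ : 𝒱.Z.Div)
    (hDZ : ∀ q, DZ q = 𝒢.G₀ q) (hint : 𝒱.Z.IsInt DZ) :
    𝒢.s + 𝒱.Z.nu DZ ≤ 𝒱.X.nu E := by
  rw [add_comm, ← EReal.le_sub_iff_add_le (Or.inl (EReal.natCast_ne_bot _))
    (Or.inl (EReal.natCast_ne_top _))]
  unfold ProjVar.nu
  apply iSup_le
  intro A
  rw [EReal.le_sub_iff_add_le (Or.inl (EReal.natCast_ne_bot _))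
    (Or.inl (EReal.natCast_ne_top _)), add_comm]
  have h1 : (𝒢.s : EReal) + logGrowth (fun m => 𝒱.Z.h0 ((m : ℚ) • DZ + A)) ≤
      logGrowth (fun m => 𝒱.X.h0 ((m : ℚ) • E + pullDiv A)) := by
    apply le_logGrowth (a := R.M * ((𝒢.s + 1) * 𝒢.T))
    · exact Nat.mul_pos R.M_pos (Nat.mul_pos (Nat.succ_pos _) 𝒢.T_pos)
    · intro n _
      exact lower_h0 R 𝒢 DZ hDZ hint A n
  exact h1.trans (le_iSup (fun A => logGrowth fun m => 𝒱.X.h0 ((m : ℚ) • E + A)) (pullDiv A))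

/-- The numerical dimension. -/
theorem nu_eq {E : 𝒱.X.Div} (R : 𝒱.Red E) (𝒢 : Geom 𝒱.data (𝒱.res R.D)) (DZ : 𝒱.Z.Div)
    (hDZ : ∀ q, DZ q = 𝒢.G₀ q) (hint : 𝒱.Z.IsInt DZ) :
    𝒱.X.nu E = 𝒢.s + 𝒱.Z.nu DZ :=
  le_antisymm (nu_le R 𝒢 DZ hDZ hint) (le_nu R 𝒢 DZ hDZ hint)

omit [Fintype 𝒱.HH] in
/-- Sections of multiples of `M E`. -/
lemma Red.exact {E : 𝒱.X.Div} (R : 𝒱.Red E) (n : ℕ) :
    sdim (𝒱.X.H0 (((R.M * n : ℕ) : ℚ) • E)) ≤ sdim (𝒱.data.secT ((n : ℚ) • 𝒱.res R.D)) := by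
  have hinv : 𝒱.InvDiv ((n : ℚ) • R.D) := by
    intro P hP
    rw [Pi.smul_apply, R.inv P hP, smul_zero]
  rw [← 𝒱.res_smul, ← 𝒱.sdim_sec hinv]
  apply sdim_sec_le (R.G ^ n) (pow_ne_zero _ R.G_ne)
  intro P
  rw [DVal.map_pow, Pi.smul_apply, R.D_eq, Finsupp.smul_apply, smul_eq_mul, smul_eq_mul]
  push_cast
  linarith

lemma mono_G₀ {D : 𝒱.HH ⊕ 𝒱.JJ → ℚ} (𝒢 : Geom 𝒱.data D) {i j : ℕ} (hij : i ≤ j) :
    sdim (sec 𝒱.data.ord ((i : ℚ) • 𝒢.G₀)) ≤ sdim (sec 𝒱.data.ord ((j : ℚ) • 𝒢.G₀)) := by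
  have hg : 𝒢.g₀ ∈ sec 𝒱.data.ord 𝒢.G₀ := by
    have h1 := 𝒢.g₀_mem
    rw [TData.wt_eq] at h1
    · have h2 : 𝒱.data.low ((𝒢.T : ℚ) • D) ((𝒢.T : ℚ) • 𝒢.u₀) = 𝒢.G₀ := by
        funext q
        rw [TData.low_smul (by positivity)]
        rfl
      rwa [h2] at h1
    · intro i
      have h2 := 𝒢.h0 i
      have h3 : (0 : ℚ) ≤ 𝒢.T := by positivity
      have h4 := mul_nonneg h3 h2
      rw [map_smul, Pi.smul_apply, smul_eq_mul, smul_eq_mul]
      linarith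
  rw [mem_sec_of_ne 𝒢.g₀_ne] at hg
  apply sdim_sec_le (𝒢.g₀ ^ (j - i)) (pow_ne_zero _ 𝒢.g₀_ne)
  intro q
  rw [DVal.map_pow, Pi.smul_apply, Pi.smul_apply, smul_eq_mul, smul_eq_mul]
  have h1 := hg q
  have h2 : ((j - i : ℕ) : ℚ) = j - i := by rw [Nat.cast_sub hij]
  have h3 : (0 : ℚ) ≤ (j : ℚ) - i := by
    have : (i : ℚ) ≤ j := by exact_mod_cast hij
    linarith
  push_cast
  rw [h2]
  have h4 := mul_nonneg h3 h1
  linarith

/-- The Kodaira dimension. -/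
theorem kod_eq {E : 𝒱.X.Div} (R : 𝒱.Red E) (𝒢 : Geom 𝒱.data (𝒱.res R.D)) (DZ : 𝒱.Z.Div)
    (hDZ : ∀ q, DZ q = 𝒢.G₀ q) (hint : 𝒱.Z.IsInt DZ) :
    𝒱.X.kod E = 𝒢.s + 𝒱.Z.kod DZ := by
  classical
  obtain ⟨C, a, c₀, ha, hup⟩ := kappa_upper 𝒢
  obtain ⟨c, hc⟩ := exists_mult_bound (ord := fun P : 𝒱.X.primeDivisors => P.1) E R.M R.M_pos
  unfold ProjVar.kod
  apply kodDim_eq (C := C * (1 + c) ^ 𝒢.s) (a := a) (c := c + c₀)
    (a' := R.M * ((𝒢.s + 1) * 𝒢.T)) (φ := fun m => a * (m + (c + c₀)))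
  · exact Nat.mul_pos R.M_pos (Nat.mul_pos (Nat.succ_pos _) 𝒢.T_pos)
  · apply tendsto_atTop_mono (f := fun m => m)
    · intro m
      calc m ≤ m + (c + c₀) := Nat.le_add_right _ _
        _ ≤ a * (m + (c + c₀)) := Nat.le_mul_of_pos_left _ ha
    · exact tendsto_id
  · intro m; exact le_rfl
  · intro m hm _
    exact Nat.mul_pos ha (by omega)
  · intro m hm
    obtain ⟨n, hn1, hnm, hn2⟩ := hc m hm
    have h1 : 𝒱.X.h0 ((m : ℚ) • E) ≤ sdim (sec 𝒱.data.ord (((a * (n + c₀) : ℕ) : ℚ) • 𝒢.G₀)) *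
        (C * (n : ℕ∞) ^ 𝒢.s) := by
      refine (𝒱.X.h0_le _).trans ?_
      rw [mul_comm]
      refine le_trans ?_ ((R.exact n).trans (hup n hn1))
      exact hn2
    have h2 : sdim (sec 𝒱.data.ord (((a * (n + c₀) : ℕ) : ℚ) • 𝒢.G₀)) ≤
        𝒱.Z.h0 (((a * (m + (c + c₀)) : ℕ) : ℚ) • DZ) := by
      rw [𝒱.Z.h0_of_int (hint.nsmul _)]
      refine (mono_G₀ 𝒢 (j := a * (m + (c + c₀))) (Nat.mul_le_mul_left _ (by omega))).trans ?_
      apply sdim_mono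
      apply sec_mono
      intro q
      rw [Finsupp.smul_apply, hDZ, Pi.smul_apply]
    have h3 : (n : ℕ∞) ^ 𝒢.s ≤ (1 + c) ^ 𝒢.s * (m : ℕ∞) ^ 𝒢.s := by
      rw [← mul_pow]
      gcongr
      have h4 : n ≤ (1 + c) * m := by nlinarith
      exact_mod_cast h4
    refine h1.trans ?_
    calc sdim (sec 𝒱.data.ord (((a * (n + c₀) : ℕ) : ℚ) • 𝒢.G₀)) * (C * (n : ℕ∞) ^ 𝒢.s) ≤
        𝒱.Z.h0 (((a * (m + (c + c₀)) : ℕ) : ℚ) • DZ) *
          (C * ((1 + c) ^ 𝒢.s * (m : ℕ∞) ^ 𝒢.s)) := by gcongr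
      _ = _ := by push_cast; ring
  · intro n _
    have h1 := lower_h0 R 𝒢 DZ hDZ hint 0 n
    rw [add_zero] at h1
    have h2 : pullDiv (𝒱 := 𝒱) 0 = 0 := by
      ext P
      rw [pullDiv_apply]
      unfold pullFun
      split_ifs <;> simp
    rwa [h2, add_zero] at h1
  · intro j m hj hm h
    have hm' := hint.nsmul m
    have hjm := hint.nsmul (j * m)
    rw [𝒱.Z.h0_of_int hm'] at h
    rw [𝒱.Z.h0_of_int hjm]
    rw [sdim_ne_zero] at h ⊢
    obtain ⟨f, hf, hf0⟩ := h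
    refine ⟨f ^ j, ?_, pow_ne_zero _ hf0⟩
    have h1 := pow_mem_sec hf0 hf j
    have h2 : (j : ℚ) • ((((m : ℚ) • DZ : 𝒱.Z.Div)) : 𝒱.Z.primeDivisors → ℚ) =
        ((((j * m : ℕ) : ℚ) • DZ : 𝒱.Z.Div) : 𝒱.Z.primeDivisors → ℚ) := by
      funext q
      simp only [Pi.smul_apply, Finsupp.smul_apply, smul_eq_mul]
      push_cast
      ring
    rw [h2] at h1
    exact h1

/-- The case of an empty polytope. -/
theorem empty_case {E : 𝒱.X.Div} (R : 𝒱.Red E)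
    (hP : ¬ ∃ u, InP 𝒱.data (𝒱.res R.D) u) : 𝒱.X.kod E = ⊥ ∧ 𝒱.X.nu E = ⊥ := by
  classical
  constructor
  · unfold ProjVar.kod kodDim
    rw [if_pos]
    intro m hm
    by_contra hne
    have h1 : sdim (𝒱.X.H0 ((m : ℚ) • E)) ≠ 0 := by
      intro h0
      have := 𝒱.X.h0_le ((m : ℚ) • E)
      rw [h0] at this
      exact hne (le_antisymm this zero_le)
    rw [sdim_ne_zero] at h1
    obtain ⟨f, hf, hf0⟩ := h1
    have h2 := pow_mem_sec hf0 hf R.M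
    have h3 : (R.M : ℚ) • ((((m : ℚ) • E : 𝒱.X.Div)) : 𝒱.X.primeDivisors → ℚ) =
        ((((R.M * m : ℕ) : ℚ) • E : 𝒱.X.Div) : 𝒱.X.primeDivisors → ℚ) := by
      funext q
      simp only [Pi.smul_apply, Finsupp.smul_apply, smul_eq_mul]
      push_cast
      ring
    rw [h3] at h2
    have h4 : sdim (𝒱.X.H0 (((R.M * m : ℕ) : ℚ) • E)) ≠ 0 := by
      rw [sdim_ne_zero]
      exact ⟨_, h2, pow_ne_zero _ hf0⟩
    have h5 : sdim (𝒱.data.secT ((m : ℚ) • 𝒱.res R.D)) ≠ 0 := by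
      intro h0
      have := R.exact m
      rw [h0] at this
      exact h4 (le_antisymm this zero_le)
    rw [sdim_ne_zero] at h5
    obtain ⟨h, hh, hh0⟩ := h5
    obtain ⟨u, hu⟩ := Finsupp.ne_iff.1 hh0
    rw [Finsupp.zero_apply] at hu
    have h6 := hh u
    rw [TData.mem_wt hu] at h6
    apply hP
    have hm0 : (0 : ℚ) < m := by exact_mod_cast hm
    refine ⟨(m : ℚ)⁻¹ • fun l => (u l : ℚ), fun i => ?_⟩
    have h7 := h6.1 i
    rw [map_smul, smul_eq_mul]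
    rw [Pi.smul_apply, smul_eq_mul] at h7
    have h8 := mul_nonneg (inv_nonneg.2 hm0.le) h7
    rw [mul_add, ← mul_assoc _ (m : ℚ), inv_mul_cancel₀ hm0.ne', one_mul] at h8
    exact h8
  · unfold ProjVar.nu
    rw [iSup_eq_bot]
    intro A
    apply logGrowth_eq_bot
    obtain ⟨A', -, hA⟩ := R.upper A
    obtain ⟨m₀, hm₀⟩ := poly_empty (fun i => pairL (𝒱.data.ρ i))
      (fun i => 𝒱.res R.D (Sum.inl i)) hP (fun i => A' (Sum.inl i))
    filter_upwards [eventually_ge_atTop (R.M * m₀)] with m hm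
    have hn : m₀ ≤ m / R.M := by
      rw [Nat.le_div_iff_mul_le R.M_pos, mul_comm]
      exact hm
    have h1 : sdim (𝒱.data.secT (((m / R.M : ℕ) : ℚ) • 𝒱.res R.D + A')) = 0 := by
      rw [sdim_eq_zero, Submodule.eq_bot_iff]
      intro h hh
      ext u
      by_contra hu
      have h6 := hh u
      rw [TData.mem_wt hu] at h6
      apply hm₀ _ hn
      refine ⟨fun l => (u l : ℚ), fun i => ?_⟩
      have h7 := h6.1 i
      rw [Pi.add_apply, Pi.smul_apply, smul_eq_mul] at h7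
      linarith
    have h2 := (𝒱.X.h0_le ((m : ℚ) • E + A)).trans (hA m)
    rw [h1] at h2
    exact le_antisymm h2 zero_le

end TV

end Pool.Agent.Helper92.Weak
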