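import Pool.Agent.Helper92.Weak.Core

set_option autoImplicit false

/-! The comparison of section spaces on a variety with torus action and on the base. -/

namespace Pool.Agent.Helper92.Weak

open Module

variable {k K : Type*} [Field k] [Field K] [Algebra k K] {r : ℕ} {Q H J : Type*}

/-- The polytope of a divisor. -/
def InP (𝒯 : TData k K r Q H J) (D : H ⊕ J → ℚ) (u : Fin r → ℚ) : Prop :=
  ∀ i, 0 ≤ pairL (𝒯.ρ i) u + D (Sum.inl i)

/-- Auxiliary data: a basis adapted to the polytope of `D`, and sections. -/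
structure Geom (𝒯 : TData k K r Q H J) (D : H ⊕ J → ℚ) where
  u₀ : Fin r → ℚ
  s : ℕ
  t : ℕ
  b : Basis (Fin s ⊕ Fin t) ℚ (Fin r → ℚ)
  h0 : InP 𝒯 D u₀
  haff : ∀ u, InP 𝒯 D u → ∀ j, b.repr (u - u₀) (Sum.inr j) = 0
  ε : ℚ
  ε_pos : 0 < ε
  hε₁ : ∀ j, InP 𝒯 D (u₀ + ε • b (Sum.inl j))
  hε₂ : ∀ j, InP 𝒯 D (u₀ - ε • b (Sum.inl j))
  hbd : ∀ α : H → ℚ, ∃ C : ℚ, 0 ≤ C ∧ ∀ m : ℕ, 1 ≤ m → ∀ u : Fin r → ℚ,
    (∀ i, 0 ≤ pairL (𝒯.ρ i) u + m * D (Sum.inl i) + α i) →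
    (∀ j, |b.repr (u - (m : ℚ) • u₀) (Sum.inl j)| ≤ C * m) ∧
    (∀ j, |b.repr (u - (m : ℚ) • u₀) (Sum.inr j)| ≤ C)
  T : ℕ
  T_pos : 0 < T
  g₀ : K
  g₀_ne : g₀ ≠ 0
  g₀_mem : g₀ ∈ 𝒯.wt ((T : ℚ) • D) ((T : ℚ) • u₀)
  g₁ : Fin s → K
  g₁_ne : ∀ j, g₁ j ≠ 0
  g₁_mem : ∀ j, g₁ j ∈ 𝒯.wt ((T : ℚ) • D) ((T : ℚ) • (u₀ + ε • b (Sum.inl j)))
  g₂ : Fin s → K
  g₂_ne : ∀ j, g₂ j ≠ 0
  g₂_mem : ∀ j, g₂ j ∈ 𝒯.wt ((T : ℚ) • D) ((T : ℚ) • (u₀ - ε • b (Sum.inl j)))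
  int₀ : ∃ z : Fin r → ℤ, (T : ℚ) • u₀ = fun l => (z l : ℚ)
  int₁ : ∀ j, ∃ z : Fin r → ℤ, (T : ℚ) • (u₀ + ε • b (Sum.inl j)) = fun l => (z l : ℚ)
  int_low : ∀ q, ∃ z : ℤ, (T : ℚ) * 𝒯.low D u₀ q = z

/-- A finite set of rational numbers has a common denominator. -/
lemma exists_common_den {ι : Type*} (s : Finset ι) (x : ι → ℚ) :
    ∃ n : ℕ, 0 < n ∧ ∀ i ∈ s, ∃ z : ℤ, (n : ℚ) * x i = z := by
  classical
  refine ⟨∏ i ∈ s, (x i).den, Finset.prod_pos fun i _ => (x i).den_pos, fun i hi => ?_⟩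
  obtain ⟨c, hc⟩ := Finset.dvd_prod_of_mem (fun i => (x i).den) hi
  refine ⟨c * (x i).num, ?_⟩
  rw [hc]
  push_cast
  have h1 : ((x i).den : ℚ) * x i = (x i).num := by
    rw [mul_comm]; exact Rat.mul_den_eq_num (x i)
  calc ((x i).den : ℚ) * c * x i = c * (((x i).den : ℚ) * x i) := by ring
    _ = c * (x i).num := by rw [h1]

/-- A section for a multiple. -/
lemma wt_multiple {𝒯 : TData k K r Q H J} {D : H ⊕ J → ℚ} {u : Fin r → ℚ} {T₁ : ℕ} {g : K}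
    (hg0 : g ≠ 0) (hg : g ∈ 𝒯.wt ((T₁ : ℚ) • D) ((T₁ : ℚ) • u)) {T : ℕ} (h : T₁ ∣ T) :
    ∃ g' : K, g' ≠ 0 ∧ g' ∈ 𝒯.wt ((T : ℚ) • D) ((T : ℚ) • u) := by
  obtain ⟨n, rfl⟩ := h
  refine ⟨g ^ n, pow_ne_zero n hg0, ?_⟩
  have := TData.pow_mem_wt hg hg0 n
  rw [smul_smul, smul_smul] at this
  have h2 : ((T₁ * n : ℕ) : ℚ) = (n : ℚ) * T₁ := by push_cast; ring
  rwa [h2]

theorem exists_geom [Fintype H] (𝒯 : TData k K r Q H J) (D : H ⊕ J → ℚ) (hD : {j | D (Sum.inr j) ≠ 0}.Finite)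
    (hEff : ∀ u, InP 𝒯 D u → ∃ T : ℕ, 0 < T ∧ ∃ g : K, g ≠ 0 ∧
      g ∈ 𝒯.wt ((T : ℚ) • D) ((T : ℚ) • u))
    (hP : ∃ u, InP 𝒯 D u) : ∃ u₀, InP 𝒯 D u₀ ∧ ∀ T₀ : ℕ, 0 < T₀ →
      ∃ 𝒢 : Geom 𝒯 D, 𝒢.u₀ = u₀ ∧ T₀ ∣ 𝒢.T := by
  classical
  have hsep : ∀ z, (∀ i, pairL (𝒯.ρ i) z = 0) → z = 0 := fun z hz =>
    𝒯.complete z fun i => (hz i).ge
  have hneg : ∀ i, ∃ c : H → ℚ, (∀ j, 0 ≤ c j) ∧ -pairL (𝒯.ρ i) = ∑ j, c j • pairL (𝒯.ρ j) := by
    intro i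
    rcases farkas (Finset.univ : Finset H) (fun j => pairL (𝒯.ρ j)) (-pairL (𝒯.ρ i)) with
      ⟨c, hc, h⟩ | ⟨y, hy, hyb⟩
    · exact ⟨c, fun j => hc j (Finset.mem_univ j), h⟩
    · exfalso
      -- `y` is evaluation at a vector
      have hev : ∃ z : Fin r → ℚ, ∀ φ : (Fin r → ℚ) →ₗ[ℚ] ℚ, y φ = φ z := by
        refine ⟨fun l => y (LinearMap.proj l), fun φ => ?_⟩
        have h1 : φ = ∑ l, φ (Pi.single l 1) • (LinearMap.proj l : (Fin r → ℚ) →ₗ[ℚ] ℚ) := by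
          apply LinearMap.ext
          intro u
          rw [LinearMap.sum_apply]
          simp only [LinearMap.smul_apply, LinearMap.proj_apply, smul_eq_mul]
          conv_lhs => rw [pi_eq_sum_univ' u]
          rw [map_sum]
          refine Finset.sum_congr rfl fun l _ => ?_
          rw [map_smul, smul_eq_mul, mul_comm]
        conv_rhs => rw [h1]
        rw [LinearMap.sum_apply]
        conv_lhs => rw [h1]
        rw [map_sum]
        refine Finset.sum_congr rfl fun l _ => ?_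
        rw [map_smul, LinearMap.smul_apply, LinearMap.proj_apply]
      obtain ⟨z, hz⟩ := hev
      have hz0 : z = 0 := by
        apply 𝒯.complete
        intro j
        rw [← hz]
        exact hy j (Finset.mem_univ j)
      rw [hz, hz0] at hyb
      simp at hyb
  obtain ⟨u₀, s, t, b, h0, bint, haff, ⟨ε, hε, hεb⟩, hbd⟩ :=
    poly_geometry (fun i => pairL (𝒯.ρ i)) (fun i => D (Sum.inl i)) hneg hsep hP
  refine ⟨u₀, h0, fun T₀ hT₀ => ?_⟩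
  -- the points
  let p : Option (Fin s × Bool) → Fin r → ℚ := fun o => o.elim u₀ fun jb =>
    if jb.2 then u₀ + ε • b (Sum.inl jb.1) else u₀ - ε • b (Sum.inl jb.1)
  have hp : ∀ o, InP 𝒯 D (p o) := by
    intro o
    cases o with
    | none => exact h0
    | some jb =>
      obtain ⟨j, bo⟩ := jb
      cases bo
      · exact (hεb j).2
      · exact (hεb j).1
  choose T₁ hT₁ g hg0 hg using fun o => hEff (p o) (hp o)
  obtain ⟨n₁, hn₁, hint⟩ := exists_int_multiple_family p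
  -- the denominators of `low`
  have hbad : ({j | 𝒯.w j ≠ 0 ∨ 𝒯.e j ≠ 1} ∪ {j | D (Sum.inr j) ≠ 0}).Finite :=
    𝒯.special.union hD
  obtain ⟨n₃, hn₃, hlow'⟩ := exists_common_den hbad.toFinset
    (fun j => (pairL (𝒯.w j) u₀ + D (Sum.inr j)) / 𝒯.e j)
  obtain ⟨n₂, hn₂, hn₂T, hlow⟩ : ∃ n₂ : ℕ, 0 < n₂ ∧ T₀ ∣ n₂ ∧ ∀ j ∈ hbad.toFinset, ∃ z : ℤ,
      (n₂ : ℚ) * ((pairL (𝒯.w j) u₀ + D (Sum.inr j)) / 𝒯.e j) = z := by
    refine ⟨n₃ * T₀, Nat.mul_pos hn₃ hT₀, Dvd.intro_left _ rfl, fun j hj => ?_⟩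
    obtain ⟨z, hz⟩ := hlow' j hj
    refine ⟨T₀ * z, ?_⟩
    push_cast
    rw [← hz]
    ring
  set T : ℕ := (∏ o, T₁ o) * (n₁ * n₂) with hT
  have hTpos : 0 < T := Nat.mul_pos (Finset.prod_pos fun o _ => hT₁ o) (Nat.mul_pos hn₁ hn₂)
  have hdvd : ∀ o, T₁ o ∣ T := fun o =>
    (Finset.dvd_prod_of_mem T₁ (Finset.mem_univ o)).mul_right _
  have hsec : ∀ o, ∃ g' : K, g' ≠ 0 ∧ g' ∈ 𝒯.wt ((T : ℚ) • D) ((T : ℚ) • p o) := fun o =>
    wt_multiple (hg0 o) (hg o) (hdvd o)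
  have hint' : ∀ o, ∃ z : Fin r → ℤ, (T : ℚ) • p o = fun l => (z l : ℚ) := by
    intro o
    obtain ⟨z, hz⟩ := hint o
    refine ⟨fun l => ((∏ o, T₁ o) * n₂ : ℕ) * z l, ?_⟩
    funext l
    have h1 := congrFun hz l
    simp only [Pi.smul_apply, smul_eq_mul] at h1 ⊢
    rw [hT]
    push_cast
    rw [← h1]
    ring
  choose g' hg'0 hg' using hsec
  refine ⟨⟨u₀, s, t, b, h0, haff, ε, hε, fun j => (hεb j).1, fun j => (hεb j).2, hbd, T, hTpos,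
    g' none, hg'0 none, hg' none, fun j => g' (some (j, true)), fun j => hg'0 _, ?_,
    fun j => g' (some (j, false)), fun j => hg'0 _, ?_, hint' none, ?_, ?_⟩, rfl,
    (hn₂T.mul_left n₁).mul_left _⟩
  · intro j
    have := hg' (some (j, true))
    simpa [p] using this
  · intro j
    have := hg' (some (j, false))
    simpa [p] using this
  · intro j
    have := hint' (some (j, true))
    simpa [p] using this
  · intro q
    obtain ⟨j, hj, h⟩ := TData.exists_low (𝒯 := 𝒯) D u₀ q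
    have hej : (𝒯.e j : ℚ) ≠ 0 := by exact_mod_cast (𝒯.e_pos j).ne'
    have h2 : 𝒯.low D u₀ q = (pairL (𝒯.w j) u₀ + D (Sum.inr j)) / 𝒯.e j := by
      rw [eq_div_iff hej, mul_comm]; exact h
    by_cases hjb : j ∈ hbad.toFinset
    · obtain ⟨z, hz⟩ := hlow j hjb
      refine ⟨(∏ o, T₁ o : ℕ) * n₁ * z, ?_⟩
      rw [h2, hT]
      push_cast
      rw [← hz]
      ring
    · have h3 : j ∉ ({j | 𝒯.w j ≠ 0 ∨ 𝒯.e j ≠ 1} ∪ {j | D (Sum.inr j) ≠ 0}) := by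
        simpa using hjb
      simp only [Set.mem_union, Set.mem_ofPred_eq, not_or, not_not] at h3
      refine ⟨0, ?_⟩
      rw [h2, h3.1.1, h3.2]
      simp

/-- Bound for the space of all sections. -/
lemma sdim_secT_le {𝒯 : TData k K r Q H J} {D : H ⊕ J → ℚ} (S : Finset (Fin r → ℤ))
    (hS : ∀ u : Fin r → ℤ, u ∉ S → 𝒯.wt D (fun l => (u l : ℚ)) = ⊥) (W : Submodule k K)
    (hW : ∀ u : Fin r → ℤ, u ∈ S → ∃ P : K, P ≠ 0 ∧ ∀ f ∈ 𝒯.wt D (fun l => (u l : ℚ)),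
      f * P ∈ W) : sdim (𝒯.secT D) ≤ S.card * sdim W := by
  classical
  choose P hP0 hP using hW
  let F : 𝒯.secT D →ₗ[k] (S → W) :=
    { toFun := fun h u => ⟨h.1 u.1 * P u.1 u.2, hP u.1 u.2 _ (h.2 u.1)⟩
      map_add' := fun a b => by
        funext u
        ext
        simp [add_mul]
      map_smul' := fun c a => by
        funext u
        ext
        simp }
  have hF : Function.Injective F := by
    intro a b hab
    apply Subtype.ext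
    apply Finsupp.ext
    intro u
    by_cases hu : u ∈ S
    · have h1 : a.1 u * P u hu = b.1 u * P u hu :=
        congrArg Subtype.val (congrFun hab ⟨u, hu⟩)
      exact mul_right_cancel₀ (hP0 u hu) h1
    · have ha := a.2 u
      have hb := b.2 u
      rw [hS u hu, Submodule.mem_bot] at ha hb
      rw [ha, hb]
  have h := sdim_le_card_mul ((Finsupp.linearEquivFunOnFinite k W S).symm.toLinearMap ∘ₗ F)
    ((Finsupp.linearEquivFunOnFinite k W S).symm.injective.comp hF)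
  rwa [Fintype.card_coe] at h

/-- The lattice points of an enlarged polytope. -/
lemma finite_lattice {𝒯 : TData k K r Q H J} {D : H ⊕ J → ℚ} (𝒢 : Geom 𝒯 D) (α : H → ℚ) :
    ∃ C : ℕ, ∀ m : ℕ, 1 ≤ m → ∃ S : Finset (Fin r → ℤ), S.card ≤ C * m ^ 𝒢.s ∧
      ∀ u : Fin r → ℤ, u ∈ S ↔
        ∀ i, 0 ≤ pairL (𝒯.ρ i) (fun l => (u l : ℚ)) + m * D (Sum.inl i) + α i := by
  classical
  obtain ⟨C, hC0, hC⟩ := 𝒢.hbd α
  obtain ⟨C', hC'⟩ := count_lattice 𝒢.b 𝒢.u₀ C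
  refine ⟨C', fun m hm => ?_⟩
  set S : Set (Fin r → ℤ) :=
    {u | ∀ i, 0 ≤ pairL (𝒯.ρ i) (fun l => (u l : ℚ)) + m * D (Sum.inl i) + α i} with hSdef
  have hbound : ∀ U : Finset (Fin r → ℤ), (↑U : Set (Fin r → ℤ)) ⊆ S → U.card ≤ C' * m ^ 𝒢.s :=
    fun U hU => hC' m hm U fun u hu => hC m hm _ (hU hu)
  have hfin : S.Finite := by
    by_contra hinf
    obtain ⟨U, hU, hcard⟩ := Set.Infinite.exists_subset_card_eq hinf (C' * m ^ 𝒢.s + 1)
    have := hbound U hU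
    omega
  refine ⟨hfin.toFinset, hbound _ (by simp), fun u => ?_⟩
  rw [Set.Finite.mem_toFinset, hSdef, Set.mem_ofPred_eq]

/-- The product of sections correcting a vector. -/
lemma exists_corr {𝒯 : TData k K r Q H J} {D : H ⊕ J → ℚ} (𝒢 : Geom 𝒯 D) (x : Fin 𝒢.s → ℚ)
    (n : Fin 𝒢.s → ℕ) : ∃ P : K, P ≠ 0 ∧
      P ∈ 𝒯.wt (((𝒢.T * ∑ j, n j : ℕ) : ℚ) • D) (((𝒢.T * ∑ j, n j : ℕ) : ℚ) • 𝒢.u₀ -
        ∑ j, ((n j : ℚ) * 𝒢.T * 𝒢.ε * (if 0 ≤ x j then 1 else -1)) • 𝒢.b (Sum.inl j)) := by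
  classical
  refine ⟨∏ j, (if 0 ≤ x j then 𝒢.g₂ j else 𝒢.g₁ j) ^ n j, ?_, ?_⟩
  · rw [Finset.prod_ne_zero_iff]
    intro j _
    apply pow_ne_zero
    split_ifs
    · exact 𝒢.g₂_ne j
    · exact 𝒢.g₁_ne j
  · have h1 : ∀ j ∈ (Finset.univ : Finset (Fin 𝒢.s)),
        (if 0 ≤ x j then 𝒢.g₂ j else 𝒢.g₁ j) ^ n j ∈ 𝒯.wt ((n j : ℚ) • ((𝒢.T : ℚ) • D))
          ((n j : ℚ) • ((𝒢.T : ℚ) • (𝒢.u₀ -
            ((if 0 ≤ x j then 1 else -1) * 𝒢.ε : ℚ) • 𝒢.b (Sum.inl j)))) := by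
      intro j _
      split_ifs with h
      · rw [one_mul]
        exact TData.pow_mem_wt (𝒢.g₂_mem j) (𝒢.g₂_ne j) (n j)
      · rw [neg_one_mul, neg_smul, sub_neg_eq_add]
        exact TData.pow_mem_wt (𝒢.g₁_mem j) (𝒢.g₁_ne j) (n j)
    have h2 := TData.prod_mem_wt Finset.univ h1
    have e1 : ∑ j, (n j : ℚ) • ((𝒢.T : ℚ) • D) = ((𝒢.T * ∑ j, n j : ℕ) : ℚ) • D := by
      rw [← Finset.sum_smul, smul_smul]
      congr 1
      push_cast
      ring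
    have e2 : ∑ j, (n j : ℚ) • ((𝒢.T : ℚ) • (𝒢.u₀ -
        ((if 0 ≤ x j then 1 else -1) * 𝒢.ε : ℚ) • 𝒢.b (Sum.inl j))) =
        ((𝒢.T * ∑ j, n j : ℕ) : ℚ) • 𝒢.u₀ -
        ∑ j, ((n j : ℚ) * 𝒢.T * 𝒢.ε * (if 0 ≤ x j then 1 else -1)) • 𝒢.b (Sum.inl j) := by
      have : ∀ j, (n j : ℚ) • ((𝒢.T : ℚ) • (𝒢.u₀ -
          ((if 0 ≤ x j then 1 else -1) * 𝒢.ε : ℚ) • 𝒢.b (Sum.inl j))) =
          ((n j : ℚ) * 𝒢.T) • 𝒢.u₀ -
          ((n j : ℚ) * 𝒢.T * 𝒢.ε * (if 0 ≤ x j then 1 else -1)) • 𝒢.b (Sum.inl j) := by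
        intro j
        rw [smul_sub, smul_sub, smul_smul, smul_smul, smul_smul]
        congr 2
        ring
      rw [Finset.sum_congr rfl fun j _ => this j, Finset.sum_sub_distrib, ← Finset.sum_smul]
      congr 2
      push_cast
      rw [Finset.mul_sum]
      exact Finset.sum_congr rfl fun j _ => mul_comm _ _
    rw [e1, e2] at h2
    exact h2

/-- The divisor on the base. -/
noncomputable def Geom.G₀ {𝒯 : TData k K r Q H J} {D : H ⊕ J → ℚ} (𝒢 : Geom 𝒯 D) (q : Q) : ℚ :=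
  𝒢.T * 𝒯.low D 𝒢.u₀ q

/-- A bound for the pairing. -/
lemma abs_pairL_le {s t : ℕ} (b : Basis (Fin s ⊕ Fin t) ℚ (Fin r → ℚ)) (w : Fin r → ℤ)
    (δ : Fin r → ℚ) (B : ℚ) (hB : ∀ κ, |b.repr δ κ| ≤ B) :
    |pairL w δ| ≤ B * ∑ κ, |pairL w (b κ)| := by
  conv_lhs => rw [← b.sum_repr δ]
  rw [map_sum, Finset.mul_sum]
  refine (Finset.abs_sum_le_sum_abs _ _).trans (Finset.sum_le_sum fun κ _ => ?_)
  rw [map_smul, smul_eq_mul, abs_mul]
  exact mul_le_mul_of_nonneg_right (hB κ) (abs_nonneg _)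

lemma finite_base_image (𝒯 : TData k K r Q H J) {S : Set J} (hS : S.Finite) {F : Q → ℚ}
    (h : ∀ q, (∀ j, 𝒯.base j = q → j ∉ S) → F q = 0) : {q | F q ≠ 0}.Finite := by
  refine (hS.image 𝒯.base).subset fun q hq => ?_
  by_contra hne
  apply hq
  apply h
  intro j hj hjS
  exact hne ⟨j, hjS, hj⟩

lemma low_eq_zero {𝒯 : TData k K r Q H J} {D : H ⊕ J → ℚ} {u : Fin r → ℚ} {q : Q}
    (h : ∀ j, 𝒯.base j = q → 𝒯.w j = 0 ∧ D (Sum.inr j) = 0) : 𝒯.low D u q = 0 := by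
  obtain ⟨j, hj, h2⟩ := TData.exists_low (𝒯 := 𝒯) D u q
  obtain ⟨h3, h4⟩ := h j hj
  rw [h3, h4] at h2
  have hej : (𝒯.e j : ℚ) ≠ 0 := by exact_mod_cast (𝒯.e_pos j).ne'
  simp only [pairL_zero, LinearMap.zero_apply, add_zero, mul_eq_zero] at h2
  exact h2.resolve_left hej

/-- The upper bound for the numerical dimension. -/
theorem nu_upper {𝒯 : TData k K r Q H J} {D : H ⊕ J → ℚ} (𝒢 : Geom 𝒯 D)
    (hD : {j | D (Sum.inr j) ≠ 0}.Finite) (A : H ⊕ J → ℚ) (hA : {j | A (Sum.inr j) ≠ 0}.Finite) :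
    ∃ (C a : ℕ) (A' : Q → ℚ), 1 ≤ a ∧ {q | A' q ≠ 0}.Finite ∧ (∀ q, 0 ≤ A' q) ∧ ∀ m : ℕ, 1 ≤ m →
      sdim (𝒯.secT ((m : ℚ) • D + A)) ≤ C * m ^ 𝒢.s *
        sdim (sec 𝒯.ord (((a * (m + 1) : ℕ) : ℚ) • 𝒢.G₀ + A')) := by
  classical
  obtain ⟨C₁, hC₁⟩ := finite_lattice 𝒢 (fun i => A (Sum.inl i))
  obtain ⟨C, hC0, hC⟩ := 𝒢.hbd (fun i => A (Sum.inl i))
  have hε := 𝒢.ε_pos
  have hTpos : (0 : ℚ) < 𝒢.T := by exact_mod_cast 𝒢.T_pos
  have hT1 : (1 : ℚ) ≤ 𝒢.T := by exact_mod_cast 𝒢.T_pos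
  -- the constants
  obtain ⟨a, ha⟩ := exists_nat_ge (1 + 𝒢.s * C / 𝒢.ε)
  set B : ℚ := 𝒢.T * 𝒢.ε + C with hB
  have hB0 : 0 ≤ B := by positivity
  set cw : J → ℚ := fun j => B * ∑ κ, |pairL (𝒯.w j) (𝒢.b κ)| with hcw
  have hcw0 : ∀ j, 0 ≤ cw j := fun j => by
    simp only [hcw]
    exact mul_nonneg hB0 (Finset.sum_nonneg fun κ _ => abs_nonneg _)
  set A' : Q → ℚ := fun q => 𝒢.T * |𝒯.low D 𝒢.u₀ q| +
    ∑ j ∈ 𝒯.fiber q, (cw j + |A (Sum.inr j)|) with hA'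
  have ha1 : 1 ≤ a := by
    have h1 : (0 : ℚ) ≤ 𝒢.s * C / 𝒢.ε := by positivity
    have h2 : (1 : ℚ) ≤ a := by linarith
    exact_mod_cast h2
  refine ⟨C₁, a, A', ha1, ?_, ?_, ?_⟩
  · -- finiteness
    refine finite_base_image 𝒯 ((𝒯.special.union hD).union hA) fun q hq => ?_
    have h1 : ∀ j, 𝒯.base j = q → 𝒯.w j = 0 ∧ D (Sum.inr j) = 0 ∧ A (Sum.inr j) = 0 := by
      intro j hj
      have := hq j hj
      simp only [Set.mem_union, Set.mem_ofPred_eq, not_or, not_not] at this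
      exact ⟨this.1.1.1, this.1.2, this.2⟩
    simp only [hA']
    rw [low_eq_zero fun j hj => ⟨(h1 j hj).1, (h1 j hj).2.1⟩, abs_zero, mul_zero, zero_add]
    apply Finset.sum_eq_zero
    intro j hj
    obtain ⟨h2, -, h4⟩ := h1 j (by simpa using hj)
    simp only [hcw]
    rw [h2, h4]
    simp
  · intro q
    simp only [hA']
    apply add_nonneg (by positivity)
    exact Finset.sum_nonneg fun j _ => add_nonneg (hcw0 j) (abs_nonneg _)
  · intro m hm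
    obtain ⟨S, hScard, hS⟩ := hC₁ m hm
    have hm0 : (0 : ℚ) ≤ m := by positivity
    have key : sdim (𝒯.secT ((m : ℚ) • D + A)) ≤ S.card *
        sdim (sec 𝒯.ord (((a * (m + 1) : ℕ) : ℚ) • 𝒢.G₀ + A')) := by
      apply sdim_secT_le S
      · intro u hu
        rw [Submodule.eq_bot_iff]
        intro f hf
        by_contra hf0
        rw [TData.mem_wt hf0] at hf
        apply hu
        rw [hS]
        intro i
        have := hf.1 i
        rw [Pi.add_apply, Pi.smul_apply, smul_eq_mul] at this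
        linarith
      · intro u hu
        rw [hS] at hu
        obtain ⟨hx, hy⟩ := hC m hm _ hu
        set u' : Fin r → ℚ := fun l => (u l : ℚ) with hu'
        set x : Fin 𝒢.s → ℚ := fun j => 𝒢.b.repr (u' - (m : ℚ) • 𝒢.u₀) (Sum.inl j) with hxdef
        set n : Fin 𝒢.s → ℕ := fun j => ⌊|x j| / (𝒢.ε * 𝒢.T)⌋₊ with hn
        obtain ⟨P, hP0, hP⟩ := exists_corr 𝒢 x n
        have hεT : (0 : ℚ) < 𝒢.ε * 𝒢.T := by positivity
        have hn1 : ∀ j, (n j : ℚ) * (𝒢.ε * 𝒢.T) ≤ |x j| := by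
          intro j
          have := Nat.floor_le (a := |x j| / (𝒢.ε * 𝒢.T)) (by positivity)
          rwa [le_div_iff₀ hεT] at this
        have hn2 : ∀ j, |x j| < (n j : ℚ) * (𝒢.ε * 𝒢.T) + 𝒢.ε * 𝒢.T := by
          intro j
          have := Nat.lt_floor_add_one (|x j| / (𝒢.ε * 𝒢.T))
          rw [div_lt_iff₀ hεT] at this
          simp only [hn]
          linarith
        -- the total multiple
        set m' : ℕ := m + 𝒢.T * ∑ j, n j with hm'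
        have hm'le : (m' : ℚ) ≤ (a : ℚ) * m := by
          have h1 : (𝒢.T : ℚ) * ∑ j, (n j : ℚ) ≤ 𝒢.s * C / 𝒢.ε * m := by
            have h2 : ∀ j, (𝒢.T : ℚ) * n j ≤ C * m / 𝒢.ε := by
              intro j
              rw [le_div_iff₀ hε]
              have := (hn1 j).trans (hx j)
              linarith
            calc (𝒢.T : ℚ) * ∑ j, (n j : ℚ) = ∑ j, (𝒢.T : ℚ) * n j := Finset.mul_sum _ _ _
              _ ≤ ∑ j : Fin 𝒢.s, C * m / 𝒢.ε := Finset.sum_le_sum fun j _ => h2 j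
              _ = 𝒢.s * C / 𝒢.ε * m := by
                rw [Finset.sum_const, Finset.card_univ, Fintype.card_fin, nsmul_eq_mul]
                ring
          have h3 : (m' : ℚ) = m + 𝒢.T * ∑ j, (n j : ℚ) := by
            rw [hm']; push_cast; rfl
          rw [h3]
          calc (m : ℚ) + 𝒢.T * ∑ j, (n j : ℚ) ≤ m + 𝒢.s * C / 𝒢.ε * m := by linarith
            _ = (1 + 𝒢.s * C / 𝒢.ε) * m := by ring
            _ ≤ a * m := mul_le_mul_of_nonneg_right ha hm0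
        set M : ℕ := a * (m + 1) with hM
        have hm'M : m' ≤ 𝒢.T * M := by
          have h1 : m' ≤ a * m := by exact_mod_cast hm'le
          calc m' ≤ a * m := h1
            _ ≤ a * (m + 1) := Nat.mul_le_mul_left _ (by omega)
            _ ≤ 𝒢.T * M := Nat.le_mul_of_pos_left _ 𝒢.T_pos
        set n₀ : ℕ := (𝒢.T * M - m') / 𝒢.T with hn₀
        set m'' : ℕ := m' + 𝒢.T * n₀ with hm''
        have hm''1 : m'' ≤ 𝒢.T * M := by
          have : 𝒢.T * n₀ ≤ 𝒢.T * M - m' := Nat.mul_div_le (𝒢.T * M - m') 𝒢.T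
          omega
        have hm''2 : 𝒢.T * M < m'' + 𝒢.T := by
          have := Nat.lt_mul_div_succ (𝒢.T * M - m') 𝒢.T_pos
          have h2 : 𝒢.T * ((𝒢.T * M - m') / 𝒢.T + 1) = 𝒢.T * n₀ + 𝒢.T := by
            rw [hn₀]; ring
          omega
        refine ⟨P * 𝒢.g₀ ^ n₀, mul_ne_zero hP0 (pow_ne_zero _ 𝒢.g₀_ne), fun f hf => ?_⟩
        by_cases hf0 : f = 0
        · rw [hf0, zero_mul]; exact Submodule.zero_mem _
        have h1 := TData.mul_mem_wt (TData.mul_mem_wt hf hP)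
          (TData.pow_mem_wt 𝒢.g₀_mem 𝒢.g₀_ne n₀)
        rw [mul_assoc] at h1
        set f' := f * (P * 𝒢.g₀ ^ n₀) with hf'
        have hf'0 : f' ≠ 0 := mul_ne_zero hf0 (mul_ne_zero hP0 (pow_ne_zero _ 𝒢.g₀_ne))
        set δ : Fin r → ℚ := u' - (m : ℚ) • 𝒢.u₀ -
          ∑ j, ((n j : ℚ) * 𝒢.T * 𝒢.ε * (if 0 ≤ x j then 1 else -1)) • 𝒢.b (Sum.inl j) with hδ
        have e1 : (m : ℚ) • D + A + ((𝒢.T * ∑ j, n j : ℕ) : ℚ) • D +
            (n₀ : ℚ) • ((𝒢.T : ℚ) • D) = (m'' : ℚ) • D + A := by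
          have : (m'' : ℚ) = m + ((𝒢.T * ∑ j, n j : ℕ) : ℚ) + n₀ * 𝒢.T := by
            rw [hm'', hm']; push_cast; ring
          rw [this, add_smul, add_smul, smul_smul]
          abel
        have e2 : u' + (((𝒢.T * ∑ j, n j : ℕ) : ℚ) • 𝒢.u₀ -
            ∑ j, ((n j : ℚ) * 𝒢.T * 𝒢.ε * (if 0 ≤ x j then 1 else -1)) • 𝒢.b (Sum.inl j)) +
            (n₀ : ℚ) • ((𝒢.T : ℚ) • 𝒢.u₀) = (m'' : ℚ) • 𝒢.u₀ + δ := by
          have : (m'' : ℚ) = m + ((𝒢.T * ∑ j, n j : ℕ) : ℚ) + n₀ * 𝒢.T := by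
            rw [hm'', hm']; push_cast; ring
          rw [this, add_smul, add_smul, smul_smul, hδ]
          abel
        have hsmul : 𝒯.wt ((m : ℚ) • D + A + ((𝒢.T * ∑ j, n j : ℕ) : ℚ) • D +
            (n₀ : ℚ) • ((𝒢.T : ℚ) • D)) (u' + (((𝒢.T * ∑ j, n j : ℕ) : ℚ) • 𝒢.u₀ -
            ∑ j, ((n j : ℚ) * 𝒢.T * 𝒢.ε * (if 0 ≤ x j then 1 else -1)) • 𝒢.b (Sum.inl j)) +
            (n₀ : ℚ) • ((𝒢.T : ℚ) • 𝒢.u₀)) = 𝒯.wt ((m'' : ℚ) • D + A)
              ((m'' : ℚ) • 𝒢.u₀ + δ) := by rw [e1, e2]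
        rw [hsmul] at h1
        rw [TData.mem_wt hf'0] at h1
        -- the coordinates of `δ`
        have hδb : ∀ κ, |𝒢.b.repr δ κ| ≤ B := by
          intro κ
          have h2 : 𝒢.b.repr δ κ = 𝒢.b.repr (u' - (m : ℚ) • 𝒢.u₀) κ -
              ∑ j, ((n j : ℚ) * 𝒢.T * 𝒢.ε * (if 0 ≤ x j then 1 else -1)) *
                (if Sum.inl j = κ then 1 else 0) := by
            rw [hδ, map_sub, Finsupp.sub_apply, map_sum, Finsupp.finsetSum_apply]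
            congr 1
            refine Finset.sum_congr rfl fun j _ => ?_
            rw [map_smul, Finsupp.smul_apply, smul_eq_mul, Basis.repr_self, Finsupp.single_apply]
          rw [h2]
          cases κ with
          | inr l =>
            simp only [reduceCtorEq, if_false, mul_zero, Finset.sum_const_zero, sub_zero]
            refine (hy l).trans ?_
            rw [hB]
            have : 0 ≤ 𝒢.T * 𝒢.ε := by positivity
            linarith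
          | inl l =>
            have h3 : ∑ j, ((n j : ℚ) * 𝒢.T * 𝒢.ε * (if 0 ≤ x j then 1 else -1)) *
                (if (Sum.inl j : Fin 𝒢.s ⊕ Fin 𝒢.t) = Sum.inl l then 1 else 0) =
                (n l : ℚ) * 𝒢.T * 𝒢.ε * (if 0 ≤ x l then 1 else -1) := by
              rw [Finset.sum_eq_single l]
              · simp
              · intro j _ hj
                simp [hj]
              · simp
            rw [h3]
            have h4 : 𝒢.b.repr (u' - (m : ℚ) • 𝒢.u₀) (Sum.inl l) = x l := rfl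
            rw [h4]
            have h5 := hn1 l
            have h6 := hn2 l
            rw [abs_le]
            split_ifs with hxl
            · rw [abs_of_nonneg hxl] at h5 h6
              constructor <;> nlinarith
            · push Not at hxl
              rw [abs_of_neg hxl] at h5 h6
              constructor <;> nlinarith
        rw [mem_sec_of_ne hf'0]
        intro q
        obtain ⟨j, hj, hlow⟩ := TData.exists_low (𝒯 := 𝒯) D 𝒢.u₀ q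
        have h2 := h1.2 j
        rw [hj, map_add, map_smul, Pi.add_apply, Pi.smul_apply, smul_eq_mul, smul_eq_mul] at h2
        have h3 : |pairL (𝒯.w j) δ| ≤ cw j := abs_pairL_le 𝒢.b (𝒯.w j) δ B hδb
        have hej : (1 : ℚ) ≤ 𝒯.e j := by exact_mod_cast 𝒯.e_pos j
        have h4 : 0 ≤ (𝒯.e j : ℚ) * (𝒯.ord q f' + m'' * 𝒯.low D 𝒢.u₀ q) +
            (cw j + |A (Sum.inr j)|) := by
          have h5 := le_abs_self (pairL (𝒯.w j) δ)
          have h6 := le_abs_self (A (Sum.inr j))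
          have h7 : (m'' : ℚ) * pairL (𝒯.w j) 𝒢.u₀ + pairL (𝒯.w j) δ +
              ((m'' : ℚ) * D (Sum.inr j) + A (Sum.inr j)) =
              (𝒯.e j : ℚ) * (m'' * 𝒯.low D 𝒢.u₀ q) + pairL (𝒯.w j) δ + A (Sum.inr j) := by
            rw [show (𝒯.e j : ℚ) * (m'' * 𝒯.low D 𝒢.u₀ q) = m'' * ((𝒯.e j : ℚ) *
              𝒯.low D 𝒢.u₀ q) by ring, hlow]
            ring
          rw [h7] at h2
          linarith
        have h5 : 0 ≤ (𝒯.ord q f' + m'' * 𝒯.low D 𝒢.u₀ q) + (cw j + |A (Sum.inr j)|) := by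
          have h6 : 0 ≤ cw j + |A (Sum.inr j)| := add_nonneg (hcw0 j) (abs_nonneg _)
          by_contra hneg
          push Not at hneg
          have h7 : (𝒯.ord q f' + m'' * 𝒯.low D 𝒢.u₀ q : ℚ) < 0 := by linarith
          have h8 : (𝒯.e j : ℚ) * (𝒯.ord q f' + m'' * 𝒯.low D 𝒢.u₀ q) ≤
              1 * (𝒯.ord q f' + m'' * 𝒯.low D 𝒢.u₀ q) :=
            mul_le_mul_of_nonpos_right hej h7.le
          linarith
        have h6 : cw j + |A (Sum.inr j)| ≤ ∑ j ∈ 𝒯.fiber q, (cw j + |A (Sum.inr j)|) :=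
          Finset.single_le_sum (f := fun j => cw j + |A (Sum.inr j)|)
            (fun j _ => add_nonneg (hcw0 j) (abs_nonneg _)) (by simpa using hj)
        have h7 : (m'' : ℚ) * 𝒯.low D 𝒢.u₀ q ≤ (M : ℚ) * (𝒢.T * 𝒯.low D 𝒢.u₀ q) +
            𝒢.T * |𝒯.low D 𝒢.u₀ q| := by
          have h8 : (m'' : ℚ) ≤ 𝒢.T * M := by exact_mod_cast hm''1
          have h9 : (𝒢.T * M : ℚ) < m'' + 𝒢.T := by exact_mod_cast hm''2
          have h10 := neg_abs_le (𝒯.low D 𝒢.u₀ q)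
          have h11 := abs_nonneg (𝒯.low D 𝒢.u₀ q)
          nlinarith
        simp only [Pi.add_apply, Pi.smul_apply, smul_eq_mul, hA', Geom.G₀]
        linarith
    refine key.trans ?_
    gcongr
    exact_mod_cast hScard

end Pool.Agent.Helper92.Weak
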