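import Pool.Agent.Helper92.Weak.Torus7

set_option autoImplicit false
set_option linter.unusedSectionVars false

/-! Sections of invariant divisors. -/

namespace Pool.Agent.Helper92.Weak

namespace TV

variable {k K L : Type*} [Field k] [Field K] [Field L] [Algebra k K] [Algebra k L] [Algebra K L]
  [IsScalarTower k K L] {r : ℕ} {t : Fin r → L} (𝒱 : TV k K t) [IsAlgClosed k] [CharZero k]

/-- The combinatorial divisor of a divisor. -/
def res (D : 𝒱.X.primeDivisors → ℚ) : 𝒱.HH ⊕ 𝒱.JJ → ℚ :=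
  Sum.elim (fun i => D ⟨i.1, i.2.1⟩) fun j => D ⟨j.1, j.2.1⟩

lemma res_add (D D' : 𝒱.X.primeDivisors → ℚ) : 𝒱.res (D + D') = 𝒱.res D + 𝒱.res D' := by
  funext x
  cases x <;> rfl

lemma res_smul (c : ℚ) (D : 𝒱.X.primeDivisors → ℚ) : 𝒱.res (c • D) = c • 𝒱.res D := by
  funext x
  cases x <;> rfl

/-- The divisor has no non-invariant components. -/
def InvDiv (D : 𝒱.X.primeDivisors → ℚ) : Prop := ∀ P, ¬ IsInv 𝒱.ht P.1 → D P = 0

/-- The trichotomy of prime divisors. -/
lemma tricho (P : DVal k L) (hP : P ∈ 𝒱.X.primeDivisors) :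
    ¬ IsInv 𝒱.ht P ∨ (∃ i : 𝒱.HH, i.1 = P) ∨ ∃ j : 𝒱.JJ, j.1 = P := by
  by_cases h1 : IsInv 𝒱.ht P
  · right
    by_cases h2 : ∀ a : K, P (algebraMap K L a) = 0
    · left
      exact ⟨⟨P, hP, h1, h2⟩, rfl⟩
    · right
      push Not at h2
      exact ⟨⟨P, hP, h2⟩, rfl⟩
  · exact Or.inl h1

/-- Sections are Laurent polynomials with sections as coefficients. -/
lemma ev_mem_iff {D : 𝒱.X.primeDivisors → ℚ} (hD : 𝒱.InvDiv D) (h : (Fin r → ℤ) →₀ K) :
    ev K t h ∈ sec (fun P : 𝒱.X.primeDivisors => P.1) D ↔ h ∈ 𝒱.data.secT (𝒱.res D) := by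
  rw [mem_sec, TData.mem_secT]
  constructor
  · intro hs u
    by_cases hu : h u = 0
    · rw [hu]; exact Submodule.zero_mem _
    have hne : h u • mono t u ≠ 0 := smul_ne_zero hu (𝒱.ht.mono_ne u)
    have hev : ev K t h ≠ 0 := by
      intro h0
      have : h = 0 := ev_injective 𝒱.ht (by rw [h0, map_zero])
      rw [this] at hu
      exact hu rfl
    rw [TData.mem_wt hu]
    refine ⟨fun i => ?_, fun j => ?_⟩
    · have h1 := hs ⟨i.1, i.2.1⟩
      rw [DVal.ge_iff hev] at h1
      have h2 := i.2.2.1.le_term h u hu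
      rw [𝒱.hor_term i hu] at h2
      have h3 : (i.1 (ev K t h) : ℚ) ≤ ipair (wvec i.1 t) u := by exact_mod_cast h2
      rw [ipair_cast] at h3
      change 0 ≤ pairL (wvec i.1 t) (fun l => (u l : ℚ)) + D ⟨i.1, i.2.1⟩
      change -(D ⟨i.1, i.2.1⟩) ≤ (i.1 (ev K t h) : ℚ) at h1
      linarith
    · have h1 := hs ⟨j.1, j.2.1⟩
      rw [DVal.ge_iff hev] at h1
      have h2 := (𝒱.vert_inv j).le_term h u hu
      rw [𝒱.vert_term j hu] at h2
      have h3 : (j.1 (ev K t h) : ℚ) ≤ mult j * ((base j).1 (h u) : ℚ) + ipair (wvec j.1 t) u := by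
        exact_mod_cast h2
      rw [ipair_cast] at h3
      change 0 ≤ (mult j : ℚ) * ((base j).1 (h u) : ℚ) +
        (pairL (wvec j.1 t) (fun l => (u l : ℚ)) + D ⟨j.1, j.2.1⟩)
      change -(D ⟨j.1, j.2.1⟩) ≤ (j.1 (ev K t h) : ℚ) at h1
      linarith
  · intro hs P
    rw [ev_apply]
    apply DVal.Ge.sum
    intro u hu
    have hu' : h u ≠ 0 := Finsupp.mem_support_iff.1 hu
    have hne : h u • mono t u ≠ 0 := smul_ne_zero hu' (𝒱.ht.mono_ne u)
    have h1 := hs u
    rw [TData.mem_wt hu'] at h1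
    rw [DVal.ge_iff hne]
    rcases 𝒱.tricho P.1 P.2 with hni | ⟨i, hi⟩ | ⟨j, hj⟩
    · rw [hD P hni, term_eq_zero 𝒱.stable P.2 hni]
      simp
    · have h2 := h1.1 i
      have h3 := 𝒱.hor_term i hu' u
      have h4 : P = ⟨i.1, i.2.1⟩ := Subtype.ext hi.symm
      subst h4
      change -(D ⟨i.1, i.2.1⟩) ≤ (i.1 (h u • mono t u) : ℚ)
      rw [h3, ipair_cast]
      change 0 ≤ pairL (wvec i.1 t) (fun l => (u l : ℚ)) + D ⟨i.1, i.2.1⟩ at h2
      linarith
    · have h2 := h1.2 j
      have h3 := 𝒱.vert_term j hu' u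
      have h4 : P = ⟨j.1, j.2.1⟩ := Subtype.ext hj.symm
      subst h4
      change -(D ⟨j.1, j.2.1⟩) ≤ (j.1 (h u • mono t u) : ℚ)
      rw [h3]
      push_cast
      rw [ipair_cast]
      change 0 ≤ (mult j : ℚ) * ((base j).1 (h u) : ℚ) +
        (pairL (wvec j.1 t) (fun l => (u l : ℚ)) + D ⟨j.1, j.2.1⟩) at h2
      linarith

lemma exists_ev_of_sec {D : 𝒱.X.primeDivisors → ℚ} (hD : 𝒱.InvDiv D) {z : L}
    (hz : z ∈ sec (fun P : 𝒱.X.primeDivisors => P.1) D) : ∃ f : (Fin r → ℤ) →₀ K, z = ev K t f := by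
  apply exists_ev_of_nonneg 𝒱.fgK 𝒱.stable
  intro P hP hni
  rw [mem_sec] at hz
  have h1 := hz ⟨P, hP⟩
  rw [hD _ hni, neg_zero] at h1
  exact (P.mem_ring_iff_ge).2 h1

/-- The dimension of the space of sections of an invariant divisor. -/
theorem sdim_sec {D : 𝒱.X.primeDivisors → ℚ} (hD : 𝒱.InvDiv D) :
    sdim (sec (fun P : 𝒱.X.primeDivisors => P.1) D) = sdim (𝒱.data.secT (𝒱.res D)) := by
  apply le_antisymm
  · choose φ hφ using fun z : sec (fun P : 𝒱.X.primeDivisors => P.1) D =>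
      𝒱.exists_ev_of_sec hD z.2
    have hinj := ev_injective 𝒱.ht
    let F : sec (fun P : 𝒱.X.primeDivisors => P.1) D →ₗ[k] 𝒱.data.secT (𝒱.res D) :=
      { toFun := fun z => ⟨φ z, by
          rw [← 𝒱.ev_mem_iff hD, ← hφ]; exact z.2⟩
        map_add' := fun a b => by
          apply Subtype.ext
          apply hinj
          change ev K t (φ (a + b)) = ev K t (φ a + φ b)
          rw [map_add, ← hφ, ← hφ, ← hφ]
          rfl
        map_smul' := fun c a => by
          apply Subtype.ext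
          apply hinj
          change ev K t (φ (c • a)) = ev K t (c • φ a)
          rw [← hφ, ← algebraMap_smul K c (φ a), map_smul, ← hφ, algebraMap_smul]
          rfl }
    apply sdim_le_of_injective F
    intro a b hab
    apply Subtype.ext
    rw [hφ a, hφ b]
    exact congrArg (fun x => ev K t x.1) hab
  · let F : 𝒱.data.secT (𝒱.res D) →ₗ[k] sec (fun P : 𝒱.X.primeDivisors => P.1) D :=
      { toFun := fun h => ⟨ev K t h.1, by rw [𝒱.ev_mem_iff hD]; exact h.2⟩
        map_add' := fun a b => by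
          apply Subtype.ext
          change ev K t (a.1 + b.1) = _
          rw [map_add]
          rfl
        map_smul' := fun c a => by
          apply Subtype.ext
          change ev K t (c • a.1) = _
          rw [← algebraMap_smul K c a.1, map_smul, algebraMap_smul]
          rfl }
    apply sdim_le_of_injective F
    intro a b hab
    apply Subtype.ext
    exact ev_injective 𝒱.ht (congrArg Subtype.val hab)

end TV

end Pool.Agent.Helper92.Weak
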