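import Pool.Agent.Helper92.Weak.Torus1

set_option autoImplicit false

/-! Monomial valuations. -/

namespace Pool.Agent.Helper92.Weak

/-- A (not necessarily normalised, possibly trivial) valuation of `K` over `k` with values in
the integers. -/
structure ZVal (k K : Type*) [Field k] [Field K] [Algebra k K] where
  toFun : K → ℤ
  map_zero' : toFun 0 = 0
  map_mul' : ∀ a b, a ≠ 0 → b ≠ 0 → toFun (a * b) = toFun a + toFun b
  map_add' : ∀ a b, a ≠ 0 → b ≠ 0 → a + b ≠ 0 → min (toFun a) (toFun b) ≤ toFun (a + b)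
  map_const' : ∀ c : k, toFun (algebraMap k K c) = 0

namespace ZVal

variable {k K : Type*} [Field k] [Field K] [Algebra k K]

instance : CoeFun (ZVal k K) fun _ => K → ℤ := ⟨ZVal.toFun⟩

@[ext] lemma ext {v w : ZVal k K} (h : ∀ a, v a = w a) : v = w := by
  cases v; cases w
  congr
  exact funext h

variable (v : ZVal k K)

@[simp] lemma map_zero : v 0 = 0 := v.map_zero'

lemma map_mul {a b : K} (ha : a ≠ 0) (hb : b ≠ 0) : v (a * b) = v a + v b := v.map_mul' a b ha hb

lemma map_const (c : k) : v (algebraMap k K c) = 0 := v.map_const' c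

@[simp] lemma map_one : v 1 = 0 := by
  have := v.map_const 1
  rwa [_root_.map_one] at this

lemma map_neg (a : K) : v (-a) = v a := by
  by_cases ha : a = 0
  · simp [ha]
  · have h1 : v (-1) = 0 := by
      have h := v.map_const (-1)
      rwa [_root_.map_neg, _root_.map_one] at h
    have h2 := v.map_mul (a := -1) (b := a) (by simp) ha
    rw [neg_one_mul, h1, zero_add] at h2
    exact h2

lemma map_inv (a : K) : v a⁻¹ = -v a := by
  by_cases ha : a = 0
  · simp [ha]
  · have h := v.map_mul ha (inv_ne_zero ha)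
    rw [mul_inv_cancel₀ ha, v.map_one] at h
    linarith

lemma map_add_eq_of_lt {a b : K} (ha : a ≠ 0) (hb : b = 0 ∨ v a < v b) :
    a + b ≠ 0 ∧ v (a + b) = v a := by
  by_cases hb0 : b = 0
  · rw [hb0, add_zero]; exact ⟨ha, rfl⟩
  have hb1 : v a < v b := hb.resolve_left hb0
  have hne : a + b ≠ 0 := by
    intro h
    have : b = -a := by linear_combination h
    rw [this, v.map_neg] at hb1
    exact lt_irrefl _ hb1
  refine ⟨hne, ?_⟩
  have h1 := v.map_add' a b ha hb0 hne
  have h2 := v.map_add' (a + b) (-b) hne (neg_ne_zero.2 hb0) (by simpa using ha)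
  change min (v (a + b)) (v (-b)) ≤ v (a + b + -b) at h2
  rw [v.map_neg, add_neg_cancel_right] at h2
  change min (v a) (v b) ≤ v (a + b) at h1
  rcases le_total (v a) (v b) with h | h
  · rw [min_eq_left h] at h1
    rcases le_total (v (a + b)) (v b) with h3 | h3
    · rw [min_eq_left h3] at h2
      exact le_antisymm h2 h1
    · rw [min_eq_right h3] at h2
      omega
  · omega

/-- Sums of elements of value `≥ n`. -/
lemma sum_ge {ι : Type*} (s : Finset ι) (f : ι → K) (n : ℤ) (h : ∀ i ∈ s, f i = 0 ∨ n ≤ v (f i)) :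
    ∑ i ∈ s, f i = 0 ∨ n ≤ v (∑ i ∈ s, f i) := by
  classical
  induction s using Finset.induction_on with
  | empty => simp
  | insert a s ha ih =>
    rw [Finset.sum_insert ha]
    have h1 := h a (Finset.mem_insert_self a s)
    have h2 := ih fun i hi => h i (Finset.mem_insert_of_mem hi)
    by_cases h3 : f a = 0
    · rw [h3, zero_add]; exact h2
    by_cases h4 : ∑ i ∈ s, f i = 0
    · rw [h4, add_zero]; exact h1
    by_cases h5 : f a + ∑ i ∈ s, f i = 0
    · exact Or.inl h5
    right
    have h6 : min (v (f a)) (v (∑ i ∈ s, f i)) ≤ v (f a + ∑ i ∈ s, f i) :=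
      v.map_add' _ _ h3 h4 h5
    exact (le_min (h1.resolve_left h3) (h2.resolve_left h4)).trans h6

/-- The trivial valuation. -/
def trivial (k K : Type*) [Field k] [Field K] [Algebra k K] : ZVal k K where
  toFun _ := 0
  map_zero' := rfl
  map_mul' _ _ _ _ := by simp
  map_add' _ _ _ _ _ := by simp
  map_const' _ := rfl

/-- A multiple of a discrete valuation. -/
def ofDVal (e : ℕ) (w : DVal k K) : ZVal k K where
  toFun a := e * w a
  map_zero' := by simp
  map_mul' a b ha hb := by rw [w.map_mul ha hb]; ring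
  map_add' a b ha hb hab := by
    have h := w.map_add' a b ha hb hab
    change min (w a) (w b) ≤ w (a + b) at h
    have he : (0 : ℤ) ≤ e := by positivity
    rcases le_total (w a) (w b) with h1 | h1
    · rw [min_eq_left h1] at h
      rw [min_eq_left (mul_le_mul_of_nonneg_left h1 he)]
      exact mul_le_mul_of_nonneg_left h he
    · rw [min_eq_right h1] at h
      rw [min_eq_right (mul_le_mul_of_nonneg_left h1 he)]
      exact mul_le_mul_of_nonneg_left h he
  map_const' c := by simp

/-- The restriction of a discrete valuation to a subfield. -/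
def restrict {L : Type*} [Field L] [Algebra k L] [Algebra K L] [IsScalarTower k K L]
    (P : DVal k L) : ZVal k K where
  toFun a := P (algebraMap K L a)
  map_zero' := by simp
  map_mul' a b ha hb := by
    rw [_root_.map_mul, P.map_mul]
    · simpa using ha
    · simpa using hb
  map_add' a b ha hb hab := by
    rw [_root_.map_add]
    apply P.map_add'
    · simpa using ha
    · simpa using hb
    · rw [← _root_.map_add]
      exact fun h => hab ((map_eq_zero_iff _ (algebraMap K L).injective).1 h)
  map_const' c := by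
    rw [← IsScalarTower.algebraMap_apply]
    simp

end ZVal

section gauss

variable {k K : Type*} [Field k] [Field K] [Algebra k K] {r : ℕ}

/-- The integral pairing. -/
def ipair (w u : Fin r → ℤ) : ℤ := ∑ l, u l * w l

lemma ipair_add (w u u' : Fin r → ℤ) : ipair w (u + u') = ipair w u + ipair w u' := by
  unfold ipair
  rw [← Finset.sum_add_distrib]
  exact Finset.sum_congr rfl fun l _ => by rw [Pi.add_apply, add_mul]

lemma ipair_cast (w u : Fin r → ℤ) :
    ((ipair w u : ℤ) : ℚ) = pairL w (fun l => (u l : ℚ)) := by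
  unfold ipair
  rw [pairL_apply]
  push_cast
  rfl

/-- The value of a Laurent polynomial. -/
noncomputable def gaussN (v : ZVal k K) (w : Fin r → ℤ) (f : (Fin r → ℤ) →₀ K) : ℤ :=
  open Classical in
  if h : f.support.Nonempty then f.support.inf' h fun u => v (f u) + ipair w u else 0

lemma gaussN_le {v : ZVal k K} {w : Fin r → ℤ} {f : (Fin r → ℤ) →₀ K} {u : Fin r → ℤ}
    (hu : f u ≠ 0) : gaussN v w f ≤ v (f u) + ipair w u := by
  have h : f.support.Nonempty := ⟨u, Finsupp.mem_support_iff.2 hu⟩
  unfold gaussN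
  rw [dif_pos h]
  exact Finset.inf'_le _ (Finsupp.mem_support_iff.2 hu)

lemma exists_gaussN {v : ZVal k K} {w : Fin r → ℤ} {f : (Fin r → ℤ) →₀ K} (hf : f ≠ 0) :
    ∃ u, f u ≠ 0 ∧ gaussN v w f = v (f u) + ipair w u := by
  have h : f.support.Nonempty := by
    rw [Finset.nonempty_iff_ne_empty, Ne, Finsupp.support_eq_empty]
    exact hf
  obtain ⟨u, hu, h2⟩ := Finset.exists_mem_eq_inf' h (fun u => v (f u) + ipair w u)
  refine ⟨u, Finsupp.mem_support_iff.1 hu, ?_⟩
  unfold gaussN
  rw [dif_pos h, h2]

lemma le_gaussN_iff {v : ZVal k K} {w : Fin r → ℤ} {f : (Fin r → ℤ) →₀ K} (hf : f ≠ 0) {n : ℤ} :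
    n ≤ gaussN v w f ↔ ∀ u, f u ≠ 0 → n ≤ v (f u) + ipair w u := by
  constructor
  · intro h u hu
    exact h.trans (gaussN_le hu)
  · intro h
    obtain ⟨u, hu, h2⟩ := exists_gaussN (v := v) (w := w) hf
    rw [h2]
    exact h u hu

/-- The product of Laurent polynomials. -/
noncomputable def conv (f g : (Fin r → ℤ) →₀ K) : (Fin r → ℤ) →₀ K :=
  ∑ u ∈ f.support, ∑ u' ∈ g.support, Finsupp.single (u + u') (f u * g u')

lemma conv_apply (f g : (Fin r → ℤ) →₀ K) (x : Fin r → ℤ) :
    conv f g x = ∑ p ∈ f.support ×ˢ g.support, if p.1 + p.2 = x then f p.1 * g p.2 else 0 := by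
  classical
  unfold conv
  rw [← Finset.sum_product', Finsupp.finsetSum_apply]
  refine Finset.sum_congr rfl fun p _ => ?_
  rw [Finsupp.single_apply]

lemma ev_conv {L : Type*} [Field L] [Algebra K L] {t : Fin r → L} (ht : ∀ l, t l ≠ 0)
    (f g : (Fin r → ℤ) →₀ K) : ev K t (conv f g) = ev K t f * ev K t g := by
  unfold conv
  rw [map_sum, ev_apply t f, Finset.sum_mul]
  refine Finset.sum_congr rfl fun u _ => ?_
  rw [map_sum, ev_apply t g, Finset.mul_sum]
  refine Finset.sum_congr rfl fun u' _ => ?_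
  rw [ev_single, mono_add ht, smul_mul_smul_comm]

/-- Multiplicativity of the value. -/
lemma gaussN_conv (v : ZVal k K) (w : Fin r → ℤ) {f g : (Fin r → ℤ) →₀ K} (hf : f ≠ 0)
    (hg : g ≠ 0) : conv f g ≠ 0 ∧ gaussN v w (conv f g) = gaussN v w f + gaussN v w g := by
  classical
  -- the terms of minimal value
  set Sf := f.support.filter fun u => v (f u) + ipair w u = gaussN v w f with hSf
  set Sg := g.support.filter fun u => v (g u) + ipair w u = gaussN v w g with hSg
  have hSf' : Sf.Nonempty := by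
    obtain ⟨u, hu, h⟩ := exists_gaussN (v := v) (w := w) hf
    exact ⟨u, by rw [hSf, Finset.mem_filter, Finsupp.mem_support_iff]; exact ⟨hu, h.symm⟩⟩
  have hSg' : Sg.Nonempty := by
    obtain ⟨u, hu, h⟩ := exists_gaussN (v := v) (w := w) hg
    exact ⟨u, by rw [hSg, Finset.mem_filter, Finsupp.mem_support_iff]; exact ⟨hu, h.symm⟩⟩
  obtain ⟨a, ha, hamax⟩ := Finset.exists_max_image Sf (fun u => toLex u) hSf'
  obtain ⟨b, hb, hbmax⟩ := Finset.exists_max_image Sg (fun u => toLex u) hSg'
  rw [hSf, Finset.mem_filter, Finsupp.mem_support_iff] at ha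
  rw [hSg, Finset.mem_filter, Finsupp.mem_support_iff] at hb
  obtain ⟨ha0, ha1⟩ := ha
  obtain ⟨hb0, hb1⟩ := hb
  set n := gaussN v w f + gaussN v w g with hn
  -- all products have value at least `n`
  have hprod : ∀ u u', f u ≠ 0 → g u' ≠ 0 →
      n ≤ v (f u * g u') + ipair w (u + u') := by
    intro u u' hu hu'
    rw [v.map_mul hu hu', ipair_add]
    have h1 := gaussN_le (v := v) (w := w) hu
    have h2 := gaussN_le (v := v) (w := w) hu'
    linarith
  -- the coefficient at `a + b`
  have hab : conv f g (a + b) ≠ 0 ∧ v (conv f g (a + b)) + ipair w (a + b) = n := by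
    rw [conv_apply, ← Finset.add_sum_erase _ _ (a := (a, b))
      (by simp [ha0, hb0])]
    simp only [if_true]
    have hrest : ∀ p ∈ (f.support ×ˢ g.support).erase (a, b),
        (if p.1 + p.2 = a + b then f p.1 * g p.2 else 0) = 0 ∨
          n - ipair w (a + b) + 1 ≤ v (if p.1 + p.2 = a + b then f p.1 * g p.2 else 0) := by
      rintro ⟨u, u'⟩ hp
      simp only [Finset.mem_erase, ne_eq, Prod.mk.injEq, Finset.mem_product,
        Finsupp.mem_support_iff] at hp
      obtain ⟨hne, hu, hu'⟩ := hp
      simp only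
      split_ifs with heq
      · right
        have h1 := hprod u u' hu hu'
        rw [heq] at h1
        by_contra hlt
        push Not at hlt
        have h2 : v (f u * g u') + ipair w (a + b) = n := by omega
        rw [v.map_mul hu hu', ← heq, ipair_add] at h2
        have h3 := gaussN_le (v := v) (w := w) hu
        have h4 := gaussN_le (v := v) (w := w) hu'
        have h5 : u ∈ Sf := by
          rw [hSf, Finset.mem_filter, Finsupp.mem_support_iff]
          exact ⟨hu, by linarith⟩
        have h6 : u' ∈ Sg := by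
          rw [hSg, Finset.mem_filter, Finsupp.mem_support_iff]
          exact ⟨hu', by linarith⟩
        have h7 := hamax u h5
        have h8 := hbmax u' h6
        have h9 : toLex u + toLex u' = toLex a + toLex b := by
          rw [← toLex_add, ← toLex_add, heq]
        have h10 := (add_eq_add_iff_eq_and_eq h7 h8).1 h9
        exact hne ⟨toLex.injective h10.1, toLex.injective h10.2⟩
      · left; rfl
    have h1 := v.sum_ge _ _ _ hrest
    have h2 : v (f a * g b) = n - ipair w (a + b) := by
      rw [v.map_mul ha0 hb0, ipair_add, hn, ← ha1, ← hb1]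
      ring
    have h3 := v.map_add_eq_of_lt (a := f a * g b) (b := ∑ p ∈ (f.support ×ˢ g.support).erase (a, b),
      if p.1 + p.2 = a + b then f p.1 * g p.2 else 0) (mul_ne_zero ha0 hb0) (by
        rcases h1 with h1 | h1
        · exact Or.inl h1
        · right; rw [h2]; omega)
    refine ⟨h3.1, ?_⟩
    rw [h3.2, h2]
    ring
  have hne : conv f g ≠ 0 := by
    intro h
    rw [h] at hab
    exact hab.1 rfl
  refine ⟨hne, le_antisymm ?_ ?_⟩
  · rw [← hab.2]
    exact gaussN_le hab.1
  · rw [le_gaussN_iff hne]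
    intro x hx
    rw [conv_apply] at hx ⊢
    have h1 : ∀ p ∈ f.support ×ˢ g.support,
        (if p.1 + p.2 = x then f p.1 * g p.2 else 0) = 0 ∨
          n - ipair w x ≤ v (if p.1 + p.2 = x then f p.1 * g p.2 else 0) := by
      rintro ⟨u, u'⟩ hp
      simp only [Finset.mem_product, Finsupp.mem_support_iff] at hp
      simp only
      split_ifs with heq
      · right
        have := hprod u u' hp.1 hp.2
        rw [heq] at this
        linarith
      · left; rfl
    have h2 := (v.sum_ge _ _ _ h1).resolve_left hx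
    linarith

lemma gaussN_add (v : ZVal k K) (w : Fin r → ℤ) {f g : (Fin r → ℤ) →₀ K} (_hf : f ≠ 0)
    (_hg : g ≠ 0) (hfg : f + g ≠ 0) :
    min (gaussN v w f) (gaussN v w g) ≤ gaussN v w (f + g) := by
  rw [le_gaussN_iff hfg]
  intro u hu
  rw [Finsupp.add_apply] at hu ⊢
  by_cases h1 : f u = 0
  · rw [h1, zero_add] at hu ⊢
    exact (min_le_right _ _).trans (gaussN_le hu)
  by_cases h2 : g u = 0
  · rw [h2, add_zero] at hu ⊢
    exact (min_le_left _ _).trans (gaussN_le hu)
  have h3 : min (v (f u)) (v (g u)) ≤ v (f u + g u) := v.map_add' _ _ h1 h2 hu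
  have h4 := gaussN_le (v := v) (w := w) h1
  have h5 := gaussN_le (v := v) (w := w) h2
  rcases le_total (v (f u)) (v (g u)) with h | h
  · rw [min_eq_left h] at h3
    exact (min_le_left _ _).trans (h4.trans (by linarith))
  · rw [min_eq_right h] at h3
    exact (min_le_right _ _).trans (h5.trans (by linarith))

variable {L : Type*} [Field L] [Algebra K L] {t : Fin r → L}

/-- The value of an element of the field. -/
noncomputable def monoFun (ht : IsTorus K t) (v : ZVal k K) (w : Fin r → ℤ) (z : L) : ℤ :=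
  open Classical in
  if z = 0 then 0 else
    gaussN v w (exists_ev_div ht z).choose - gaussN v w (exists_ev_div ht z).choose_spec.choose

lemma monoFun_eq (ht : IsTorus K t) (v : ZVal k K) (w : Fin r → ℤ) {f g : (Fin r → ℤ) →₀ K}
    (hf : f ≠ 0) (hg : g ≠ 0) :
    monoFun ht v w (ev K t f / ev K t g) = gaussN v w f - gaussN v w g := by
  have hinj := ev_injective ht
  have hf' : ev K t f ≠ 0 := fun h => hf (hinj (by rw [h, map_zero]))
  have hg' : ev K t g ≠ 0 := fun h => hg (hinj (by rw [h, map_zero]))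
  set z := ev K t f / ev K t g with hz
  have hz0 : z ≠ 0 := div_ne_zero hf' hg'
  unfold monoFun
  rw [if_neg hz0]
  obtain ⟨hb'0, hz'⟩ := (exists_ev_div ht z).choose_spec.choose_spec
  generalize (exists_ev_div ht z).choose_spec.choose = b' at hb'0 hz' ⊢
  generalize (exists_ev_div ht z).choose = a' at hz' ⊢
  have ha'0 : a' ≠ 0 := by
    rintro rfl
    rw [map_zero, zero_div] at hz'
    exact hz0 hz'
  have hb' : ev K t b' ≠ 0 := fun h => hb'0 (hinj (by rw [h, map_zero]))
  have h1 : ev K t (conv a' g) = ev K t (conv f b') := by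
    rw [ev_conv ht.ne_zero, ev_conv ht.ne_zero]
    rw [hz, div_eq_div_iff hg' hb'] at hz'
    exact hz'.symm
  have h2 := hinj h1
  have h3 := (gaussN_conv v w ha'0 hg).2
  have h4 := (gaussN_conv v w hf hb'0).2
  rw [h2, h4] at h3
  linarith

/-- The monomial valuation with weights `w` extending the valuation `v` of `K`, not normalised. -/
noncomputable def monoZ [Algebra k L] [IsScalarTower k K L] (ht : IsTorus K t) (v : ZVal k K)
    (w : Fin r → ℤ) : ZVal k L where
  toFun := monoFun ht v w
  map_zero' := by simp [monoFun]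
  map_mul' a b ha hb := by
    obtain ⟨f, g, hg, rfl⟩ := exists_ev_div ht a
    obtain ⟨f', g', hg', rfl⟩ := exists_ev_div ht b
    have hf : f ≠ 0 := by rintro rfl; simp at ha
    have hf' : f' ≠ 0 := by rintro rfl; simp at hb
    rw [div_mul_div_comm, ← ev_conv ht.ne_zero, ← ev_conv ht.ne_zero, monoFun_eq ht v w hf hg,
      monoFun_eq ht v w hf' hg', monoFun_eq ht v w (gaussN_conv v w hf hf').1
      (gaussN_conv v w hg hg').1, (gaussN_conv v w hf hf').2, (gaussN_conv v w hg hg').2]
    ring
  map_add' a b ha hb hab := by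
    obtain ⟨f, g, hg, rfl⟩ := exists_ev_div ht a
    obtain ⟨f', g', hg', rfl⟩ := exists_ev_div ht b
    have hf : f ≠ 0 := by rintro rfl; simp at ha
    have hf' : f' ≠ 0 := by rintro rfl; simp at hb
    have hinj := ev_injective ht
    have hg0 : ev K t g ≠ 0 := fun h => hg (hinj (by rw [h, map_zero]))
    have hg0' : ev K t g' ≠ 0 := fun h => hg' (hinj (by rw [h, map_zero]))
    have h1 : ev K t f / ev K t g + ev K t f' / ev K t g' =
        ev K t (conv f g' + conv g f') / ev K t (conv g g') := by
      rw [map_add, ev_conv ht.ne_zero, ev_conv ht.ne_zero, ev_conv ht.ne_zero,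
        div_add_div _ _ hg0 hg0']
    rw [h1] at hab ⊢
    have hs : conv f g' + conv g f' ≠ 0 := by
      intro h
      rw [h] at hab
      simp at hab
    rw [monoFun_eq ht v w hf hg, monoFun_eq ht v w hf' hg',
      monoFun_eq ht v w hs (gaussN_conv v w hg hg').1, (gaussN_conv v w hg hg').2]
    have h2 := gaussN_add v w (gaussN_conv v w hf hg').1 (gaussN_conv v w hg hf').1 hs
    rw [(gaussN_conv v w hf hg').2, (gaussN_conv v w hg hf').2] at h2
    omega
  map_const' c := by
    by_cases hc : c = 0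
    · rw [hc]; simp [monoFun]
    have hc' : algebraMap k K c ≠ 0 := by simpa using hc
    have h0 : (Finsupp.single (0 : Fin r → ℤ) (algebraMap k K c)) ≠ 0 :=
      Finsupp.single_ne_zero.2 hc'
    have h1 : (Finsupp.single (0 : Fin r → ℤ) (1 : K)) ≠ 0 := Finsupp.single_ne_zero.2 one_ne_zero
    have h2 : algebraMap k L c = ev K t (Finsupp.single 0 (algebraMap k K c)) /
        ev K t (Finsupp.single 0 1) := by
      rw [ev_single, ev_single, mono_zero, one_smul, div_one, ← Algebra.algebraMap_eq_smul_one,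
        ← IsScalarTower.algebraMap_apply]
    have h3 : ∀ (a : K), a ≠ 0 → gaussN v w (Finsupp.single 0 a) = v a := by
      intro a ha
      obtain ⟨u, hu, h⟩ := exists_gaussN (v := v) (w := w) (Finsupp.single_ne_zero.2 ha :
        (Finsupp.single (0 : Fin r → ℤ) a) ≠ 0)
      rw [Finsupp.single_apply_ne_zero] at hu
      rw [h, hu.1, Finsupp.single_eq_same]
      simp [ipair]
    rw [h2, monoFun_eq ht v w h0 h1, h3 _ hc', h3 _ one_ne_zero, v.map_const, v.map_one]
    rfl

/-- The monomial valuation with weights `w` extending the valuation `v` of `K`. -/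
noncomputable def monoVal [Algebra k L] [IsScalarTower k K L] (ht : IsTorus K t) (v : ZVal k K)
    (w : Fin r → ℤ) (hs : ∃ (c : K) (u : Fin r → ℤ), c ≠ 0 ∧ v c + ipair w u = 1) :
    DVal k L where
  toFun := monoZ ht v w
  map_zero' := (monoZ ht v w).map_zero'
  map_mul' := (monoZ ht v w).map_mul'
  map_add' := (monoZ ht v w).map_add'
  map_const' := (monoZ ht v w).map_const'
  surj' := by
    obtain ⟨c, u, hc, h⟩ := hs
    have h0 : (Finsupp.single u c) ≠ 0 := Finsupp.single_ne_zero.2 hc
    have h1 : (Finsupp.single (0 : Fin r → ℤ) (1 : K)) ≠ 0 := Finsupp.single_ne_zero.2 one_ne_zero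
    refine ⟨ev K t (Finsupp.single u c) / ev K t (Finsupp.single 0 1), ?_⟩
    change monoFun ht v w _ = 1
    rw [monoFun_eq ht v w h0 h1]
    have h3 : ∀ (u : Fin r → ℤ) (a : K), a ≠ 0 →
        gaussN v w (Finsupp.single u a) = v a + ipair w u := by
      intro u a ha
      obtain ⟨u', hu, h⟩ := exists_gaussN (v := v) (w := w) (Finsupp.single_ne_zero.2 ha :
        (Finsupp.single u a) ≠ 0)
      rw [Finsupp.single_apply_ne_zero] at hu
      rw [h, hu.1, Finsupp.single_eq_same]
    rw [h3 _ _ hc, h3 _ _ one_ne_zero, h, v.map_one]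
    simp [ipair]

end gauss

section monoVal

variable {k K L : Type*} [Field k] [Field K] [Field L] [Algebra k K] [Algebra k L] [Algebra K L]
  [IsScalarTower k K L] {r : ℕ} {t : Fin r → L}

lemma monoVal_div (ht : IsTorus K t) (v : ZVal k K) (w : Fin r → ℤ)
    (hs : ∃ (c : K) (u : Fin r → ℤ), c ≠ 0 ∧ v c + ipair w u = 1) {f g : (Fin r → ℤ) →₀ K}
    (hf : f ≠ 0) (hg : g ≠ 0) :
    monoVal ht v w hs (ev K t f / ev K t g) = gaussN v w f - gaussN v w g :=
  monoFun_eq ht v w hf hg

lemma gaussN_single (v : ZVal k K) (w u : Fin r → ℤ) {a : K} (ha : a ≠ 0) :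
    gaussN v w (Finsupp.single u a) = v a + ipair w u := by
  obtain ⟨u', hu, h⟩ := exists_gaussN (v := v) (w := w) (Finsupp.single_ne_zero.2 ha :
    (Finsupp.single u a) ≠ 0)
  rw [Finsupp.single_apply_ne_zero] at hu
  rw [h, hu.1, Finsupp.single_eq_same]

lemma ev_one (t : Fin r → L) : ev K t (Finsupp.single 0 1) = 1 := by
  rw [ev_single, mono_zero, one_smul]

lemma monoVal_ev (ht : IsTorus K t) (v : ZVal k K) (w : Fin r → ℤ)
    (hs : ∃ (c : K) (u : Fin r → ℤ), c ≠ 0 ∧ v c + ipair w u = 1) {f : (Fin r → ℤ) →₀ K}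
    (hf : f ≠ 0) : monoVal ht v w hs (ev K t f) = gaussN v w f := by
  have h1 : (Finsupp.single (0 : Fin r → ℤ) (1 : K)) ≠ 0 := Finsupp.single_ne_zero.2 one_ne_zero
  have h := monoVal_div ht v w hs hf h1
  rw [ev_one, div_one, gaussN_single v w 0 one_ne_zero, v.map_one] at h
  rw [h]
  simp [ipair]

lemma monoVal_term (ht : IsTorus K t) (v : ZVal k K) (w : Fin r → ℤ)
    (hs : ∃ (c : K) (u : Fin r → ℤ), c ≠ 0 ∧ v c + ipair w u = 1) {a : K} (ha : a ≠ 0)
    (u : Fin r → ℤ) : monoVal ht v w hs (a • mono t u) = v a + ipair w u := by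
  rw [← ev_single, monoVal_ev ht v w hs (Finsupp.single_ne_zero.2 ha), gaussN_single v w u ha]

lemma monoVal_algebraMap (ht : IsTorus K t) (v : ZVal k K) (w : Fin r → ℤ)
    (hs : ∃ (c : K) (u : Fin r → ℤ), c ≠ 0 ∧ v c + ipair w u = 1) (a : K) :
    monoVal ht v w hs (algebraMap K L a) = v a := by
  by_cases ha : a = 0
  · simp [ha]
  have h := monoVal_term ht v w hs ha 0
  rw [mono_zero, ← Algebra.algebraMap_eq_smul_one] at h
  rw [h]
  simp [ipair]

lemma monoVal_t (ht : IsTorus K t) (v : ZVal k K) (w : Fin r → ℤ)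
    (hs : ∃ (c : K) (u : Fin r → ℤ), c ≠ 0 ∧ v c + ipair w u = 1) (l : Fin r) :
    monoVal ht v w hs (t l) = w l := by
  have h := monoVal_term ht v w hs (one_ne_zero : (1 : K) ≠ 0) (Pi.single l 1)
  rw [mono_single, one_smul, v.map_one] at h
  rw [h]
  unfold ipair
  rw [Finset.sum_eq_single l]
  · simp
  · intro j _ hj
    rw [Pi.single_eq_of_ne hj]
    simp
  · simp

/-- A valuation is monomial if its values on Laurent polynomials are the minima of the values
of the terms. -/
lemma eq_monoVal (ht : IsTorus K t) (P : DVal k L)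
    (hP : ∀ (f : (Fin r → ℤ) →₀ K) (u : Fin r → ℤ), f u ≠ 0 →
      P (ev K t f) ≤ P (f u • mono t u)) :
    ∃ hs, P = monoVal ht (ZVal.restrict P) (fun l => P (t l)) hs := by
  have hmono : ∀ u, P (mono t u) = ipair (fun l => P (t l)) u := by
    intro u
    unfold mono ipair
    rw [P.map_prod _ _ fun l _ => zpow_ne_zero _ (ht.ne_zero l)]
    exact Finset.sum_congr rfl fun l _ => P.map_zpow _ _
  have hterm : ∀ (a : K) (u : Fin r → ℤ), a ≠ 0 →
      P (a • mono t u) = (ZVal.restrict P : ZVal k K) a + ipair (fun l => P (t l)) u := by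
    intro a u ha
    rw [Algebra.smul_def, P.map_mul (by simpa using ha) (ht.mono_ne u), hmono]
    rfl
  have hev : ∀ f : (Fin r → ℤ) →₀ K, f ≠ 0 →
      P (ev K t f) = gaussN (ZVal.restrict P : ZVal k K) (fun l => P (t l)) f := by
    intro f hf
    apply le_antisymm
    · rw [le_gaussN_iff hf]
      intro u hu
      rw [← hterm _ _ hu]
      exact hP f u hu
    · have h1 : P.Ge (gaussN (ZVal.restrict P : ZVal k K) (fun l => P (t l)) f) (ev K t f) := by
        rw [ev_apply]
        apply DVal.Ge.sum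
        intro u hu
        right
        rw [hterm _ _ (Finsupp.mem_support_iff.1 hu)]
        exact_mod_cast gaussN_le (Finsupp.mem_support_iff.1 hu)
      have h2 : ev K t f ≠ 0 := fun h => hf (ev_injective ht (by rw [h, map_zero]))
      rw [DVal.ge_iff h2] at h1
      exact_mod_cast h1
  have hs : ∃ (c : K) (u : Fin r → ℤ), c ≠ 0 ∧
      (ZVal.restrict P : ZVal k K) c + ipair (fun l => P (t l)) u = 1 := by
    obtain ⟨z, hz⟩ := P.surj'
    change P z = 1 at hz
    obtain ⟨f, g, hg, rfl⟩ := exists_ev_div ht z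
    have hf : f ≠ 0 := by rintro rfl; simp at hz
    have hf' : ev K t f ≠ 0 := fun h => hf (ev_injective ht (by rw [h, map_zero]))
    have hg' : ev K t g ≠ 0 := fun h => hg (ev_injective ht (by rw [h, map_zero]))
    rw [P.map_div hf' hg', hev f hf, hev g hg] at hz
    obtain ⟨u, hu, h1⟩ := exists_gaussN (v := (ZVal.restrict P : ZVal k K))
      (w := fun l => P (t l)) hf
    obtain ⟨u', hu', h2⟩ := exists_gaussN (v := (ZVal.restrict P : ZVal k K))
      (w := fun l => P (t l)) hg
    refine ⟨f u * (g u')⁻¹, u + -u', mul_ne_zero hu (inv_ne_zero hu'), ?_⟩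
    rw [ZVal.map_mul _ hu (inv_ne_zero hu'), ZVal.map_inv, ipair_add]
    have h3 : ipair (fun l => P (t l)) (-u') = -ipair (fun l => P (t l)) u' := by
      unfold ipair
      rw [← Finset.sum_neg_distrib]
      exact Finset.sum_congr rfl fun l _ => by rw [Pi.neg_apply, neg_mul]
    rw [h3]
    linarith
  refine ⟨hs, ?_⟩
  apply DVal.ext
  intro z
  by_cases hz : z = 0
  · simp [hz]
  obtain ⟨f, g, hg, rfl⟩ := exists_ev_div ht z
  have hf : f ≠ 0 := by rintro rfl; simp at hz
  have hf' : ev K t f ≠ 0 := fun h => hf (ev_injective ht (by rw [h, map_zero]))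
  have hg' : ev K t g ≠ 0 := fun h => hg (ev_injective ht (by rw [h, map_zero]))
  rw [P.map_div hf' hg', hev f hf, hev g hg, monoVal_div ht _ _ hs hf hg]

end monoVal

end Pool.Agent.Helper92.Weak
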