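import Pool.Agent.Helper92.Weak.Torus2

set_option autoImplicit false

/-! The action of the torus on valuations. -/

namespace Pool.Agent.Helper92.Weak

open MvPolynomial

section scale

variable {K L : Type*} [Field K] [Field L] [Algebra K L] {r : ℕ} {t : Fin r → L}

lemma algHom_ext_torus (ht : IsTorus K t) {φ ψ : L →ₐ[K] L} (h : ∀ i, φ (t i) = ψ (t i)) :
    φ = ψ := by
  apply AlgHom.ext
  intro z
  obtain ⟨a, b, -, rfl⟩ := exists_aeval_div ht z
  have key : ∀ a : MvPolynomial (Fin r) K, φ (aeval t a) = ψ (aeval t a) := by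
    intro a
    have h1 : φ.comp (aeval t) = ψ.comp (aeval t) := by
      apply MvPolynomial.algHom_ext
      intro i
      simp [h i]
    exact DFunLike.congr_fun h1 a
  rw [map_div₀, map_div₀, key, key]

/-- Scaling the variables of a polynomial. -/
noncomputable def polyScale (c : Fin r → Kˣ) : MvPolynomial (Fin r) K →ₐ[K] MvPolynomial (Fin r) K :=
  aeval fun i => C (c i : K) * X i

lemma polyScale_comp (c : Fin r → Kˣ) (p : MvPolynomial (Fin r) K) :
    polyScale c⁻¹ (polyScale c p) = p := by
  have : (polyScale c⁻¹).comp (polyScale c) = AlgHom.id K (MvPolynomial (Fin r) K) := by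
    apply MvPolynomial.algHom_ext
    intro i
    simp only [polyScale, AlgHom.comp_apply, aeval_X, map_mul, AlgHom.id_apply, algHom_C,
      algebraMap_eq, Pi.inv_apply]
    rw [← mul_assoc, ← C_mul, Units.mul_inv, C_1, one_mul]
  exact DFunLike.congr_fun this p

lemma exists_scaleHom (ht : IsTorus K t) (c : Fin r → Kˣ) :
    ∃ σ : L →ₐ[K] L, ∀ i, σ (t i) = algebraMap K L (c i) * t i := by
  let _ := polyAlg K t
  have := isFractionRing_poly ht
  have : IsScalarTower K (MvPolynomial (Fin r) K) L := by
    apply IsScalarTower.of_algebraMap_eq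
    intro x
    change _ = aeval t (algebraMap K (MvPolynomial (Fin r) K) x)
    simp
  have hinj : Function.Injective ((aeval t : MvPolynomial (Fin r) K →ₐ[K] L).comp
      (polyScale c)) := by
    have hi : Function.Injective (aeval t : MvPolynomial (Fin r) K →ₐ[K] L) := ht.indep
    intro p q hpq
    have h2 : polyScale c p = polyScale c q := hi hpq
    rw [← polyScale_comp c p, h2, polyScale_comp]
  refine ⟨IsFractionRing.liftAlgHom hinj, fun i => ?_⟩
  have h1 : t i = algebraMap (MvPolynomial (Fin r) K) L (X i) := by
    change _ = aeval t (X i)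
    simp
  conv_lhs => rw [h1]
  rw [IsFractionRing.liftAlgHom_apply, IsFractionRing.lift_algebraMap]
  simp [polyScale]

lemma exists_scaleEquiv (ht : IsTorus K t) (c : Fin r → Kˣ) :
    ∃ σ : L ≃ₐ[K] L, ∀ i, σ (t i) = algebraMap K L (c i) * t i := by
  obtain ⟨σ, hσ⟩ := exists_scaleHom ht c
  obtain ⟨τ, hτ⟩ := exists_scaleHom ht c⁻¹
  refine ⟨AlgEquiv.ofAlgHom σ τ ?_ ?_, hσ⟩
  · apply algHom_ext_torus ht
    intro i
    rw [AlgHom.comp_apply, hτ, map_mul, hσ, AlgHom.commutes, AlgHom.id_apply, ← mul_assoc,
      ← map_mul]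
    simp
  · apply algHom_ext_torus ht
    intro i
    rw [AlgHom.comp_apply, hσ, map_mul, hτ, AlgHom.commutes, AlgHom.id_apply, ← mul_assoc,
      ← map_mul]
    simp

/-- The automorphism `t_i ↦ c_i t_i`. -/
noncomputable def scaleEquiv (ht : IsTorus K t) (c : Fin r → Kˣ) : L ≃ₐ[K] L :=
  (exists_scaleEquiv ht c).choose

lemma scaleEquiv_t (ht : IsTorus K t) (c : Fin r → Kˣ) (i : Fin r) :
    scaleEquiv ht c (t i) = algebraMap K L (c i) * t i :=
  (exists_scaleEquiv ht c).choose_spec i

lemma algEquiv_ext_torus (ht : IsTorus K t) {φ ψ : L ≃ₐ[K] L} (h : ∀ i, φ (t i) = ψ (t i)) :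
    φ = ψ := by
  have h1 : (φ : L →ₐ[K] L) = (ψ : L →ₐ[K] L) := algHom_ext_torus ht h
  ext z
  exact DFunLike.congr_fun h1 z

lemma scaleEquiv_one (ht : IsTorus K t) : scaleEquiv ht 1 = AlgEquiv.refl := by
  apply algEquiv_ext_torus ht
  intro i
  rw [scaleEquiv_t]
  simp

lemma scaleEquiv_mul (ht : IsTorus K t) (c c' : Fin r → Kˣ) (z : L) :
    scaleEquiv ht (c * c') z = scaleEquiv ht c (scaleEquiv ht c' z) := by
  have : scaleEquiv ht (c * c') = (scaleEquiv ht c').trans (scaleEquiv ht c) := by
    apply algEquiv_ext_torus ht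
    intro i
    rw [scaleEquiv_t, AlgEquiv.trans_apply, scaleEquiv_t, map_mul, scaleEquiv_t,
      AlgEquiv.commutes, Pi.mul_apply, Units.val_mul, map_mul]
    ring
  rw [this, AlgEquiv.trans_apply]

lemma scaleEquiv_mono (ht : IsTorus K t) (c : Fin r → Kˣ) (u : Fin r → ℤ) :
    scaleEquiv ht c (mono t u) = algebraMap K L ((∏ l, c l ^ u l : Kˣ) : K) * mono t u := by
  unfold mono
  rw [map_prod, Units.coe_prod, map_prod, ← Finset.prod_mul_distrib]
  refine Finset.prod_congr rfl fun l _ => ?_
  rw [map_zpow₀, scaleEquiv_t, mul_zpow, Units.val_zpow_eq_zpow_val, map_zpow₀]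

end scale

section action

variable {k K L : Type*} [Field k] [Field K] [Field L] [Algebra k K] [Algebra k L] [Algebra K L]
  [IsScalarTower k K L] {r : ℕ} {t : Fin r → L}

/-- The units of `K` given by units of `k`. -/
def toK (K : Type*) [Field K] [Algebra k K] (c : Fin r → kˣ) : Fin r → Kˣ :=
  fun i => Units.map (algebraMap k K).toMonoidHom (c i)

lemma toK_mul (c c' : Fin r → kˣ) : toK K (c * c') = toK K c * toK K c' := by
  funext i
  simp [toK]

lemma toK_one : toK K (1 : Fin r → kˣ) = 1 := by
  funext i
  simp [toK]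

/-- The automorphism of `L` over `k` given by an element of the torus. -/
noncomputable def scale (k : Type*) [Field k] [Algebra k K] [Algebra k L] [IsScalarTower k K L]
    (ht : IsTorus K t) (c : Fin r → kˣ) : L ≃ₐ[k] L :=
  AlgEquiv.restrictScalars k (scaleEquiv ht (toK K c))

lemma scale_apply (ht : IsTorus K t) (c : Fin r → kˣ) (z : L) :
    scale k ht c z = scaleEquiv ht (toK K c) z := rfl

lemma scale_mul (ht : IsTorus K t) (c c' : Fin r → kˣ) (z : L) :
    scale k ht (c * c') z = scale k ht c (scale k ht c' z) := by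
  rw [scale_apply, toK_mul, scaleEquiv_mul]
  rfl

lemma scale_one (ht : IsTorus K t) (z : L) : scale k ht 1 z = z := by
  rw [scale_apply, toK_one, scaleEquiv_one]
  rfl

lemma scale_algebraMap (ht : IsTorus K t) (c : Fin r → kˣ) (a : K) :
    scale k ht c (algebraMap K L a) = algebraMap K L a :=
  (scaleEquiv ht (toK K c)).commutes a

/-- The character. -/
def chi (c : Fin r → kˣ) (u : Fin r → ℤ) : kˣ := ∏ l, c l ^ u l

lemma scale_mono (ht : IsTorus K t) (c : Fin r → kˣ) (u : Fin r → ℤ) :
    scale k ht c (mono t u) = algebraMap k L (chi c u) * mono t u := by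
  rw [scale_apply, scaleEquiv_mono, IsScalarTower.algebraMap_apply k K L]
  congr 2
  unfold chi toK
  rw [Units.coe_prod, Units.coe_prod, map_prod]
  refine Finset.prod_congr rfl fun l _ => ?_
  rw [Units.val_zpow_eq_zpow_val, Units.val_zpow_eq_zpow_val, map_zpow₀]
  rfl

lemma scale_t (ht : IsTorus K t) (c : Fin r → kˣ) (i : Fin r) :
    scale k ht c (t i) = algebraMap k L (c i) * t i := by
  rw [scale_apply, scaleEquiv_t, IsScalarTower.algebraMap_apply k K L]
  rfl

lemma scale_term (ht : IsTorus K t) (c : Fin r → kˣ) (a : K) (u : Fin r → ℤ) :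
    scale k ht c (a • mono t u) = (algebraMap k K (chi c u) * a) • mono t u := by
  rw [Algebra.smul_def, map_mul, scale_algebraMap, scale_mono, Algebra.smul_def, map_mul,
    ← IsScalarTower.algebraMap_apply]
  ring

/-- The action of the torus on valuations. -/
@[reducible] noncomputable def torusAction (k : Type*) [Field k] [Algebra k K] [Algebra k L]
    [IsScalarTower k K L] (ht : IsTorus K t) : MulAction (Fin r → kˣ) (DVal k L) where
  smul c P := P.comap (scale k ht c)
  one_smul P := by
    apply DVal.ext
    intro a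
    change P (scale k ht 1 a) = P a
    rw [scale_one]
  mul_smul c c' P := by
    apply DVal.ext
    intro a
    change P (scale k ht (c * c') a) = P (scale k ht c' (scale k ht c a))
    rw [mul_comm c c', scale_mul]

/-- The valuation is invariant under the torus. -/
def IsInv (ht : IsTorus K t) (P : DVal k L) : Prop := ∀ c : Fin r → kˣ, P.comap (scale k ht c) = P

/-- A valuation with finite orbit is invariant. -/
lemma isInv_of_finite [IsAlgClosed k] (ht : IsTorus K t) (P : DVal k L)
    (hfin : (Set.range fun c : Fin r → kˣ => P.comap (scale k ht c)).Finite) : IsInv ht P := by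
  let _ := torusAction (K := K) k ht
  have horb : (MulAction.orbit (Fin r → kˣ) P).Finite := hfin
  have hidx := MulAction.index_stabilizer (Fin r → kˣ) P
  have hne : (MulAction.stabilizer (Fin r → kˣ) P).index ≠ 0 := by
    rw [hidx]
    exact ((Set.ncard_pos horb).2 (MulAction.nonempty_orbit P)).ne'
  intro c
  have hroot : ∃ c' : Fin r → kˣ, c' ^ (MulAction.stabilizer (Fin r → kˣ) P).index = c := by
    have h1 : ∀ i, ∃ d : kˣ, d ^ (MulAction.stabilizer (Fin r → kˣ) P).index = c i := by
      intro i
      obtain ⟨z, hz⟩ := IsAlgClosed.exists_pow_nat_eq (c i : k) (Nat.pos_of_ne_zero hne)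
      have hz0 : z ≠ 0 := by
        rintro rfl
        rw [zero_pow hne] at hz
        exact (c i).ne_zero hz.symm
      refine ⟨Units.mk0 z hz0, ?_⟩
      apply Units.ext
      simp [hz]
    choose d hd using h1
    exact ⟨d, funext hd⟩
  obtain ⟨c', rfl⟩ := hroot
  have h := Subgroup.pow_index_mem (MulAction.stabilizer (Fin r → kˣ) P) c'
  exact h

/-- An invariant valuation is monomial. -/
lemma IsInv.le_term [CharZero k] {ht : IsTorus K t} {P : DVal k L} (hP : IsInv ht P)
    (f : (Fin r → ℤ) →₀ K) (u : Fin r → ℤ) (hu : f u ≠ 0) :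
    P (ev K t f) ≤ P (f u • mono t u) := by
  classical
  -- a more general statement, by induction on the support
  have key : ∀ (n : ℕ) (f : (Fin r → ℤ) →₀ K), f.support.card ≤ n → ∀ m : ℚ, P.Ge m (ev K t f) →
      ∀ u, f u ≠ 0 → P.Ge m (f u • mono t u) := by
    intro n
    induction n with
    | zero =>
      intro f hf m _ u hu
      have : f.support = ∅ := Finset.card_eq_zero.1 (Nat.le_zero.1 hf)
      rw [Finsupp.support_eq_empty] at this
      rw [this] at hu
      exact absurd rfl hu
    | succ n ih =>
      intro f hf m hm u hu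
      by_cases hsing : f.support = {u}
      · have h1 : ev K t f = f u • mono t u := by
          rw [ev_apply, hsing, Finset.sum_singleton]
        rwa [h1] at hm
      obtain ⟨u', hu', hne⟩ : ∃ u', f u' ≠ 0 ∧ u' ≠ u := by
        by_contra hcon
        push Not at hcon
        apply hsing
        ext x
        rw [Finsupp.mem_support_iff, Finset.mem_singleton]
        exact ⟨fun h => hcon x h, fun h => h ▸ hu⟩
      -- an element of the torus separating the characters
      obtain ⟨l, hl⟩ : ∃ l, u' l ≠ u l := by
        by_contra hcon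
        push Not at hcon
        exact hne (funext hcon)
      set c : Fin r → kˣ := Pi.mulSingle l (Units.mk0 (2 : k) two_ne_zero) with hc
      have hchi : ∀ x : Fin r → ℤ, ((chi c x : kˣ) : k) = (2 : k) ^ x l := by
        intro x
        unfold chi
        rw [Finset.prod_eq_single l]
        · rw [hc, Pi.mulSingle_eq_same, Units.val_zpow_eq_zpow_val]
          rfl
        · intro j _ hj
          rw [hc, Pi.mulSingle_eq_of_ne hj, one_zpow]
        · simp
      have hchi' : ((chi c u : kˣ) : k) ≠ ((chi c u' : kˣ) : k) := by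
        rw [hchi, hchi]
        intro h
        have h2 : ((2 : ℚ) ^ u l : ℚ) = (2 : ℚ) ^ u' l := by
          have h3 : (((2 : ℚ) ^ u l : ℚ) : k) = (((2 : ℚ) ^ u' l : ℚ) : k) := by
            push_cast
            exact h
          exact_mod_cast h3
        have h4 := zpow_right_injective₀ (by norm_num : (0 : ℚ) < 2) (by norm_num) h2
        exact hl h4.symm
      -- the combination
      set g : (Fin r → ℤ) →₀ K := Finsupp.onFinset f.support
        (fun x => algebraMap k K ((chi c x : kˣ) - (chi c u' : kˣ) : k) * f x)
        (fun x hx => Finsupp.mem_support_iff.2 (right_ne_zero_of_mul hx)) with hg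
      have hgx : ∀ x, g x = algebraMap k K ((chi c x : kˣ) - (chi c u' : kˣ) : k) * f x :=
        fun x => rfl
      have hevg : ev K t g = scale k ht c (ev K t f) -
          algebraMap k L (chi c u' : kˣ) * ev K t f := by
        have h1 : ev K t g = ∑ x ∈ f.support, g x • mono t x := by
          rw [ev_apply]
          apply Finset.sum_subset Finsupp.support_onFinset_subset
          intro x _ hx
          rw [Finsupp.notMem_support_iff.1 hx, zero_smul]
        rw [h1, ev_apply, map_sum, Finset.mul_sum, ← Finset.sum_sub_distrib]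
        refine Finset.sum_congr rfl fun x _ => ?_
        rw [scale_term, hgx, map_sub, sub_mul, sub_smul]
        congr 1
        rw [Algebra.smul_def, Algebra.smul_def, map_mul, ← IsScalarTower.algebraMap_apply]
        ring
      have hgm : P.Ge m (ev K t g) := by
        rw [hevg]
        apply DVal.Ge.sub
        · have h1 : P (scale k ht c (ev K t f)) = P (ev K t f) := by
            conv_rhs => rw [← hP c]
            rfl
          rcases hm with hm | hm
          · left; rw [hm, map_zero]
          · right; rwa [h1]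
        · have h0 : P.Ge 0 (algebraMap k L (chi c u' : kˣ)) := by
            right; simp
          simpa using h0.mul hm
      have hgcard : g.support.card ≤ n := by
        have h1 : g.support ⊆ f.support.erase u' := by
          intro x hx
          rw [Finsupp.mem_support_iff, hgx] at hx
          rw [Finset.mem_erase, Finsupp.mem_support_iff]
          refine ⟨?_, right_ne_zero_of_mul hx⟩
          rintro rfl
          simp at hx
        have h2 := Finset.card_le_card h1
        rw [Finset.card_erase_of_mem (Finsupp.mem_support_iff.2 hu')] at h2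
        omega
      have hcu : ((chi c u : kˣ) : k) - (chi c u' : kˣ) ≠ 0 := sub_ne_zero.2 hchi'
      have hgu : g u ≠ 0 := by
        rw [hgx]
        exact mul_ne_zero ((map_ne_zero_iff _ (algebraMap k K).injective).2 hcu) hu
      have h1 := ih g hgcard m hgm u hgu
      have h2 : g u • mono t u = (((chi c u : kˣ) : k) - (chi c u' : kˣ)) • (f u • mono t u) := by
        rw [hgx, Algebra.smul_def (algebraMap k K _ * f u), Algebra.smul_def (f u),
          Algebra.smul_def (((chi c u : kˣ) : k) - (chi c u' : kˣ)), map_mul,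
          ← IsScalarTower.algebraMap_apply]
        ring
      rw [h2] at h1
      have h3 := h1.smul ((((chi c u : kˣ) : k) - (chi c u' : kˣ))⁻¹)
      rwa [smul_smul, inv_mul_cancel₀ hcu, one_smul] at h3
  have h1 := key f.support.card f le_rfl (P (ev K t f)) (DVal.ge_self _) u hu
  have h2 : f u • mono t u ≠ 0 := smul_ne_zero hu (ht.mono_ne u)
  rw [DVal.ge_iff h2] at h1
  exact_mod_cast h1

end action

end Pool.Agent.Helper92.Weak
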