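import Pool.Agent.Helper92.Weak.Torus4

set_option autoImplicit false

/-! The prime divisors of a variety with torus action, continued. -/

namespace Pool.Agent.Helper92.Weak

open MvPolynomial

section center

variable {k L : Type*} [Field k] [Field L] [Algebra k L]

/-- The centre of a valuation on a subring. -/
def posIdeal (v : DVal k L) (A : Subalgebra k L) (hA : A ≤ v.ring) : Ideal A where
  carrier := {a | v.Ge 1 (a : L)}
  zero_mem' := by
    change v.Ge 1 ((0 : A) : L)
    exact Or.inl rfl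
  add_mem' := fun {a b} ha hb => by
    change v.Ge 1 ((a + b : A) : L)
    push_cast
    exact DVal.Ge.add ha hb
  smul_mem' := fun a b hb => by
    change v.Ge 1 ((a • b : A) : L)
    rw [smul_eq_mul]
    push_cast
    have h1 : v.Ge 0 (a : L) := (v.mem_ring_iff_ge).1 (hA a.2)
    simpa using h1.mul hb

lemma mem_posIdeal {v : DVal k L} {A : Subalgebra k L} (hA : A ≤ v.ring) {a : A} :
    a ∈ posIdeal v A hA ↔ v.Ge 1 (a : L) := Iff.rfl

lemma notMem_posIdeal {v : DVal k L} {A : Subalgebra k L} (hA : A ≤ v.ring) {a : A} :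
    a ∉ posIdeal v A hA ↔ ((a : L) ≠ 0 ∧ v (a : L) = 0) := by
  rw [mem_posIdeal]
  unfold DVal.Ge
  push Not
  constructor
  · rintro ⟨h1, h2⟩
    have h3 : 0 ≤ v (a : L) := hA a.2
    refine ⟨h1, ?_⟩
    have h4 : v (a : L) < 1 := by exact_mod_cast h2
    omega
  · rintro ⟨h1, h2⟩
    exact ⟨h1, by rw [h2]; simp⟩

instance posIdeal_isPrime {v : DVal k L} {A : Subalgebra k L} (hA : A ≤ v.ring) :
    (posIdeal v A hA).IsPrime := by
  refine ⟨?_, ?_⟩
  · intro h
    have h1 : (1 : A) ∈ posIdeal v A hA := by rw [h]; trivial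
    rw [mem_posIdeal] at h1
    rcases h1 with h1 | h1
    · exact one_ne_zero h1
    · have : v ((1 : A) : L) = 0 := v.map_one
      rw [this] at h1
      norm_num at h1
  · intro a b hab
    by_contra hcon
    push Not at hcon
    rw [notMem_posIdeal, notMem_posIdeal] at hcon
    obtain ⟨⟨ha0, ha⟩, hb0, hb⟩ := hcon
    have hab' : a * b ∉ posIdeal v A hA := by
      rw [notMem_posIdeal]
      push_cast
      exact ⟨mul_ne_zero ha0 hb0, by rw [v.map_mul ha0 hb0, ha, hb, add_zero]⟩
    exact hab' hab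

lemma dominates_posIdeal {v : DVal k L} {A : Subalgebra k L} (hA : A ≤ v.ring) :
    Dominates (locAt A (posIdeal v A hA)) v.ring := by
  constructor
  · rintro z ⟨a, b, hb, h⟩
    rw [notMem_posIdeal] at hb
    by_cases hz : z = 0
    · rw [hz]; exact Subalgebra.zero_mem _
    have h1 : 0 ≤ v (a : L) := hA a.2
    rw [← h, v.map_mul hz hb.1, hb.2, add_zero] at h1
    exact h1
  · rintro z ⟨a, b, hb, h⟩ hz
    by_cases hz0 : z = 0
    · rw [hz0, inv_zero]; exact Subalgebra.zero_mem _
    have hb' := hb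
    rw [notMem_posIdeal] at hb
    have h1 : 0 ≤ v z⁻¹ := hz
    rw [v.map_inv] at h1
    have h2 : v (a : L) = v z := by rw [← h, v.map_mul hz0 hb.1, hb.2, add_zero]
    have h3 : 0 ≤ v (a : L) := hA a.2
    have ha : a ∉ posIdeal v A hA := by
      rw [notMem_posIdeal]
      refine ⟨?_, by omega⟩
      rw [← h]
      exact mul_ne_zero hz0 hb.1
    refine ⟨b, a, ha, ?_⟩
    rw [← h]
    field_simp

lemma Dominates.refl (R : Subalgebra k L) : Dominates R R := ⟨le_rfl, fun _ _ h => h⟩

lemma Dominates.inv_mem {R : Subalgebra k L} {v : DVal k L} (h : Dominates R v.ring) {x : L}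
    (hx : x ∈ R) (hv : v x = 0) : x⁻¹ ∈ R := by
  apply h.2 x hx
  rw [DVal.mem_ring, v.map_inv, hv, neg_zero]

end center

section divisors

variable {k K L : Type*} [Field k] [Field K] [Field L] [Algebra k K] [Algebra k L] [Algebra K L]
  [IsScalarTower k K L] {r : ℕ} {t : Fin r → L}

/-- The set of prime divisors is stable under the torus. -/
def Stable (X : ProjVar k L) (ht : IsTorus K t) : Prop :=
  ∀ (c : Fin r → kˣ), ∀ P ∈ X.primeDivisors, P.comap (scale k ht c) ∈ X.primeDivisors

omit [Algebra k K] [IsScalarTower k K L] in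
/-- Valuations of subalgebras containing `K` and the `t i`. -/
lemma aeval_mem {R : Subalgebra k L} (hK : ∀ a : K, algebraMap K L a ∈ R) (hR : ∀ i, t i ∈ R)
    (a : MvPolynomial (Fin r) K) : aeval t a ∈ R := by
  induction a using MvPolynomial.induction_on with
  | C a => rw [aeval_C]; exact hK a
  | add p q hp hq => rw [map_add]; exact R.add_mem hp hq
  | mul_X p i hp => rw [map_mul, aeval_X]; exact R.mul_mem hp (hR i)

lemma comap_t (ht : IsTorus K t) (P : DVal k L) (c : Fin r → kˣ) (i : Fin r) :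
    P (scale k ht c (t i)) = P (t i) := by
  rw [scale_t, P.map_mul _ (ht.ne_zero i), P.map_const, zero_add]
  simp

variable [IsAlgClosed k] {X : ProjVar k L} {ht : IsTorus K t}

lemma isInv_of_ne (hX : Stable X ht) {P : DVal k L} (hP : P ∈ X.primeDivisors) {f : L}
    (hf : ∀ c : Fin r → kˣ, P (scale k ht c f) = P f) (hPf : P f ≠ 0) : IsInv ht P := by
  apply isInv_of_finite
  apply (X.finite_support (P.ne_zero_of_pos hPf)).subset
  rintro _ ⟨c, rfl⟩
  refine ⟨hX c P hP, ?_⟩
  rw [DVal.comap_apply, hf]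
  exact hPf

lemma isInv_of_algebraMap (hX : Stable X ht) {P : DVal k L} (hP : P ∈ X.primeDivisors) {a : K}
    (ha : P (algebraMap K L a) ≠ 0) : IsInv ht P :=
  isInv_of_ne hX hP (fun c => by rw [scale_algebraMap]) ha

lemma isInv_of_t (hX : Stable X ht) {P : DVal k L} (hP : P ∈ X.primeDivisors) {i : Fin r}
    (hi : P (t i) ≠ 0) : IsInv ht P :=
  isInv_of_ne hX hP (fun c => comap_t ht P c i) hi

/-- Non-invariant prime divisors are given by prime polynomials. -/
theorem exists_polyVal (hX : Stable X ht) {P : DVal k L} (hP : P ∈ X.primeDivisors)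
    (hni : ¬ IsInv ht P) : ∃ (p : MvPolynomial (Fin r) K) (hp : Prime p),
      P = polyVal k ht p hp ∧ ∀ i, ¬ p ∣ MvPolynomial.X i := by
  classical
  have hPK : ∀ a : K, P (algebraMap K L a) = 0 := by
    intro a
    by_contra h
    exact hni (isInv_of_algebraMap hX hP h)
  have hPt : ∀ i, P (t i) = 0 := by
    intro i
    by_contra h
    exact hni (isInv_of_t hX hP h)
  have hinf : ¬ (Set.range fun c : Fin r → kˣ => P.comap (scale k ht c)).Finite := fun h =>
    hni (isInv_of_finite ht P h)
  -- the generators of the chart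
  choose a b hb hab using fun j => exists_aeval_div ht (X.x j / X.x 0)
  have hb' : ∀ j, aeval t (b j) ≠ 0 := fun j h => hb j (ht.indep (by rw [h, map_zero]))
  have hy : ∀ j, X.x j / X.x 0 ≠ 0 := fun j => div_ne_zero (X.x_ne j) (X.x_ne 0)
  have hE : ((⋃ j, {P' | P' ∈ X.primeDivisors ∧ P' (aeval t (b j)) ≠ 0}) ∪
      ⋃ j, {P' | P' ∈ X.primeDivisors ∧ P' (X.x j / X.x 0) ≠ 0}).Finite :=
    (Set.finite_iUnion fun j => X.finite_support (hb' j)).union
      (Set.finite_iUnion fun j => X.finite_support (hy j))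
  obtain ⟨c, hc⟩ : ∃ c : Fin r → kˣ, P.comap (scale k ht c) ∉
      ((⋃ j, {P' | P' ∈ X.primeDivisors ∧ P' (aeval t (b j)) ≠ 0}) ∪
      ⋃ j, {P' | P' ∈ X.primeDivisors ∧ P' (X.x j / X.x 0) ≠ 0}) := by
    by_contra hcon
    push Not at hcon
    apply hinf
    apply hE.subset
    rintro _ ⟨c, rfl⟩
    exact hcon c
  set P' := P.comap (scale k ht c) with hP'
  have hP'X : P' ∈ X.primeDivisors := hX c P hP
  simp only [Set.mem_union, Set.mem_iUnion, Set.mem_ofPred_eq, not_or, not_exists, not_and,
    not_not] at hc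
  have hPb : ∀ j, P' (aeval t (b j)) = 0 := fun j => hc.1 j hP'X
  have hPy : ∀ j, P' (X.x j / X.x 0) = 0 := fun j => hc.2 j hP'X
  have hP'K : ∀ a : K, P' (algebraMap K L a) = 0 := by
    intro a
    rw [hP', DVal.comap_apply, scale_algebraMap, hPK]
  have hP't : ∀ i, P' (t i) = 0 := by
    intro i
    rw [hP', DVal.comap_apply, comap_t, hPt]
  have hP'a : ∀ a : MvPolynomial (Fin r) K, 0 ≤ P' (aeval t a) := fun a =>
    aeval_mem (R := P'.ring) (fun a => by rw [DVal.mem_ring, hP'K])
      (fun i => by rw [DVal.mem_ring, hP't]) a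
  -- the ring of `P'` is a localisation of the chart
  have hchart : chart k X.x 0 ≤ P'.ring := by
    rw [ProjVar.chart_le_iff]
    intro j
    rw [DVal.mem_ring, hPy]
  have hR : locAt _ (posIdeal P' _ hchart) = P'.ring :=
    X.separated (X.locAt_mem 0 _) hP'X (dominates_posIdeal hchart) (Dominates.refl _)
  -- the prime factor
  obtain ⟨p, hp, hpp⟩ : ∃ p : MvPolynomial (Fin r) K, ∃ _ : Prime p, 0 < P' (aeval t p) := by
    have key : ∀ a : MvPolynomial (Fin r) K, P' (aeval t a) ≠ 0 →
        ∃ p : MvPolynomial (Fin r) K, ∃ _ : Prime p, 0 < P' (aeval t p) := by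
      intro a
      induction a using UniqueFactorizationMonoid.induction_on_prime with
      | h₁ => intro h; simp at h
      | h₂ x hx =>
        intro h
        exfalso
        obtain ⟨y, hy⟩ := isUnit_iff_exists_inv.1 hx
        have h1 := hP'a x
        have h2 := hP'a y
        have h3 : aeval t x * aeval t y = (1 : L) := by rw [← map_mul, hy, map_one]
        have h4 := P'.map_mul (left_ne_zero_of_mul_eq_one h3) (right_ne_zero_of_mul_eq_one h3)
        rw [h3, P'.map_one] at h4
        omega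
      | h₃ x p hx hp ih =>
        intro h
        by_cases h1 : P' (aeval t p) = 0
        · apply ih
          intro h2
          apply h
          rw [map_mul, P'.map_mul, h1, h2, add_zero]
          · exact fun h => hp.ne_zero (ht.indep (by rw [h, map_zero]))
          · exact fun h => hx (ht.indep (by rw [h, map_zero]))
        · refine ⟨p, hp, ?_⟩
          have := hP'a p
          omega
    obtain ⟨z, hz⟩ := P'.surj'
    change P' z = 1 at hz
    obtain ⟨u, w, hw, rfl⟩ := exists_aeval_div ht z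
    have hw' : aeval t w ≠ 0 := fun h => hw (ht.indep (by rw [h, map_zero]))
    have hu' : aeval t u ≠ 0 := by
      intro h
      rw [h] at hz
      simp at hz
    rw [P'.map_div hu' hw'] at hz
    by_cases h1 : P' (aeval t u) = 0
    · exact key w (by omega)
    · exact key u h1
  -- elements with good denominators
  let S : Subalgebra k L :=
    { carrier := {z | ∃ a b : MvPolynomial (Fin r) K, aeval t b ≠ 0 ∧ P' (aeval t b) = 0 ∧
        z = aeval t a / aeval t b}
      mul_mem' := by
        rintro _ _ ⟨a₁, b₁, h1, h2, rfl⟩ ⟨a₂, b₂, h3, h4, rfl⟩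
        refine ⟨a₁ * a₂, b₁ * b₂, ?_, ?_, ?_⟩
        · rw [map_mul]; exact mul_ne_zero h1 h3
        · rw [map_mul, P'.map_mul h1 h3, h2, h4, add_zero]
        · rw [map_mul, map_mul, div_mul_div_comm]
      add_mem' := by
        rintro _ _ ⟨a₁, b₁, h1, h2, rfl⟩ ⟨a₂, b₂, h3, h4, rfl⟩
        refine ⟨a₁ * b₂ + b₁ * a₂, b₁ * b₂, ?_, ?_, ?_⟩
        · rw [map_mul]; exact mul_ne_zero h1 h3
        · rw [map_mul, P'.map_mul h1 h3, h2, h4, add_zero]
        · rw [map_add, map_mul, map_mul, map_mul, div_add_div _ _ h1 h3]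
      algebraMap_mem' := fun c => by
        refine ⟨C (algebraMap k K c), 1, ?_, ?_, ?_⟩
        · rw [map_one]; exact one_ne_zero
        · rw [map_one, P'.map_one]
        · rw [map_one, div_one, aeval_C, ← IsScalarTower.algebraMap_apply] }
  have hchartS : chart k X.x 0 ≤ S := by
    rw [ProjVar.chart_le_iff]
    intro j
    exact ⟨a j, b j, hb' j, hPb j, hab j⟩
  have hSinv : ∀ s ∈ S, s ≠ 0 → P' s = 0 → s⁻¹ ∈ S := by
    rintro s ⟨a, b, h1, h2, rfl⟩ hs0 hs
    have ha : aeval t a ≠ 0 := by
      intro h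
      rw [h, zero_div] at hs0
      exact hs0 rfl
    refine ⟨b, a, ha, ?_, inv_div _ _⟩
    rw [P'.map_div ha h1, h2] at hs
    omega
  have hringS : P'.ring ≤ S := by
    rw [← hR]
    rintro z ⟨w, s, hs, hz⟩
    rw [notMem_posIdeal] at hs
    have h1 : z = w * (s : L)⁻¹ := by
      rw [← hz]
      have := hs.1
      field_simp
    rw [h1]
    exact S.mul_mem (hchartS w.2) (hSinv _ (hchartS s.2) hs.1 hs.2)
  have hSp : S ≤ (polyVal k ht p hp).ring := by
    rintro z ⟨a, b, h1, h2, rfl⟩
    rw [mem_polyVal_ring]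
    refine ⟨a, b, ?_, rfl⟩
    rintro ⟨d, rfl⟩
    rw [map_mul] at h1 h2
    rw [P'.map_mul (left_ne_zero_of_mul h1) (right_ne_zero_of_mul h1)] at h2
    have := hP'a d
    omega
  have hP'eq : P' = polyVal k ht p hp := DVal.eq_of_ring_le (hringS.trans hSp)
  -- back to `P`
  have hPeq : P = P'.comap (scale k ht c⁻¹) := by
    apply DVal.ext
    intro z
    rw [hP', DVal.comap_apply, DVal.comap_apply, ← scale_mul, mul_inv_cancel, scale_one]
  rw [hP'eq, polyVal_comap] at hPeq
  refine ⟨_, _, hPeq, fun i hi => ?_⟩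
  have h1 := (polyVal_pos_iff k ht (polyScale_prime (toK K c⁻¹)⁻¹ hp)
    (MvPolynomial.X_ne_zero i)).2 hi
  rw [aeval_X, ← hPeq, hPt] at h1
  exact lt_irrefl _ h1

end divisors

end Pool.Agent.Helper92.Weak
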